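import Pool.Agent.RFG43.Core

/-!
Crew file for `MP_b76cd5_al`: elimination of variables. A nonzero Laurent polynomial in `k + 3`
variables stays nonzero after a substitution `x_last = x_0 ^ a_1 x_1 ^ a_2` with small
`a_1, a_2`.
-/

set_option autoImplicit false

namespace Pool.Agent.RFG43

open Finset Filter

/-- The value of a Laurent polynomial at a point, any number of variables. -/
noncomputable def evg {α : Type} [Fintype α] {p : ℕ} (f : (α → ℤ) →₀ ℤ)
    (a : α → (ZMod p)ˣ) : ZMod p :=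
  f.sum fun x c => (c : ZMod p) * ((∏ j, a j ^ x j : (ZMod p)ˣ) : ZMod p)

/-- The substitution on exponents. -/
def sbs {k : ℕ} (a : ℕ × ℕ) (x : Fin (k + 3) → ℤ) : Fin (k + 2) → ℤ := fun j =>
  x j.castSucc + x (Fin.last _) * (if j = 0 then (a.1 : ℤ) else if j = 1 then (a.2 : ℤ) else 0)

theorem mapDomain_eq_sum {α β : Type} [DecidableEq β] (g : α → β) (f : α →₀ ℤ) (y : β) :
    Finsupp.mapDomain g f y = ∑ x ∈ f.support.filter (fun x => g x = y), f x := by
  classical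
  rw [Finsupp.mapDomain, Finsupp.sum_apply, Finsupp.sum, sum_filter]
  refine sum_congr rfl fun x _ => ?_
  rw [Finsupp.single_apply]

theorem l1_mapDomain {α β : Type} (g : α → β) (f : α →₀ ℤ) :
    ∑ y ∈ (Finsupp.mapDomain g f).support, |Finsupp.mapDomain g f y| ≤
      ∑ x ∈ f.support, |f x| := by
  classical
  calc ∑ y ∈ (Finsupp.mapDomain g f).support, |Finsupp.mapDomain g f y|
      ≤ ∑ y ∈ (Finsupp.mapDomain g f).support,
        ∑ x ∈ f.support.filter (fun x => g x = y), |f x| := by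
        refine sum_le_sum fun y _ => ?_
        rw [mapDomain_eq_sum]
        exact abs_sum_le_sum_abs _ _
    _ ≤ ∑ y ∈ f.support.image g, ∑ x ∈ f.support.filter (fun x => g x = y), |f x| :=
        sum_le_sum_of_subset_of_nonneg Finsupp.mapDomain_support
          fun _ _ _ => sum_nonneg fun _ _ => abs_nonneg _
    _ = ∑ x ∈ f.support, |f x| :=
        sum_fiberwise_of_maps_to (fun x hx => mem_image_of_mem g hx) _

/-- Two points in the lexicographically largest fibre. -/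
theorem fibre_two {k : ℕ} (f : (Fin (k + 3) → ℤ) →₀ ℤ) (S : Finset (Fin (k + 3) → ℤ))
    (hS : S.Nonempty) (hSf : ∀ x ∈ S, f x ≠ 0)
    (hSc : ∀ x ∈ S, ∀ y, f y ≠ 0 → (∀ j : Fin (k + 2), 2 ≤ j.val → x j.castSucc = y j.castSucc) →
      y ∈ S) (a : ℕ × ℕ) (h : Finsupp.mapDomain (sbs a) f = 0) :
    ∃ p ∈ S, ∃ q ∈ S, (∀ x ∈ S, toLex (sbs a x 0, sbs a x 1) ≤ toLex (sbs a p 0, sbs a p 1)) ∧
      (∀ x ∈ S, toLex (sbs a x 0, sbs a x 1) ≤ toLex (sbs a q 0, sbs a q 1)) ∧
      q 0 + (a.1 : ℤ) ≤ p 0 := by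
  classical
  obtain ⟨p, hp, hmax⟩ := exists_max_image S (fun x => toLex (sbs a x 0, sbs a x 1)) hS
  obtain ⟨q, hq, hqp, hne⟩ : ∃ q, f q ≠ 0 ∧ sbs a q = sbs a p ∧ q ≠ p := by
    by_contra hcon
    push Not at hcon
    have h1 := mapDomain_eq_sum (sbs a) f (sbs a p)
    rw [h, Finsupp.coe_zero, Pi.zero_apply] at h1
    have h2 : f.support.filter (fun x => sbs a x = sbs a p) = {p} := by
      ext x
      rw [mem_filter, mem_singleton, Finsupp.mem_support_iff]
      constructor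
      · rintro ⟨h3, h4⟩
        exact hcon x h3 h4
      · rintro rfl
        exact ⟨hSf _ hp, rfl⟩
    rw [h2, sum_singleton] at h1
    exact hSf p hp h1.symm
  have hj : ∀ j : Fin (k + 2), q j.castSucc + q (Fin.last _) *
      (if j = 0 then (a.1 : ℤ) else if j = 1 then (a.2 : ℤ) else 0) =
      p j.castSucc + p (Fin.last _) *
      (if j = 0 then (a.1 : ℤ) else if j = 1 then (a.2 : ℤ) else 0) := fun j => congrFun hqp j
  have hj0 := hj 0
  rw [if_pos rfl] at hj0
  have hother : ∀ j : Fin (k + 2), 2 ≤ j.val → p j.castSucc = q j.castSucc := by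
    intro j h2
    have h3 := hj j
    rw [if_neg (by rintro rfl; simp at h2), if_neg (by rintro rfl; simp at h2)] at h3
    linarith
  have hqS : q ∈ S := hSc p hp q hq hother
  have hmax' : ∀ x ∈ S, toLex (sbs a x 0, sbs a x 1) ≤ toLex (sbs a q 0, sbs a q 1) := by
    intro x hx
    rw [hqp]
    exact hmax x hx
  have hl : q (Fin.last _) ≠ p (Fin.last _) := by
    intro h5
    apply hne
    funext i
    refine Fin.lastCases h5 (fun j => ?_) i
    have := hj j
    rw [h5] at this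
    linarith
  have h00 : (Fin.castSucc (0 : Fin (k + 2))) = 0 := rfl
  rw [h00] at hj0
  have ha : (0 : ℤ) ≤ a.1 := by positivity
  rcases lt_or_gt_of_ne hl with h6 | h6
  · refine ⟨q, hqS, p, hp, hmax', hmax, ?_⟩
    nlinarith
  · refine ⟨p, hp, q, hqS, hmax, hmax', ?_⟩
    nlinarith

theorem fibres_ordered {k : ℕ} (a a' : ℕ × ℕ) (x x' : Fin (k + 3) → ℤ)
    (h1 : toLex (sbs a x' 0, sbs a x' 1) ≤ toLex (sbs a x 0, sbs a x 1))
    (h2 : toLex (sbs a' x 0, sbs a' x 1) ≤ toLex (sbs a' x' 0, sbs a' x' 1))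
    (haa : a.1 < a'.1 ∨ (a.1 = a'.1 ∧ a.2 < a'.2)) : x' 0 ≤ x 0 := by
  have h00 : (Fin.castSucc (0 : Fin (k + 2))) = 0 := rfl
  have h10 : (1 : Fin (k + 2)) ≠ 0 := by
    intro h
    have := congrArg Fin.val h
    simp at this
  simp only [sbs, if_true, if_neg h10, h00, Prod.Lex.toLex_le_toLex] at h1 h2
  have ha1 : (0 : ℤ) ≤ a.1 := by positivity
  set l := x (Fin.last _)
  set l' := x' (Fin.last _)
  set u := x (Fin.castSucc 1)
  set u' := x' (Fin.castSucc 1)
  have hl : l ≤ l' := by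
    by_contra hcon
    push Not at hcon
    rcases haa with h3 | ⟨h3, h4⟩
    · have h3' : (a.1 : ℤ) < a'.1 := by exact_mod_cast h3
      have e1 : x' 0 + l' * a.1 ≤ x 0 + l * a.1 := by
        rcases h1 with h | ⟨h, _⟩ <;> linarith
      have e2 : x 0 + l * a'.1 ≤ x' 0 + l' * a'.1 := by
        rcases h2 with h | ⟨h, _⟩ <;> linarith
      nlinarith
    · have h3' : (a.1 : ℤ) = a'.1 := by exact_mod_cast h3
      have h4' : (a.2 : ℤ) < a'.2 := by exact_mod_cast h4
      rw [← h3'] at h2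
      rcases h1 with h | ⟨h, h5⟩
      · rcases h2 with h6 | ⟨h6, h7⟩ <;> linarith
      · rcases h2 with h6 | ⟨h6, h7⟩
        · linarith
        · nlinarith
  have e1 : x' 0 + l' * a.1 ≤ x 0 + l * a.1 := by
    rcases h1 with h | ⟨h, _⟩ <;> linarith
  nlinarith

theorem elim {k : ℕ} (f : (Fin (k + 3) → ℤ) →₀ ℤ) (hf : f ≠ 0) (A B : ℕ)
    (hB : ∀ x ∈ f.support, ∀ y ∈ f.support, |x 0 - y 0| ≤ B) (hA : 2 * B < A ^ 3) :
    ∃ a : ℕ × ℕ, a.1 ≤ A ∧ a.2 ≤ A ∧ Finsupp.mapDomain (sbs a) f ≠ 0 := by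
  classical
  by_contra hcon
  push Not at hcon
  set I : Finset (ℕ × ℕ) := Finset.Icc 1 A ×ˢ Finset.Icc 1 A with hI
  have hI' : ∀ a ∈ I, Finsupp.mapDomain (sbs a) f = 0 := by
    intro a ha
    rw [hI, mem_product, Finset.mem_Icc, Finset.mem_Icc] at ha
    exact hcon a ha.1.2 ha.2.2
  obtain ⟨x0, hx0⟩ := Finsupp.support_nonempty_iff.2 hf
  set S := f.support.filter (fun y => ∀ j : Fin (k + 2), 2 ≤ j.val →
    x0 j.castSucc = y j.castSucc) with hS
  have hSne : S.Nonempty := ⟨x0, by rw [hS, mem_filter]; exact ⟨hx0, fun _ _ => rfl⟩⟩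
  have hSf : ∀ x ∈ S, f x ≠ 0 := by
    intro x hx
    rw [hS, mem_filter, Finsupp.mem_support_iff] at hx
    exact hx.1
  have hSc : ∀ x ∈ S, ∀ y, f y ≠ 0 →
      (∀ j : Fin (k + 2), 2 ≤ j.val → x j.castSucc = y j.castSucc) → y ∈ S := by
    intro x hx y hy h
    rw [hS, mem_filter, Finsupp.mem_support_iff] at hx ⊢
    exact ⟨hy, fun j hj => (hx.2 j hj).trans (h j hj)⟩
  have hpt := fun a (ha : a ∈ I) => fibre_two f S hSne hSf hSc a (hI' a ha)
  choose! p hp q hq hpm hqm hpq using hpt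
  obtain ⟨lo, hlo, hlo'⟩ := exists_min_image S (fun x => x 0) hSne
  obtain ⟨hi, hhi, hhi'⟩ := exists_max_image S (fun x => x 0) hSne
  have hdisj : ∀ a ∈ I, ∀ b ∈ I, a ≠ b →
      Disjoint (Finset.Ico (q a 0) (p a 0)) (Finset.Ico (q b 0) (p b 0)) := by
    have key : ∀ a ∈ I, ∀ b ∈ I, (a.1 < b.1 ∨ (a.1 = b.1 ∧ a.2 < b.2)) →
        Disjoint (Finset.Ico (q a 0) (p a 0)) (Finset.Ico (q b 0) (p b 0)) := by
      intro a ha b hb hab
      have h1 := fibres_ordered a b (q a) (p b) (hqm a ha (p b) (hp b hb))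
        (hpm b hb (q a) (hq a ha)) hab
      rw [Finset.disjoint_left]
      intro z hz hz'
      rw [Finset.mem_Ico] at hz hz'
      omega
    intro a ha b hb hab
    have h1 : a.1 ≠ b.1 ∨ a.2 ≠ b.2 := by
      by_contra hcon
      push Not at hcon
      exact hab (Prod.ext hcon.1 hcon.2)
    rcases Nat.lt_trichotomy a.1 b.1 with h2 | h2 | h2
    · exact key a ha b hb (Or.inl h2)
    · rcases Nat.lt_trichotomy a.2 b.2 with h3 | h3 | h3
      · exact key a ha b hb (Or.inr ⟨h2, h3⟩)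
      · exact absurd (Prod.ext h2 h3) hab
      · exact (key b hb a ha (Or.inr ⟨h2.symm, h3⟩)).symm
    · exact (key b hb a ha (Or.inl h2)).symm
  have hcard := card_biUnion (s := I) (t := fun a => Finset.Ico (q a 0) (p a 0)) hdisj
  have hsub : I.biUnion (fun a => Finset.Ico (q a 0) (p a 0)) ⊆
      Finset.Ico (lo 0) (hi 0) := by
    intro z hz
    rw [mem_biUnion] at hz
    obtain ⟨a, ha, hz⟩ := hz
    rw [Finset.mem_Ico] at hz ⊢
    have h1 := hlo' (q a) (hq a ha)
    have h2 := hhi' (p a) (hp a ha)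
    omega
  have h1 := card_le_card hsub
  rw [hcard, Int.card_Ico] at h1
  have h2 : ∑ a ∈ I, a.1 ≤ ∑ a ∈ I, (Finset.Ico (q a 0) (p a 0)).card := by
    refine sum_le_sum fun a ha => ?_
    rw [Int.card_Ico]
    have := hpq a ha
    omega
  have h3 : hi 0 - lo 0 ≤ B := by
    have hh := (Finset.mem_filter.1 hhi).1
    have hl := (Finset.mem_filter.1 hlo).1
    exact (abs_le.1 (hB hi hh lo hl)).2
  have h4 : A ^ 3 ≤ 2 * ∑ a ∈ I, a.1 := by
    have e1 : ∑ a ∈ I, a.1 = A * ∑ i ∈ Finset.Icc 1 A, i := by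
      rw [hI, sum_product]
      simp only [sum_const, smul_eq_mul, Nat.card_Icc, Nat.add_sub_cancel]
      rw [mul_sum]
    have e2 : A ^ 2 ≤ 2 * ∑ i ∈ Finset.Icc 1 A, i := by
      clear * -
      induction A with
      | zero => simp
      | succ n ih =>
        rw [Finset.sum_Icc_succ_top (by omega)]
        have e3 : (n + 1) ^ 2 = n ^ 2 + 2 * n + 1 := by ring
        rw [e3]
        omega
    rw [e1]
    calc A ^ 3 = A * A ^ 2 := by ring
      _ ≤ A * (2 * ∑ i ∈ Finset.Icc 1 A, i) := Nat.mul_le_mul_left _ e2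
      _ = _ := by ring
  omega

theorem evg_mapDomain {k : ℕ} (f : (Fin (k + 3) → ℤ) →₀ ℤ) (a : ℕ × ℕ) {p : ℕ}
    (t : Fin (k + 2) → (ZMod p)ˣ) : evg (Finsupp.mapDomain (sbs a) f) t =
      evg f (Fin.snoc (α := fun _ => (ZMod p)ˣ) t (t 0 ^ a.1 * t 1 ^ a.2)) := by
  classical
  have h10 : (1 : Fin (k + 2)) ≠ 0 := by
    intro h
    have := congrArg Fin.val h
    simp at this
  rw [evg, Finsupp.sum_mapDomain_index (by simp) (by intros; push_cast; ring), evg]
  refine Finsupp.sum_congr fun x _ => ?_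
  congr 2
  rw [Fin.prod_univ_castSucc (n := k + 2)]
  simp only [Fin.snoc_castSucc, Fin.snoc_last]
  have h1 : ∀ j : Fin (k + 2), t j ^ sbs a x j = t j ^ x j.castSucc *
      ((if j = 0 then t 0 ^ (x (Fin.last _) * (a.1 : ℤ)) else 1) *
        (if j = 1 then t 1 ^ (x (Fin.last _) * (a.2 : ℤ)) else 1)) := by
    intro j
    rw [sbs, zpow_add]
    congr 1
    by_cases h0 : j = 0
    · subst h0
      simp [h10.symm]
    · by_cases h1 : j = 1
      · subst h1
        simp [h10]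
      · simp [h0, h1]
  simp_rw [h1, prod_mul_distrib]
  rw [Finset.prod_ite_eq' univ (0 : Fin (k + 2)), Finset.prod_ite_eq' univ (1 : Fin (k + 2)),
    if_pos (mem_univ _), if_pos (mem_univ _), mul_zpow]
  congr 2
  · rw [← zpow_natCast, ← zpow_mul, mul_comm (x (Fin.last _))]
  · rw [← zpow_natCast, ← zpow_mul, mul_comm (x (Fin.last _))]

end Pool.Agent.RFG43
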