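import Pool.Agent.Leh2.Primes

/-!
Crew file for `MP_b76cd5_al`, part C: a finite subset of the plane whose faces in many primitive
directions all have at least two points is large.
-/

set_option autoImplicit false

namespace Pool.Agent.RFG43

open Finset

/-- The directions `(i, j)`: `1 ≤ i ≤ R`, `0 ≤ j < i`, coprime. -/
def dirs (R : ℕ) : Finset (Σ _ : ℕ, ℕ) :=
  (Finset.Icc 1 R).sigma fun i => (range i).filter fun j => i.Coprime j

theorem mem_dirs {R : ℕ} {u : Σ _ : ℕ, ℕ} :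
    u ∈ dirs R ↔ 1 ≤ u.1 ∧ u.1 ≤ R ∧ u.2 < u.1 ∧ u.1.Coprime u.2 := by
  simp [dirs, and_assoc]

theorem sum_dirs (R : ℕ) : ∑ u ∈ dirs R, u.1 = ∑ i ∈ Finset.Icc 1 R, i * i.totient := by
  rw [dirs, sum_sigma]
  refine sum_congr rfl fun i _ => ?_
  rw [sum_const, smul_eq_mul, Nat.totient_eq_card_coprime, mul_comm]

/-- The level of a point. -/
def lev (u : Σ _ : ℕ, ℕ) (x : Fin 2 → ℤ) : ℤ := (u.1 : ℤ) * x 0 + (u.2 : ℤ) * x 1

theorem face_two (S : Finset (Fin 2 → ℤ)) (hS : S.Nonempty) (c : (Fin 2 → ℤ) → ℤ)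
    (hc : ∀ x ∈ S, c x ≠ 0) (R : ℕ) (u : Σ _ : ℕ, ℕ) (hu : u ∈ dirs R)
    (h : ∀ k0 : ℤ, ∑ x ∈ S.filter (fun x => lev u x = k0), c x = 0) :
    ∃ p ∈ S, ∃ q ∈ S, (∀ x ∈ S, lev u x ≤ lev u p) ∧ (∀ x ∈ S, lev u x ≤ lev u q) ∧
      p 1 + (u.1 : ℤ) ≤ q 1 := by
  classical
  rw [mem_dirs] at hu
  obtain ⟨p, hp, hmax⟩ := exists_max_image S (lev u) hS
  obtain ⟨q, hq, hqp, hne⟩ : ∃ q ∈ S, lev u q = lev u p ∧ q ≠ p := by
    by_contra hcon
    push Not at hcon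
    have h1 := h (lev u p)
    have h2 : S.filter (fun x => lev u x = lev u p) = {p} := by
      ext x
      rw [mem_filter, mem_singleton]
      constructor
      · rintro ⟨h3, h4⟩
        exact hcon x h3 h4
      · rintro rfl
        exact ⟨hp, rfl⟩
    rw [h2, sum_singleton] at h1
    exact hc p hp h1
  have hi : (0 : ℤ) < u.1 := by exact_mod_cast hu.1
  have h1 : (u.1 : ℤ) * (q 0 - p 0) = u.2 * (p 1 - q 1) := by
    have := hqp
    unfold lev at this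
    linarith
  have h2 : (u.1 : ℤ) ∣ p 1 - q 1 := by
    have h3 : (u.1 : ℤ) ∣ u.2 * (p 1 - q 1) := ⟨q 0 - p 0, h1.symm⟩
    have h4 : IsCoprime (u.1 : ℤ) (u.2 : ℤ) := Nat.isCoprime_iff_coprime.2 hu.2.2.2
    exact h4.dvd_of_dvd_mul_left h3
  have h3 : p 1 - q 1 ≠ 0 := by
    intro h4
    rw [h4, mul_zero] at h1
    have h5 := (mul_eq_zero.1 h1).resolve_left hi.ne'
    apply hne
    funext t
    fin_cases t
    · simp only [Fin.zero_eta]
      linarith
    · simp only [Fin.mk_one]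
      linarith
  rcases lt_or_gt_of_ne h3 with h4 | h4
  · refine ⟨p, hp, q, hq, hmax, fun x hx => (hmax x hx).trans hqp.ge, ?_⟩
    have h5 := Int.le_of_dvd (by linarith : 0 < -(p 1 - q 1)) ((dvd_neg).2 h2)
    linarith
  · refine ⟨q, hq, p, hp, fun x hx => (hmax x hx).trans hqp.ge, hmax, ?_⟩
    have h5 := Int.le_of_dvd h4 h2
    linarith

theorem faces_ordered (S : Finset (Fin 2 → ℤ)) (R : ℕ) (u v : Σ _ : ℕ, ℕ) (hu : u ∈ dirs R)
    (hv : v ∈ dirs R) (x y : Fin 2 → ℤ) (hx : x ∈ S) (hy : y ∈ S)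
    (hxu : ∀ z ∈ S, lev u z ≤ lev u x) (hyv : ∀ z ∈ S, lev v z ≤ lev v y)
    (huv : u.2 * v.1 < u.1 * v.2) : x 1 ≤ y 1 := by
  rw [mem_dirs] at hu hv
  have h1 := hxu y hy
  have h2 := hyv x hx
  unfold lev at h1 h2
  have hi : (0 : ℤ) < u.1 := by exact_mod_cast hu.1
  have hi' : (0 : ℤ) < v.1 := by exact_mod_cast hv.1
  have h3 : (u.2 : ℤ) * v.1 < u.1 * v.2 := by exact_mod_cast huv
  have h4 := mul_le_mul_of_nonneg_left h1 hi'.le
  have h5 := mul_le_mul_of_nonneg_left h2 hi.le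
  by_contra hcon
  push Not at hcon
  have h6 : 0 < ((u.1 : ℤ) * v.2 - u.2 * v.1) * (x 1 - y 1) :=
    mul_pos (by linarith) (by linarith)
  nlinarith

theorem geo (S : Finset (Fin 2 → ℤ)) (hS : S.Nonempty) (c : (Fin 2 → ℤ) → ℤ)
    (hc : ∀ x ∈ S, c x ≠ 0) (R D : ℕ)
    (h : ∀ u ∈ dirs R, ∀ k0 : ℤ, ∑ x ∈ S.filter (fun x => lev u x = k0), c x = 0)
    (hD : ∀ x ∈ S, ∀ y ∈ S, x 1 - y 1 ≤ D) :
    ∑ i ∈ Finset.Icc 1 R, i * i.totient ≤ D := by
  classical
  have hpt := fun u (hu : u ∈ dirs R) => face_two S hS c hc R u hu (h u hu)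
  choose! p hp q hq hpm hqm hpq using hpt
  obtain ⟨lo, hlo, hlo'⟩ := exists_min_image S (fun x => x 1) hS
  obtain ⟨hi, hhi, hhi'⟩ := exists_max_image S (fun x => x 1) hS
  have hdisj : ∀ u ∈ dirs R, ∀ v ∈ dirs R, u ≠ v →
      Disjoint (Finset.Ico (p u 1) (q u 1)) (Finset.Ico (p v 1) (q v 1)) := by
    intro u hu v hv huv
    have hne : u.2 * v.1 ≠ u.1 * v.2 := by
      intro h1
      apply huv
      have hu' := mem_dirs.1 hu
      have hv' := mem_dirs.1 hv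
      have h2 : u.1 ∣ v.1 := by
        have : u.1 ∣ u.2 * v.1 := ⟨v.2, h1⟩
        exact hu'.2.2.2.dvd_of_dvd_mul_left this
      have h3 : v.1 ∣ u.1 := by
        have : v.1 ∣ v.2 * u.1 := ⟨u.2, by rw [mul_comm v.2, ← h1, mul_comm]⟩
        exact hv'.2.2.2.dvd_of_dvd_mul_left this
      have h4 := Nat.dvd_antisymm h2 h3
      have h5 : u.2 = v.2 := by
        rw [h4, mul_comm] at h1
        exact Nat.eq_of_mul_eq_mul_left (by omega) h1
      rcases u with ⟨u1, u2⟩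
      rcases v with ⟨v1, v2⟩
      simp only at h4 h5
      rw [h4, h5]
    rw [Finset.disjoint_left]
    intro z hz hz'
    rw [Finset.mem_Ico] at hz hz'
    rcases lt_or_gt_of_ne hne with h1 | h1
    · have := faces_ordered S R u v hu hv (q u) (p v) (hq u hu) (hp v hv) (hqm u hu)
        (hpm v hv) h1
      omega
    · have := faces_ordered S R v u hv hu (q v) (p u) (hq v hv) (hp u hu) (hqm v hv)
        (hpm u hu) (by rw [mul_comm v.2, mul_comm v.1]; exact h1)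
      omega
  have hcard := card_biUnion (s := dirs R) (t := fun u => Finset.Ico (p u 1) (q u 1)) hdisj
  have hsub : (dirs R).biUnion (fun u => Finset.Ico (p u 1) (q u 1)) ⊆
      Finset.Ico (lo 1) (hi 1) := by
    intro z hz
    rw [mem_biUnion] at hz
    obtain ⟨u, hu, hz⟩ := hz
    rw [Finset.mem_Ico] at hz ⊢
    have h1 := hlo' (p u) (hp u hu)
    have h2 := hhi' (q u) (hq u hu)
    omega
  have h1 := card_le_card hsub
  rw [hcard, Int.card_Ico] at h1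
  have h2 : ∑ u ∈ dirs R, u.1 ≤ ∑ u ∈ dirs R, (Finset.Ico (p u 1) (q u 1)).card := by
    refine sum_le_sum fun u hu => ?_
    rw [Int.card_Ico]
    have := hpq u hu
    omega
  have h3 := hD hi hhi lo hlo
  rw [← sum_dirs]
  omega

theorem sum_lower (R : ℕ) : R ^ 3 ≤ 3 * ((Nat.log 2 R + 1) *
    ∑ i ∈ Finset.Icc 1 R, i * i.totient) := by
  have h1 : R ^ 3 ≤ 3 * ∑ i ∈ Finset.Icc 1 R, i ^ 2 := by
    induction R with
    | zero => simp
    | succ n ih =>
      rw [Finset.sum_Icc_succ_top (by omega)]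
      have e1 : (n + 1) ^ 3 = n ^ 3 + 3 * n ^ 2 + 3 * n + 1 := by ring
      have e2 : (n + 1) ^ 2 = n ^ 2 + 2 * n + 1 := by ring
      rw [e1, e2]
      omega
  refine h1.trans ?_
  refine Nat.mul_le_mul_left _ ?_
  rw [mul_sum]
  refine sum_le_sum fun i hi => ?_
  rw [Finset.mem_Icc] at hi
  have h2 := Pool.Agent.Leh2.le_totient_mul i (by omega)
  have h3 : Nat.log 2 i ≤ Nat.log 2 R := Nat.log_mono_right hi.2
  calc i ^ 2 = i * i := sq i
    _ ≤ i * (i.totient * (Nat.log 2 i + 1)) := Nat.mul_le_mul_left _ h2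
    _ ≤ i * (i.totient * (Nat.log 2 R + 1)) := by gcongr
    _ = _ := by ring

end Pool.Agent.RFG43
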