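import Mathlib

/-!
Crew file for `MP_b76cd5_al`, part B: Laurent polynomials in one variable that vanish modulo
several primes.
-/

set_option autoImplicit false

namespace Pool.Agent.RFG43

open Finset

variable {ι : Type}

theorem exists_orderOf (p m : ℕ) [hp : Fact p.Prime] (hm : 0 < m) (hmp : m ∣ p - 1) :
    ∃ t : (ZMod p)ˣ, orderOf t = m := by
  obtain ⟨g, hg⟩ := IsCyclic.exists_generator (α := (ZMod p)ˣ)
  have h1 : orderOf g = p - 1 := by
    rw [orderOf_eq_card_of_forall_mem_zpowers hg, Nat.card_eq_fintype_card,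
      ZMod.card_units]
  have hp2 := hp.out.two_le
  obtain ⟨c, hc⟩ := hmp
  have hc0 : c ≠ 0 := by
    rintro rfl
    omega
  refine ⟨g ^ c, ?_⟩
  rw [orderOf_pow_of_dvd hc0 (by rw [h1, hc]; exact Dvd.intro_left m rfl), h1, hc,
    Nat.mul_div_cancel _ (Nat.pos_of_ne_zero hc0)]

theorem geom_units (p m : ℕ) [hp : Fact p.Prime] (t : (ZMod p)ˣ) (ht : orderOf t = m) (z : ℤ) :
    ∑ s ∈ range m, (((t ^ z) ^ s : (ZMod p)ˣ) : ZMod p) = if (m : ℤ) ∣ z then (m : ZMod p) else 0 := by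
  split_ifs with h
  · have h1 : t ^ z = 1 := by
      rw [← orderOf_dvd_iff_zpow_eq_one, ht]
      exact h
    simp [h1]
  · have h1 : t ^ z ≠ 1 := by
      intro h2
      rw [← orderOf_dvd_iff_zpow_eq_one, ht] at h2
      exact h h2
    have h2 : (((t ^ z : (ZMod p)ˣ) : ZMod p)) ≠ 1 := by
      intro h3
      exact h1 (Units.ext h3)
    have h3 : ((t ^ z : (ZMod p)ˣ) : ZMod p) ^ m = 1 := by
      rw [← Units.val_pow_eq_pow_val, ← zpow_natCast, ← zpow_mul, mul_comm, zpow_mul,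
        zpow_natCast, ← ht, pow_orderOf_eq_one, one_zpow, Units.val_one]
    have h4 := geom_sum_eq h2 m
    simp only [Units.val_pow_eq_pow_val]
    rw [h4, h3, sub_self, zero_div]

theorem fold_dvd (S : Finset ι) (c k : ι → ℤ) (p m : ℕ) [hp : Fact p.Prime] (hm : 0 < m)
    (hmp : m ∣ p - 1)
    (h : ∀ t : (ZMod p)ˣ, ∑ x ∈ S, (c x : ZMod p) * ((t ^ k x : (ZMod p)ˣ) : ZMod p) = 0)
    (j : ℤ) : (p : ℤ) ∣ ∑ x ∈ S.filter (fun x => (m : ℤ) ∣ k x - j), c x := by
  classical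
  obtain ⟨t, ht⟩ := exists_orderOf p m hm hmp
  have h1 : ∑ s ∈ range m, ((t ^ (-(s * j) : ℤ) : (ZMod p)ˣ) : ZMod p) *
      ∑ x ∈ S, (c x : ZMod p) * (((t ^ s) ^ k x : (ZMod p)ˣ) : ZMod p) = 0 :=
    sum_eq_zero fun s _ => by rw [h, mul_zero]
  have h2 : ∑ s ∈ range m, ((t ^ (-(s * j) : ℤ) : (ZMod p)ˣ) : ZMod p) *
      ∑ x ∈ S, (c x : ZMod p) * (((t ^ s) ^ k x : (ZMod p)ˣ) : ZMod p) =
      ∑ x ∈ S, (c x : ZMod p) * ∑ s ∈ range m, (((t ^ (k x - j)) ^ s : (ZMod p)ˣ) : ZMod p) := by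
    simp_rw [mul_sum]
    rw [sum_comm]
    refine sum_congr rfl fun x _ => sum_congr rfl fun s _ => ?_
    have h3 : (t ^ (k x - j)) ^ s = t ^ (-(s * j) : ℤ) * (t ^ s) ^ k x := by
      rw [← zpow_natCast, ← zpow_natCast, ← zpow_mul, ← zpow_mul, ← zpow_add]
      congr 1
      ring
    rw [h3, Units.val_mul]
    ring
  rw [h2] at h1
  simp_rw [geom_units p m t ht] at h1
  have h3 : (m : ZMod p) * ((∑ x ∈ S.filter (fun x => (m : ℤ) ∣ k x - j), c x : ℤ) : ZMod p) =
      0 := by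
    rw [← h1, Int.cast_sum, sum_filter, mul_sum]
    refine sum_congr rfl fun x _ => ?_
    split_ifs
    · ring
    · simp
  have h4 : (m : ZMod p) ≠ 0 := by
    intro h5
    rw [ZMod.natCast_eq_zero_iff] at h5
    have h6 := Nat.le_of_dvd hm h5
    have h7 := Nat.le_of_dvd (by have := hp.out.two_le; omega) hmp
    have := hp.out.two_le
    omega
  have h5 := (mul_eq_zero.1 h3).resolve_left h4
  rwa [ZMod.intCast_zmod_eq_zero_iff_dvd] at h5

theorem fold_zero (S : Finset ι) (c k : ι → ℤ) (m : ℕ) (hm : 0 < m) (Q : Finset ℕ)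
    (hQ : ∀ p ∈ Q, p.Prime ∧ m ∣ p - 1)
    (hprod : ∑ x ∈ S, |c x| < ∏ p ∈ Q, (p : ℤ))
    (h : ∀ p ∈ Q, ∀ _ : Fact p.Prime, ∀ t : (ZMod p)ˣ,
      ∑ x ∈ S, (c x : ZMod p) * ((t ^ k x : (ZMod p)ˣ) : ZMod p) = 0)
    (j : ℤ) : ∑ x ∈ S.filter (fun x => (m : ℤ) ∣ k x - j), c x = 0 := by
  classical
  set F := ∑ x ∈ S.filter (fun x => (m : ℤ) ∣ k x - j), c x with hF
  have h1 : ∏ p ∈ Q, (p : ℤ) ∣ F := by
    have h2 : ∏ p ∈ Q, p ∣ F.natAbs := by
      apply Finset.prod_primes_dvd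
      · intro p hp
        exact (hQ p hp).1.prime
      · intro p hp
        have : Fact p.Prime := ⟨(hQ p hp).1⟩
        have h3 := fold_dvd S c k p m hm (hQ p hp).2 (h p hp this) j
        exact Int.natCast_dvd.1 h3
    have h3 : ((∏ p ∈ Q, p : ℕ) : ℤ) ∣ F := Int.natCast_dvd.2 h2
    rwa [Nat.cast_prod] at h3
  by_contra hne
  have h2 := Int.le_of_dvd (abs_pos.2 hne) ((dvd_abs _ _).2 h1)
  have h3 : |F| ≤ ∑ x ∈ S, |c x| := by
    calc |F| ≤ ∑ x ∈ S.filter (fun x => (m : ℤ) ∣ k x - j), |c x| := abs_sum_le_sum_abs _ _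
      _ ≤ ∑ x ∈ S, |c x| := sum_le_sum_of_subset_of_nonneg (filter_subset _ _)
          fun _ _ _ => abs_nonneg _
  linarith

theorem root_zero (S : Finset ι) (c k : ι → ℤ) (m : ℕ) (hm : 0 < m)
    (h : ∀ j : ℤ, ∑ x ∈ S.filter (fun x => (m : ℤ) ∣ k x - j), c x = 0)
    (z : ℂ) (hz : z ^ m = 1) : ∑ x ∈ S, (c x : ℂ) * z ^ k x = 0 := by
  classical
  have hm0 : (m : ℤ) ≠ 0 := by exact_mod_cast hm.ne'
  have hz0 : z ≠ 0 := by
    rintro rfl
    rw [zero_pow hm.ne'] at hz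
    exact zero_ne_one hz
  have h1 : ∀ x ∈ S, k x % m ∈ (Finset.Ico (0 : ℤ) m) := by
    intro x _
    rw [Finset.mem_Ico]
    exact ⟨Int.emod_nonneg _ hm0, Int.emod_lt_of_pos _ (by exact_mod_cast hm)⟩
  rw [← sum_fiberwise_of_maps_to h1]
  refine sum_eq_zero fun j hj => ?_
  rw [Finset.mem_Ico] at hj
  have h2 : S.filter (fun x => k x % m = j) = S.filter (fun x => (m : ℤ) ∣ k x - j) := by
    apply filter_congr
    intro x _
    constructor
    · intro h3
      exact Int.dvd_self_sub_of_emod_eq h3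
    · intro h3
      have h4 := (Int.emod_emod_of_dvd (k x) (dvd_refl (m : ℤ)))
      have h5 := Int.emod_emod_of_dvd j (dvd_refl (m : ℤ))
      rw [Int.emod_eq_emod_iff_emod_sub_eq_zero.2 (Int.emod_eq_zero_of_dvd h3)]
      exact Int.emod_eq_of_lt hj.1 hj.2
  have h3 : ∑ x ∈ S.filter (fun x => k x % m = j), (c x : ℂ) * z ^ k x =
      (∑ x ∈ S.filter (fun x => k x % m = j), (c x : ℂ)) * z ^ j := by
    rw [sum_mul]
    refine sum_congr rfl fun x hx => ?_
    rw [mem_filter] at hx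
    have h4 : z ^ k x = z ^ j := by
      conv_lhs => rw [← Int.mul_ediv_add_emod (k x) m, zpow_add₀ hz0, zpow_mul, zpow_natCast, hz,
        one_zpow, one_mul, hx.2]
    rw [h4]
  rw [h3, h2]
  have h4 : (∑ x ∈ S.filter (fun x => (m : ℤ) ∣ k x - j), (c x : ℂ)) = 0 := by
    have := congrArg (fun n : ℤ => (n : ℂ)) (h j)
    simpa using this
  rw [h4, zero_mul]

theorem level_zero (S : Finset ι) (c k : ι → ℤ) (M : Finset ℕ) (hM : ∀ m ∈ M, 0 < m)
    (h : ∀ m ∈ M, ∀ z : ℂ, z ^ m = 1 → ∑ x ∈ S, (c x : ℂ) * z ^ k x = 0)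
    (hspan : ∀ x ∈ S, ∀ y ∈ S, k x - k y < ((∑ m ∈ M, m.totient : ℕ) : ℤ)) (k0 : ℤ) :
    ∑ x ∈ S.filter (fun x => k x = k0), c x = 0 := by
  classical
  rcases S.eq_empty_or_nonempty with rfl | hS
  · simp
  obtain ⟨x0, hx0, hmin⟩ := exists_min_image S k hS
  set P : Polynomial ℂ := ∑ x ∈ S, Polynomial.C (c x : ℂ) * Polynomial.X ^ (k x - k x0).toNat
    with hP
  have hroots : ∀ m ∈ M, ∀ z ∈ primitiveRoots m ℂ, P.eval z = 0 := by
    intro m hm z hz
    have hzm : z ^ m = 1 := ((mem_primitiveRoots (hM m hm)).1 hz).pow_eq_one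
    have hz0 : z ≠ 0 := by
      rintro rfl
      rw [zero_pow (hM m hm).ne'] at hzm
      exact zero_ne_one hzm
    have h1 := h m hm z hzm
    rw [hP, Polynomial.eval_finsetSum]
    have h2 : ∑ x ∈ S, Polynomial.eval z (Polynomial.C (c x : ℂ) *
        Polynomial.X ^ (k x - k x0).toNat) = (∑ x ∈ S, (c x : ℂ) * z ^ k x) * z ^ (-k x0) := by
      rw [sum_mul]
      refine sum_congr rfl fun x hx => ?_
      have h3 : z ^ (k x - k x0).toNat = z ^ k x * z ^ (-k x0) := by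
        rw [← zpow_natCast, Int.toNat_of_nonneg (sub_nonneg.2 (hmin x hx)), sub_eq_add_neg,
          zpow_add₀ hz0]
      rw [Polynomial.eval_mul, Polynomial.eval_C, Polynomial.eval_pow, Polynomial.eval_X, h3]
      ring
    rw [h2, h1, zero_mul]
  have hcard : (M.biUnion fun m => primitiveRoots m ℂ).card = ∑ m ∈ M, m.totient := by
    rw [card_biUnion]
    · refine sum_congr rfl fun m hm => ?_
      exact Complex.card_primitiveRoots m
    · intro m _ m' _ hmm
      exact IsPrimitiveRoot.disjoint hmm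
  have hP0 : P = 0 := by
    apply Polynomial.eq_zero_of_degree_lt_of_eval_finset_eq_zero
      (M.biUnion fun m => primitiveRoots m ℂ)
    · rw [hcard, hP]
      refine lt_of_le_of_lt (Polynomial.degree_sum_le _ _) ?_
      rw [Finset.sup_lt_iff]
      · intro x hx
        refine lt_of_le_of_lt (Polynomial.degree_C_mul_X_pow_le _ _) ?_
        have h1 := hspan x hx x0 hx0
        have h2 := sub_nonneg.2 (hmin x hx)
        have h3 : (k x - k x0).toNat < ∑ m ∈ M, m.totient := by omega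
        exact_mod_cast h3
      · exact WithBot.bot_lt_coe _
    · intro z hz
      rw [mem_biUnion] at hz
      obtain ⟨m, hm, hz⟩ := hz
      exact hroots m hm z hz
  by_cases hk0 : k x0 ≤ k0
  · have h1 := congrArg (fun q => Polynomial.coeff q (k0 - k x0).toNat) hP0
    simp only [hP, Polynomial.finsetSum_coeff, Polynomial.coeff_C_mul_X_pow,
      Polynomial.coeff_zero] at h1
    rw [← sum_filter] at h1
    have h2 : S.filter (fun x => (k0 - k x0).toNat = (k x - k x0).toNat) =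
        S.filter (fun x => k x = k0) := by
      apply filter_congr
      intro x hx
      have := hmin x hx
      omega
    rw [h2] at h1
    exact_mod_cast h1
  · have h2 : S.filter (fun x => k x = k0) = ∅ := by
      rw [filter_eq_empty_iff]
      intro x hx h3
      have := hmin x hx
      omega
    rw [h2, sum_empty]

end Pool.Agent.RFG43
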