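import Pool.Agent.RFG43.NTd
import Pool.Agent.RFG43.Uni
import Pool.Agent.RFG43.Geo

/-!
Crew file for `MP_b76cd5_al`: a nonzero Laurent polynomial in two variables, with support in a
box of side `n` and coefficients of absolute sum at most `n ^ A`, does not vanish at some point
with coordinates in `(ZMod p)ˣ` for some prime `p ≤ n ^ (2/3 + ε)`.
-/

set_option autoImplicit false

namespace Pool.Agent.RFG43

open Finset Filter

/-- The value of a Laurent polynomial at a point. -/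
noncomputable def ev {p : ℕ} (f : (Fin 2 → ℤ) →₀ ℤ) (a : Fin 2 → (ZMod p)ˣ) : ZMod p :=
  f.sum fun x c => (c : ZMod p) * ((∏ j, a j ^ x j : (ZMod p)ˣ) : ZMod p)

theorem core_step (n N R r A : ℕ) (hN : 1 ≤ N) (M : Finset ℕ)
    (hM : ∀ m ∈ M, Good r N (1 / 4) m)
    (hR : 2 * R * n < ∑ m ∈ M, m.totient)
    (hR3 : 3 * ((Nat.log 2 R + 1) * n) < R ^ 3)
    (hB : (n : ℝ) ^ A < ((N : ℝ) ^ (1 - 1 / 4 : ℝ)) ^ r)
    (f : (Fin 2 → ℤ) →₀ ℤ) (hf : f ≠ 0)
    (hbox : ∀ x ∈ f.support, ∀ y ∈ f.support, ∀ j, |x j - y j| ≤ n)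
    (hl1 : ∑ x ∈ f.support, |f x| ≤ (n : ℤ) ^ A) :
    ∃ p : ℕ, ∃ _ : Fact p.Prime, p ≤ N ∧ ∃ a : Fin 2 → (ZMod p)ˣ, ev f a ≠ 0 := by
  classical
  by_contra hcon
  push Not at hcon
  have hS : f.support.Nonempty := Finsupp.support_nonempty_iff.2 hf
  have hNr : (1 : ℝ) ≤ N := by exact_mod_cast hN
  have hg := geo f.support hS f (fun x hx => Finsupp.mem_support_iff.1 hx) R n ?_ ?_
  · have h1 := sum_lower R
    have h2 : (Nat.log 2 R + 1) * ∑ i ∈ Finset.Icc 1 R, i * i.totient ≤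
        (Nat.log 2 R + 1) * n := Nat.mul_le_mul_left _ hg
    omega
  · intro u hu k0
    refine level_zero f.support f (lev u) M (fun m hm => (hM m hm).1) ?_ ?_ k0
    · intro m hm z hz
      obtain ⟨hm0, Q, hQr, hQ⟩ := hM m hm
      refine root_zero f.support f (lev u) m hm0 (fun j => ?_) z hz
      refine fold_zero f.support f (lev u) m hm0 Q (fun p hp => ⟨(hQ p hp).1, (hQ p hp).2.2.2⟩)
        ?_ ?_ j
      · have h1 : ((∑ x ∈ f.support, |f x| : ℤ) : ℝ) < ((∏ p ∈ Q, (p : ℤ) : ℤ) : ℝ) := by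
          have h2 : ((∑ x ∈ f.support, |f x| : ℤ) : ℝ) ≤ (n : ℝ) ^ A := by exact_mod_cast hl1
          have hc1 : (1 : ℝ) ≤ (N : ℝ) ^ (1 - 1 / 4 : ℝ) :=
            Real.one_le_rpow hNr (by norm_num)
          have h3 : ((N : ℝ) ^ (1 - 1 / 4 : ℝ)) ^ r ≤ ((N : ℝ) ^ (1 - 1 / 4 : ℝ)) ^ Q.card :=
            pow_le_pow_right₀ hc1 hQr
          have h4 : ((N : ℝ) ^ (1 - 1 / 4 : ℝ)) ^ Q.card ≤ ∏ p ∈ Q, (p : ℝ) := by
            rw [← prod_const]
            exact prod_le_prod (fun _ _ => by positivity) fun p hp => (hQ p hp).2.2.1.le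
          have h5 : ((∏ p ∈ Q, (p : ℤ) : ℤ) : ℝ) = ∏ p ∈ Q, (p : ℝ) := by push_cast; rfl
          rw [h5]
          linarith
        exact_mod_cast h1
      · intro p hp hfact t
        have h1 := hcon p hfact (hQ p hp).2.1 (fun j => if j = 0 then t ^ u.1 else t ^ u.2)
        rw [ev, Finsupp.sum] at h1
        rw [← h1]
        refine sum_congr rfl fun x _ => ?_
        congr 2
        rw [Fin.prod_univ_two, if_pos rfl, if_neg (by norm_num), lev, zpow_add, zpow_mul,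
          zpow_mul, zpow_natCast, zpow_natCast]
    · intro x hx y hy
      have hu' := mem_dirs.1 hu
      have h1 := (abs_le.1 (hbox x hx y hy 0)).2
      have h2 := (abs_le.1 (hbox x hx y hy 1)).2
      have h3 : lev u x - lev u y = (u.1 : ℤ) * (x 0 - y 0) + (u.2 : ℤ) * (x 1 - y 1) := by
        unfold lev; ring
      have h4 : (u.1 : ℤ) * (x 0 - y 0) ≤ R * n := by
        calc (u.1 : ℤ) * (x 0 - y 0) ≤ u.1 * n := mul_le_mul_of_nonneg_left h1 (by positivity)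
          _ ≤ R * n := mul_le_mul_of_nonneg_right (by exact_mod_cast hu'.2.1) (by positivity)
      have h5 : (u.2 : ℤ) * (x 1 - y 1) ≤ R * n := by
        calc (u.2 : ℤ) * (x 1 - y 1) ≤ u.2 * n := mul_le_mul_of_nonneg_left h2 (by positivity)
          _ ≤ R * n := mul_le_mul_of_nonneg_right (by
              have := hu'.2.1
              have := hu'.2.2.1
              exact_mod_cast (by omega : u.2 ≤ R)) (by positivity)
      have h6 : ((2 * R * n : ℕ) : ℤ) < ((∑ m ∈ M, m.totient : ℕ) : ℤ) := by exact_mod_cast hR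
      rw [h3]
      push_cast at h6 ⊢
      linarith
  · intro x hx y hy
    exact (abs_le.1 (hbox x hx y hy 1)).2

theorem exists_prime_ev (ε : ℝ) (hε : 0 < ε) (A : ℕ) : ∃ n0 : ℕ, ∀ n : ℕ, n0 ≤ n →
    ∀ f : (Fin 2 → ℤ) →₀ ℤ, f ≠ 0 →
    (∀ x ∈ f.support, ∀ y ∈ f.support, ∀ j, |x j - y j| ≤ n) →
    (∑ x ∈ f.support, |f x| ≤ (n : ℤ) ^ A) →
    ∃ p : ℕ, ∃ _ : Fact p.Prime, (p : ℝ) ≤ (n : ℝ) ^ (2 / 3 + ε) ∧
      ∃ a : Fin 2 → (ZMod p)ˣ, ev f a ≠ 0 := by
  set e : ℝ := min ε (1 / 3) with he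
  have he0 : 0 < e := lt_min hε (by norm_num)
  have he1 : e ≤ 1 / 3 := min_le_right _ _
  have heε : e ≤ ε := min_le_left _ _
  obtain ⟨N0, hN0⟩ := totient_sum (2 * A + 2) (by omega) (e / 2) (by linarith)
  have T1 : Tendsto (fun n : ℕ => Real.log (n : ℝ)) atTop atTop :=
    Real.tendsto_log_atTop.comp tendsto_natCast_atTop_atTop
  have f1 : ∀ᶠ n : ℕ in atTop, 24 * (2 * Real.log (n : ℝ) + 1) + 8 < (n : ℝ) ^ e := by
    filter_upwards [T1.eventually_ge_atTop (1000 / e ^ 2), eventually_ge_atTop 1] with n h hn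
    have hn0 : (0 : ℝ) < n := by exact_mod_cast hn
    rw [Real.rpow_def_of_pos hn0]
    have hx : 0 ≤ Real.log (n : ℝ) := le_trans (by positivity) h
    rw [div_le_iff₀ (by positivity)] at h
    set x := Real.log (n : ℝ)
    have h1 := Real.add_one_le_exp (x * e / 2)
    have h2 : Real.exp (x * e) = Real.exp (x * e / 2) * Real.exp (x * e / 2) := by
      rw [← Real.exp_add]; congr 1; ring
    have h3 : (x * e / 2 + 1) * (x * e / 2 + 1) ≤ Real.exp (x * e) := by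
      rw [h2]
      apply mul_le_mul <;> first | linarith | positivity
    have h4 : 1000 ≤ x * e := by nlinarith
    have h5 : 1000 * x ≤ x * (x * e ^ 2) := by nlinarith
    nlinarith
  have f2 : ∀ᶠ n : ℕ in atTop, (N0 : ℝ) ≤ (n : ℝ) ^ (2 / 3 : ℝ) :=
    ((tendsto_rpow_atTop (by norm_num)).comp tendsto_natCast_atTop_atTop).eventually_ge_atTop _
  obtain ⟨n0, hn0⟩ := eventually_atTop.1 (f1.and (f2.and (eventually_ge_atTop 2)))
  refine ⟨n0, fun n hn f hf hbox hl1 => ?_⟩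
  obtain ⟨g1, g2, g3⟩ := hn0 n hn
  have hn2 : (2 : ℝ) ≤ n := by exact_mod_cast g3
  have hn1 : (1 : ℝ) ≤ n := by linarith
  have hnpos : (0 : ℝ) < n := by linarith
  have hlog : 0 ≤ Real.log (n : ℝ) := Real.log_nonneg hn1
  have hE : 32 < (n : ℝ) ^ e := by linarith
  set E : ℝ := (n : ℝ) ^ e with hEd
  -- the size of N
  set a : ℝ := (n : ℝ) ^ (2 / 3 + e) with ha
  have ha' : a = (n : ℝ) ^ (2 / 3 : ℝ) * E := Real.rpow_add hnpos _ _
  have hn23 : 1 ≤ (n : ℝ) ^ (2 / 3 : ℝ) := Real.one_le_rpow hn1 (by norm_num)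
  have ha2 : 2 ≤ a := by rw [ha']; nlinarith
  set N : ℕ := ⌊a⌋₊ with hN
  have hNa : (N : ℝ) ≤ a := Nat.floor_le (by linarith)
  have hNa' : a / 2 ≤ N := by
    have := Nat.lt_floor_add_one a
    rw [← hN] at this
    linarith
  have hN23 : (n : ℝ) ^ (2 / 3 : ℝ) ≤ N := by
    rw [ha'] at hNa'
    nlinarith
  have hN1 : 1 ≤ N := by
    have : (1 : ℝ) ≤ N := hn23.trans hN23
    exact_mod_cast this
  obtain ⟨M, hM1, hM2⟩ := hN0 N (by exact_mod_cast g2.trans hN23)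
  -- the size of R
  set b : ℝ := (n : ℝ) ^ (1 / 3 + e / 2) with hb
  have hb3 : b ^ 3 = n * (n : ℝ) ^ (3 * e / 2) := by
    rw [hb, ← Real.rpow_natCast, ← Real.rpow_mul hnpos.le]
    rw [show (1 / 3 + e / 2) * ((3 : ℕ) : ℝ) = 1 + 3 * e / 2 by push_cast; ring,
      Real.rpow_add hnpos, Real.rpow_one]
  have hb2 : 2 ≤ b := by
    have h1 : (8 : ℝ) ≤ b ^ 3 := by
      rw [hb3]
      have : E ≤ (n : ℝ) ^ (3 * e / 2) := Real.rpow_le_rpow_of_exponent_le hn1 (by linarith)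
      nlinarith
    by_contra hcon
    push Not at hcon
    have hb0 : 0 ≤ b := by positivity
    have : b ^ 3 < 2 ^ 3 := pow_lt_pow_left₀ hcon hb0 (by norm_num)
    linarith
  set R : ℕ := ⌊b⌋₊ with hR
  have hRb : (R : ℝ) ≤ b := Nat.floor_le (by linarith)
  have hRb' : b / 2 ≤ R := by
    have := Nat.lt_floor_add_one b
    rw [← hR] at this
    linarith
  have hbn : b ≤ n := by
    calc b ≤ (n : ℝ) ^ (1 : ℝ) := Real.rpow_le_rpow_of_exponent_le hn1 (by linarith)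
      _ = n := Real.rpow_one _
  have hR1 : (1 : ℝ) ≤ R := by linarith
  have c1 : 2 * R * n < ∑ m ∈ M, m.totient := by
    have h1 : (2 : ℝ) * R * n < ∑ m ∈ M, (m.totient : ℝ) := by
      refine lt_of_lt_of_le ?_ hM2
      have h2 : a / 2 = a * (1 / 2) := by ring
      have h3 : (a / 2) ^ (2 - e / 2) ≤ (N : ℝ) ^ (2 - e / 2) :=
        Real.rpow_le_rpow (by positivity) hNa' (by linarith)
      refine lt_of_lt_of_le ?_ h3
      rw [h2, Real.mul_rpow (by positivity) (by norm_num)]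
      have h4 : (1 / 4 : ℝ) ≤ (1 / 2 : ℝ) ^ (2 - e / 2) := by
        calc (1 / 4 : ℝ) = (1 / 2 : ℝ) ^ (2 : ℝ) := by norm_num
          _ ≤ _ := Real.rpow_le_rpow_of_exponent_ge (by norm_num) (by norm_num) (by linarith)
      have h5 : (n : ℝ) ^ (4 / 3 + 3 * e / 2) ≤ a ^ (2 - e / 2) := by
        rw [ha, ← Real.rpow_mul hnpos.le]
        apply Real.rpow_le_rpow_of_exponent_le hn1
        nlinarith
      have h6 : (n : ℝ) ^ (4 / 3 + 3 * e / 2) = b * n * E := by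
        rw [hb, hEd]
        nth_rewrite 3 [← Real.rpow_one (n : ℝ)]
        rw [← Real.rpow_add hnpos, ← Real.rpow_add hnpos]
        congr 1; ring
      have h7 : b * n * E * (1 / 4) ≤ a ^ (2 - e / 2) * (1 / 2 : ℝ) ^ (2 - e / 2) := by
        rw [← h6]
        apply mul_le_mul h5 h4 (by norm_num) (by positivity)
      refine lt_of_lt_of_le ?_ h7
      have h8 : 0 < b * n := by positivity
      have h9 : (R : ℝ) * n ≤ b * n := by gcongr
      nlinarith
    exact_mod_cast h1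
  have c2 : 3 * ((Nat.log 2 R + 1) * n) < R ^ 3 := by
    have h1 : (3 : ℝ) * (((Nat.log 2 R : ℕ) + 1) * n) < (R : ℝ) ^ 3 := by
      have h2 : b ^ 3 / 8 ≤ (R : ℝ) ^ 3 := by
        have : (b / 2) ^ 3 ≤ (R : ℝ) ^ 3 := pow_le_pow_left₀ (by positivity) hRb' 3
        calc b ^ 3 / 8 = (b / 2) ^ 3 := by ring
          _ ≤ _ := this
      refine lt_of_lt_of_le ?_ h2
      have h3 : (Nat.log 2 R : ℝ) ≤ 2 * Real.log n := by
        have d1 := Real.natLog_le_logb R 2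
        have d2 : Real.logb ((2 : ℕ) : ℝ) R = Real.log R / Real.log 2 := by
          rw [Real.logb]; norm_num
        rw [d2] at d1
        refine d1.trans ?_
        have hl2 := Real.log_two_gt_d9
        rw [div_le_iff₀ (by linarith)]
        have d3 : Real.log R ≤ Real.log n := Real.log_le_log (by linarith) (by linarith)
        nlinarith
      have h4 : E ≤ (n : ℝ) ^ (3 * e / 2) := Real.rpow_le_rpow_of_exponent_le hn1 (by linarith)
      rw [hb3]
      have h5 : 24 * ((Nat.log 2 R : ℝ) + 1) < (n : ℝ) ^ (3 * e / 2) := by linarith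
      nlinarith
    exact_mod_cast h1
  have c3 : (n : ℝ) ^ A < ((N : ℝ) ^ (1 - 1 / 4 : ℝ)) ^ (2 * A + 2) := by
    have h1 : (n : ℝ) ^ (1 / 2 : ℝ) ≤ (N : ℝ) ^ (1 - 1 / 4 : ℝ) := by
      calc (n : ℝ) ^ (1 / 2 : ℝ) = ((n : ℝ) ^ (2 / 3 : ℝ)) ^ (1 - 1 / 4 : ℝ) := by
            rw [← Real.rpow_mul hnpos.le]; norm_num
        _ ≤ _ := Real.rpow_le_rpow (by positivity) hN23 (by norm_num)
    calc (n : ℝ) ^ A < (n : ℝ) ^ (A + 1) := pow_lt_pow_right₀ (by linarith) (by omega)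
      _ = ((n : ℝ) ^ (1 / 2 : ℝ)) ^ (2 * A + 2) := by
          rw [← Real.rpow_natCast, ← Real.rpow_natCast, ← Real.rpow_mul hnpos.le]
          congr 1
          push_cast
          ring
      _ ≤ _ := pow_le_pow_left₀ (by positivity) h1 _
  obtain ⟨p, hp, hpN, a', ha'⟩ := core_step n N R (2 * A + 2) A hN1 M hM1 c1 c2 c3 f hf hbox hl1
  refine ⟨p, hp, ?_, a', ha'⟩
  have : (p : ℝ) ≤ N := by exact_mod_cast hpN
  refine this.trans (hNa.trans ?_)
  exact Real.rpow_le_rpow_of_exponent_le hn1 (by linarith)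

/-- The same with the sum written out. -/
theorem exists_prime_eval (ε : ℝ) (hε : 0 < ε) (A : ℕ) : ∃ n0 : ℕ, ∀ n : ℕ, n0 ≤ n →
    ∀ f : (Fin 2 → ℤ) →₀ ℤ, f ≠ 0 →
    (∀ x ∈ f.support, ∀ y ∈ f.support, ∀ j, |x j - y j| ≤ n) →
    (∑ x ∈ f.support, |f x| ≤ (n : ℤ) ^ A) →
    ∃ p : ℕ, ∃ _ : Fact p.Prime, (p : ℝ) ≤ (n : ℝ) ^ (2 / 3 + ε) ∧
      ∃ a : Fin 2 → (ZMod p)ˣ,
        f.sum (fun x c => (c : ZMod p) * ((∏ j, a j ^ x j : (ZMod p)ˣ) : ZMod p)) ≠ 0 :=
  exists_prime_ev ε hε A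

end Pool.Agent.RFG43
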