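import Pool.Agent.RFG43.Three

/-!
Crew file for `MP_b76cd5_al`: the choice of the parameters in three variables.
-/

set_option autoImplicit false

namespace Pool.Agent.RFG43

open Finset Filter

theorem floor_bounds (n : ℕ) (a : ℝ) (h : 2 ≤ (n : ℝ) ^ a) :
    (n : ℝ) ^ a / 2 ≤ (⌊(n : ℝ) ^ a⌋₊ : ℝ) ∧ (⌊(n : ℝ) ^ a⌋₊ : ℝ) ≤ (n : ℝ) ^ a := by
  have h1 := Nat.lt_floor_add_one ((n : ℝ) ^ a)
  have h2 := Nat.floor_le (show 0 ≤ (n : ℝ) ^ a by linarith)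
  exact ⟨by linarith, h2⟩

theorem ev_rpow (a c : ℝ) (ha : 0 < a) : ∀ᶠ n : ℕ in atTop, c ≤ (n : ℝ) ^ a :=
  ((tendsto_rpow_atTop ha).comp tendsto_natCast_atTop_atTop).eventually_ge_atTop _

theorem half_rpow_ge (y : ℝ) (hy0 : 0 ≤ y) (hy : y ≤ 2) : (1 / 4 : ℝ) ≤ (1 / 2 : ℝ) ^ y := by
  calc (1 / 4 : ℝ) = (1 / 2 : ℝ) ^ (2 : ℝ) := by norm_num
    _ ≤ _ := Real.rpow_le_rpow_of_exponent_ge (by norm_num) (by norm_num) hy

/-- If `X ≥ n^a / 2` then `X^y ≥ n^(a y) / 4` for `0 ≤ y ≤ 2`. -/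
theorem rpow_half (n : ℕ) (hn : 1 ≤ n) (X a y : ℝ) (hy0 : 0 ≤ y) (hy : y ≤ 2)
    (hX : (n : ℝ) ^ a / 2 ≤ X) : (n : ℝ) ^ (a * y) / 4 ≤ X ^ y := by
  have hnp : (0 : ℝ) < n := by exact_mod_cast hn
  have h1 : ((n : ℝ) ^ a / 2) ^ y ≤ X ^ y := Real.rpow_le_rpow (by positivity) hX hy0
  refine le_trans ?_ h1
  rw [div_eq_mul_one_div ((n : ℝ) ^ a), Real.mul_rpow (by positivity) (by norm_num),
    ← Real.rpow_mul hnp.le]
  have h2 := half_rpow_ge y hy0 hy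
  have h3 : (0 : ℝ) < (n : ℝ) ^ (a * y) := Real.rpow_pos_of_pos hnp _
  nlinarith

theorem exists_prime_three (ε : ℝ) (hε : 0 < ε) : ∃ n0 : ℕ, ∀ n : ℕ, n0 ≤ n →
    ∀ f : (Fin 3 → ℤ) →₀ ℤ, f ≠ 0 →
    (∀ x ∈ f.support, ∀ y ∈ f.support, ∀ j, |x j - y j| ≤ n) →
    (∑ x ∈ f.support, |f x| ≤ (n : ℤ)) →
    ∃ p : ℕ, ∃ _ : Fact p.Prime, (p : ℝ) ≤ (n : ℝ) ^ (11 / 15 + ε) ∧
      ∃ a : Fin 3 → (ZMod p)ˣ, evg f a ≠ 0 := by
  set e : ℝ := min ε (1 / 10) with he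
  have he0 : 0 < e := lt_min hε (by norm_num)
  have he1 : e ≤ 1 / 10 := min_le_right _ _
  have heε : e ≤ ε := min_le_left _ _
  obtain ⟨N0, hN0⟩ := totient_sum 3 (by omega) (e / 2) (by linarith)
  obtain ⟨X0, hX0⟩ := eventually_atTop.1 (primes_many (e / 4) (by linarith))
  obtain ⟨n0, hn0⟩ := eventually_atTop.1 ((ev_rpow (e / 4) 100000 (by linarith)).and
    ((ev_rpow (1 / 10) (N0 + 2 * X0 + 100) (by norm_num)).and (eventually_ge_atTop 2)))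
  refine ⟨n0, fun n hn f hf hbox hl1 => ?_⟩
  obtain ⟨g1, g2, g3⟩ := hn0 n hn
  have hn1 : (1 : ℝ) ≤ n := by
    have : 1 ≤ n := by omega
    exact_mod_cast this
  have hnn : 1 ≤ n := by omega
  have hnp : (0 : ℝ) < n := by linarith
  have mono : ∀ a b : ℝ, a ≤ b → (n : ℝ) ^ a ≤ (n : ℝ) ^ b := fun a b h =>
    Real.rpow_le_rpow_of_exponent_le hn1 h
  have hE : (100000 : ℝ) ≤ (n : ℝ) ^ (e / 4) := g1
  have hX0r : (0 : ℝ) ≤ X0 := Nat.cast_nonneg _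
  have hN0r : (0 : ℝ) ≤ N0 := Nat.cast_nonneg _
  have hbig : ∀ a : ℝ, 1 / 10 ≤ a → (N0 : ℝ) + 2 * X0 + 100 ≤ (n : ℝ) ^ a := fun a ha =>
    g2.trans (mono _ _ ha)
  -- the three sizes
  obtain ⟨hN1, hN2⟩ := floor_bounds n (11 / 15 + e) (by
    have := hbig (11 / 15 + e) (by linarith); linarith)
  obtain ⟨hB1, hB2⟩ := floor_bounds n (1 / 5 + e / 4) (by
    have := hbig (1 / 5 + e / 4) (by linarith); linarith)
  obtain ⟨hR1, hR2⟩ := floor_bounds n (7 / 15 + e / 2) (by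
    have := hbig (7 / 15 + e / 2) (by linarith); linarith)
  set N := ⌊(n : ℝ) ^ (11 / 15 + e)⌋₊ with hN
  set B := ⌊(n : ℝ) ^ (1 / 5 + e / 4)⌋₊ with hB
  set R := ⌊(n : ℝ) ^ (7 / 15 + e / 2)⌋₊ with hR
  have hNN0 : N0 ≤ N := by
    have h1 := hbig (11 / 15 + e) (by linarith)
    -- `n ^ (11/15) / 2 ≥ N0`
    have h2 : (N0 : ℝ) ≤ N := by
      have h3 : (n : ℝ) ^ (11 / 15 + e) = (n : ℝ) ^ (11 / 15 + e - e / 4) * (n : ℝ) ^ (e / 4) := by
        rw [← Real.rpow_add hnp]; congr 1; ring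
      have h4 := hbig (11 / 15 + e - e / 4) (by linarith)
      nlinarith
    exact_mod_cast h2
  have hBX0 : X0 ≤ B := by
    have h2 : (X0 : ℝ) ≤ B := by
      have h4 := hbig (1 / 5 + e / 4) (by linarith)
      linarith
    exact_mod_cast h2
  have hRX0 : X0 ≤ R := by
    have h2 : (X0 : ℝ) ≤ R := by
      have h4 := hbig (7 / 15 + e / 2) (by linarith)
      linarith
    exact_mod_cast h2
  obtain ⟨M, hM1, hM2⟩ := hN0 N hNN0
  have pB := hX0 B hBX0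
  have pR := hX0 R hRX0
  set m := ⌊(B : ℝ) ^ (1 - e / 4)⌋₊ with hm
  set m' := ⌊(R : ℝ) ^ (1 - e / 4)⌋₊ with hm'
  have hNge1 : 1 ≤ N := by
    have h2 : (1 : ℝ) ≤ N := by
      have h4 := hbig (11 / 15 + e) (by linarith)
      linarith
    exact_mod_cast h2
  have hRge1 : 1 ≤ R := by
    have h2 : (1 : ℝ) ≤ R := by
      have h4 := hbig (7 / 15 + e / 2) (by linarith)
      linarith
    exact_mod_cast h2
  -- lower bounds for `m` and `m'`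
  have hmB := rpow_half n hnn B (1 / 5 + e / 4) (1 - e / 4) (by linarith) (by linarith) hB1
  have hmR := rpow_half n hnn R (7 / 15 + e / 2) (1 - e / 4) (by linarith) (by linarith) hR1
  have hmfl := Nat.lt_floor_add_one ((B : ℝ) ^ (1 - e / 4))
  have hmfl' := Nat.lt_floor_add_one ((R : ℝ) ^ (1 - e / 4))
  rw [← hm] at hmfl
  rw [← hm'] at hmfl'
  -- exponent bounds
  have hmB2 : (n : ℝ) ^ (1 / 5 + e / 10) ≤ (n : ℝ) ^ ((1 / 5 + e / 4) * (1 - e / 4)) :=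
    mono _ _ (by nlinarith)
  have hmR2 : (n : ℝ) ^ (7 / 15 + e / 3) ≤ (n : ℝ) ^ ((7 / 15 + e / 2) * (1 - e / 4)) :=
    mono _ _ (by nlinarith)
  have hmlow : (n : ℝ) ^ (1 / 5 + e / 10) / 4 - 1 ≤ m := by linarith
  have hmlow' : (n : ℝ) ^ (7 / 15 + e / 3) / 4 - 1 ≤ m' := by linarith
  -- `n < (m - 2)^5`
  have hb1 := hbig (1 / 5 + e / 10) (by linarith)
  have hm10 : (25 : ℝ) ≤ (n : ℝ) ^ (1 / 5 + e / 10) / 4 := by linarith
  have hm3 : 3 ≤ m := by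
    have : (3 : ℝ) ≤ m := by linarith
    exact_mod_cast this
  have h5 : n < (m - 2) ^ 5 := by
    have h1 : (n : ℝ) ^ (1 / 5 + e / 10) / 8 ≤ ((m - 2 : ℕ) : ℝ) := by
      rw [Nat.cast_sub (by omega)]
      push_cast
      linarith
    have h2 : ((n : ℝ) ^ (1 / 5 + e / 10) / 8) ^ 5 ≤ ((m - 2 : ℕ) : ℝ) ^ 5 :=
      pow_le_pow_left₀ (by positivity) h1 5
    have h3 : ((n : ℝ) ^ (1 / 5 + e / 10) / 8) ^ 5 = n * (n : ℝ) ^ (e / 2) / 32768 := by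
      rw [div_pow, ← Real.rpow_natCast, ← Real.rpow_mul hnp.le]
      have : (1 / 5 + e / 10) * ((5 : ℕ) : ℝ) = 1 + e / 2 := by push_cast; ring
      rw [this, Real.rpow_add hnp, Real.rpow_one]
      norm_num
    have h4 : (100000 : ℝ) ≤ (n : ℝ) ^ (e / 2) := hE.trans (mono _ _ (by linarith))
    have h6 : (n : ℝ) < ((m - 2 : ℕ) : ℝ) ^ 5 := by
      refine lt_of_lt_of_le ?_ h2
      rw [h3]
      rw [lt_div_iff₀ (by norm_num)]
      nlinarith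
    exact_mod_cast h6
  -- `5 R n < Σ φ`
  have hT : 5 * R * n < ∑ k ∈ M, k.totient := by
    have h1 := rpow_half n hnn N (11 / 15 + e) (2 - e / 2) (by linarith) (by linarith) hN1
    have h2 : (n : ℝ) ^ (22 / 15 + e) ≤ (n : ℝ) ^ ((11 / 15 + e) * (2 - e / 2)) :=
      mono _ _ (by nlinarith)
    have h3 : (n : ℝ) ^ (22 / 15 + e) = (n : ℝ) ^ (7 / 15 + e / 2) * n * (n : ℝ) ^ (e / 2) := by
      nth_rewrite 3 [← Real.rpow_one (n : ℝ)]
      rw [← Real.rpow_add hnp, ← Real.rpow_add hnp]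
      congr 1; ring
    have h4 : (100000 : ℝ) ≤ (n : ℝ) ^ (e / 2) := hE.trans (mono _ _ (by linarith))
    have h5 : (5 : ℝ) * R * n < ∑ k ∈ M, (k.totient : ℝ) := by
      refine lt_of_lt_of_le ?_ hM2
      refine lt_of_lt_of_le ?_ h1
      rw [lt_div_iff₀ (by norm_num)]
      refine lt_of_lt_of_le ?_ h2
      rw [h3]
      have h6 : (R : ℝ) * n ≤ (n : ℝ) ^ (7 / 15 + e / 2) * n := by gcongr
      have h7 : 0 < (n : ℝ) ^ (7 / 15 + e / 2) * n := by positivity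
      nlinarith
    exact_mod_cast h5
  -- `2 B n < m' (m' ((m' - 1) / B))`
  have hBpos : 0 < B := by
    have : (0 : ℝ) < B := by
      have := hbig (1 / 5 + e / 4) (by linarith)
      linarith
    exact_mod_cast this
  have hBr : (0 : ℝ) < B := by exact_mod_cast hBpos
  have hRB : 2 * B * n < m' * (m' * ((m' - 1) / B)) := by
    -- `m' ≥ 8 B`
    have a1 : (n : ℝ) ^ (7 / 15 + e / 3) = (n : ℝ) ^ (1 / 5 + e / 4) *
        (n : ℝ) ^ (4 / 15 + e / 12) := by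
      rw [← Real.rpow_add hnp]; congr 1; ring
    have a2 := hbig (4 / 15 + e / 12) (by linarith)
    have a3 : 8 * (B : ℝ) + 8 ≤ m' := by
      refine le_trans ?_ hmlow'
      rw [a1]
      have a4 := hbig (1 / 5 + e / 4) (by linarith)
      nlinarith
    have a4 : (m' : ℝ) / (2 * B) ≤ (((m' - 1) / B : ℕ) : ℝ) := by
      have h1 : m' - 1 < ((m' - 1) / B + 1) * B := Nat.lt_div_mul_add hBpos |> fun h => by
        calc m' - 1 < (m' - 1) / B * B + B := h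
          _ = ((m' - 1) / B + 1) * B := by ring
      have hm1 : 1 ≤ m' := by
        have : (1 : ℝ) ≤ m' := by linarith
        exact_mod_cast this
      have h2 : ((m' - 1 : ℕ) : ℝ) < ((((m' - 1) / B : ℕ) : ℝ) + 1) * B := by exact_mod_cast h1
      rw [Nat.cast_sub hm1] at h2
      push_cast at h2
      rw [div_le_iff₀ (by positivity)]
      nlinarith
    have a5 : (n : ℝ) ^ (7 / 15 + e / 3) / 8 ≤ m' := by
      have := hbig (7 / 15 + e / 3) (by linarith)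
      linarith
    have a6 : ((n : ℝ) ^ (7 / 15 + e / 3) / 8) ^ 3 ≤ (m' : ℝ) ^ 3 :=
      pow_le_pow_left₀ (by positivity) a5 3
    have a7 : ((n : ℝ) ^ (7 / 15 + e / 3) / 8) ^ 3 =
        (n : ℝ) ^ (1 / 5 + e / 4) * (n : ℝ) ^ (1 / 5 + e / 4) * n * (n : ℝ) ^ (e / 2) / 512 := by
      rw [div_pow, ← Real.rpow_natCast, ← Real.rpow_mul hnp.le]
      have : (7 / 15 + e / 3) * ((3 : ℕ) : ℝ) =
          (1 / 5 + e / 4) + (1 / 5 + e / 4) + 1 + e / 2 := by push_cast; ring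
      rw [this, Real.rpow_add hnp, Real.rpow_add hnp, Real.rpow_add hnp, Real.rpow_one]
      norm_num
    have h4 : (100000 : ℝ) ≤ (n : ℝ) ^ (e / 2) := hE.trans (mono _ _ (by linarith))
    have a8 : 4 * (B : ℝ) * B * n < (m' : ℝ) ^ 3 := by
      refine lt_of_lt_of_le ?_ a6
      rw [a7, lt_div_iff₀ (by norm_num)]
      have b1 : (B : ℝ) * B ≤ (n : ℝ) ^ (1 / 5 + e / 4) * (n : ℝ) ^ (1 / 5 + e / 4) :=
        mul_le_mul hB2 hB2 hBr.le (by positivity)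
      have b2 : 0 < (n : ℝ) ^ (1 / 5 + e / 4) * (n : ℝ) ^ (1 / 5 + e / 4) * n := by positivity
      have b3 : (B : ℝ) * B * n ≤
          (n : ℝ) ^ (1 / 5 + e / 4) * (n : ℝ) ^ (1 / 5 + e / 4) * n := by gcongr
      nlinarith
    have hm0 : (0 : ℝ) ≤ m' := Nat.cast_nonneg _
    have a9 : 2 * (B : ℝ) * n < m' * (m' * (m' / (2 * B))) := by
      have : (m' : ℝ) * (m' * (m' / (2 * B))) = (m' : ℝ) ^ 3 / (2 * B) := by
        field_simp
      rw [this, lt_div_iff₀ (by positivity)]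
      nlinarith
    have a10 : (2 : ℝ) * B * n < m' * (m' * (((m' - 1) / B : ℕ) : ℝ)) := by
      refine lt_of_lt_of_le a9 ?_
      gcongr
    exact_mod_cast a10
  have hBB : (n : ℝ) ^ 1 < ((N : ℝ) ^ (1 - 1 / 4 : ℝ)) ^ 3 := by
    have h1 := rpow_half n hnn N (11 / 15 + e) (1 - 1 / 4) (by norm_num) (by norm_num) hN1
    have h2 : (n : ℝ) ^ (1 / 2 : ℝ) ≤ (N : ℝ) ^ (1 - 1 / 4 : ℝ) := by
      refine le_trans ?_ h1
      have h3 : (n : ℝ) ^ (1 / 2 + e / 4) ≤ (n : ℝ) ^ ((11 / 15 + e) * (1 - 1 / 4)) :=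
        mono _ _ (by nlinarith)
      have h4 : (n : ℝ) ^ (1 / 2 + e / 4) = (n : ℝ) ^ (1 / 2 : ℝ) * (n : ℝ) ^ (e / 4) :=
        Real.rpow_add hnp _ _
      have h5 : (0 : ℝ) < (n : ℝ) ^ (1 / 2 : ℝ) := by positivity
      nlinarith
    have hn2 : (2 : ℝ) ≤ n := by exact_mod_cast g3
    calc (n : ℝ) ^ 1 < (n : ℝ) ^ (3 / 2 : ℝ) := by
          rw [← Real.rpow_natCast]
          apply Real.rpow_lt_rpow_of_exponent_lt (by linarith)
          norm_num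
      _ = ((n : ℝ) ^ (1 / 2 : ℝ)) ^ 3 := by
          rw [← Real.rpow_natCast, ← Real.rpow_mul hnp.le]
          norm_num
      _ ≤ _ := pow_le_pow_left₀ (by positivity) h2 _
  obtain ⟨p, hp, hpN, a, ha⟩ := three_step n N 3 B m R m' hNge1 M hM1 hT hnn hRge1 hm3 pB h5 pR
    hRB hBB f hf hbox (by rw [pow_one]; exact hl1)
  refine ⟨p, hp, ?_, a, ha⟩
  have h1 : (p : ℝ) ≤ N := by exact_mod_cast hpN
  exact h1.trans (hN2.trans (mono _ _ (by linarith)))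

end Pool.Agent.RFG43
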