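import Mathlib

/-! Generators of the second derived group of a two-generator centre-by-metabelian group. -/

set_option autoImplicit false

open scoped commutatorElement

namespace Pool.Agent.RFG43

section

variable {Q : Type} [Group Q] (a b : Q)

/-- `a ^ d 0 * b ^ d 1`. -/
def gen (d : Fin 2 → ℤ) : Q := a ^ d 0 * b ^ d 1

/-- The basic commutators. -/
def Psi (d : Fin 2 → ℤ) : Q := ⁅⁅a, b⁆, gen a b d * ⁅a, b⁆ * (gen a b d)⁻¹⁆

theorem cpsi_aux {z v : Q} (hz : z ∈ Subgroup.center Q) (u : Q) : ⁅u, z * v⁆ = ⁅u, v⁆ := by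
  rw [Subgroup.mem_center_iff] at hz
  rw [commutatorElement_def, commutatorElement_def, mul_inv_rev]
  have h1 : u * (z * v) = z * (u * v) := by rw [← mul_assoc, hz u, mul_assoc]
  have h2 : z * (u * v) * u⁻¹ * (v⁻¹ * z⁻¹) = z * (u * v * u⁻¹ * v⁻¹) * z⁻¹ := by group
  rw [h1, h2, ← hz (u * v * u⁻¹ * v⁻¹)]
  group

theorem cent_conj {z : Q} (hz : z ∈ Subgroup.center Q) (u : Q) : u * z * u⁻¹ = z := by
  rw [Subgroup.mem_center_iff] at hz
  rw [hz u]
  group

variable {a b}

/-- The commutator subgroup is generated by the conjugates of `[a, b]`. -/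
theorem derived_le_closure (hab : Subgroup.closure {a, b} = ⊤) :
    derivedSeries Q 1 ≤ Subgroup.closure {u | ∃ g : Q, g * ⁅a, b⁆ * g⁻¹ = u} := by
  have h1 : derivedSeries Q 1 ≤ Subgroup.normalClosure {⁅a, b⁆} := by
    set N := Subgroup.normalClosure {⁅a, b⁆} with hN
    let π := QuotientGroup.mk' N
    have hcomm : Commute (π a) (π b) := by
      have h : ⁅a, b⁆ ∈ N := Subgroup.subset_normalClosure rfl
      have h2 : π ⁅a, b⁆ = 1 := (QuotientGroup.eq_one_iff _).2 h
      rw [map_commutatorElement] at h2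
      exact commutatorElement_eq_one_iff_commute.1 h2
    have key : ∀ (s : Q), (Commute (π s) (π a) ∧ Commute (π s) (π b)) →
        ∀ y : Q, Commute (π s) (π y) := by
      intro s hs y
      have hy : y ∈ Subgroup.closure {a, b} := hab ▸ Subgroup.mem_top y
      induction hy using Subgroup.closure_induction with
      | mem x hx =>
        rcases hx with rfl | rfl
        · exact hs.1
        · exact hs.2
      | one => rw [map_one]; exact Commute.one_right _
      | mul x y _ _ h1 h2 => rw [map_mul]; exact h1.mul_right h2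
      | inv x _ h1 => rw [map_inv]; exact h1.inv_right
    have ha := key a ⟨Commute.refl _, hcomm⟩
    have hb := key b ⟨hcomm.symm, Commute.refl _⟩
    have hall : ∀ x y : Q, Commute (π x) (π y) := fun x =>
      key x ⟨(ha x).symm, (hb x).symm⟩
    rw [derivedSeries_one, commutator_def, Subgroup.commutator_le]
    intro x _ y _
    have h2 : π ⁅x, y⁆ = 1 := by
      rw [map_commutatorElement]
      exact commutatorElement_eq_one_iff_commute.2 (hall x y)
    exact (QuotientGroup.eq_one_iff _).1 h2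
  refine h1.trans ?_
  rw [Subgroup.normalClosure, Subgroup.closure_le]
  intro u hu
  rw [Group.mem_conjugatesOfSet_iff] at hu
  obtain ⟨c, hc, hu⟩ := hu
  rw [Set.mem_singleton_iff] at hc
  subst hc
  rw [isConj_iff] at hu
  exact Subgroup.subset_closure hu

variable (hc : derivedSeries Q 2 ≤ Subgroup.center Q)

include hc

theorem comm_center {u v : Q} (hu : u ∈ derivedSeries Q 1) (hv : v ∈ derivedSeries Q 1) :
    ⁅u, v⁆ ∈ Subgroup.center Q :=
  hc (by rw [derivedSeries_succ]; exact Subgroup.commutator_mem_commutator hu hv)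

theorem comm_mem_derived (x y : Q) : ⁅x, y⁆ ∈ derivedSeries Q 1 := by
  rw [derivedSeries_one]
  exact Subgroup.commutator_mem_commutator (Subgroup.mem_top x) (Subgroup.mem_top y)

theorem conj_mem_derived (x : Q) {u : Q} (hu : u ∈ derivedSeries Q 1) :
    x * u * x⁻¹ ∈ derivedSeries Q 1 := (derivedSeries_normal Q 1).conj_mem u hu x

theorem comm_mul_right {u v w : Q} (hu : u ∈ derivedSeries Q 1) (_hv : v ∈ derivedSeries Q 1)
    (hw : w ∈ derivedSeries Q 1) : ⁅u, v * w⁆ = ⁅u, v⁆ * ⁅u, w⁆ := by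
  have e : ⁅u, v * w⁆ = ⁅u, v⁆ * (v * ⁅u, w⁆ * v⁻¹) := by
    simp only [commutatorElement_def]
    group
  rw [e, cent_conj (comm_center hc hu hw)]

theorem comm_inv_right {u v : Q} (hu : u ∈ derivedSeries Q 1) (hv : v ∈ derivedSeries Q 1) :
    ⁅u, v⁻¹⁆ = ⁅u, v⁆⁻¹ := by
  have h := comm_mul_right hc hu hv (inv_mem hv)
  rw [mul_inv_cancel, commutatorElement_one_right] at h
  exact (inv_eq_of_mul_eq_one_right h.symm).symm

/-- If `⁅u, ·⁆` maps generators of a subgroup of the derived group to `E`, it maps all of it. -/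
theorem comm_closure_aux (E : Subgroup Q) (S : Set Q) (hS : S ⊆ derivedSeries Q 1) {u : Q}
    (hu : u ∈ derivedSeries Q 1) (h : ∀ v ∈ S, ⁅u, v⁆ ∈ E) {v : Q}
    (hv : v ∈ Subgroup.closure S) : ⁅u, v⁆ ∈ E := by
  have hle : Subgroup.closure S ≤ derivedSeries Q 1 := (Subgroup.closure_le _).2 hS
  induction hv using Subgroup.closure_induction with
  | mem x hx => exact h x hx
  | one => rw [commutatorElement_one_right]; exact one_mem _
  | mul x y hx hy h1 h2 =>
    rw [comm_mul_right hc hu (hle hx) (hle hy)]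
    exact mul_mem h1 h2
  | inv x hx h1 =>
    rw [comm_inv_right hc hu (hle hx)]
    exact inv_mem h1

/-- Commutators in the derived group lie in the subgroup generated by `[c, k c k⁻¹]`. -/
theorem comm_closure (hab : Subgroup.closure {a, b} = ⊤) {u v : Q}
    (hu : u ∈ derivedSeries Q 1) (hv : v ∈ derivedSeries Q 1) :
    ⁅u, v⁆ ∈ Subgroup.closure {w | ∃ k : Q, ⁅⁅a, b⁆, k * ⁅a, b⁆ * k⁻¹⁆ = w} := by
  have hcm : ⁅a, b⁆ ∈ derivedSeries Q 1 := comm_mem_derived hc a b
  have hle := derived_le_closure hab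
  generalize ⁅a, b⁆ = c at hcm hle ⊢
  set E := Subgroup.closure {w | ∃ k : Q, ⁅c, k * c * k⁻¹⁆ = w} with hE
  have base : ∀ g h : Q, ⁅g * c * g⁻¹, h * c * h⁻¹⁆ ∈ E := by
    intro g h
    have e : ⁅g * c * g⁻¹, h * c * h⁻¹⁆ = g * ⁅c, (g⁻¹ * h) * c * (g⁻¹ * h)⁻¹⁆ * g⁻¹ := by
      rw [conjugate_commutatorElement]
      congr 1
      group
    rw [e, cent_conj (comm_center hc hcm (conj_mem_derived hc _ hcm))]
    exact Subgroup.subset_closure ⟨_, rfl⟩
  have hS : {u | ∃ g : Q, g * c * g⁻¹ = u} ⊆ (derivedSeries Q 1 : Set Q) := by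
    rintro _ ⟨g, rfl⟩
    exact conj_mem_derived hc g hcm
  have step1 : ∀ (g : Q) (v : Q), v ∈ derivedSeries Q 1 → ⁅g * c * g⁻¹, v⁆ ∈ E := by
    intro g v hv
    refine comm_closure_aux hc E _ hS (conj_mem_derived hc g hcm) ?_ (hle hv)
    rintro _ ⟨h, rfl⟩
    exact base g h
  have step2 : ⁅v, u⁆ ∈ E := by
    refine comm_closure_aux hc E _ hS hv ?_ (hle hu)
    rintro _ ⟨g, rfl⟩
    rw [← commutatorElement_inv]
    exact inv_mem (step1 g v hv)
  rw [← commutatorElement_inv]
  exact inv_mem step2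

/-- `[c, k c k⁻¹]` only depends on `k` modulo the derived group. -/
theorem psi_congr {c : Q} (hcm : c ∈ derivedSeries Q 1) {k k' : Q}
    (h : k⁻¹ * k' ∈ derivedSeries Q 1) : ⁅c, k' * c * k'⁻¹⁆ = ⁅c, k * c * k⁻¹⁆ := by
  set u := k⁻¹ * k' with hu
  have e1 : k' = k * u := by rw [hu]; group
  have e2 : k' * c * k'⁻¹ = (k * ⁅u, c⁆ * k⁻¹) * (k * c * k⁻¹) := by
    rw [e1, commutatorElement_def]
    group
  rw [e2, cent_conj (comm_center hc h hcm), cpsi_aux (comm_center hc h hcm)]

theorem exists_gen (hab : Subgroup.closure {a, b} = ⊤) (k : Q) :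
    ∃ d : Fin 2 → ℤ, (gen a b d)⁻¹ * k ∈ derivedSeries Q 1 := by
  have h1 : (Abelianization.of k : Abelianization Q) ∈
      Subgroup.closure {(Abelianization.of a : Abelianization Q), Abelianization.of b} := by
    have h2 : Subgroup.map (Abelianization.of : Q →* Abelianization Q) (Subgroup.closure {a, b}) =
        Subgroup.closure {(Abelianization.of a : Abelianization Q), Abelianization.of b} := by
      rw [MonoidHom.map_closure, Set.image_pair]
    rw [← h2]
    exact Subgroup.mem_map_of_mem _ (hab ▸ Subgroup.mem_top k)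
  rw [Subgroup.mem_closure_pair] at h1
  obtain ⟨m, n, h⟩ := h1
  refine ⟨![m, n], ?_⟩
  have h3 : (Abelianization.of ((gen a b ![m, n])⁻¹ * k) : Abelianization Q) = 1 := by
    rw [map_mul, map_inv, gen, map_mul, map_zpow, map_zpow]
    simp only [Matrix.cons_val_zero, Matrix.cons_val_one]
    rw [h, inv_mul_cancel]
  rw [derivedSeries_one]
  have h4 := (MonoidHom.mem_ker (f := (Abelianization.of : Q →* Abelianization Q))).2 h3
  rwa [Abelianization.ker_of] at h4

theorem gen_neg (d : Fin 2 → ℤ) : (gen a b (-d))⁻¹ * (gen a b d)⁻¹ ∈ derivedSeries Q 1 := by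
  have h3 : (Abelianization.of ((gen a b (-d))⁻¹ * (gen a b d)⁻¹) : Abelianization Q) = 1 := by
    simp only [gen, map_mul, map_inv, map_zpow, Pi.neg_apply, zpow_neg, mul_inv_rev, inv_inv]
    rw [← mul_inv_rev, mul_comm (Abelianization.of b ^ d 1), mul_inv_cancel]
  rw [derivedSeries_one]
  have h4 := (MonoidHom.mem_ker (f := (Abelianization.of : Q →* Abelianization Q))).2 h3
  rwa [Abelianization.ker_of] at h4

theorem Psi_zero : Psi a b 0 = 1 := by
  simp [Psi, gen]

theorem Psi_neg (d : Fin 2 → ℤ) : Psi a b (-d) = (Psi a b d)⁻¹ := by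
  have hcm : ⁅a, b⁆ ∈ derivedSeries Q 1 := comm_mem_derived hc a b
  have h1 : Psi a b (-d) = ⁅⁅a, b⁆, (gen a b d)⁻¹ * ⁅a, b⁆ * ((gen a b d)⁻¹)⁻¹⁆ :=
    (psi_congr hc hcm (gen_neg hc d)).symm
  rw [h1, Psi, commutatorElement_inv]
  generalize gen a b d = g
  generalize ⁅a, b⁆ = c at hcm ⊢
  have e : ⁅g * c * g⁻¹, c⁆ = g * ⁅c, g⁻¹ * c * (g⁻¹)⁻¹⁆ * g⁻¹ := by
    rw [conjugate_commutatorElement]
    congr 1
    group
  rw [e, cent_conj (comm_center hc hcm (conj_mem_derived hc _ hcm))]

/-- The half plane. -/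
def Pos (d : Fin 2 → ℤ) : Prop := 0 < d 0 ∨ (d 0 = 0 ∧ 0 < d 1)

omit hc in
theorem pos_cases (d : Fin 2 → ℤ) : d = 0 ∨ Pos d ∨ Pos (-d) := by
  by_cases h0 : d 0 = 0
  · by_cases h1 : d 1 = 0
    · left
      funext i
      fin_cases i
      · exact h0
      · exact h1
    · right
      simp only [Pos, Pi.neg_apply]
      omega
  · right
    simp only [Pos, Pi.neg_apply]
    omega

/-- The second derived group is generated by the basic commutators in the half plane. -/
theorem derived_two_closure (hab : Subgroup.closure {a, b} = ⊤) :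
    derivedSeries Q 2 ≤ Subgroup.closure (Set.range fun d : {d : Fin 2 → ℤ // Pos d} =>
      Psi a b d.1) := by
  set E := Subgroup.closure (Set.range fun d : {d : Fin 2 → ℤ // Pos d} => Psi a b d.1) with hE
  have hall : ∀ d, Psi a b d ∈ E := by
    intro d
    rcases pos_cases d with rfl | h | h
    · rw [Psi_zero hc]; exact one_mem _
    · exact Subgroup.subset_closure ⟨⟨d, h⟩, rfl⟩
    · have h2 : Psi a b (-d) ∈ E := Subgroup.subset_closure ⟨⟨-d, h⟩, rfl⟩
      rw [Psi_neg hc] at h2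
      exact inv_mem_iff.1 h2
  have hcm : ⁅a, b⁆ ∈ derivedSeries Q 1 := comm_mem_derived hc a b
  rw [derivedSeries_succ, Subgroup.commutator_le]
  intro u hu v hv
  refine (Subgroup.closure_le _).2 ?_ (comm_closure hc hab hu hv)
  rintro _ ⟨k, rfl⟩
  obtain ⟨d, hd⟩ := exists_gen hc hab k
  rw [psi_congr hc hcm hd]
  exact hall d

end

end Pool.Agent.RFG43
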