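import Mathlib

/-! Heisenberg groups with a torus: the matrices `[[1, x, z], [0, t, y], [0, 0, 1]]`. -/

set_option autoImplicit false

open scoped commutatorElement

namespace Pool.Agent.RFG43

/-- The matrix `[[1, x, z], [0, t, y], [0, 0, 1]]`. -/
@[ext] structure Hs (R : Type) [CommRing R] where
  t : Rˣ
  x : R
  y : R
  z : R

namespace Hs

variable {R : Type} [CommRing R]

instance : Mul (Hs R) :=
  ⟨fun g h => ⟨g.t * h.t, h.x + g.x * h.t, g.t * h.y + g.y, h.z + g.x * h.y + g.z⟩⟩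

instance : One (Hs R) := ⟨⟨1, 0, 0, 0⟩⟩

instance : Inv (Hs R) :=
  ⟨fun g => ⟨g.t⁻¹, -(g.x * (g.t⁻¹ : Rˣ)), -((g.t⁻¹ : Rˣ) * g.y),
    -g.z + g.x * (g.t⁻¹ : Rˣ) * g.y⟩⟩

@[simp] theorem mul_t (g h : Hs R) : (g * h).t = g.t * h.t := rfl
@[simp] theorem mul_x (g h : Hs R) : (g * h).x = h.x + g.x * h.t := rfl
@[simp] theorem mul_y (g h : Hs R) : (g * h).y = g.t * h.y + g.y := rfl
@[simp] theorem mul_z (g h : Hs R) : (g * h).z = h.z + g.x * h.y + g.z := rfl
@[simp] theorem one_t : (1 : Hs R).t = 1 := rfl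
@[simp] theorem one_x : (1 : Hs R).x = 0 := rfl
@[simp] theorem one_y : (1 : Hs R).y = 0 := rfl
@[simp] theorem one_z : (1 : Hs R).z = 0 := rfl
@[simp] theorem inv_t (g : Hs R) : (g⁻¹).t = g.t⁻¹ := rfl
@[simp] theorem inv_x (g : Hs R) : (g⁻¹).x = -(g.x * (g.t⁻¹ : Rˣ)) := rfl
@[simp] theorem inv_y (g : Hs R) : (g⁻¹).y = -((g.t⁻¹ : Rˣ) * g.y) := rfl
@[simp] theorem inv_z (g : Hs R) : (g⁻¹).z = -g.z + g.x * (g.t⁻¹ : Rˣ) * g.y := rfl

instance : Group (Hs R) :=
  Group.ofLeftAxioms
    (fun a b c => by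
      ext
      · simp [mul_assoc]
      · simp; ring
      · simp; ring
      · simp; ring)
    (fun a => by ext <;> simp)
    (fun a => by
      ext
      · simp
      · simp
      · simp
      · simp; ring)

/-- The map induced by a ring homomorphism. -/
def map {S : Type} [CommRing S] (f : R →+* S) : Hs R →* Hs S where
  toFun g := ⟨Units.map f g.t, f g.x, f g.y, f g.z⟩
  map_one' := by ext <;> simp
  map_mul' g h := by ext <;> simp

theorem map_z {S : Type} [CommRing S] (f : R →+* S) (g : Hs R) : (map f g).z = f g.z := rfl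

/-- The diagonal entry. -/
def tHom : Hs R →* Rˣ where
  toFun g := g.t
  map_one' := rfl
  map_mul' _ _ := rfl

/-- conjugation acts on the kernel of `tHom`. -/
theorem conj_x (g u : Hs R) (hu : u.t = 1) : (g * u * g⁻¹).x = u.x * (g.t⁻¹ : Rˣ) := by
  simp [hu]
  ring

theorem conj_y (g u : Hs R) (hu : u.t = 1) : (g * u * g⁻¹).y = g.t * u.y := by
  simp [hu]

theorem conj_t (g u : Hs R) (hu : u.t = 1) : (g * u * g⁻¹).t = 1 := by
  simp [hu]

theorem comm_t (g h : Hs R) : ⁅g, h⁆.t = 1 := by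
  have : tHom ⁅g, h⁆ = 1 := by
    rw [map_commutatorElement, commutatorElement_eq_one_iff_mul_comm, mul_comm]
  exact this

theorem comm_x {u v : Hs R} (hu : u.t = 1) (hv : v.t = 1) : ⁅u, v⁆.x = 0 := by
  simp [commutatorElement_def, hu, hv]

theorem comm_y {u v : Hs R} (hu : u.t = 1) (hv : v.t = 1) : ⁅u, v⁆.y = 0 := by
  simp [commutatorElement_def, hu, hv]

theorem comm_z {u v : Hs R} (hu : u.t = 1) (hv : v.t = 1) :
    ⁅u, v⁆.z = u.x * v.y - v.x * u.y := by
  simp [commutatorElement_def, hu, hv]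
  ring

/-- The centre: `t = 1`, `x = y = 0`. -/
theorem central {u : Hs R} (ht : u.t = 1) (hx : u.x = 0) (hy : u.y = 0) (g : Hs R) :
    g * u = u * g := by
  ext
  · simp [ht]
  · simp [ht, hx]
  · simp [ht, hy]
  · simp [hx, hy]; ring

/-- The central elements. -/
def zin : Multiplicative R →* Hs R where
  toFun z := ⟨1, 0, 0, Multiplicative.toAdd z⟩
  map_one' := by ext <;> simp
  map_mul' g h := by
    ext
    · simp
    · simp
    · simp
    · simp [add_comm]

theorem zin_z (z : Multiplicative R) : (zin z).z = Multiplicative.toAdd z := rfl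

/-- The central elements as a subgroup. -/
def cen : Subgroup (Hs R) where
  carrier := {u | u.t = 1 ∧ u.x = 0 ∧ u.y = 0}
  mul_mem' := by
    rintro u v ⟨h1, h2, h3⟩ ⟨h4, h5, h6⟩
    refine ⟨?_, ?_, ?_⟩ <;> simp [*]
  one_mem' := ⟨rfl, rfl, rfl⟩
  inv_mem' := by
    rintro u ⟨h1, h2, h3⟩
    refine ⟨?_, ?_, ?_⟩ <;> simp [*]

theorem derived_one_le : derivedSeries (Hs R) 1 ≤ (tHom : Hs R →* Rˣ).ker := by
  rw [derivedSeries_one, commutator_def, Subgroup.commutator_le]
  intro g _ h _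
  exact comm_t g h

theorem derived_two_le : derivedSeries (Hs R) 2 ≤ cen := by
  rw [derivedSeries_succ, Subgroup.commutator_le]
  intro g hg h hh
  have hg' : g.t = 1 := derived_one_le hg
  have hh' : h.t = 1 := derived_one_le hh
  exact ⟨comm_t g h, comm_x hg' hh', comm_y hg' hh'⟩

/-- Homomorphisms to `Hs R` kill `[G'', G]`. -/
theorem kills {G : Type} [Group G] (f : G →* Hs R) (x : G)
    (hx : x ∈ ⁅derivedSeries G 2, (⊤ : Subgroup G)⁆) : f x = 1 := by
  have h : ⁅derivedSeries G 2, (⊤ : Subgroup G)⁆ ≤ f.ker := by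
    rw [Subgroup.commutator_le]
    intro g hg h _
    rw [MonoidHom.mem_ker, map_commutatorElement, commutatorElement_eq_one_iff_mul_comm]
    have h1 : f g ∈ derivedSeries (Hs R) 2 :=
      (map_derivedSeries_le_derivedSeries f 2) (Subgroup.mem_map_of_mem f hg)
    obtain ⟨a, b, c⟩ := derived_two_le h1
    exact (central a b c (f h)).symm
  exact h hx

theorem card_le [Finite R] : Finite (Hs R) ∧ Nat.card (Hs R) ≤ Nat.card R ^ 4 := by
  let f : Hs R → R × R × R × R := fun g => (g.t, g.x, g.y, g.z)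
  have hf : Function.Injective f := by
    intro g h e
    simp only [f, Prod.mk.injEq] at e
    obtain ⟨e1, e2, e3, e4⟩ := e
    exact Hs.ext (Units.ext e1) e2 e3 e4
  have hfin : Finite (Hs R) := Finite.of_injective f hf
  refine ⟨hfin, ?_⟩
  have h := Nat.card_le_card_of_injective f hf
  rw [Nat.card_prod, Nat.card_prod, Nat.card_prod] at h
  refine h.trans (le_of_eq ?_)
  ring

end Hs

end Pool.Agent.RFG43
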