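import Mathlib
import Pool.Agent.RFG43.CtHeis
import Pool.Agent.RFG43.CtGen

/-! The representation of a free group of rank two over Laurent polynomials, and its size. -/

set_option autoImplicit false

open scoped commutatorElement

namespace Pool.Agent.RFG43

/-- Laurent polynomials in two variables. -/
abbrev L : Type := AddMonoidAlgebra ℤ (Fin 2 → ℤ)

/-- The monomial `X ^ d`. -/
noncomputable def mn (d : Fin 2 → ℤ) : L := AddMonoidAlgebra.single d 1

theorem mn_zero : mn 0 = 1 := rfl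

theorem mn_mul (d e : Fin 2 → ℤ) : mn d * mn e = mn (d + e) := by
  simp [mn, AddMonoidAlgebra.single_mul_single]

/-- The monomial `X ^ d` as a unit. -/
noncomputable def mu : Multiplicative (Fin 2 → ℤ) →* Lˣ where
  toFun d := ⟨mn d.toAdd, mn (-d.toAdd), by rw [mn_mul, add_neg_cancel, mn_zero],
    by rw [mn_mul, neg_add_cancel, mn_zero]⟩
  map_one' := by
    ext1
    exact mn_zero
  map_mul' d e := by
    ext1
    exact (mn_mul _ _).symm

theorem mu_val (d : Fin 2 → ℤ) : ((mu (.ofAdd d) : Lˣ) : L) = mn d := rfl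

theorem mu_inv (d : Fin 2 → ℤ) : (((mu (.ofAdd d))⁻¹ : Lˣ) : L) = mn (-d) := rfl

/-- The two matrices. -/
noncomputable def let2 : Fin 2 → Hs L :=
  ![⟨mu (.ofAdd ![1, 0]), 1, 1, 0⟩, ⟨mu (.ofAdd ![0, 1]), 0, 0, 0⟩]

theorem mu_zpow (d : Fin 2 → ℤ) (k : ℤ) : mu (.ofAdd d) ^ k = mu (.ofAdd (k • d)) := by
  rw [ofAdd_zsmul, map_zpow]

theorem let2_t (d : Fin 2 → ℤ) : ((let2 0) ^ (d 0) * (let2 1) ^ (d 1)).t = mu (.ofAdd d) := by
  have h : (Hs.tHom ((let2 0) ^ (d 0) * (let2 1) ^ (d 1)) : Lˣ) = mu (.ofAdd d) := by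
    rw [map_mul, map_zpow, map_zpow]
    have h0 : Hs.tHom (let2 0) = mu (.ofAdd ![1, 0]) := rfl
    have h1 : Hs.tHom (let2 1) = mu (.ofAdd ![0, 1]) := rfl
    rw [h0, h1, mu_zpow, mu_zpow, ← map_mul, ← ofAdd_add]
    congr 2
    funext i
    fin_cases i
    · simp
    · simp
  exact h

theorem let2_zero : let2 0 = ⟨mu (.ofAdd ![1, 0]), 1, 1, 0⟩ := rfl

theorem let2_one : let2 1 = ⟨mu (.ofAdd ![0, 1]), 0, 0, 0⟩ := rfl

theorem mn_neg (d : Fin 2 → ℤ) : mn d * mn (-d) = 1 := by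
  rw [mn_mul, add_neg_cancel, mn_zero]

theorem mn_injective : Function.Injective mn :=
  AddMonoidAlgebra.single_left_injective one_ne_zero

theorem comm_let_x : ⁅let2 0, let2 1⁆.x = mn (-![1, 0]) - mn (-![1, 0] + -![0, 1]) := by
  rw [commutatorElement_def, let2_zero, let2_one]
  simp only [Hs.mul_x, Hs.inv_x, Hs.inv_t, mu_inv, mu_val, zero_mul, zero_add,
    neg_zero, one_mul]
  rw [← mn_mul]
  linear_combination (mn (-![1, 0])) * mn_neg ![0, 1]

theorem comm_let_y : ⁅let2 0, let2 1⁆.y = 1 - mn ![0, 1] := by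
  rw [commutatorElement_def, let2_zero, let2_one]
  simp only [Hs.mul_y, Hs.inv_y, Hs.mul_t, Hs.inv_t, mu_inv, mu_val, mul_zero, zero_add,
    neg_zero, Units.val_mul]
  linear_combination (-(mn ![0, 1])) * mn_neg ![1, 0]

/-- The factor `κ`. -/
noncomputable def kap : L := ⁅let2 0, let2 1⁆.x * ⁅let2 0, let2 1⁆.y

theorem kap_ne_zero : kap ≠ 0 := by
  rw [kap, comm_let_x, comm_let_y]
  refine mul_ne_zero ?_ ?_
  · rw [sub_ne_zero]
    intro h
    have h2 := congrFun (mn_injective h) 1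
    simp at h2
  · rw [sub_ne_zero, ← mn_zero]
    intro h
    have h2 := congrFun (mn_injective h) 1
    simp at h2

theorem Psi_let (d : Fin 2 → ℤ) :
    Psi (let2 0) (let2 1) d = Hs.zin (.ofAdd (kap * (mn d - mn (-d)))) := by
  set c := ⁅let2 0, let2 1⁆ with hc
  have ht : c.t = 1 := Hs.comm_t _ _
  have hg : (gen (let2 0) (let2 1) d).t = mu (.ofAdd d) := let2_t d
  rw [Psi, ← hc]
  have h1 := Hs.conj_t (gen (let2 0) (let2 1) d) c ht
  have h2 := Hs.conj_x (gen (let2 0) (let2 1) d) c ht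
  have h3 := Hs.conj_y (gen (let2 0) (let2 1) d) c ht
  ext1
  · rw [Hs.comm_t]; rfl
  · rw [Hs.comm_x ht h1]; rfl
  · rw [Hs.comm_y ht h1]; rfl
  · rw [Hs.comm_z ht h1, h2, h3, Hs.zin_z, toAdd_ofAdd, hg, mu_inv, mu_val, kap, ← hc]
    ring

end Pool.Agent.RFG43
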