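import Mathlib
import Pool.Agent.RFG43.CtPoly

/-! The size of the representation over Laurent polynomials on short words. -/

set_option autoImplicit false

namespace Pool.Agent.RFG43

/-- A monomial with coefficient. -/
noncomputable def sg (p : (Fin 2 → ℤ) × ℤ) : L := AddMonoidAlgebra.single p.1 p.2

/-- `f` is a sum of at most `k` monomials with coefficients in `[-1, 1]` and exponents in
`[-m, m]`. -/
def Rep (m k : ℕ) (f : L) : Prop :=
  ∃ l : List ((Fin 2 → ℤ) × ℤ), l.length ≤ k ∧ (∀ p ∈ l, |p.2| ≤ 1 ∧ ∀ j, |p.1 j| ≤ m) ∧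
    f = (l.map sg).sum

/-- A monomial with exponents and coefficient in `[-1, 1]`. -/
def Mo (f : L) : Prop := ∃ p : (Fin 2 → ℤ) × ℤ, |p.2| ≤ 1 ∧ (∀ j, |p.1 j| ≤ 1) ∧ f = sg p

theorem Rep.zero (m : ℕ) : Rep m 0 0 := ⟨[], le_refl _, by simp, by simp⟩

theorem Mo.rep {f : L} (h : Mo f) : Rep 1 1 f := by
  obtain ⟨p, h1, h2, h3⟩ := h
  refine ⟨[p], le_refl _, ?_, by simp [h3]⟩
  intro q hq
  rw [List.mem_singleton] at hq
  subst hq
  exact ⟨h1, by exact_mod_cast h2⟩

theorem Rep.mono {m k m' k' : ℕ} {f : L} (h : Rep m k f) (hm : m ≤ m') (hk : k ≤ k') :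
    Rep m' k' f := by
  obtain ⟨l, h1, h2, h3⟩ := h
  have hm' : (m : ℤ) ≤ m' := by exact_mod_cast hm
  exact ⟨l, h1.trans hk, fun p hp => ⟨(h2 p hp).1, fun j => ((h2 p hp).2 j).trans hm'⟩, h3⟩

theorem Rep.add {m k k' : ℕ} {f g : L} (h : Rep m k f) (h' : Rep m k' g) :
    Rep m (k + k') (f + g) := by
  obtain ⟨l, h1, h2, h3⟩ := h
  obtain ⟨l', h1', h2', h3'⟩ := h'
  refine ⟨l ++ l', ?_, ?_, ?_⟩
  · rw [List.length_append]; omega
  · intro p hp
    rcases List.mem_append.1 hp with hp | hp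
    · exact h2 p hp
    · exact h2' p hp
  · rw [List.map_append, List.sum_append, h3, h3']

theorem sg_mul (p q : (Fin 2 → ℤ) × ℤ) : sg p * sg q = sg (p.1 + q.1, p.2 * q.2) := by
  simp [sg, AddMonoidAlgebra.single_mul_single]

theorem Rep.mo_mul {m k : ℕ} {f g : L} (h : Rep m k f) (hg : Mo g) : Rep (m + 1) k (g * f) := by
  obtain ⟨l, h1, h2, h3⟩ := h
  obtain ⟨p, h4, h5, h6⟩ := hg
  refine ⟨l.map fun q => (p.1 + q.1, p.2 * q.2), ?_, ?_, ?_⟩
  · rw [List.length_map]; exact h1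
  · intro q hq
    obtain ⟨r, hr, rfl⟩ := List.mem_map.1 hq
    obtain ⟨h7, h8⟩ := h2 r hr
    refine ⟨?_, fun j => ?_⟩
    · show |p.2 * r.2| ≤ 1
      rw [abs_mul]
      exact mul_le_one₀ h4 (abs_nonneg _) h7
    · show |(p.1 + r.1) j| ≤ _
      rw [Pi.add_apply]
      have h9 := h8 j
      have h10 := h5 j
      have h11 := abs_add_le (p.1 j) (r.1 j)
      push_cast
      linarith
  · rw [h6, h3, List.map_map, ← List.sum_map_mul_left]
    congr 1
    apply List.map_congr_left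
    intro q _
    exact sg_mul p q

theorem Rep.bound {m k : ℕ} {f : L} (h : Rep m k f) :
    (∀ x, f.coeff x ≠ 0 → ∀ j, |x j| ≤ m) ∧ ∀ T : Finset (Fin 2 → ℤ),
      ∑ x ∈ T, |f.coeff x| ≤ k := by
  classical
  obtain ⟨l, h1, h2, rfl⟩ := h
  have key : (∀ x, (l.map sg).sum.coeff x ≠ 0 → ∀ j, |x j| ≤ m) ∧
      ∀ T : Finset (Fin 2 → ℤ), ∑ x ∈ T, |(l.map sg).sum.coeff x| ≤ l.length := by
    clear h1
    induction l with
    | nil => simp
    | cons p l ih =>
      obtain ⟨ih1, ih2⟩ := ih fun q hq => h2 q (List.mem_cons_of_mem _ hq)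
      obtain ⟨h3, h4⟩ := h2 p List.mem_cons_self
      have e : ∀ x, ((p :: l).map sg).sum.coeff x =
          (if p.1 = x then p.2 else 0) + (l.map sg).sum.coeff x := by
        intro x
        rw [List.map_cons, List.sum_cons, AddMonoidAlgebra.coeff_add, Finsupp.add_apply, sg,
          AddMonoidAlgebra.coeff_single, Finsupp.single_apply]
      refine ⟨?_, ?_⟩
      · intro x hx
        rw [e] at hx
        by_cases hp : p.1 = x
        · rw [← hp]; exact h4
        · rw [if_neg hp, zero_add] at hx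
          exact ih1 x hx
      · intro T
        calc ∑ x ∈ T, |((p :: l).map sg).sum.coeff x|
            ≤ ∑ x ∈ T, ((if p.1 = x then |p.2| else 0) + |(l.map sg).sum.coeff x|) := by
              apply Finset.sum_le_sum
              intro x _
              rw [e]
              refine (abs_add_le _ _).trans (add_le_add_left ?_ _)
              split_ifs <;> simp
          _ = (∑ x ∈ T, if p.1 = x then |p.2| else 0) + ∑ x ∈ T, |(l.map sg).sum.coeff x| :=
              Finset.sum_add_distrib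
          _ ≤ 1 + l.length := by
              refine add_le_add ?_ (ih2 T)
              rw [Finset.sum_ite_eq]
              split_ifs
              · exact h3
              · exact zero_le_one
          _ = ((p :: l).length : ℤ) := by
              rw [List.length_cons]; push_cast; ring
  refine ⟨key.1, fun T => (key.2 T).trans ?_⟩
  exact_mod_cast h1

/-- The letters. -/
noncomputable def lt (x : Fin 2 × Bool) : Hs L := cond x.2 (let2 x.1) (let2 x.1)⁻¹

theorem mo_zero : Mo 0 := ⟨(0, 0), by simp, by simp, by simp [sg]⟩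

theorem mo_one : Mo 1 := ⟨(0, 1), by simp, by simp, rfl⟩

theorem mo_mn {d : Fin 2 → ℤ} (h : ∀ j, |d j| ≤ 1) : Mo (mn d) := ⟨(d, 1), by simp, h, rfl⟩

theorem mo_neg {f : L} (h : Mo f) : Mo (-f) := by
  obtain ⟨p, h4, h5, h6⟩ := h
  refine ⟨(p.1, -p.2), by simpa using h4, h5, ?_⟩
  rw [h6, neg_eq_iff_add_eq_zero]
  simp only [sg]
  rw [← AddMonoidAlgebra.single_add, add_neg_cancel, AddMonoidAlgebra.single_zero]

theorem lt_mo (x : Fin 2 × Bool) : Mo ((lt x).t : L) ∧ Mo (lt x).x ∧ Mo (lt x).y ∧ Mo (lt x).z := by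
  have e1 : ∀ j, |(![1, 0] : Fin 2 → ℤ) j| ≤ 1 := by
    intro j; fin_cases j <;> simp
  have e2 : ∀ j, |(![0, 1] : Fin 2 → ℤ) j| ≤ 1 := by
    intro j; fin_cases j <;> simp
  have e3 : ∀ j, |(-![1, 0] : Fin 2 → ℤ) j| ≤ 1 := by
    intro j; fin_cases j <;> simp
  have e4 : ∀ j, |(-![0, 1] : Fin 2 → ℤ) j| ≤ 1 := by
    intro j; fin_cases j <;> simp
  obtain ⟨i, s⟩ := x
  fin_cases i <;> cases s
  · refine ⟨mo_mn e3, ?_, ?_, ?_⟩
    · show Mo (-(1 * mn (-![1, 0])))
      rw [one_mul]; exact mo_neg (mo_mn e3)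
    · show Mo (-(mn (-![1, 0]) * 1))
      rw [mul_one]; exact mo_neg (mo_mn e3)
    · show Mo (-0 + 1 * mn (-![1, 0]) * 1)
      rw [mul_one, one_mul, neg_zero, zero_add]; exact mo_mn e3
  · exact ⟨mo_mn e1, mo_one, mo_one, mo_zero⟩
  · refine ⟨mo_mn e4, ?_, ?_, ?_⟩
    · show Mo (-(0 * mn (-![0, 1])))
      rw [zero_mul, neg_zero]; exact mo_zero
    · show Mo (-(mn (-![0, 1]) * 0))
      rw [mul_zero, neg_zero]; exact mo_zero
    · show Mo (-0 + 0 * mn (-![0, 1]) * 0)
      rw [mul_zero, neg_zero, zero_add]; exact mo_zero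
  · exact ⟨mo_mn e2, mo_zero, mo_zero, mo_zero⟩

theorem rep_word (w : List (Fin 2 × Bool)) :
    Rep w.length w.length (w.map lt).prod.y ∧ Rep w.length (w.length ^ 2) (w.map lt).prod.z := by
  induction w with
  | nil => exact ⟨Rep.zero 0, Rep.zero 0⟩
  | cons x w ih =>
    obtain ⟨ih1, ih2⟩ := ih
    obtain ⟨h1, h2, h3, h4⟩ := lt_mo x
    rw [List.map_cons, List.prod_cons, Hs.mul_y, Hs.mul_z, List.length_cons]
    set n := w.length
    refine ⟨(ih1.mo_mul h1).add (h3.rep.mono (by omega) le_rfl), ?_⟩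
    have h5 := ((ih2.mono (Nat.le_succ n) le_rfl).add (ih1.mo_mul h2)).add
      (h4.rep.mono (by omega : 1 ≤ n + 1) le_rfl)
    exact h5.mono le_rfl (by nlinarith)

end Pool.Agent.RFG43
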