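import Mathlib
import Pool.Agent.RFG43.CtPoly

/-! The representation over Laurent polynomials detects the second derived group modulo
`[G'', G]`. -/

set_option autoImplicit false

open scoped commutatorElement

namespace Pool.Agent.RFG43

/-- The half plane as an index type. -/
abbrev PD : Type := {d : Fin 2 → ℤ // Pos d}

/-- `n ↦ ∑ n_d (X ^ d - X ^ (-d))`. -/
noncomputable def Th : (PD →₀ ℤ) →+ L :=
  Finsupp.liftAddHom fun d => zmultiplesHom L (mn d.1 - mn (-d.1))

theorem Th_single (d : PD) (m : ℤ) : Th (Finsupp.single d m) = m • (mn d.1 - mn (-d.1)) := by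
  simp [Th]

/-- The coefficient of `f` at `d` as a map. -/
def cf (d : Fin 2 → ℤ) (f : L) : ℤ := f.coeff d

theorem cf_zero (d : Fin 2 → ℤ) : cf d 0 = 0 := rfl

theorem cf_add (d : Fin 2 → ℤ) (f g : L) : cf d (f + g) = cf d f + cf d g := rfl

theorem cf_smul (d : Fin 2 → ℤ) (m : ℤ) (f : L) : cf d (m • f) = m * cf d f := by
  let F : L →+ ℤ := ⟨⟨cf d, cf_zero d⟩, cf_add d⟩
  have h := map_zsmul F m f
  rwa [smul_eq_mul] at h

theorem cf_sub (d : Fin 2 → ℤ) (f g : L) : cf d (f - g) = cf d f - cf d g := by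
  have h := cf_add d (f - g) g
  rw [sub_add_cancel] at h
  linarith

theorem cf_mn (d e : Fin 2 → ℤ) : cf d (mn e) = if e = d then 1 else 0 := by
  classical
  simp [cf, mn, Finsupp.single_apply]

theorem Th_coeff (n : PD →₀ ℤ) (d : PD) : cf d.1 (Th n) = n d := by
  classical
  induction n using Finsupp.induction_linear with
  | zero => simp [cf_zero]
  | add f g hf hg => rw [map_add, cf_add, hf, hg]; rfl
  | single e m =>
    have hne : -e.1 ≠ d.1 := by
      intro h
      have h1 := e.2
      have h2 := d.2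
      rw [← h] at h2
      simp only [Pos, Pi.neg_apply] at h1 h2
      omega
    rw [Th_single, cf_smul, cf_sub, cf_mn, cf_mn, if_neg hne, Finsupp.single_apply]
    by_cases h : e = d
    · subst h; simp
    · have h' : e.1 ≠ d.1 := fun h2 => h (Subtype.ext h2)
      simp [h, h']

theorem Th_ne_zero {n : PD →₀ ℤ} (hn : n ≠ 0) : Th n ≠ 0 := by
  intro h
  apply hn
  ext d
  rw [← Th_coeff, h]
  rfl

section

variable {Q : Type} [Group Q] {a b : Q}

theorem Psi_mem (d : Fin 2 → ℤ) : Psi a b d ∈ derivedSeries Q 2 := by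
  have h : ⁅a, b⁆ ∈ derivedSeries Q 1 := by
    rw [derivedSeries_one]
    exact Subgroup.commutator_mem_commutator (Subgroup.mem_top a) (Subgroup.mem_top b)
  rw [derivedSeries_succ]
  exact Subgroup.commutator_mem_commutator h ((derivedSeries_normal Q 1).conj_mem _ h _)

theorem map_Psi {P : Type} [Group P] (r : Q →* P) (d : Fin 2 → ℤ) :
    r (Psi a b d) = Psi (r a) (r b) d := by
  simp only [Psi, gen, map_commutatorElement, map_mul, map_inv, map_zpow]

end

section

variable {Z : Type} [CommGroup Z] (ψ : PD → Z)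

/-- Products of powers. -/
noncomputable def phi (n : PD →₀ ℤ) : Z := n.prod fun d m => ψ d ^ m

theorem phi_zero : phi ψ 0 = 1 := Finsupp.prod_zero_index

theorem phi_add (m n : PD →₀ ℤ) : phi ψ (m + n) = phi ψ m * phi ψ n := by
  classical
  exact Finsupp.prod_add_index' (fun d => zpow_zero _) (fun d m1 m2 => zpow_add _ _ _)

theorem phi_single (d : PD) (m : ℤ) : phi ψ (Finsupp.single d m) = ψ d ^ m :=
  Finsupp.prod_single_index (zpow_zero _)

theorem phi_neg (m : PD →₀ ℤ) : phi ψ (-m) = (phi ψ m)⁻¹ := by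
  have h := phi_add ψ (-m) m
  rw [neg_add_cancel, phi_zero] at h
  exact eq_inv_of_mul_eq_one_left h.symm

end

section

variable {Q : Type} [Group Q] {a b : Q} (hc : derivedSeries Q 2 ≤ Subgroup.center Q)

/-- The centre is commutative. -/
instance cenComm : CommGroup (Subgroup.center Q) :=
  { (inferInstance : Group (Subgroup.center Q)) with
    mul_comm := fun u v => Subtype.ext (Subgroup.mem_center_iff.1 v.2 u.1) }

variable (a b) in
/-- The basic commutators as elements of the centre. -/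
noncomputable def psc (hc : derivedSeries Q 2 ≤ Subgroup.center Q) (d : PD) :
    Subgroup.center Q := ⟨Psi a b d.1, hc (Psi_mem d.1)⟩

theorem phi_surj (hab : Subgroup.closure {a, b} = ⊤) {w : Q} (hw : w ∈ derivedSeries Q 2) :
    ∃ n : PD →₀ ℤ, ((phi (psc a b hc) n : Subgroup.center Q) : Q) = w := by
  have h := derived_two_closure hc hab hw
  induction h using Subgroup.closure_induction with
  | mem x hx =>
    obtain ⟨d, rfl⟩ := hx
    exact ⟨Finsupp.single d 1, by rw [phi_single, zpow_one]; rfl⟩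
  | one => exact ⟨0, by rw [phi_zero]; rfl⟩
  | mul x y hx hy h1 h2 =>
    have hle : Subgroup.closure (Set.range fun d : PD => Psi a b d.1) ≤ derivedSeries Q 2 := by
      rw [Subgroup.closure_le]
      rintro _ ⟨d, rfl⟩
      exact Psi_mem d.1
    obtain ⟨m, hm⟩ := h1 (hle hx)
    obtain ⟨n, hn⟩ := h2 (hle hy)
    exact ⟨m + n, by rw [phi_add, Subgroup.coe_mul, hm, hn]⟩
  | inv x hx h1 =>
    obtain ⟨m, hm⟩ := h1 (inv_mem_iff.1 hw)
    exact ⟨-m, by rw [phi_neg, Subgroup.coe_inv, hm]⟩

theorem rho_phi (r : Q →* Hs L) (ha : r a = let2 0) (hb : r b = let2 1) (n : PD →₀ ℤ) :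
    r (phi (psc a b hc) n : Subgroup.center Q) = Hs.zin (.ofAdd (kap * Th n)) := by
  induction n using Finsupp.induction_linear with
  | zero => rw [phi_zero, map_zero, mul_zero, ofAdd_zero, map_one, Subgroup.coe_one, map_one]
  | add f g hf hg =>
    rw [phi_add, Subgroup.coe_mul, map_mul, hf, hg, map_add, mul_add, ofAdd_add,
      map_mul Hs.zin]
  | single e m =>
    rw [phi_single, Subgroup.coe_zpow, psc, map_zpow, map_Psi, ha, hb, Psi_let, Th_single,
      mul_smul_comm, ofAdd_zsmul, map_zpow]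

include hc in
theorem z_ne_zero (hab : Subgroup.closure {a, b} = ⊤) (r : Q →* Hs L) (ha : r a = let2 0)
    (hb : r b = let2 1) {w : Q} (hw : w ∈ derivedSeries Q 2) (h1 : w ≠ 1) : (r w).z ≠ 0 := by
  obtain ⟨n, rfl⟩ := phi_surj hc hab hw
  have hn : n ≠ 0 := by
    rintro rfl
    exact h1 (by rw [phi_zero]; rfl)
  rw [rho_phi hc r ha hb, Hs.zin_z, toAdd_ofAdd]
  exact mul_ne_zero kap_ne_zero (Th_ne_zero hn)

end

/-- Elements of the second derived group outside `[G'', G]` are detected. -/
theorem rho_ne_zero {G : Type} [Group G] {a b : G} (hab : Subgroup.closure {a, b} = ⊤)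
    (r : G →* Hs L) (ha : r a = let2 0) (hb : r b = let2 1) {g : G}
    (hg : g ∈ derivedSeries G 2) (hg' : g ∉ ⁅derivedSeries G 2, (⊤ : Subgroup G)⁆) :
    (r g).z ≠ 0 := by
  set K := ⁅derivedSeries G 2, (⊤ : Subgroup G)⁆ with hK
  have hsurj : Function.Surjective (QuotientGroup.mk' K) := QuotientGroup.mk'_surjective K
  have hmap : Subgroup.map (QuotientGroup.mk' K) (derivedSeries G 2) =
      derivedSeries (G ⧸ K) 2 := map_derivedSeries_eq hsurj 2
  have hc : derivedSeries (G ⧸ K) 2 ≤ Subgroup.center (G ⧸ K) := by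
    rw [← hmap]
    rintro _ ⟨u, hu, rfl⟩
    rw [Subgroup.mem_center_iff]
    intro y
    obtain ⟨v, rfl⟩ := hsurj y
    have h : (QuotientGroup.mk' K) ⁅u, v⁆ = 1 :=
      (QuotientGroup.eq_one_iff _).2 (Subgroup.commutator_mem_commutator hu (Subgroup.mem_top v))
    rw [map_commutatorElement] at h
    exact (commutatorElement_eq_one_iff_mul_comm.1 h).symm
  let r' : G ⧸ K →* Hs L := QuotientGroup.lift K r fun x hx => Hs.kills r x hx
  have hab' : Subgroup.closure {QuotientGroup.mk' K a, QuotientGroup.mk' K b} = ⊤ := by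
    rw [← Set.image_pair, ← MonoidHom.map_closure, hab, ← MonoidHom.range_eq_map]
    exact MonoidHom.range_eq_top.2 hsurj
  have h1 : QuotientGroup.mk' K g ∈ derivedSeries (G ⧸ K) 2 :=
    hmap ▸ Subgroup.mem_map_of_mem _ hg
  have h2 : QuotientGroup.mk' K g ≠ 1 := fun h => hg' ((QuotientGroup.eq_one_iff _).1 h)
  exact z_ne_zero hc hab' r' ha hb h1 h2

end Pool.Agent.RFG43
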