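import Mathlib
import Pool.Agent.RFG43.Core
import Pool.Agent.RFG43.CtInj
import Pool.Agent.RFG43.CtBound

/-! Words in the second derived group, outside `[G'', G]`, survive in a finite quotient of a free
group of rank two of order at most `C n ^ (8 / 3 + ε)`. -/

set_option autoImplicit false

namespace Pool.Agent.RFG43

/-- The value of a monomial at a point. -/
noncomputable def monEv {p : ℕ} (a : Fin 2 → (ZMod p)ˣ) :
    Multiplicative (Fin 2 → ℤ) →* (ZMod p)ˣ where
  toFun d := ∏ j, a j ^ (d.toAdd j)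
  map_one' := by simp
  map_mul' d e := by simp [zpow_add, mul_mul_mul_comm]

/-- Evaluation of Laurent polynomials at a point modulo a prime. -/
noncomputable def evL {p : ℕ} (a : Fin 2 → (ZMod p)ˣ) : L →+* ZMod p :=
  (AddMonoidAlgebra.lift ℤ (ZMod p) (Fin 2 → ℤ)
    ((Units.coeHom (ZMod p)).comp (monEv a))).toRingHom

theorem evL_apply {p : ℕ} (a : Fin 2 → (ZMod p)ˣ) (f : L) : evL a f =
    f.coeff.sum fun x c => (c : ZMod p) * ((∏ j, a j ^ x j : (ZMod p)ˣ) : ZMod p) := by
  have h : evL a f = f.coeff.sum fun x c =>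
      c • ((Units.coeHom (ZMod p)).comp (monEv a)) (.ofAdd x) :=
    AddMonoidAlgebra.lift_apply _ _
  rw [h]
  apply Finsupp.sum_congr
  intro x _
  rw [zsmul_eq_mul]
  rfl

theorem closure_basis {G : Type} [Group G] (b : FreeGroupBasis (Fin 2) G) :
    Subgroup.closure {b 0, b 1} = ⊤ := by
  have h1 : (Set.range b : Set G) = {b 0, b 1} := by
    ext x
    simp only [Set.mem_range, Fin.exists_fin_two, Set.mem_insert_iff, Set.mem_singleton_iff]
    constructor
    · rintro (h | h)
      · exact Or.inl h.symm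
      · exact Or.inr h.symm
    · rintro (h | h)
      · exact Or.inl h.symm
      · exact Or.inr h.symm
  rw [← h1, eq_top_iff]
  intro x _
  have h2 : b.repr.symm (b.repr x) = x := b.repr.symm_apply_apply x
  rw [← h2]
  have h3 : ∀ y : FreeGroup (Fin 2), b.repr.symm y ∈ Subgroup.closure (Set.range b) := by
    intro y
    induction y using FreeGroup.induction_on with
    | C1 => rw [map_one]; exact one_mem _
    | of i => exact Subgroup.subset_closure ⟨i, rfl⟩
    | inv_of i _ =>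
      rw [map_inv]
      exact inv_mem (Subgroup.subset_closure ⟨i, rfl⟩)
    | mul x y hx hy => rw [map_mul]; exact mul_mem hx hy
  exact h3 _

/-- The representation. -/
noncomputable def rho {G : Type} [Group G] (b : FreeGroupBasis (Fin 2) G) : G →* Hs L :=
  (FreeGroup.lift let2).comp b.repr.toMonoidHom

theorem rho_basis {G : Type} [Group G] (b : FreeGroupBasis (Fin 2) G) (i : Fin 2) :
    rho b (b i) = let2 i := by
  show FreeGroup.lift let2 (b.repr (b i)) = let2 i
  rw [FreeGroupBasis.repr_apply_coe, FreeGroup.lift_apply_of]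

theorem rho_word {G : Type} [Group G] (b : FreeGroupBasis (Fin 2) G) (g : G) :
    rho b g = ((b.repr g).toWord.map lt).prod := by
  show FreeGroup.lift let2 (b.repr g) = _
  conv_lhs => rw [← FreeGroup.mk_toWord (x := b.repr g)]
  rw [FreeGroup.lift_mk]
  rfl

/-- Words in `G''` outside `[G'', G]` survive in a quotient of order at most
`C n ^ (8 / 3 + ε)` in which `[G'', G]` is trivial. -/
theorem center_bound (ε : ℝ) (hε : 0 < ε) : ∃ C : ℝ, 0 < C ∧
    ∀ (G : Type) [Group G] (b : FreeGroupBasis (Fin 2) G) (g : G),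
    g ∈ derivedSeries G 2 → g ∉ ⁅derivedSeries G 2, (⊤ : Subgroup G)⁆ →
    ∃ (Q : Type) (_ : Group Q) (π : G →* Q), Finite Q ∧ π g ≠ 1 ∧
      (∀ x ∈ ⁅derivedSeries G 2, (⊤ : Subgroup G)⁆, π x = 1) ∧
      (Nat.card Q : ℝ) ≤ C * ((b.repr g).norm : ℝ) ^ (8 / 3 + ε) := by
  obtain ⟨n0, hn0⟩ := exists_prime_eval (ε / 4) (by positivity) 2
  refine ⟨((n0 : ℝ) + 2) ^ (8 / 3 + ε), by positivity, ?_⟩
  intro G _ b g hg hg'
  have hz : (rho b g).z ≠ 0 :=
    rho_ne_zero (closure_basis b) (rho b) (rho_basis b 0) (rho_basis b 1) hg hg'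
  have hrep : Rep (b.repr g).norm ((b.repr g).norm ^ 2) (rho b g).z := by
    rw [rho_word]
    exact (rep_word _).2
  have hnorm : 1 ≤ (b.repr g).norm := by
    rw [Nat.one_le_iff_ne_zero]
    intro h
    rw [FreeGroup.norm_eq_zero] at h
    have h1 : g = 1 := by
      rw [← b.repr.map_eq_one_iff]
      exact h
    exact hg' (h1 ▸ one_mem _)
  set n := (b.repr g).norm with hn
  set f := (rho b g).z with hf
  obtain ⟨hb1, hb2⟩ := hrep.bound
  set N := max (2 * n) n0 with hN
  have hN1 : 2 * n ≤ N := le_max_left _ _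
  have hN1' : (2 * n : ℤ) ≤ N := by exact_mod_cast hN1
  have hNn : (N : ℝ) ≤ ((n0 : ℝ) + 2) * n := by
    have h1 : N ≤ (n0 + 2) * n := by
      rw [hN]
      apply max_le
      · nlinarith
      · nlinarith
    exact_mod_cast h1
  have hbox : ∀ x ∈ f.coeff.support, ∀ y ∈ f.coeff.support, ∀ j, |x j - y j| ≤ N := by
    intro x hx y hy j
    have h1 := hb1 x (Finsupp.mem_support_iff.1 hx) j
    have h2 := hb1 y (Finsupp.mem_support_iff.1 hy) j
    have h3 := abs_sub (x j) (y j)
    linarith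
  have hl1 : ∑ x ∈ f.coeff.support, |f.coeff x| ≤ (N : ℤ) ^ 2 := by
    refine (hb2 _).trans ?_
    have h1 : (n : ℤ) ≤ N := by
      have : (0 : ℤ) ≤ n := by positivity
      linarith
    push_cast
    exact pow_le_pow_left₀ (by positivity) h1 2
  have hfc : f.coeff ≠ 0 := by rwa [Ne, AddMonoidAlgebra.coeff_eq_zero]
  obtain ⟨p, hp, hpN, a, ha⟩ := hn0 N (le_max_right _ _) f.coeff hfc hbox hl1
  refine ⟨Hs (ZMod p), inferInstance, (Hs.map (evL a)).comp (rho b), ?_, ?_, ?_, ?_⟩
  · have : Finite (ZMod p) := by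
      have : NeZero p := ⟨hp.out.ne_zero⟩
      infer_instance
    exact Hs.card_le.1
  · intro h
    apply ha
    rw [← evL_apply]
    have h2 : ((Hs.map (evL a)).comp (rho b) g).z = 0 := by rw [h]; rfl
    exact h2
  · exact fun x hx => Hs.kills _ x hx
  · have : NeZero p := ⟨hp.out.ne_zero⟩
    have h1 : Nat.card (Hs (ZMod p)) ≤ p ^ 4 := by
      have := (Hs.card_le (R := ZMod p)).2
      rwa [Nat.card_zmod] at this
    have h2 : (Nat.card (Hs (ZMod p)) : ℝ) ≤ (p : ℝ) ^ 4 := by exact_mod_cast h1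
    have h3 : (p : ℝ) ^ 4 ≤ ((N : ℝ) ^ (2 / 3 + ε / 4)) ^ 4 :=
      pow_le_pow_left₀ (by positivity) hpN 4
    have h4 : ((N : ℝ) ^ (2 / 3 + ε / 4)) ^ 4 = (N : ℝ) ^ (8 / 3 + ε) := by
      rw [← Real.rpow_natCast, ← Real.rpow_mul (by positivity)]
      congr 1
      push_cast
      ring
    have h5 : (N : ℝ) ^ (8 / 3 + ε) ≤ (((n0 : ℝ) + 2) * n) ^ (8 / 3 + ε) :=
      Real.rpow_le_rpow (by positivity) hNn (by positivity)
    have h6 : (((n0 : ℝ) + 2) * n) ^ (8 / 3 + ε) =
        ((n0 : ℝ) + 2) ^ (8 / 3 + ε) * (n : ℝ) ^ (8 / 3 + ε) :=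
      Real.mul_rpow (by positivity) (by positivity)
    linarith

end Pool.Agent.RFG43
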