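import Mathlib

/-! Groups of class two: a product of powers is determined by the exponent sums and the second
order exponents; words in the kernel of a map of a free group to `ℤ`. -/

set_option autoImplicit false
set_option linter.unusedSectionVars false

open scoped commutatorElement IsMulCommutative

namespace Pool.Agent.RFG43.Cyc

section class2

variable {J H : Type} [DecidableEq J] [Group H]

theorem zpow_move {x y : H} (hx : ∀ z, ⁅x, y⁆ * z = z * ⁅x, y⁆) (a e : ℤ) :
    x ^ a * y ^ e = ⁅x, y⁆ ^ (e * a) * (y ^ e * x ^ a) := by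
  have hc : ∀ (m : ℤ) (z : H), ⁅x, y⁆ ^ m * z = z * ⁅x, y⁆ ^ m := fun m z => by
    have : Commute ⁅x, y⁆ z := hx z
    exact (this.zpow_left m).eq
  have h1 : x * y * x⁻¹ = ⁅x, y⁆ * y := by
    rw [commutatorElement_def]; group
  have h2 : x * y ^ e * x⁻¹ = ⁅x, y⁆ ^ e * y ^ e := by
    rw [← conj_zpow, h1]
    have : Commute ⁅x, y⁆ y := hx y
    exact this.mul_zpow e
  have h3 : (y ^ e)⁻¹ * x * ((y ^ e)⁻¹)⁻¹ = ⁅x, y⁆ ^ e * x := by
    have h4 : x * y ^ e = ⁅x, y⁆ ^ e * y ^ e * x := by
      rw [← h2]; group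
    rw [inv_inv, mul_assoc, h4, mul_assoc, hc e (y ^ e * x), mul_assoc, inv_mul_cancel_left,
      ← hc e x]
  have h5 : (y ^ e)⁻¹ * x ^ a * ((y ^ e)⁻¹)⁻¹ = ⁅x, y⁆ ^ (e * a) * x ^ a := by
    rw [← conj_zpow, h3]
    have : Commute (⁅x, y⁆ ^ e) x := hc e x
    rw [this.mul_zpow a, zpow_mul]
  rw [inv_inv] at h5
  have h6 : x ^ a * y ^ e = y ^ e * ((y ^ e)⁻¹ * x ^ a * y ^ e) := by group
  rw [h6, h5, ← mul_assoc, ← hc (e * a) (y ^ e), mul_assoc]

/-- The ordered product of the powers. -/
def sL (h : J → H) (a : J → ℤ) (L : List J) : H := (L.map fun i => h i ^ a i).prod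

theorem sL_cons (h : J → H) (a : J → ℤ) (i : J) (L : List J) :
    sL h a (i :: L) = h i ^ a i * sL h a L := by
  simp [sL]

/-- The product of the powers of the commutators. -/
def DL {Z : Type} [CommGroup Z] (c : J → J → Z) (β : J → J → ℤ) : List J → Z
  | [] => 1
  | i :: L => (L.map fun j => c j i ^ β j i).prod * DL c β L

theorem DL_add {Z : Type} [CommGroup Z] (c : J → J → Z) (β β' : J → J → ℤ) (L : List J) :
    DL c (β + β') L = DL c β L * DL c β' L := by
  induction L with
  | nil => simp [DL]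
  | cons i L ih =>
    rw [DL, DL, DL, ih]
    have h1 : (L.map fun j => c j i ^ (β + β') j i) =
        L.map fun j => c j i ^ β j i * c j i ^ β' j i := by
      apply List.map_congr_left
      intro j _
      rw [Pi.add_apply, Pi.add_apply, zpow_add]
    rw [h1, List.prod_map_mul, mul_mul_mul_comm]

theorem DL_eq_one {Z : Type} [CommGroup Z] (c : J → J → Z) (β : J → J → ℤ) (L : List J)
    (hL : L.Nodup) (hβ : ∀ j ∈ L, ∀ i ∈ L, j ≠ i → β j i = 0) : DL c β L = 1 := by
  induction L with
  | nil => rfl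
  | cons i L ih =>
    obtain ⟨h1, h2⟩ := List.nodup_cons.1 hL
    rw [DL, ih h2 fun j hj i hi => hβ j (List.mem_cons_of_mem _ hj) i (List.mem_cons_of_mem _ hi),
      mul_one]
    apply List.prod_eq_one
    intro z hz
    obtain ⟨j, hj, rfl⟩ := List.mem_map.1 hz
    rw [hβ j (List.mem_cons_of_mem _ hj) i List.mem_cons_self (fun h => h1 (h ▸ hj)), zpow_zero]

/-- The second order exponents of a letter in front of a word. -/
def upd (j : J) (e : ℤ) (a : J → ℤ) : J → J → ℤ := fun j' i => if j' = j then e * a i else 0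

theorem DL_upd_notMem {Z : Type} [CommGroup Z] (c : J → J → Z) (j : J) (e : ℤ) (a : J → ℤ)
    (L : List J) (hj : j ∉ L) : DL c (upd j e a) L = 1 := by
  induction L with
  | nil => rfl
  | cons i L ih =>
    rw [DL, ih fun h => hj (List.mem_cons_of_mem _ h), mul_one]
    apply List.prod_eq_one
    intro z hz
    obtain ⟨j', hj', rfl⟩ := List.mem_map.1 hz
    have : j' ≠ j := fun h => hj (h ▸ List.mem_cons_of_mem _ hj')
    rw [upd, if_neg this, zpow_zero]

theorem prod_ite {Z : Type} [CommGroup Z] (z : Z) (j : J) (L : List J) (hL : L.Nodup)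
    (hj : j ∈ L) (f : J → Z) (hf : ∀ j', f j' = if j' = j then z else 1) :
    (L.map f).prod = z := by
  induction L with
  | nil => simp at hj
  | cons i L ih =>
    obtain ⟨h1, h2⟩ := List.nodup_cons.1 hL
    rw [List.map_cons, List.prod_cons]
    rcases List.mem_cons.1 hj with h | h
    · subst h
      rw [hf, if_pos rfl, List.prod_eq_one, mul_one]
      intro z' hz'
      obtain ⟨j', hj', rfl⟩ := List.mem_map.1 hz'
      have h3 : ¬ j' = j := by
        rintro rfl
        exact h1 hj'
      rw [hf, if_neg h3]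
    · have h3 : ¬ i = j := by
        rintro rfl
        exact h1 h
      rw [hf, if_neg h3, one_mul, ih h2 h]

/-- commutators as elements of the centre -/
def cc (h : J → H) (hH : ∀ x y z : H, ⁅x, y⁆ * z = z * ⁅x, y⁆) (j i : J) :
    Subgroup.center H :=
  ⟨⁅h j, h i⁆, Subgroup.mem_center_iff.2 fun g => (hH _ _ g).symm⟩

theorem move (h : J → H) (hH : ∀ x y z : H, ⁅x, y⁆ * z = z * ⁅x, y⁆) (j : J) (e : ℤ)
    (a : J → ℤ) (L : List J) (hL : L.Nodup) (hj : j ∈ L) :
    h j ^ e * sL h a L =
      ((DL (cc h hH) (upd j e a) L : Subgroup.center H) : H) * sL h (a + Pi.single j e) L := by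
  have hcen : ∀ (z : Subgroup.center H) (g : H), (z : H) * g = g * z := fun z g =>
    (Subgroup.mem_center_iff.1 z.2 g).symm
  induction L with
  | nil => simp at hj
  | cons i L ih =>
    obtain ⟨h1, h2⟩ := List.nodup_cons.1 hL
    rw [sL_cons, sL_cons, DL]
    by_cases hij : i = j
    · subst hij
      have e1 : DL (cc h hH) (upd i e a) L = 1 := DL_upd_notMem _ _ _ _ _ h1
      have e2 : (L.map fun j => cc h hH j i ^ upd i e a j i).prod = 1 := by
        apply List.prod_eq_one
        intro z hz
        obtain ⟨j', hj', rfl⟩ := List.mem_map.1 hz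
        have : j' ≠ i := fun h => h1 (h ▸ hj')
        rw [upd, if_neg this, zpow_zero]
      have e3 : sL h (a + Pi.single i e) L = sL h a L := by
        unfold sL
        congr 1
        apply List.map_congr_left
        intro j' hj'
        have : j' ≠ i := fun h => h1 (h ▸ hj')
        rw [Pi.add_apply, Pi.single_eq_of_ne this, add_zero]
      rw [e1, e2, e3, mul_one, Subgroup.coe_one, one_mul, ← mul_assoc, ← zpow_add, Pi.add_apply,
        Pi.single_eq_same, add_comm]
    · have hj' : j ∈ L := (List.mem_cons.1 hj).resolve_left fun h => hij h.symm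
      have e1 : (L.map fun j' => cc h hH j' i ^ upd j e a j' i).prod = cc h hH j i ^ (e * a i) := by
        apply prod_ite _ j L h2 hj'
        intro j'
        by_cases hjj : j' = j
        · subst hjj
          rw [upd, if_pos rfl, if_pos rfl]
        · rw [upd, if_neg hjj, if_neg hjj, zpow_zero]
      rw [e1, Subgroup.coe_mul]
      have e2 : ((cc h hH j i ^ (e * a i) : Subgroup.center H) : H) = ⁅h j, h i⁆ ^ (e * a i) := by
        simp [cc]
      have e3 : h j ^ e * h i ^ a i = ⁅h j, h i⁆ ^ (e * a i) * (h i ^ a i * h j ^ e) := by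
        rw [zpow_move (fun z => hH _ _ z) e (a i), mul_comm e]
      have e4 : (a + Pi.single j e : J → ℤ) i = a i := by
        rw [Pi.add_apply, Pi.single_eq_of_ne hij, add_zero]
      rw [e2, e4, ← mul_assoc, e3, mul_assoc, mul_assoc, ih h2 hj',
        ← mul_assoc (h i ^ a i), ← hcen _ (h i ^ a i)]
      simp only [mul_assoc]

/-- The exponent sums. -/
def tot : List (J × ℤ) → J → ℤ
  | [] => 0
  | q :: t => tot t + Pi.single q.1 q.2

/-- The second order exponents. -/
def beta : List (J × ℤ) → J → J → ℤ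
  | [] => 0
  | q :: t => beta t + upd q.1 q.2 (tot t)

/-- The product of a word. -/
def pw (h : J → H) (w : List (J × ℤ)) : H := (w.map fun q => h q.1 ^ q.2).prod

theorem pw_cons (h : J → H) (q : J × ℤ) (w : List (J × ℤ)) :
    pw h (q :: w) = h q.1 ^ q.2 * pw h w := by
  simp [pw]

theorem pw_eq (h : J → H) (hH : ∀ x y z : H, ⁅x, y⁆ * z = z * ⁅x, y⁆) (L : List J)
    (hL : L.Nodup) (w : List (J × ℤ)) (hw : ∀ q ∈ w, q.1 ∈ L) :
    pw h w = ((DL (cc h hH) (beta w) L : Subgroup.center H) : H) * sL h (tot w) L := by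
  have hcen : ∀ (z : Subgroup.center H) (g : H), (z : H) * g = g * z := fun z g =>
    (Subgroup.mem_center_iff.1 z.2 g).symm
  induction w with
  | nil =>
    have e1 : DL (cc h hH) (beta ([] : List (J × ℤ))) L = 1 :=
      DL_eq_one _ _ _ hL fun _ _ _ _ _ => rfl
    have e2 : sL h (tot ([] : List (J × ℤ))) L = 1 := by
      apply List.prod_eq_one
      intro z hz
      obtain ⟨i, _, rfl⟩ := List.mem_map.1 hz
      show h i ^ (0 : ℤ) = 1
      exact zpow_zero _
    rw [e1, e2]
    simp [pw]
  | cons q w ih =>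
    have hq := hw q List.mem_cons_self
    rw [pw_cons, ih fun q hq => hw q (List.mem_cons_of_mem _ hq), beta, tot, DL_add,
      Subgroup.coe_mul, mul_assoc, ← move h hH q.1 q.2 (tot w) L hL hq, ← mul_assoc, ← mul_assoc,
      hcen _ (h q.1 ^ q.2)]

/-- In a group of class two, a word whose exponent sums and off-diagonal second order exponents
vanish is trivial. -/
theorem class2 (h : J → H) (hH : ∀ x y z : H, ⁅x, y⁆ * z = z * ⁅x, y⁆) (w : List (J × ℤ))
    (ha : tot w = 0) (hb : ∀ j i, j ≠ i → beta w j i = 0) : pw h w = 1 := by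
  rw [pw_eq h hH (w.map Prod.fst).dedup (List.nodup_dedup _) w (fun q hq =>
    List.mem_dedup.2 (List.mem_map.2 ⟨q, hq, rfl⟩)), ha,
    DL_eq_one _ _ _ (List.nodup_dedup _) fun j _ i _ hij => hb j i hij]
  rw [Subgroup.coe_one, one_mul]
  apply List.prod_eq_one
  intro z hz
  obtain ⟨i, _, rfl⟩ := List.mem_map.1 hz
  show h i ^ (0 : ℤ) = 1
  exact zpow_zero _

theorem pw_mem (K : Subgroup H) (h : J → H) (hK : ∀ j, h j ∈ K) (w : List (J × ℤ)) :
    pw h w ∈ K := by
  apply Subgroup.list_prod_mem
  intro z hz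
  obtain ⟨q, _, rfl⟩ := List.mem_map.1 hz
  exact K.zpow_mem (hK _) _

/-- A word in elements of a normal subgroup `K` whose exponent sums and off-diagonal second order
exponents vanish lies in `[[K, K], K]`. -/
theorem mem_gamma3 (K : Subgroup H) [K.Normal] (h : J → H) (hK : ∀ j, h j ∈ K)
    (w : List (J × ℤ)) (ha : tot w = 0) (hb : ∀ j i, j ≠ i → beta w j i = 0) :
    pw h w ∈ ⁅⁅K, K⁆, K⁆ := by
  set N : Subgroup H := ⁅⁅K, K⁆, K⁆ with hN
  let K' : Subgroup (H ⧸ N) := K.map (QuotientGroup.mk' N)
  let h' : J → K' := fun j => ⟨QuotientGroup.mk' N (h j), Subgroup.mem_map_of_mem _ (hK j)⟩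
  have hH : ∀ x y z : K', ⁅x, y⁆ * z = z * ⁅x, y⁆ := by
    rintro ⟨_, x, hx, rfl⟩ ⟨_, y, hy, rfl⟩ ⟨_, z, hz, rfl⟩
    have h1 : ⁅⁅x, y⁆, z⁆ ∈ N :=
      Subgroup.commutator_mem_commutator (Subgroup.commutator_mem_commutator hx hy) hz
    have h2 : QuotientGroup.mk' N ⁅⁅x, y⁆, z⁆ = 1 := (QuotientGroup.eq_one_iff _).2 h1
    rw [map_commutatorElement, map_commutatorElement,
      commutatorElement_eq_one_iff_mul_comm] at h2
    apply Subtype.ext
    exact h2
  have h1 := class2 h' hH w ha hb
  have h2 : (QuotientGroup.mk' N) (pw h w) = ((pw h' w : K') : H ⧸ N) := by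
    have h3 : K'.subtype (pw h' w) = pw (fun j => K'.subtype (h' j)) w := by
      unfold pw
      rw [map_list_prod, List.map_map]
      congr 1
    have h4 : (QuotientGroup.mk' N) (pw h w) = pw (fun j => QuotientGroup.mk' N (h j)) w := by
      unfold pw
      rw [map_list_prod, List.map_map]
      congr 1
    rw [h4]
    exact h3.symm
  rw [h1, Subgroup.coe_one] at h2
  exact (QuotientGroup.eq_one_iff _).1 h2

end class2

/-! ### Reading a word -/

section read

variable {G ι : Type} [Group G] [DecidableEq ι] (i₀ : ι)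

/-- The exponent of a letter. -/
def sgn (s : Bool) : ℤ := cond s 1 (-1)

/-- The letters of a word different from `i₀`, with their heights. -/
def read : ℤ → List (ι × Bool) → List ((ℤ × {i : ι // i ≠ i₀}) × ℤ)
  | _, [] => []
  | k, l :: t => if h : l.1 = i₀ then read (k + sgn l.2) t
      else ((k, ⟨l.1, h⟩), sgn l.2) :: read k t

/-- The exponent sum of `i₀`. -/
def ht : List (ι × Bool) → ℤ
  | [] => 0
  | l :: t => (if l.1 = i₀ then sgn l.2 else 0) + ht t

/-- The value of a word. -/
def val (x : ι → G) (w : List (ι × Bool)) : G := (w.map fun l => cond l.2 (x l.1) (x l.1)⁻¹).prod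

theorem val_cons (x : ι → G) (l : ι × Bool) (w : List (ι × Bool)) :
    val x (l :: w) = x l.1 ^ sgn l.2 * val x w := by
  obtain ⟨i, s⟩ := l
  cases s <;> simp [val, sgn]

/-- The conjugates of the letters. -/
def ee (x : ι → G) (q : ℤ × {i : ι // i ≠ i₀}) : G := x i₀ ^ q.1 * x q.2.1 * (x i₀ ^ q.1)⁻¹

theorem read_spec (x : ι → G) (w : List (ι × Bool)) (k : ℤ) :
    x i₀ ^ k * val x w = pw (ee i₀ x) (read i₀ k w) * x i₀ ^ (k + ht i₀ w) := by
  induction w generalizing k with
  | nil => simp [val, read, pw, ht]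
  | cons l w ih =>
    rw [val_cons, read, ht]
    split_ifs with h
    · rw [h, ← mul_assoc, ← zpow_add, ih, add_assoc]
    · rw [zero_add, pw_cons, mul_assoc, ← ih, ee, conj_zpow]
      simp only [mul_assoc, inv_mul_cancel_left]

theorem hom_val {A : Type} [Group A] (φ : G →* A) (x : ι → G) (w : List (ι × Bool)) :
    φ (val x w) = val (fun i => φ (x i)) w := by
  induction w with
  | nil => simp [val]
  | cons l w ih => rw [val_cons, val_cons, map_mul, map_zpow, ih]

theorem phi_val (φ : G →* Multiplicative ℤ) (x : ι → G) (h0 : φ (x i₀) = Multiplicative.ofAdd 1)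
    (h1 : ∀ i, i ≠ i₀ → φ (x i) = 1) (w : List (ι × Bool)) :
    φ (val x w) = Multiplicative.ofAdd (ht i₀ w) := by
  induction w with
  | nil => simp [val, ht]
  | cons l w ih =>
    rw [val_cons, map_mul, map_zpow, ih, ht, ofAdd_add]
    congr 1
    split_ifs with h
    · rw [h, h0, ← ofAdd_zsmul, smul_eq_mul, mul_one]
    · rw [h1 _ h, one_zpow, ofAdd_zero]

theorem abs_sgn (s : Bool) : |sgn s| ≤ 1 := by cases s <;> simp [sgn]

theorem abs_ht (w : List (ι × Bool)) : |ht i₀ w| ≤ w.length := by
  induction w with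
  | nil => simp [ht]
  | cons l w ih =>
    rw [ht, List.length_cons]
    refine (abs_add_le _ _).trans ?_
    push_cast
    have : |if l.1 = i₀ then sgn l.2 else 0| ≤ 1 := by
      split_ifs
      · exact abs_sgn _
      · simp
    linarith

theorem read_sgn (w : List (ι × Bool)) (k : ℤ) : ∀ q ∈ read i₀ k w, q.2 = 1 ∨ q.2 = -1 := by
  induction w generalizing k with
  | nil => simp [read]
  | cons l w ih =>
    rw [read]
    split_ifs with h
    · exact ih _
    · intro q hq
      rcases List.mem_cons.1 hq with h1 | h1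
      · rw [h1]
        show sgn l.2 = 1 ∨ sgn l.2 = -1
        cases l.2 <;> simp [sgn]
      · exact ih _ q h1

theorem read_length (w : List (ι × Bool)) (k : ℤ) : (read i₀ k w).length ≤ w.length := by
  induction w generalizing k with
  | nil => simp [read]
  | cons l w ih =>
    rw [read]
    split_ifs with h
    · rw [List.length_cons]
      exact (ih _).trans (Nat.le_succ _)
    · rw [List.length_cons, List.length_cons]
      exact Nat.succ_le_succ (ih _)

theorem read_height (w : List (ι × Bool)) (k : ℤ) :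
    ∀ q ∈ read i₀ k w, |q.1.1 - k| ≤ w.length := by
  induction w generalizing k with
  | nil => simp [read]
  | cons l w ih =>
    rw [read]
    split_ifs with h
    · intro q hq
      have h1 := ih _ q hq
      have h2 := abs_sgn l.2
      have h3 : q.1.1 - k = (q.1.1 - (k + sgn l.2)) + sgn l.2 := by ring
      rw [h3, List.length_cons]
      refine (abs_add_le _ _).trans ?_
      push_cast
      linarith
    · intro q hq
      rcases List.mem_cons.1 hq with h1 | h1
      · rw [h1]
        simp
        positivity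
      · have h2 := ih _ q h1
        rw [List.length_cons]
        push_cast
        linarith

end read

end Pool.Agent.RFG43.Cyc
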