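import Mathlib
import Pool.Agent.RFG43.CtBound
import Pool.Agent.RFG43.CycGrp

/-! The representations of a free group by triangular matrices over Laurent polynomials which
detect the exponent sums and the second order exponents. -/

set_option autoImplicit false
set_option linter.unusedSectionVars false

open scoped commutatorElement

namespace Pool.Agent.RFG43.Cyc

/-- The matrix `[[a b, b x, z], [0, b, y], [0, 0, 1]]`. -/
@[ext] structure Tr (R : Type) [CommRing R] where
  a : Rˣ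
  b : Rˣ
  x : R
  y : R
  z : R

namespace Tr

variable {R : Type} [CommRing R]

instance : Mul (Tr R) :=
  ⟨fun g h => ⟨g.a * h.a, g.b * h.b, g.x + g.a * h.x, g.y + g.b * h.y,
    g.z + g.a * g.b * h.z + g.x * (g.b * h.y)⟩⟩

instance : One (Tr R) := ⟨⟨1, 1, 0, 0, 0⟩⟩

instance : Inv (Tr R) :=
  ⟨fun g => ⟨g.a⁻¹, g.b⁻¹, -((g.a⁻¹ : Rˣ) * g.x), -((g.b⁻¹ : Rˣ) * g.y),
    (g.a⁻¹ : Rˣ) * (g.b⁻¹ : Rˣ) * (g.x * g.y - g.z)⟩⟩

@[simp] theorem mul_a (g h : Tr R) : (g * h).a = g.a * h.a := rfl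
@[simp] theorem mul_b (g h : Tr R) : (g * h).b = g.b * h.b := rfl
@[simp] theorem mul_x (g h : Tr R) : (g * h).x = g.x + g.a * h.x := rfl
@[simp] theorem mul_y (g h : Tr R) : (g * h).y = g.y + g.b * h.y := rfl
@[simp] theorem mul_z (g h : Tr R) :
    (g * h).z = g.z + g.a * g.b * h.z + g.x * (g.b * h.y) := rfl
@[simp] theorem one_a : (1 : Tr R).a = 1 := rfl
@[simp] theorem one_b : (1 : Tr R).b = 1 := rfl
@[simp] theorem one_x : (1 : Tr R).x = 0 := rfl
@[simp] theorem one_y : (1 : Tr R).y = 0 := rfl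
@[simp] theorem one_z : (1 : Tr R).z = 0 := rfl
@[simp] theorem inv_a (g : Tr R) : (g⁻¹).a = g.a⁻¹ := rfl
@[simp] theorem inv_b (g : Tr R) : (g⁻¹).b = g.b⁻¹ := rfl
@[simp] theorem inv_x (g : Tr R) : (g⁻¹).x = -((g.a⁻¹ : Rˣ) * g.x) := rfl
@[simp] theorem inv_y (g : Tr R) : (g⁻¹).y = -((g.b⁻¹ : Rˣ) * g.y) := rfl
@[simp] theorem inv_z (g : Tr R) :
    (g⁻¹).z = (g.a⁻¹ : Rˣ) * (g.b⁻¹ : Rˣ) * (g.x * g.y - g.z) := rfl

instance : Group (Tr R) :=
  Group.ofLeftAxioms
    (fun a b c => by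
      ext
      · simp [mul_assoc]
      · simp [mul_assoc]
      · simp; ring
      · simp; ring
      · simp; ring)
    (fun a => by ext <;> simp)
    (fun a => by
      ext
      · simp
      · simp
      · simp
      · simp
      · simp; ring)

/-- The map induced by a ring homomorphism. -/
def map {S : Type} [CommRing S] (f : R →+* S) : Tr R →* Tr S where
  toFun g := ⟨Units.map f g.a, Units.map f g.b, f g.x, f g.y, f g.z⟩
  map_one' := by ext <;> simp
  map_mul' g h := by ext <;> simp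

theorem map_x {S : Type} [CommRing S] (f : R →+* S) (g : Tr R) : (map f g).x = f g.x := rfl
theorem map_z {S : Type} [CommRing S] (f : R →+* S) (g : Tr R) : (map f g).z = f g.z := rfl

/-- The diagonal part. -/
def dHom : Tr R →* Rˣ × Rˣ where
  toFun g := (g.a, g.b)
  map_one' := rfl
  map_mul' _ _ := rfl

/-- Diagonal matrices. -/
def dg : Rˣ × Rˣ →* Tr R where
  toFun t := ⟨t.1, t.2, 0, 0, 0⟩
  map_one' := rfl
  map_mul' s t := by ext <;> simp

theorem dg_zpow (a b : Rˣ) (k : ℤ) : (⟨a, b, 0, 0, 0⟩ : Tr R) ^ k = ⟨a ^ k, b ^ k, 0, 0, 0⟩ := by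
  have h : (dg (a, b)) ^ k = dg ((a, b) ^ k) := (map_zpow dg (a, b) k).symm
  exact h

/-- The matrices with `x = y = 0` and diagonal `1`. -/
def cen : Subgroup (Tr R) where
  carrier := {u | u.a = 1 ∧ u.b = 1 ∧ u.x = 0 ∧ u.y = 0}
  mul_mem' := by
    rintro u v ⟨h1, h2, h3, h4⟩ ⟨h5, h6, h7, h8⟩
    refine ⟨?_, ?_, ?_, ?_⟩ <;> simp [*]
  one_mem' := ⟨rfl, rfl, rfl, rfl⟩
  inv_mem' := by
    rintro u ⟨h1, h2, h3, h4⟩
    refine ⟨?_, ?_, ?_, ?_⟩ <;> simp [*]

theorem comm_mem_cen {u v : Tr R} (hu : dHom u = 1) (hv : dHom v = 1) : ⁅u, v⁆ ∈ cen := by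
  have h1 : u.a = 1 := congrArg Prod.fst hu
  have h2 : u.b = 1 := congrArg Prod.snd hu
  have h3 : v.a = 1 := congrArg Prod.fst hv
  have h4 : v.b = 1 := congrArg Prod.snd hv
  refine ⟨?_, ?_, ?_, ?_⟩
  · simp [commutatorElement_def, h1, h3]
  · simp [commutatorElement_def, h2, h4]
  · simp [commutatorElement_def, h1, h3]
  · simp [commutatorElement_def, h2, h4]

theorem comm_eq_one {u v : Tr R} (hu : u ∈ cen) (hv : dHom v = 1) : ⁅u, v⁆ = 1 := by
  obtain ⟨h1, h2, h3, h4⟩ := hu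
  have h5 : v.a = 1 := congrArg Prod.fst hv
  have h6 : v.b = 1 := congrArg Prod.snd hv
  rw [commutatorElement_eq_one_iff_mul_comm]
  ext
  · simp [h1, h5]
  · simp [h2, h6]
  · simp [h1, h3, h5]
  · simp [h2, h4, h6]
  · simp [h1, h2, h3, h4, h5, h6, add_comm]

/-- The third term of the lower central series of a group of elements of diagonal `1` dies. -/
theorem kills {G : Type} [Group G] (ρ : G →* Tr R) (K : Subgroup G)
    (hK : ∀ g ∈ K, dHom (ρ g) = 1) : ∀ x ∈ ⁅⁅K, K⁆, K⁆, ρ x = 1 := by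
  have h1 : ⁅K, K⁆ ≤ cen.comap ρ := by
    rw [Subgroup.commutator_le]
    intro g hg h hh
    rw [Subgroup.mem_comap, map_commutatorElement]
    exact comm_mem_cen (hK g hg) (hK h hh)
  have h2 : ⁅⁅K, K⁆, K⁆ ≤ ρ.ker := by
    rw [Subgroup.commutator_le]
    intro g hg h hh
    rw [MonoidHom.mem_ker, map_commutatorElement]
    exact comm_eq_one (h1 hg) (hK h hh)
  exact fun x hx => h2 hx

/-- The order of a group of matrices over a field with `p` elements with cyclic diagonal part. -/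
theorem card_le {p : ℕ} [hp : Fact p.Prime] (S : Subgroup (Tr (ZMod p))) (t : (ZMod p)ˣ × (ZMod p)ˣ)
    (hS : ∀ g ∈ S, dHom g ∈ Subgroup.zpowers t) : Finite S ∧ Nat.card S ≤ p ^ 4 := by
  have : NeZero p := ⟨hp.out.ne_zero⟩
  let f : S → Subgroup.zpowers t × ZMod p × ZMod p × ZMod p :=
    fun g => (⟨dHom (g : Tr (ZMod p)), hS g g.2⟩, (g : Tr (ZMod p)).x, (g : Tr (ZMod p)).y,
      (g : Tr (ZMod p)).z)
  have hf : Function.Injective f := by
    intro g h e
    simp only [f, Prod.mk.injEq, Subtype.mk.injEq] at e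
    obtain ⟨e1, e2, e3, e4⟩ := e
    exact Subtype.ext (Tr.ext (congrArg Prod.fst e1) (congrArg Prod.snd e1) e2 e3 e4)
  have hfin : Finite S := Finite.of_injective f hf
  refine ⟨hfin, ?_⟩
  have h := Nat.card_le_card_of_injective f hf
  rw [Nat.card_prod, Nat.card_prod, Nat.card_prod, Nat.card_zmod, Nat.card_zpowers] at h
  have h1 : orderOf t ≤ p := by
    have h2 : t ^ (p - 1) = 1 := by
      ext1
      · exact ZMod.units_pow_card_sub_one_eq_one p t.1
      · exact ZMod.units_pow_card_sub_one_eq_one p t.2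
    have h3 : 0 < p - 1 := by
      have := hp.out.one_lt
      omega
    exact (orderOf_le_of_pow_eq_one h3 h2).trans (Nat.sub_le _ _)
  calc Nat.card S ≤ orderOf t * (p * (p * p)) := h
    _ ≤ p * (p * (p * p)) := Nat.mul_le_mul_right _ h1
    _ = p ^ 4 := by ring

end Tr

variable {ι : Type} [DecidableEq ι] (i₀ : ι)

section rep

variable {R : Type} [CommRing R] (a b : Rˣ) (c d : {i : ι // i ≠ i₀} → R)

/-- The images of the letters. -/
def rp : ι → Tr R := fun i => if h : i = i₀ then ⟨a, b, 0, 0, 0⟩ else ⟨1, 1, c ⟨i, h⟩, d ⟨i, h⟩, 0⟩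

theorem rp_self : rp i₀ a b c d i₀ = ⟨a, b, 0, 0, 0⟩ := by simp [rp]

theorem rp_ne (i : {i : ι // i ≠ i₀}) : rp i₀ a b c d i.1 = ⟨1, 1, c i, d i, 0⟩ := by
  rw [rp, dif_neg i.2]

theorem ee_rp (k : ℤ) (i : {i : ι // i ≠ i₀}) : ee i₀ (rp i₀ a b c d) (k, i) =
    ⟨1, 1, (a ^ k : Rˣ) * c i, (b ^ k : Rˣ) * d i, 0⟩ := by
  rw [ee, rp_self, rp_ne, Tr.dg_zpow]
  ext <;> simp

/-- The value on one letter with sign. -/
theorem ee_rp_pow (k : ℤ) (i : {i : ι // i ≠ i₀}) (e : ℤ) (he : e = 1 ∨ e = -1) :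
    ee i₀ (rp i₀ a b c d) (k, i) ^ e =
    ⟨1, 1, e * ((a ^ k : Rˣ) * c i), e * ((b ^ k : Rˣ) * d i),
      if e = -1 then ((a ^ k : Rˣ) * c i) * ((b ^ k : Rˣ) * d i) else 0⟩ := by
  rcases he with rfl | rfl
  · rw [ee_rp, zpow_one]
    ext <;> simp
  · rw [ee_rp, zpow_neg, zpow_one]
    ext <;> simp

end rep

/-- The units `X`, `Y`. -/
noncomputable def uX : Lˣ := mu (.ofAdd ![1, 0])
noncomputable def uY : Lˣ := mu (.ofAdd ![0, 1])

/-- Indicators. -/
noncomputable def ind (i₁ : {i : ι // i ≠ i₀}) : {i : ι // i ≠ i₀} → L := fun i => if i = i₁ then 1 else 0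

/-- The images of the letters over Laurent polynomials. -/
noncomputable def rl (i₁ i₂ : {i : ι // i ≠ i₀}) : ι → Tr L :=
  rp i₀ uX uY (ind i₀ i₁) (ind i₀ i₂)

theorem uX_zpow (k : ℤ) : ((uX ^ k : Lˣ) : L) = mn ![k, 0] := by
  rw [uX, mu_zpow, mu_val]
  congr 1
  funext j
  fin_cases j <;> simp

theorem uY_zpow (k : ℤ) : ((uY ^ k : Lˣ) : L) = mn ![0, k] := by
  rw [uY, mu_zpow, mu_val]
  congr 1
  funext j
  fin_cases j <;> simp

theorem coeff_int_mn (e : ℤ) (d0 d : Fin 2 → ℤ) :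
    ((e : L) * mn d0).coeff d = if d0 = d then e else 0 := by
  have h1 : ((e : L) * mn d0) = AddMonoidAlgebra.single d0 e := by
    rw [← zsmul_eq_mul, mn, AddMonoidAlgebra.smul_single]
    simp
  rw [h1, AddMonoidAlgebra.coeff_single, Finsupp.single_apply]

theorem coeff_int_mn_mul (e : ℤ) (d0 d : Fin 2 → ℤ) (f : L) :
    (((e : L) * mn d0) * f).coeff d = e * f.coeff (d - d0) := by
  have h1 : ((e : L) * mn d0) = AddMonoidAlgebra.single d0 e := by
    rw [← zsmul_eq_mul, mn, AddMonoidAlgebra.smul_single]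
    simp
  rw [h1]
  apply AddMonoidAlgebra.coeff_single_mul_eq_mul_coeff
  intro m' _
  constructor
  · rintro rfl; simp
  · rintro rfl; simp

theorem rl_word (i₁ i₂ : {i : ι // i ≠ i₀}) (lw : List ((ℤ × {i : ι // i ≠ i₀}) × ℤ))
    (hlw : ∀ q ∈ lw, q.2 = 1 ∨ q.2 = -1) :
    (pw (ee i₀ (rl i₀ i₁ i₂)) lw).a = 1 ∧ (pw (ee i₀ (rl i₀ i₁ i₂)) lw).b = 1 ∧
    (∀ d, (pw (ee i₀ (rl i₀ i₁ i₂)) lw).x.coeff d = if d 1 = 0 then tot lw (d 0, i₁) else 0) ∧
    (∀ d, (pw (ee i₀ (rl i₀ i₁ i₂)) lw).y.coeff d = if d 0 = 0 then tot lw (d 1, i₂) else 0) ∧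
    (∀ d, ((d 0, i₁) : ℤ × {i : ι // i ≠ i₀}) ≠ (d 1, i₂) →
      (pw (ee i₀ (rl i₀ i₁ i₂)) lw).z.coeff d = beta lw (d 0, i₁) (d 1, i₂)) := by
  induction lw with
  | nil =>
    have h1 : pw (ee i₀ (rl i₀ i₁ i₂)) ([] : List ((ℤ × {i : ι // i ≠ i₀}) × ℤ)) = 1 := rfl
    rw [h1]
    refine ⟨rfl, rfl, ?_, ?_, ?_⟩
    · intro d; simp [tot]
    · intro d; simp [tot]
    · intro d _; simp [beta]
  | cons q lw ih =>
    obtain ⟨ha, hb, hx, hy, hz⟩ := ih fun q hq => hlw q (List.mem_cons_of_mem _ hq)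
    obtain ⟨⟨k, i⟩, e⟩ := q
    have he := hlw _ List.mem_cons_self
    have h1 : ee i₀ (rl i₀ i₁ i₂) (k, i) ^ e = _ := ee_rp_pow i₀ uX uY _ _ k i e he
    rw [pw_cons]
    simp only
    rw [h1]
    have dx : ∀ d : Fin 2 → ℤ, (![k, 0] : Fin 2 → ℤ) = d ↔ d 0 = k ∧ d 1 = 0 := by
      intro d
      constructor
      · rintro rfl; simp
      · rintro ⟨h1, h2⟩
        funext j
        fin_cases j
        · simp [h1]
        · simp [h2]
    have dy : ∀ d : Fin 2 → ℤ, (![0, k] : Fin 2 → ℤ) = d ↔ d 0 = 0 ∧ d 1 = k := by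
      intro d
      constructor
      · rintro rfl; simp
      · rintro ⟨h1, h2⟩
        funext j
        fin_cases j
        · simp [h1]
        · simp [h2]
    refine ⟨by simp [ha], by simp [hb], ?_, ?_, ?_⟩
    · intro d
      simp only [Tr.mul_x, Units.val_one, one_mul, AddMonoidAlgebra.coeff_add, Finsupp.add_apply]
      rw [hx, tot, uX_zpow, ind, Pi.add_apply]
      by_cases hi : i = i₁
      · subst hi
        rw [if_pos rfl, mul_one, coeff_int_mn]
        by_cases h2 : d 1 = 0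
        · rw [if_pos h2, if_pos h2, add_comm]
          congr 1
          by_cases h3 : d 0 = k
          · rw [if_pos ((dx d).2 ⟨h3, h2⟩), h3, Pi.single_eq_same]
          · rw [if_neg fun h => h3 ((dx d).1 h).1, Pi.single_eq_of_ne]
            intro h
            exact h3 (congrArg Prod.fst h)
        · rw [if_neg h2, if_neg h2, if_neg fun h => h2 ((dx d).1 h).2, add_zero]
      · rw [if_neg hi, mul_zero, mul_zero, AddMonoidAlgebra.coeff_zero, Finsupp.zero_apply,
          zero_add, Pi.single_eq_of_ne, add_zero]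
        intro h
        exact hi (congrArg Prod.snd h).symm
    · intro d
      simp only [Tr.mul_y, Units.val_one, one_mul, AddMonoidAlgebra.coeff_add, Finsupp.add_apply]
      rw [hy, tot, uY_zpow, ind, Pi.add_apply]
      by_cases hi : i = i₂
      · subst hi
        rw [if_pos rfl, mul_one, coeff_int_mn]
        by_cases h2 : d 0 = 0
        · rw [if_pos h2, if_pos h2, add_comm]
          congr 1
          by_cases h3 : d 1 = k
          · rw [if_pos ((dy d).2 ⟨h2, h3⟩), h3, Pi.single_eq_same]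
          · rw [if_neg fun h => h3 ((dy d).1 h).2, Pi.single_eq_of_ne]
            intro h
            exact h3 (congrArg Prod.fst h)
        · rw [if_neg h2, if_neg h2, if_neg fun h => h2 ((dy d).1 h).1, add_zero]
      · rw [if_neg hi, mul_zero, mul_zero, AddMonoidAlgebra.coeff_zero, Finsupp.zero_apply,
          zero_add, Pi.single_eq_of_ne, add_zero]
        intro h
        exact hi (congrArg Prod.snd h).symm
    · intro d hd
      simp only [Tr.mul_z, Units.val_one, one_mul, AddMonoidAlgebra.coeff_add, Finsupp.add_apply]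
      rw [hz d hd, beta, Pi.add_apply, Pi.add_apply, upd, uX_zpow, uY_zpow, ind, ind]
      have e1 : (if e = -1 then mn ![k, 0] * (if i = i₁ then (1 : L) else 0) *
          (mn ![0, k] * if i = i₂ then (1 : L) else 0) else 0 : L).coeff d = 0 := by
        split_ifs with h2 h3 h4
        · rw [mul_one, mul_one, mn_mul]
          have h5 := coeff_int_mn 1 (![k, 0] + ![0, k]) d
          rw [Int.cast_one, one_mul] at h5
          rw [h5, if_neg]
          rintro rfl
          apply hd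
          rw [← h3, ← h4]
          simp
        all_goals simp
      rw [e1, zero_add, add_comm]
      rw [add_comm]
      congr 1
      by_cases hi : i = i₁
      · subst hi
        rw [if_pos rfl, mul_one, coeff_int_mn_mul, hy]
        by_cases h3 : d 0 = k
        · rw [if_pos (by simp [h3]), if_pos (by simp [h3])]
          congr 2
          simp
        · rw [if_neg, if_neg, mul_zero]
          · intro h
            exact h3 (congrArg Prod.fst h)
          · intro h
            apply h3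
            simpa [sub_eq_zero] using h
      · rw [if_neg hi, mul_zero, mul_zero, zero_mul, AddMonoidAlgebra.coeff_zero,
          Finsupp.zero_apply, if_neg]
        intro h
        exact hi (congrArg Prod.snd h).symm

end Pool.Agent.RFG43.Cyc
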