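import Mathlib
import Pool.Agent.RFG43.Center
import Pool.Agent.RFG43.CycRep

/-! Words outside the third term of the lower central series of the kernel of a map of a free group
(of any rank) to `ℤ` survive in a finite quotient of order at most `C n ^ (8 / 3 + ε)`. -/

set_option autoImplicit false
set_option linter.unusedSectionVars false

open scoped commutatorElement

namespace Pool.Agent.RFG43.Cyc

/-- The black box for one Laurent polynomial. -/
theorem exists_point (ε : ℝ) (hε : 0 < ε) : ∃ C : ℝ, 0 < C ∧ 1 ≤ C ∧ ∀ (n : ℕ), 1 ≤ n → ∀ f : L,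
    f ≠ 0 → Rep (n + 1) (n ^ 2) f → ∃ p : ℕ, ∃ _ : Fact p.Prime,
      ((p ^ 4 : ℕ) : ℝ) ≤ C * (n : ℝ) ^ (8 / 3 + ε) ∧ ∃ a : Fin 2 → (ZMod p)ˣ, evL a f ≠ 0 := by
  obtain ⟨n0, hn0⟩ := exists_prime_eval (ε / 4) (by positivity) 2
  refine ⟨((n0 : ℝ) + 4) ^ (8 / 3 + ε), by positivity, ?_, ?_⟩
  · apply Real.one_le_rpow
    · have : (0 : ℝ) ≤ n0 := by positivity
      linarith
    · positivity
  intro n hnorm f hf hrep
  obtain ⟨hb1, hb2⟩ := hrep.bound
  set N := max (4 * n) n0 with hN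
  have hN1 : 4 * n ≤ N := le_max_left _ _
  have hN1' : (4 * n : ℤ) ≤ N := by exact_mod_cast hN1
  have hnZ : (1 : ℤ) ≤ n := by exact_mod_cast hnorm
  have hNn : (N : ℝ) ≤ ((n0 : ℝ) + 4) * n := by
    have h1 : N ≤ (n0 + 4) * n := by
      rw [hN]
      apply max_le
      · nlinarith
      · nlinarith
    exact_mod_cast h1
  have hbox : ∀ x ∈ f.coeff.support, ∀ y ∈ f.coeff.support, ∀ j, |x j - y j| ≤ N := by
    intro x hx y hy j
    have h1 := hb1 x (Finsupp.mem_support_iff.1 hx) j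
    have h2 := hb1 y (Finsupp.mem_support_iff.1 hy) j
    have h3 := abs_sub (x j) (y j)
    push_cast at h1 h2
    linarith
  have hl1 : ∑ x ∈ f.coeff.support, |f.coeff x| ≤ (N : ℤ) ^ 2 := by
    refine (hb2 _).trans ?_
    have h1 : (n : ℤ) ≤ N := by linarith
    push_cast
    exact pow_le_pow_left₀ (by positivity) h1 2
  have hfc : f.coeff ≠ 0 := by rwa [Ne, AddMonoidAlgebra.coeff_eq_zero]
  obtain ⟨p, hp, hpN, a, ha⟩ := hn0 N (le_max_right _ _) f.coeff hfc hbox hl1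
  refine ⟨p, hp, ?_, a, ?_⟩
  · have h3 : (p : ℝ) ^ 4 ≤ ((N : ℝ) ^ (2 / 3 + ε / 4)) ^ 4 :=
      pow_le_pow_left₀ (by positivity) hpN 4
    have h4 : ((N : ℝ) ^ (2 / 3 + ε / 4)) ^ 4 = (N : ℝ) ^ (8 / 3 + ε) := by
      rw [← Real.rpow_natCast, ← Real.rpow_mul (by positivity)]
      congr 1
      push_cast
      ring
    have h5 : (N : ℝ) ^ (8 / 3 + ε) ≤ (((n0 : ℝ) + 4) * n) ^ (8 / 3 + ε) :=
      Real.rpow_le_rpow (by positivity) hNn (by positivity)
    have h6 : (((n0 : ℝ) + 4) * n) ^ (8 / 3 + ε) =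
        ((n0 : ℝ) + 4) ^ (8 / 3 + ε) * (n : ℝ) ^ (8 / 3 + ε) :=
      Real.mul_rpow (by positivity) (by positivity)
    push_cast
    linarith
  · rw [evL_apply]
    exact ha

section

variable {ι : Type} [DecidableEq ι] (i₀ : ι)

/-- The entries of the letters are monomials. -/
def MoT (g : Tr L) : Prop := Mo (g.a : L) ∧ Mo (g.b : L) ∧ Mo ((g.a : L) * (g.b : L)) ∧ Mo g.x ∧
  Mo g.y ∧ Mo g.z

theorem moT_letter (i₁ i₂ : {i : ι // i ≠ i₀}) (l : ι × Bool) :
    MoT (cond l.2 (rl i₀ i₁ i₂ l.1) (rl i₀ i₁ i₂ l.1)⁻¹) := by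
  have e1 : ∀ j, |(![1, 0] : Fin 2 → ℤ) j| ≤ 1 := by
    intro j; fin_cases j <;> simp
  have e2 : ∀ j, |(![0, 1] : Fin 2 → ℤ) j| ≤ 1 := by
    intro j; fin_cases j <;> simp
  have e3 : ∀ j, |(-![1, 0] : Fin 2 → ℤ) j| ≤ 1 := by
    intro j; fin_cases j <;> simp
  have e4 : ∀ j, |(-![0, 1] : Fin 2 → ℤ) j| ≤ 1 := by
    intro j; fin_cases j <;> simp
  have e5 : ∀ j, |(![1, 0] + ![0, 1] : Fin 2 → ℤ) j| ≤ 1 := by
    intro j; fin_cases j <;> simp
  have e6 : ∀ j, |(-![1, 0] + -![0, 1] : Fin 2 → ℤ) j| ≤ 1 := by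
    intro j; fin_cases j <;> simp
  have hind : ∀ (i' i : {i : ι // i ≠ i₀}), Mo (ind i₀ i' i) := by
    intro i' i
    unfold ind
    split_ifs
    · exact mo_one
    · exact mo_zero
  have hind2 : ∀ (i : {i : ι // i ≠ i₀}), Mo (ind i₀ i₁ i * ind i₀ i₂ i) := by
    intro i
    unfold ind
    split_ifs
    · rw [mul_one]; exact mo_one
    · rw [mul_zero]; exact mo_zero
    · rw [zero_mul]; exact mo_zero
    · rw [zero_mul]; exact mo_zero
  obtain ⟨i, s⟩ := l
  by_cases hi : i = i₀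
  · subst hi
    cases s
    · show MoT (rl i i₁ i₂ i)⁻¹
      rw [rl, rp_self]
      refine ⟨mo_mn e3, mo_mn e4, ?_, ?_, ?_, ?_⟩
      · show Mo (mn (-![1, 0]) * mn (-![0, 1]))
        rw [mn_mul]
        exact mo_mn e6
      · show Mo (-(_ * 0))
        rw [mul_zero, neg_zero]; exact mo_zero
      · show Mo (-(_ * 0))
        rw [mul_zero, neg_zero]; exact mo_zero
      · show Mo (_ * (0 * 0 - 0))
        rw [mul_zero, sub_zero, mul_zero]; exact mo_zero
    · show MoT (rl i i₁ i₂ i)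
      rw [rl, rp_self]
      refine ⟨mo_mn e1, mo_mn e2, ?_, mo_zero, mo_zero, mo_zero⟩
      show Mo (mn (![1, 0]) * mn (![0, 1]))
      rw [mn_mul]
      exact mo_mn e5
  · have h1 : rl i₀ i₁ i₂ i = ⟨1, 1, ind i₀ i₁ ⟨i, hi⟩, ind i₀ i₂ ⟨i, hi⟩, 0⟩ :=
      rp_ne i₀ _ _ _ _ ⟨i, hi⟩
    have m1 : Mo (((1 : Lˣ) : L)) := by rw [Units.val_one]; exact mo_one
    have m2 : Mo (((1 : Lˣ) : L) * ((1 : Lˣ) : L)) := by
      rw [Units.val_one, mul_one]; exact mo_one
    cases s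
    · show MoT (rl i₀ i₁ i₂ i)⁻¹
      rw [h1]
      refine ⟨?_, ?_, ?_, ?_, ?_, ?_⟩
      · rw [Tr.inv_a, inv_one]; exact m1
      · rw [Tr.inv_b, inv_one]; exact m1
      · rw [Tr.inv_a, Tr.inv_b, inv_one]; exact m2
      · rw [Tr.inv_x, inv_one, Units.val_one, one_mul]; exact mo_neg (hind _ _)
      · rw [Tr.inv_y, inv_one, Units.val_one, one_mul]; exact mo_neg (hind _ _)
      · rw [Tr.inv_z, inv_one, Units.val_one, one_mul, one_mul, sub_zero]; exact hind2 _
    · show MoT (rl i₀ i₁ i₂ i)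
      rw [h1]
      exact ⟨m1, m1, m2, hind _ _, hind _ _, mo_zero⟩

theorem rep_val (i₁ i₂ : {i : ι // i ≠ i₀}) (w : List (ι × Bool)) :
    Rep w.length w.length (val (rl i₀ i₁ i₂) w).x ∧
    Rep w.length w.length (val (rl i₀ i₁ i₂) w).y ∧
    Rep (w.length + 1) (w.length ^ 2) (val (rl i₀ i₁ i₂) w).z := by
  induction w with
  | nil => exact ⟨Rep.zero 0, Rep.zero 0, Rep.zero 1⟩
  | cons l w ih =>
    obtain ⟨ih1, ih2, ih3⟩ := ih
    obtain ⟨h1, h2, h3, h4, h5, h6⟩ := moT_letter i₀ i₁ i₂ l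
    have h0 : val (rl i₀ i₁ i₂) (l :: w) =
        cond l.2 (rl i₀ i₁ i₂ l.1) (rl i₀ i₁ i₂ l.1)⁻¹ * val (rl i₀ i₁ i₂) w := by
      simp [val]
    rw [h0, Tr.mul_x, Tr.mul_y, Tr.mul_z, List.length_cons]
    set n := w.length
    refine ⟨?_, ?_, ?_⟩
    · have := (h4.rep.mono (by omega : 1 ≤ n + 1) le_rfl).add (ih1.mo_mul h1)
      exact this.mono le_rfl (by omega)
    · have := (h5.rep.mono (by omega : 1 ≤ n + 1) le_rfl).add (ih2.mo_mul h2)
      exact this.mono le_rfl (by omega)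
    · have h7 := ((h6.rep.mono (by omega : 1 ≤ n + 1 + 1) le_rfl).add
        (ih3.mo_mul h3)).add ((ih2.mo_mul h2).mo_mul h4)
      exact h7.mono le_rfl (by nlinarith)

end

theorem val_eq {G ι : Type} [Group G] [DecidableEq ι] (b : FreeGroupBasis ι G) (g : G) :
    val b (b.repr g).toWord = g := by
  apply b.repr.injective
  have h1 := hom_val (b.repr.toMonoidHom) b (b.repr g).toWord
  have h2 : b.repr.toMonoidHom (val b (b.repr g).toWord) = b.repr (val b (b.repr g).toWord) := rfl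
  rw [← h2, h1]
  have h3 : (fun i => b.repr.toMonoidHom (b i)) = FreeGroup.of := by
    funext i
    exact b.repr_apply_coe i
  rw [h3]
  have h4 : FreeGroup.lift FreeGroup.of (FreeGroup.mk (b.repr g).toWord) =
      val FreeGroup.of (b.repr g).toWord := FreeGroup.lift_mk
  rw [← h4, FreeGroup.lift_of_apply, FreeGroup.mk_toWord]

theorem cyc_bound (ε : ℝ) (hε : 0 < ε) : ∃ C : ℝ, 0 < C ∧
    ∀ (G ι : Type) [Group G] [DecidableEq ι] (b : FreeGroupBasis ι G) (i₀ : ι)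
      (φ : G →* Multiplicative ℤ), φ (b i₀) = Multiplicative.ofAdd 1 →
      (∀ i, i ≠ i₀ → φ (b i) = 1) → ∀ g : G, g ∉ ⁅⁅φ.ker, φ.ker⁆, φ.ker⁆ →
      ∃ (Q : Type) (_ : Group Q) (π : G →* Q), Finite Q ∧ π g ≠ 1 ∧
        (∀ x ∈ ⁅⁅φ.ker, φ.ker⁆, φ.ker⁆, π x = 1) ∧
        (Nat.card Q : ℝ) ≤ C * ((b.repr g).norm : ℝ) ^ (8 / 3 + ε) := by
  obtain ⟨C, hC, hC1, hbox⟩ := exists_point ε hε
  refine ⟨C + 1, by positivity, ?_⟩
  intro G ι _ _ b i₀ φ h0 h1 g hg
  set w := (b.repr g).toWord with hw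
  have hn : (b.repr g).norm = w.length := rfl
  have hval : val b w = g := val_eq b g
  have hn1 : 1 ≤ w.length := by
    rw [Nat.one_le_iff_ne_zero]
    intro h
    rw [List.length_eq_zero_iff] at h
    rw [h] at hval
    have h2 : g = 1 := hval.symm
    exact hg (h2 ▸ one_mem _)
  rw [hn]
  have hnR : (1 : ℝ) ≤ (w.length : ℝ) := by exact_mod_cast hn1
  have hφ : φ g = Multiplicative.ofAdd (ht i₀ w) := by
    rw [← hval]
    exact phi_val i₀ φ b h0 h1 w
  have hle : ⁅⁅φ.ker, φ.ker⁆, φ.ker⁆ ≤ φ.ker := Subgroup.commutator_le_right _ _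
  by_cases hht : ht i₀ w = 0
  · -- `g` lies in the kernel
    have hgp : g = pw (ee i₀ b) (read i₀ 0 w) := by
      have h2 := read_spec i₀ b w 0
      rw [hht, hval] at h2
      simpa using h2
    have hee : ∀ q, ee i₀ b q ∈ φ.ker := by
      intro q
      rw [MonoidHom.mem_ker, ee, map_mul, map_mul, h1 _ q.2.2, mul_one, map_inv, mul_inv_cancel]
    -- the exponents
    have key : ∃ i₁ i₂ : {i : ι // i ≠ i₀},
        (val (rl i₀ i₁ i₂) w).x ≠ 0 ∨ (val (rl i₀ i₁ i₂) w).z ≠ 0 := by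
      by_contra hcon
      push Not at hcon
      apply hg
      rw [hgp]
      have hrl : ∀ i₁ i₂ : {i : ι // i ≠ i₀},
          val (rl i₀ i₁ i₂) w = pw (ee i₀ (rl i₀ i₁ i₂)) (read i₀ 0 w) := by
        intro i₁ i₂
        have h2 := read_spec i₀ (rl i₀ i₁ i₂) w 0
        rw [hht] at h2
        simpa using h2
      have hw' := read_sgn i₀ w 0
      refine mem_gamma3 φ.ker (ee i₀ b) hee (read i₀ 0 w) ?_ ?_
      · funext q
        obtain ⟨k, i⟩ := q
        have h3 := (hcon i i).1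
        rw [hrl] at h3
        have h4 := (rl_word i₀ i i (read i₀ 0 w) hw').2.2.1 ![k, 0]
        rw [h3] at h4
        simpa using h4.symm
      · rintro ⟨k, i⟩ ⟨k', i'⟩ hne
        have h3 := (hcon i i').2
        rw [hrl] at h3
        have h4 := (rl_word i₀ i i' (read i₀ 0 w) hw').2.2.2.2 ![k, k'] (by simpa using hne)
        rw [h3] at h4
        simpa using h4.symm
    obtain ⟨i₁, i₂, hne⟩ := key
    obtain ⟨hrx, _, hrz⟩ := rep_val i₀ i₁ i₂ w
    let ρ : G →* Tr L := (FreeGroup.lift (rl i₀ i₁ i₂)).comp b.repr.toMonoidHom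
    have hρb : ∀ i, ρ (b i) = rl i₀ i₁ i₂ i := by
      intro i
      show FreeGroup.lift (rl i₀ i₁ i₂) (b.repr (b i)) = _
      rw [FreeGroupBasis.repr_apply_coe, FreeGroup.lift_apply_of]
    have hρ : ρ g = val (rl i₀ i₁ i₂) w := by
      conv_lhs => rw [← hval]
      rw [hom_val]
      congr 1
      funext i
      exact hρb i
    have hf : ∃ p : ℕ, ∃ _ : Fact p.Prime,
      ((p ^ 4 : ℕ) : ℝ) ≤ C * (w.length : ℝ) ^ (8 / 3 + ε) ∧ ∃ a : Fin 2 → (ZMod p)ˣ,
        Tr.map (evL a) (ρ g) ≠ 1 := by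
      rw [hρ]
      rcases hne with hne | hne
      · obtain ⟨p, hp, h2, a, ha⟩ := hbox w.length hn1 _ hne
          (hrx.mono (Nat.le_succ _) (by nlinarith))
        refine ⟨p, hp, h2, a, fun h => ha ?_⟩
        rw [← Tr.map_x, h]
        rfl
      · obtain ⟨p, hp, h2, a, ha⟩ := hbox w.length hn1 _ hne hrz
        refine ⟨p, hp, h2, a, fun h => ha ?_⟩
        rw [← Tr.map_z, h]
        rfl
    obtain ⟨p, hp, hpC, a, ha⟩ := hf
    let π : G →* Tr (ZMod p) := (Tr.map (evL a)).comp ρ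
    let t : (ZMod p)ˣ × (ZMod p)ˣ := Tr.dHom (π (b i₀))
    have hdiag : ∀ g, Tr.dHom (π g) = t ^ (Multiplicative.toAdd (φ g)) := by
      have h2 : Tr.dHom.comp π = (zpowersHom _ t).comp φ := by
        apply b.ext_hom
        intro i
        by_cases hi : i = i₀
        · subst hi
          show Tr.dHom (π (b i)) = (zpowersHom ((ZMod p)ˣ × (ZMod p)ˣ) t) (φ (b i))
          rw [h0, zpowersHom_apply]
          simp [t]
        · show Tr.dHom (Tr.map (evL a) (ρ (b i))) =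
            (zpowersHom ((ZMod p)ˣ × (ZMod p)ˣ) t) (φ (b i))
          rw [h1 i hi, map_one, hρb]
          have h3 : rl i₀ i₁ i₂ i = ⟨1, 1, ind i₀ i₁ ⟨i, hi⟩, ind i₀ i₂ ⟨i, hi⟩, 0⟩ :=
            rp_ne i₀ _ _ _ _ ⟨i, hi⟩
          rw [h3]
          show ((Units.map (evL a : L →* ZMod p)) 1, (Units.map (evL a : L →* ZMod p)) 1) = 1
          rw [map_one]
          rfl
      intro g
      have h3 := congrArg (fun f => f g) h2
      simpa [zpowersHom_apply] using h3
    have hcard := Tr.card_le π.range t (by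
      rintro _ ⟨g, rfl⟩
      rw [hdiag]
      exact Subgroup.zpow_mem_zpowers _ _)
    refine ⟨π.range, inferInstance, π.rangeRestrict, hcard.1, ?_, ?_, ?_⟩
    · intro h
      apply ha
      exact congrArg Subtype.val h
    · intro x hx
      apply Subtype.ext
      show π x = 1
      refine Tr.kills π φ.ker ?_ x hx
      intro g hg
      rw [hdiag, MonoidHom.mem_ker.1 hg]
      simp
    · have h2 : ((Nat.card π.range : ℕ) : ℝ) ≤ ((p ^ 4 : ℕ) : ℝ) := by exact_mod_cast hcard.2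
      have h3 : (0 : ℝ) ≤ (w.length : ℝ) ^ (8 / 3 + ε) := by positivity
      linarith [h2, hpC]
  · -- cyclic quotients
    have hne : NeZero (w.length + 1) := ⟨Nat.succ_ne_zero _⟩
    let π : G →* Multiplicative (ZMod (w.length + 1)) :=
      (AddMonoidHom.toMultiplicative (Int.castAddHom (ZMod (w.length + 1)))).comp φ
    refine ⟨Multiplicative (ZMod (w.length + 1)), inferInstance, π, ?_, ?_, ?_, ?_⟩
    · exact Finite.of_equiv (ZMod (w.length + 1)) Multiplicative.ofAdd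
    · intro h
      have h2 : ((ht i₀ w : ℤ) : ZMod (w.length + 1)) = 0 := by
        have h3 : π g = Multiplicative.ofAdd ((ht i₀ w : ℤ) : ZMod (w.length + 1)) := by
          show (AddMonoidHom.toMultiplicative (Int.castAddHom (ZMod (w.length + 1)))) (φ g) = _
          rw [hφ]
          rfl
        rw [h3] at h
        exact h
      rw [ZMod.intCast_zmod_eq_zero_iff_dvd] at h2
      have h3 := abs_ht i₀ w
      have h4 := Int.le_of_dvd (abs_pos.2 hht) ((dvd_abs _ _).2 h2)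
      push_cast at h4
      linarith
    · intro x hx
      have h2 : φ x = 1 := hle hx
      show (AddMonoidHom.toMultiplicative (Int.castAddHom (ZMod (w.length + 1)))) (φ x) = 1
      rw [h2, map_one]
    · have h2 : Nat.card (Multiplicative (ZMod (w.length + 1))) = w.length + 1 := by
        rw [Nat.card_congr Multiplicative.toAdd, Nat.card_zmod]
      rw [h2]
      push_cast
      have h3 : (w.length : ℝ) ≤ (w.length : ℝ) ^ (8 / 3 + ε) := by
        conv_lhs => rw [← Real.rpow_one (w.length : ℝ)]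
        exact Real.rpow_le_rpow_of_exponent_le hnR (by linarith)
      nlinarith

end Pool.Agent.RFG43.Cyc
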