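import Mathlib

/-!
Crew file for `MP_b76cd5_al`: the flow of a word on the grid and the homomorphisms to the affine
groups over `ZMod p` (the same text as in the hand-in `OutsideSecondDerived`).
-/

set_option autoImplicit false

namespace Pool.Agent.RFG43.Flow

variable {α : Type} [DecidableEq α]

/-- The step of a letter in the grid. -/
def stp (x : α × Bool) : α → ℤ := if x.2 then Pi.single x.1 1 else -Pi.single x.1 1

/-- The end of the path of a word that starts at `v`. -/
def endv : List (α × Bool) → (α → ℤ) → (α → ℤ)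
  | [], v => v
  | x :: l, v => endv l (v + stp x)

/-- The edge of a letter read at the vertex `v`. -/
def edge (x : α × Bool) (v : α → ℤ) : (α → ℤ) × α := (if x.2 then v else v + stp x, x.1)

/-- The sign of a letter. -/
def sgn (x : α × Bool) : ℤ := if x.2 then 1 else -1

/-- The flow of the path of a word that starts at `v`. -/
noncomputable def flow : List (α × Bool) → (α → ℤ) → ((α → ℤ) × α →₀ ℤ)
  | [], _ => 0
  | x :: l, v => Finsupp.single (edge x v) (sgn x) + flow l (v + stp x)

/-- The vertices of the path of a word that starts at `v`. -/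
def verts : List (α × Bool) → (α → ℤ) → List (α → ℤ)
  | [], v => [v]
  | x :: l, v => v :: verts l (v + stp x)

/-- Number of letters `(j, true)`. -/
def pos (j : α) (l : List (α × Bool)) : ℕ := l.count (j, true)

/-- Number of letters `(j, false)`. -/
def neg (j : α) (l : List (α × Bool)) : ℕ := l.count (j, false)

theorem stp_true (i : α) : stp (i, true) = Pi.single i 1 := by simp [stp]

theorem stp_false (i : α) : stp (i, false) = -Pi.single i 1 := by simp [stp]

theorem head_mem_verts (l : List (α × Bool)) (v : α → ℤ) : v ∈ verts l v := by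
  cases l <;> simp [verts]

theorem stp_apply (x : α × Bool) (j : α) :
    stp x j = (pos j [x] : ℤ) - neg j [x] := by
  rcases x with ⟨i, b⟩
  by_cases h : i = j
  · subst h
    cases b <;> simp [stp, pos, neg]
  · cases b <;> simp [stp, pos, neg, h, Ne.symm h]

theorem pos_cons (j : α) (x : α × Bool) (l : List (α × Bool)) :
    pos j (x :: l) = pos j [x] + pos j l := by
  simp [pos, List.count_cons, add_comm]

theorem neg_cons (j : α) (x : α × Bool) (l : List (α × Bool)) :
    neg j (x :: l) = neg j [x] + neg j l := by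
  simp [neg, List.count_cons, add_comm]

theorem endv_apply (l : List (α × Bool)) (v : α → ℤ) (j : α) :
    endv l v j = v j + (pos j l : ℤ) - neg j l := by
  induction l generalizing v with
  | nil => simp [endv, pos, neg]
  | cons x l ih =>
    rw [endv, ih, pos_cons, neg_cons, Pi.add_apply, stp_apply]
    push_cast
    ring

/-- A vertex of the path differs from the starting point in the coordinate `j` by at most the
number of letters `j` of either sign. -/
theorem verts_bound (l : List (α × Bool)) (v u : α → ℤ) (hu : u ∈ verts l v) (j : α) :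
    -(neg j l : ℤ) ≤ u j - v j ∧ u j - v j ≤ pos j l := by
  induction l generalizing v with
  | nil =>
    simp only [verts, List.mem_singleton] at hu
    subst hu
    simp [pos, neg]
  | cons x l ih =>
    rw [verts, List.mem_cons] at hu
    rcases hu with rfl | hu
    · simp
    · have h := ih (v + stp x) hu
      rw [Pi.add_apply, stp_apply] at h
      rw [pos_cons, neg_cons]
      push_cast
      omega

theorem verts_diff (l : List (α × Bool)) (v u u' : α → ℤ) (hu : u ∈ verts l v)
    (hu' : u' ∈ verts l v) (j : α) (k : ℕ) (h1 : pos j l ≤ k) (h2 : neg j l ≤ k) :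
    |u j - u' j| ≤ k := by
  induction l generalizing v with
  | nil =>
    simp only [verts, List.mem_singleton] at hu hu'
    subst hu
    subst hu'
    simp
  | cons x l ih =>
    have e1 := hu
    have e2 := hu'
    rw [verts, List.mem_cons] at hu hu'
    rcases hu with rfl | hu
    · have := verts_bound _ _ _ e2 j
      rw [abs_le]
      omega
    · rcases hu' with rfl | hu'
      · have := verts_bound _ _ _ e1 j
        rw [abs_le]
        omega
      · refine ih (v + stp x) hu hu' ?_ ?_
        · rw [pos_cons] at h1; omega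
        · rw [neg_cons] at h2; omega

theorem flow_mem (l : List (α × Bool)) (v : α → ℤ) (e : (α → ℤ) × α) (he : flow l v e ≠ 0) :
    e.1 ∈ verts l v := by
  classical
  induction l generalizing v with
  | nil => simp [flow] at he
  | cons x l ih =>
    rw [verts]
    by_cases h : flow l (v + stp x) e = 0
    · rw [flow, Finsupp.add_apply, h, add_zero, Finsupp.single_apply] at he
      have h' : edge x v = e := by
        by_contra hne
        rw [if_neg hne] at he
        exact he rfl
      rw [← h']
      rcases x with ⟨i, b⟩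
      cases b
      · simp only [edge]
        exact List.mem_cons_of_mem _ (head_mem_verts _ _)
      · simp [edge]
    · exact List.mem_cons_of_mem _ (ih _ h)

theorem flow_bound (l : List (α × Bool)) (v : α → ℤ) (e : (α → ℤ) × α) :
    -(neg e.2 l : ℤ) ≤ flow l v e ∧ flow l v e ≤ pos e.2 l := by
  classical
  induction l generalizing v with
  | nil => simp [flow, pos, neg]
  | cons x l ih =>
    have h := ih (v + stp x)
    rw [flow, Finsupp.add_apply, pos_cons, neg_cons]
    push_cast
    have h1 : -(neg e.2 [x] : ℤ) ≤ (Finsupp.single (edge x v) (sgn x) : _ →₀ ℤ) e ∧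
        (Finsupp.single (edge x v) (sgn x) : _ →₀ ℤ) e ≤ pos e.2 [x] := by
      rw [Finsupp.single_apply]
      split_ifs with h2
      · rcases x with ⟨i, b⟩
        rw [← h2]
        cases b <;> simp [edge, sgn, pos, neg]
      · simp
    omega

/-! ### The flow determines the word modulo the second derived subgroup -/

/-- The exponent sums. -/
noncomputable def E : FreeGroup α →* Multiplicative (α → ℤ) :=
  FreeGroup.lift fun i => Multiplicative.ofAdd (Pi.single i 1)

theorem mk_cons (x : α × Bool) (l : List (α × Bool)) :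
    FreeGroup.mk (x :: l) = FreeGroup.mk [x] * FreeGroup.mk l := by
  rw [FreeGroup.mul_mk]
  rfl

theorem mk_true (i : α) : FreeGroup.mk [(i, true)] = FreeGroup.of i := rfl

theorem mk_false (i : α) : FreeGroup.mk [(i, false)] = (FreeGroup.of i)⁻¹ := by
  rw [FreeGroup.of, FreeGroup.inv_mk]
  rfl

theorem E_mul (a b : FreeGroup α) : Multiplicative.toAdd (E (a * b)) =
    Multiplicative.toAdd (E a) + Multiplicative.toAdd (E b) := by rw [map_mul, toAdd_mul]

theorem E_inv (a : FreeGroup α) : Multiplicative.toAdd (E a⁻¹) =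
    -Multiplicative.toAdd (E a) := by rw [map_inv, toAdd_inv]

theorem E_letter (x : α × Bool) : Multiplicative.toAdd (E (FreeGroup.mk [x])) = stp x := by
  rcases x with ⟨i, b⟩
  cases b
  · rw [mk_false, map_inv, E, FreeGroup.lift_apply_of, stp_false]
    rfl
  · rw [mk_true, E, FreeGroup.lift_apply_of, stp_true]
    rfl

theorem endv_eq (l : List (α × Bool)) (v : α → ℤ) :
    endv l v = v + Multiplicative.toAdd (E (FreeGroup.mk l)) := by
  induction l generalizing v with
  | nil =>
    have : (FreeGroup.mk [] : FreeGroup α) = 1 := rfl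
    rw [endv, this, map_one]
    simp
  | cons x l ih =>
    rw [endv, ih, mk_cons, map_mul, toAdd_mul, E_letter, add_assoc]

/-- The class in the free abelian group. -/
def ab (g : FreeGroup α) : FreeAbelianGroup α := Additive.ofMul (Abelianization.of g)

theorem ab_mul (x y : FreeGroup α) : ab (x * y) = ab x + ab y := rfl

theorem ab_inv (x : FreeGroup α) : ab x⁻¹ = -ab x := rfl

theorem ab_one : ab (1 : FreeGroup α) = 0 := rfl

theorem ab_of (i : α) : ab (FreeGroup.of i) = FreeAbelianGroup.of i := rfl

theorem ab_E (g : FreeGroup α) (j : α) :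
    (FreeAbelianGroup.toFinsupp (ab g)) j = Multiplicative.toAdd (E g) j := by
  induction g using FreeGroup.induction_on with
  | C1 =>
    rw [ab_one, map_zero, map_one]
    rfl
  | of i =>
    rw [ab_of, FreeAbelianGroup.toFinsupp_of, E, FreeGroup.lift_apply_of]
    simp [Finsupp.single_apply, Pi.single_apply, eq_comm]
  | inv_of i h =>
    rw [ab_inv, map_neg, E_inv, Finsupp.neg_apply, Pi.neg_apply, h]
  | mul x y hx hy =>
    rw [ab_mul, map_add, E_mul, Finsupp.add_apply, Pi.add_apply, hx, hy]

theorem mem_commutator (g : FreeGroup α) (hg : E g = 1) : g ∈ commutator (FreeGroup α) := by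
  have h3 : FreeAbelianGroup.toFinsupp (ab g) = 0 := by
    ext j
    rw [ab_E, hg]
    rfl
  have h4 : ab g = 0 := (FreeAbelianGroup.equivFinsupp α).map_eq_zero_iff.1 h3
  have h5 : Abelianization.of g = 1 := h4
  rw [← Abelianization.ker_of]
  exact h5

/-- A section of `E` over its range, with value `1` at `0`. -/
noncomputable def sec (v : α → ℤ) : FreeGroup α :=
  open Classical in
  if v = 0 then 1 else if h : ∃ g : FreeGroup α, Multiplicative.toAdd (E g) = v then h.choose
    else 1

theorem sec_zero : sec (0 : α → ℤ) = 1 := by simp [sec]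

theorem sec_spec (v : α → ℤ) (h : ∃ g : FreeGroup α, Multiplicative.toAdd (E g) = v) :
    Multiplicative.toAdd (E (sec v)) = v := by
  rw [sec]
  split_ifs with h0
  · rw [map_one, h0]
    rfl
  · exact h.choose_spec

/-- The class of an element of the commutator subgroup in its abelianisation. -/
noncomputable def cls (g : FreeGroup α) : Abelianization (commutator (FreeGroup α)) :=
  open Classical in
  if h : g ∈ commutator (FreeGroup α) then Abelianization.of ⟨g, h⟩ else 1

theorem cls_mul (g h : FreeGroup α) (hg : E g = 1) (hh : E h = 1) :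
    cls (g * h) = cls g * cls h := by
  have hg := mem_commutator g hg
  have hh := mem_commutator h hh
  rw [cls, cls, cls, dif_pos hg, dif_pos hh, dif_pos (mul_mem hg hh), ← map_mul]
  rfl

theorem cls_one : cls (1 : FreeGroup α) = 1 := by
  rw [cls, dif_pos (one_mem _)]
  exact map_one _

theorem cls_inv (g : FreeGroup α) (hg : E g = 1) : cls g⁻¹ = (cls g)⁻¹ := by
  have h : E g⁻¹ = 1 := by rw [map_inv, hg, inv_one]
  have := cls_mul g⁻¹ g h hg
  rw [inv_mul_cancel, cls_one] at this
  exact (inv_eq_of_mul_eq_one_left this.symm).symm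

/-- The Schreier generator of an edge. -/
noncomputable def tau (e : (α → ℤ) × α) : Abelianization (commutator (FreeGroup α)) :=
  cls (sec e.1 * FreeGroup.of e.2 * (sec (e.1 + Pi.single e.2 1))⁻¹)

/-- The class of a flow. -/
noncomputable def theta :
    ((α → ℤ) × α →₀ ℤ) →+ Additive (Abelianization (commutator (FreeGroup α))) :=
  Finsupp.liftAddHom fun e => zmultiplesHom _ (Additive.ofMul (tau e))

theorem theta_single (e : (α → ℤ) × α) (k : ℤ) :
    theta (Finsupp.single e k) = k • Additive.ofMul (tau e) := by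
  rw [theta, Finsupp.liftAddHom_apply_single]
  rfl

theorem cls_eq (l : List (α × Bool)) (v : α → ℤ)
    (hv : ∃ g : FreeGroup α, Multiplicative.toAdd (E g) = v) :
    Additive.ofMul (cls (sec v * FreeGroup.mk l * (sec (endv l v))⁻¹)) = theta (flow l v) := by
  induction l generalizing v with
  | nil =>
    have : (FreeGroup.mk [] : FreeGroup α) = 1 := rfl
    rw [this, endv, flow, mul_one, mul_inv_cancel, cls_one, map_zero]
    rfl
  | cons x l ih =>
    have hv' : ∃ g : FreeGroup α, Multiplicative.toAdd (E g) = v + stp x := by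
      obtain ⟨g, hg⟩ := hv
      exact ⟨g * FreeGroup.mk [x], by rw [map_mul, toAdd_mul, hg, E_letter]⟩
    have hend : ∃ g : FreeGroup α, Multiplicative.toAdd (E g) = endv l (v + stp x) := by
      obtain ⟨g, hg⟩ := hv'
      exact ⟨g * FreeGroup.mk l, by rw [map_mul, toAdd_mul, hg, endv_eq]⟩
    have h1 : E (sec v * FreeGroup.mk [x] * (sec (v + stp x))⁻¹) = 1 := by
      apply Multiplicative.toAdd.injective
      rw [E_mul, E_mul, E_inv, sec_spec v hv, sec_spec _ hv', E_letter, toAdd_one]
      abel
    have h2 : E (sec (v + stp x) * FreeGroup.mk l * (sec (endv l (v + stp x)))⁻¹) = 1 := by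
      apply Multiplicative.toAdd.injective
      rw [E_mul, E_mul, E_inv, sec_spec _ hend, sec_spec _ hv', endv_eq, toAdd_one]
      abel
    have h3 : sec v * FreeGroup.mk (x :: l) * (sec (endv (x :: l) v))⁻¹ =
        (sec v * FreeGroup.mk [x] * (sec (v + stp x))⁻¹) *
          (sec (v + stp x) * FreeGroup.mk l * (sec (endv l (v + stp x)))⁻¹) := by
      rw [mk_cons, endv]
      group
    rw [h3, cls_mul _ _ h1 h2, ofMul_mul, ih _ hv', flow, map_add, theta_single]
    congr 1
    rcases x with ⟨i, b⟩
    cases b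
    · have h4 : sec v * FreeGroup.mk [(i, false)] * (sec (v + stp (i, false)))⁻¹ =
          (sec (v + stp (i, false)) * FreeGroup.of i *
            (sec (v + stp (i, false) + Pi.single i 1))⁻¹)⁻¹ := by
        have : v + stp (i, false) + Pi.single i 1 = v := by rw [stp_false]; abel
        rw [this, mk_false]
        group
      have h5 : E (sec (v + stp (i, false)) * FreeGroup.of i *
            (sec (v + stp (i, false) + Pi.single i 1))⁻¹) = 1 := by
        rw [h4, map_inv, inv_eq_one] at h1
        exact h1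
      rw [h4, cls_inv _ h5]
      simp [edge, sgn, tau]
    · simp [edge, sgn, tau, mk_true, stp_true]

/-- A word with exponent sums `0` and trivial flow is in the second derived subgroup. -/
theorem mem_derived (l : List (α × Bool)) (h1 : E (FreeGroup.mk l) = 1) (h2 : flow l 0 = 0) :
    FreeGroup.mk l ∈ derivedSeries (FreeGroup α) 2 := by
  have h := cls_eq l 0 ⟨1, by rw [map_one]; rfl⟩
  rw [endv_eq, h1, toAdd_one, add_zero, sec_zero, h2, map_zero, one_mul, inv_one, mul_one] at h
  have h' : cls (FreeGroup.mk l) = 1 := h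
  have hm := mem_commutator _ h1
  rw [cls, dif_pos hm] at h'
  have h3 : (⟨FreeGroup.mk l, hm⟩ : commutator (FreeGroup α)) ∈
      commutator (commutator (FreeGroup α)) := by
    have h5 := Abelianization.ker_of (commutator (FreeGroup α))
    rw [← h5]
    exact h'
  have h4 : FreeGroup.mk l ∈ (commutator (commutator (FreeGroup α))).map
      (commutator (FreeGroup α)).subtype := ⟨_, h3, rfl⟩
  rw [Subgroup.map_subtype_commutator] at h4
  exact h4

/-! ### The affine group of a line -/

/-- The affine group of the line over `ZMod p`: the map `x ↦ a x + b`. -/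
@[ext]
structure Aff (p : ℕ) where
  /-- The translation part. -/
  b : ZMod p
  /-- The linear part. -/
  a : (ZMod p)ˣ

namespace Aff

variable {p : ℕ}

instance : Group (Aff p) where
  mul x y := ⟨x.b + x.a * y.b, x.a * y.a⟩
  one := ⟨0, 1⟩
  inv x := ⟨-((x.a⁻¹ : (ZMod p)ˣ) * x.b), x.a⁻¹⟩
  mul_assoc x y z := by
    refine Aff.ext ?_ (mul_assoc _ _ _)
    change x.b + x.a * y.b + (x.a * y.a : (ZMod p)ˣ) * z.b = x.b + x.a * (y.b + y.a * z.b)
    push_cast
    ring
  one_mul x := by
    refine Aff.ext ?_ (one_mul _)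
    change 0 + ((1 : (ZMod p)ˣ) : ZMod p) * x.b = x.b
    simp
  mul_one x := by
    refine Aff.ext ?_ (mul_one _)
    change x.b + x.a * 0 = x.b
    simp
  inv_mul_cancel x := by
    refine Aff.ext ?_ (inv_mul_cancel _)
    change -((x.a⁻¹ : (ZMod p)ˣ) * x.b) + (x.a⁻¹ : (ZMod p)ˣ) * x.b = 0
    simp

theorem mul_b (x y : Aff p) : (x * y).b = x.b + x.a * y.b := rfl

theorem mul_a (x y : Aff p) : (x * y).a = x.a * y.a := rfl

theorem inv_b (x : Aff p) : (x⁻¹).b = -((x.a⁻¹ : (ZMod p)ˣ) * x.b) := rfl

theorem inv_a (x : Aff p) : (x⁻¹).a = x.a⁻¹ := rfl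

theorem one_b : (1 : Aff p).b = 0 := rfl

/-- The affine group as a set of pairs. -/
def equiv : Aff p ≃ ZMod p × (ZMod p)ˣ where
  toFun x := (x.b, x.a)
  invFun x := ⟨x.1, x.2⟩
  left_inv _ := rfl
  right_inv _ := rfl

end Aff

section eval

variable [Fintype α] {p : ℕ}

/-- The character of the grid given by `a`. -/
def chi (a : α → (ZMod p)ˣ) (v : α → ℤ) : (ZMod p)ˣ := ∏ j, a j ^ v j

theorem chi_add (a : α → (ZMod p)ˣ) (v u : α → ℤ) : chi a (v + u) = chi a v * chi a u := by
  simp [chi, zpow_add, Finset.prod_mul_distrib]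

theorem chi_zero (a : α → (ZMod p)ˣ) : chi a 0 = 1 := by simp [chi]

theorem chi_single (a : α → (ZMod p)ˣ) (i : α) : chi a (Pi.single i 1) = a i := by
  rw [chi, Finset.prod_eq_single i]
  · simp
  · intro j _ hj
    simp [Pi.single_apply, hj]
  · simp

theorem chi_neg (a : α → (ZMod p)ˣ) (v : α → ℤ) : chi a (-v) = (chi a v)⁻¹ := by
  simp [chi]

/-- The homomorphism to the affine group: `i₀` goes to `x ↦ a x + 1`, the other letters to
`x ↦ a x`. -/
noncomputable def phi (i₀ : α) (a : α → (ZMod p)ˣ) : FreeGroup α →* Aff p :=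
  FreeGroup.lift fun i => ⟨if i = i₀ then 1 else 0, a i⟩

/-- The value of the character on a flow. -/
noncomputable def val (i₀ : α) (a : α → (ZMod p)ˣ) : ((α → ℤ) × α →₀ ℤ) →+ ZMod p :=
  Finsupp.liftAddHom fun e => zmultiplesHom _ (if e.2 = i₀ then (chi a e.1 : ZMod p) else 0)

theorem val_single (i₀ : α) (a : α → (ZMod p)ˣ) (e : (α → ℤ) × α) (k : ℤ) :
    val i₀ a (Finsupp.single e k) = k • (if e.2 = i₀ then (chi a e.1 : ZMod p) else 0) := by
  rw [val, Finsupp.liftAddHom_apply_single]
  rfl

theorem val_apply (i₀ : α) (a : α → (ZMod p)ˣ) (f : (α → ℤ) × α →₀ ℤ) :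
    val i₀ a f = ∑ e ∈ f.support, (f e : ZMod p) * (if e.2 = i₀ then (chi a e.1 : ZMod p) else 0)
    := by
  rw [val, Finsupp.liftAddHom_apply, Finsupp.sum]
  refine Finset.sum_congr rfl fun e _ => ?_
  rw [zmultiplesHom_apply, zsmul_eq_mul]

theorem phi_letter_a (i₀ : α) (a : α → (ZMod p)ˣ) (x : α × Bool) :
    (phi i₀ a (FreeGroup.mk [x])).a = chi a (stp x) := by
  rcases x with ⟨i, b⟩
  cases b
  · rw [mk_false, map_inv, Aff.inv_a, phi, FreeGroup.lift_apply_of, stp_false, chi_neg,
      chi_single]
  · rw [mk_true, phi, FreeGroup.lift_apply_of, stp_true, chi_single]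

theorem phi_letter_b (i₀ : α) (a : α → (ZMod p)ˣ) (x : α × Bool) (v : α → ℤ) :
    (chi a v : ZMod p) * (phi i₀ a (FreeGroup.mk [x])).b =
      val i₀ a (Finsupp.single (edge x v) (sgn x)) := by
  rw [val_single]
  rcases x with ⟨i, b⟩
  cases b
  · rw [mk_false, map_inv, Aff.inv_b, phi, FreeGroup.lift_apply_of]
    by_cases h : i = i₀
    · subst h
      simp [edge, sgn, stp_false, chi_add, chi_neg, chi_single]
    · simp [edge, sgn, h]
  · rw [mk_true, phi, FreeGroup.lift_apply_of]
    by_cases h : i = i₀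
    · subst h
      simp [edge, sgn]
    · simp [edge, sgn, h]

theorem phi_eq (i₀ : α) (a : α → (ZMod p)ˣ) (l : List (α × Bool)) (v : α → ℤ) :
    (chi a v : ZMod p) * (phi i₀ a (FreeGroup.mk l)).b = val i₀ a (flow l v) := by
  induction l generalizing v with
  | nil =>
    have : (FreeGroup.mk [] : FreeGroup α) = 1 := rfl
    rw [this, map_one, flow, map_zero, Aff.one_b, mul_zero]
  | cons x l ih =>
    rw [mk_cons, map_mul, Aff.mul_b, mul_add, phi_letter_b, phi_letter_a, flow, map_add, ← ih,
      chi_add]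
    push_cast
    ring

/-- A sum of powers of all nonzero residues. -/
theorem sum_zpow [hp : Fact p.Prime] (z : ℤ) (hz : z ≠ 0) (hz' : |z| < (p : ℤ) - 1) :
    ∑ t : (ZMod p)ˣ, ((t ^ z : (ZMod p)ˣ) : ZMod p) = 0 := by
  have hp1 : (0 : ℤ) < (p : ℤ) - 1 := lt_of_le_of_lt (abs_nonneg z) hz'
  have hnd : ¬ ((p : ℤ) - 1) ∣ z := by
    intro h
    have := Int.le_of_dvd (abs_pos.2 hz) ((dvd_abs _ _).2 h)
    omega
  obtain ⟨i, hi⟩ : ∃ i : ℕ, (i : ℤ) = z % ((p : ℤ) - 1) :=
    ⟨(z % ((p : ℤ) - 1)).toNat, Int.toNat_of_nonneg (Int.emod_nonneg _ hp1.ne')⟩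
  have h1 : ∀ t : (ZMod p)ˣ, t ^ z = t ^ i := by
    intro t
    have h2 : t ^ ((p : ℤ) - 1) = 1 := by
      have h3 : t ^ (p - 1) = 1 := ZMod.units_pow_card_sub_one_eq_one p t
      have h4 : ((p : ℤ) - 1) = ((p - 1 : ℕ) : ℤ) := by
        have := hp.out.pos
        push_cast [Nat.cast_sub this]
        ring
      rw [h4, zpow_natCast, h3]
    conv_lhs => rw [← Int.mul_ediv_add_emod z ((p : ℤ) - 1), ← hi, zpow_add, zpow_mul, h2,
      one_zpow, one_mul, zpow_natCast]
  have h5 : ∑ t : (ZMod p)ˣ, ((t ^ z : (ZMod p)ˣ) : ZMod p) =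
      ∑ t : (ZMod p)ˣ, (t ^ i : ZMod p) :=
    Finset.sum_congr rfl fun t _ => by rw [h1, Units.val_pow_eq_pow_val]
  rw [h5, FiniteField.sum_pow_units (ZMod p) i, if_neg]
  rw [ZMod.card]
  intro h
  apply hnd
  have h6 : ((p : ℤ) - 1) ∣ (i : ℤ) := by
    have h4 : ((p : ℤ) - 1) = ((p - 1 : ℕ) : ℤ) := by
      have := hp.out.pos
      push_cast [Nat.cast_sub this]
      ring
    rw [h4]
    exact_mod_cast h
  rw [hi] at h6
  obtain ⟨c, hc⟩ := h6
  refine ⟨z / ((p : ℤ) - 1) + c, ?_⟩
  have h7 := Int.mul_ediv_add_emod z ((p : ℤ) - 1)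
  rw [hc] at h7
  rw [mul_add, h7]

/-- Orthogonality of the characters in a box. -/
theorem sum_chi [hp : Fact p.Prime] (z : α → ℤ) (hz : ∀ j, |z j| < (p : ℤ) - 1) :
    ∑ a : α → (ZMod p)ˣ, (chi a z : ZMod p) = if z = 0 then (-1) ^ Fintype.card α else 0 := by
  have h1 : ∑ a : α → (ZMod p)ˣ, (chi a z : ZMod p) =
      ∏ j, ∑ t : (ZMod p)ˣ, ((t ^ z j : (ZMod p)ˣ) : ZMod p) := by
    rw [Finset.prod_univ_sum, Fintype.piFinset_univ]
    refine Finset.sum_congr rfl fun a _ => ?_
    rw [chi, Units.coe_prod]
  rw [h1]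
  split_ifs with h
  · subst h
    have h2 : ∑ t : (ZMod p)ˣ, ((t ^ (0 : ℤ) : (ZMod p)ˣ) : ZMod p) = -1 := by
      have := FiniteField.sum_pow_units (ZMod p) 0
      simpa using this
    simp only [Pi.zero_apply]
    rw [h2, Finset.prod_const, Finset.card_univ]
  · obtain ⟨j, hj⟩ : ∃ j, z j ≠ 0 := by
      by_contra hcon
      push Not at hcon
      exact h (funext hcon)
    exact Finset.prod_eq_zero (Finset.mem_univ j) (sum_zpow (z j) hj (hz j))

/-- Some homomorphism to the affine group does not kill the word. -/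
theorem exists_phi [hp : Fact p.Prime] (l : List (α × Bool)) (m : ℕ)
    (hm : ∀ j, pos j l ≤ m ∧ neg j l ≤ m) (hpm : m + 1 < p) (hf : flow l 0 ≠ 0) :
    ∃ (i₀ : α) (a : α → (ZMod p)ˣ), phi i₀ a (FreeGroup.mk l) ≠ 1 := by
  classical
  obtain ⟨e₀, he₀⟩ : ∃ e, flow l 0 e ≠ 0 := by
    by_contra hcon
    push Not at hcon
    exact hf (Finsupp.ext hcon)
  by_contra hcon
  push Not at hcon
  have h0 : ∀ a : α → (ZMod p)ˣ, val e₀.2 a (flow l 0) = 0 := by
    intro a
    rw [← phi_eq, hcon e₀.2 a, Aff.one_b, mul_zero]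
  have h1 : ∑ a : α → (ZMod p)ˣ, (chi a (-e₀.1) : ZMod p) * val e₀.2 a (flow l 0) = 0 :=
    Finset.sum_eq_zero fun a _ => by rw [h0, mul_zero]
  have h2 : ∑ a : α → (ZMod p)ˣ, (chi a (-e₀.1) : ZMod p) * val e₀.2 a (flow l 0) =
      ∑ e ∈ (flow l 0).support, ∑ a : α → (ZMod p)ˣ, (flow l 0 e : ZMod p) *
        (if e.2 = e₀.2 then (chi a (-e₀.1 + e.1) : ZMod p) else 0) := by
    rw [Finset.sum_comm]
    refine Finset.sum_congr rfl fun a _ => ?_
    rw [val_apply, Finset.mul_sum]
    refine Finset.sum_congr rfl fun e _ => ?_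
    split_ifs
    · rw [chi_add]
      push_cast
      ring
    · simp
  rw [h2, Finset.sum_eq_single e₀] at h1
  · rw [← Finset.mul_sum] at h1
    simp only [if_true] at h1
    have h3 : ∑ a : α → (ZMod p)ˣ, (chi a (-e₀.1 + e₀.1) : ZMod p) = (-1) ^ Fintype.card α := by
      rw [sum_chi, if_pos (neg_add_cancel _)]
      intro j
      simp only [neg_add_cancel, Pi.zero_apply, abs_zero]
      omega
    have h5 : (flow l 0 e₀ : ZMod p) = 0 := by
      have h6 : (flow l 0 e₀ : ZMod p) * (-1) ^ Fintype.card α = 0 := by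
        rw [← h3]
        exact h1
      rcases mul_eq_zero.1 h6 with h | h
      · exact h
      · exact absurd h (pow_ne_zero _ (neg_ne_zero.2 one_ne_zero))
    rw [ZMod.intCast_zmod_eq_zero_iff_dvd] at h5
    have h6 := flow_bound l 0 e₀
    have h7 := hm e₀.2
    have h8 : |flow l 0 e₀| ≤ m := by
      rw [abs_le]
      omega
    have h9 := Int.le_of_dvd (abs_pos.2 he₀) ((dvd_abs _ _).2 h5)
    omega
  · intro e he hne
    rw [← Finset.mul_sum]
    by_cases h : e.2 = e₀.2
    · have h3 : ∑ a : α → (ZMod p)ˣ, (chi a (-e₀.1 + e.1) : ZMod p) = 0 := by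
        rw [sum_chi, if_neg]
        · intro h4
          apply hne
          refine Prod.ext ?_ h
          have h5 : e.1 = e₀.1 + (-e₀.1 + e.1) := by abel
          rw [h5, h4, add_zero]
        · intro j
          have h4 := verts_diff l 0 e.1 e₀.1 (flow_mem l 0 e (Finsupp.mem_support_iff.1 he))
            (flow_mem l 0 e₀ he₀) j m (hm j).1 (hm j).2
          rw [Pi.add_apply, Pi.neg_apply, neg_add_eq_sub]
          omega
      simp only [h, if_true, h3, mul_zero]
    · simp [h]
  · intro h
    exact absurd (Finsupp.mem_support_iff.2 he₀) h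

end eval

theorem pos_add_neg_le (j : α) (l : List (α × Bool)) : pos j l + neg j l ≤ l.length := by
  induction l with
  | nil => simp [pos, neg]
  | cons x l ih =>
    rw [pos_cons, neg_cons, List.length_cons]
    have h : pos j [x] + neg j [x] ≤ 1 := by
      rcases x with ⟨i, b⟩
      by_cases h : i = j
      · subst h
        cases b <;> simp [pos, neg]
      · cases b <;> simp [pos, neg, h]
    omega

/-- The affine group is metabelian. -/
theorem aff_metabelian (p : ℕ) : derivedSeries (Aff p) 2 = ⊥ := by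
  let π : Aff p →* (ZMod p)ˣ := { toFun := Aff.a, map_one' := rfl, map_mul' := Aff.mul_a }
  have h1 : derivedSeries (Aff p) 1 ≤ π.ker := by
    rw [derivedSeries_succ, derivedSeries_zero, Subgroup.commutator_le]
    intro x _ y _
    rw [MonoidHom.mem_ker, map_commutatorElement, commutatorElement_eq_one_iff_mul_comm]
    exact mul_comm _ _
  rw [eq_bot_iff, derivedSeries_succ, Subgroup.commutator_le]
  intro x hx y hy
  have hx' : x.a = 1 := h1 hx
  have hy' : y.a = 1 := h1 hy
  rw [Subgroup.mem_bot, commutatorElement_eq_one_iff_mul_comm]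
  refine Aff.ext ?_ ?_
  · rw [Aff.mul_b, Aff.mul_b, hx', hy']
    simp [add_comm]
  · rw [Aff.mul_a, Aff.mul_a, mul_comm]

theorem kills {G Q : Type} [Group G] [Group Q] (π : G →* Q) (n : ℕ)
    (h : derivedSeries Q n = ⊥) (x : G) (hx : x ∈ derivedSeries G n) : π x = 1 := by
  have h1 : π x ∈ (derivedSeries G n).map π := ⟨x, hx, rfl⟩
  have h2 := map_derivedSeries_le_derivedSeries π n h1
  rw [h] at h2
  exact h2

/-- The case of finite rank. -/
theorem finite_rank [Fintype α] (w : FreeGroup α) (hw : w ∉ derivedSeries (FreeGroup α) 2) :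
    ∃ (Q : Type) (_ : Group Q) (π : FreeGroup α →* Q), Finite Q ∧ π w ≠ 1 ∧
      derivedSeries Q 2 = ⊥ ∧ Nat.card Q ≤ (w.norm + 1) * (w.norm + 2) := by
  classical
  obtain ⟨l, hl⟩ : ∃ l, w.toWord = l := ⟨_, rfl⟩
  have hwl : FreeGroup.mk l = w := by rw [← hl]; exact FreeGroup.mk_toWord
  have hn : w.norm = l.length := by rw [FreeGroup.norm, hl]
  rw [hn]
  by_cases hE : E w = 1
  · have hflow : flow l 0 ≠ 0 := by
      intro h
      apply hw
      rw [← hwl]
      exact mem_derived l (by rw [hwl]; exact hE) h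
    have hpn : ∀ j, pos j l = neg j l := by
      intro j
      have h1 := endv_apply l 0 j
      rw [endv_eq, hwl, hE] at h1
      simp only [toAdd_one, add_zero, Pi.zero_apply, zero_add] at h1
      omega
    have hm : ∀ j, pos j l ≤ l.length / 2 ∧ neg j l ≤ l.length / 2 := by
      intro j
      have h1 := hpn j
      have h2 := pos_add_neg_le j l
      omega
    obtain ⟨p, hp, hp1, hp2⟩ := Nat.exists_prime_lt_and_le_two_mul (l.length / 2 + 1)
      (Nat.succ_ne_zero _)
    have : Fact p.Prime := ⟨hp⟩
    obtain ⟨i₀, a, ha⟩ := exists_phi l (l.length / 2) hm hp1 hflow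
    have hfin : Finite (Aff p) := Finite.of_equiv _ (Aff.equiv (p := p)).symm
    refine ⟨Aff p, inferInstance, phi i₀ a, hfin, by rw [← hwl]; exact ha,
      aff_metabelian p, ?_⟩
    rw [Nat.card_congr (Aff.equiv (p := p)), Nat.card_prod, Nat.card_zmod,
      Nat.card_eq_fintype_card, ZMod.card_units]
    have h1 : p ≤ l.length + 2 := by omega
    calc p * (p - 1) ≤ (l.length + 2) * (l.length + 1) :=
          Nat.mul_le_mul h1 (by omega)
      _ = (l.length + 1) * (l.length + 2) := Nat.mul_comm _ _
  · obtain ⟨j, hj⟩ : ∃ j, Multiplicative.toAdd (E w) j ≠ 0 := by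
      by_contra hcon
      push Not at hcon
      exact hE (Multiplicative.toAdd.injective (funext hcon))
    have h1 := endv_apply l 0 j
    rw [endv_eq, hwl, zero_add, Pi.zero_apply, zero_add] at h1
    have h2 := pos_add_neg_le j l
    have h3 : |Multiplicative.toAdd (E w) j| ≤ l.length := by
      rw [abs_le]
      omega
    refine ⟨Multiplicative (ZMod (l.length + 1)), inferInstance,
      (AddMonoidHom.toMultiplicative ((Int.castAddHom (ZMod (l.length + 1))).comp
        (Pi.evalAddMonoidHom (fun _ : α => ℤ) j))).comp E, inferInstance, ?_, ?_, ?_⟩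
    · intro h4
      have h5 : ((Multiplicative.toAdd (E w) j : ℤ) : ZMod (l.length + 1)) = 0 := h4
      rw [ZMod.intCast_zmod_eq_zero_iff_dvd] at h5
      have h6 := Int.le_of_dvd (abs_pos.2 hj) ((dvd_abs _ _).2 h5)
      push_cast at h6
      omega
    · rw [eq_bot_iff, derivedSeries_succ, Subgroup.commutator_le]
      intro x _ y _
      rw [Subgroup.mem_bot, commutatorElement_eq_one_iff_mul_comm]
      exact mul_comm _ _
    · have h4 : Nat.card (Multiplicative (ZMod (l.length + 1))) = l.length + 1 := by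
        rw [Nat.card_congr Multiplicative.toAdd, Nat.card_zmod]
      rw [h4]
      exact Nat.le_mul_of_pos_right _ (by omega)

end Pool.Agent.RFG43.Flow
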