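import Mathlib

/-!
# Subgroups of index two of the free group of rank two

If every element outside the second derived subgroup of a free group of rank `3` can be detected
in a finite quotient of order at most `C * n ^ e` in which the second derived subgroup dies, then
every element of a free group `G` of rank `2` outside the second derived subgroup of a subgroup
`R` of index `2` can be detected in a finite quotient of `G` of order at most
`2 * (C * (2 * n) ^ e) ^ 2` in which the second derived subgroup of `R` dies.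

The proof embeds `G` in the wreath product of a free group of rank `3` by the group of order `2`.
-/

namespace Pool.Agent.RFG43

open RegularWreathProduct

/-- A length function that is subadditive is bounded along a homomorphism out of a free group. -/
theorem idx_length {α M : Type} [DecidableEq α] [Group M] (l : M → ℕ) (h1 : l 1 = 0)
    (hmul : ∀ a b, l (a * b) ≤ l a + l b) (K : ℕ) (F : FreeGroup α →* M)
    (hK : ∀ i, l (F (FreeGroup.of i)) ≤ K) (hK' : ∀ i, l (F (FreeGroup.of i))⁻¹ ≤ K)
    (u : FreeGroup α) : l (F u) ≤ K * u.norm := by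
  have key : ∀ L : List (α × Bool), l (F (FreeGroup.mk L)) ≤ K * L.length := by
    intro L
    induction L with
    | nil =>
      have h0 : (FreeGroup.mk ([] : List (α × Bool))) = 1 := rfl
      rw [h0, map_one, h1]
      exact Nat.zero_le _
    | cons a L ih =>
      have h2 : FreeGroup.mk (a :: L) = FreeGroup.mk [a] * FreeGroup.mk L := rfl
      have h3 : l (F (FreeGroup.mk [a])) ≤ K := by
        rcases a with ⟨i, s⟩
        cases s
        · have h4 : FreeGroup.mk [(i, false)] = (FreeGroup.of i)⁻¹ := rfl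
          rw [h4, map_inv]
          exact hK' i
        · exact hK i
      rw [h2, map_mul, List.length_cons, Nat.mul_add, Nat.mul_one]
      have h5 := hmul (F (FreeGroup.mk [a])) (F (FreeGroup.mk L))
      omega
  have h := key u.toWord
  rwa [FreeGroup.mk_toWord] at h

/-- The map of wreath products induced by a homomorphism of the bases. -/
def idxMap {D E Q : Type} [Group D] [Group E] [Group Q] (f : D →* E) : D ≀ᵣ Q →* E ≀ᵣ Q where
  toFun a := ⟨fun x => f (a.left x), a.right⟩
  map_one' := by ext <;> simp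
  map_mul' a b := by ext <;> simp

/-- The embedding of a group in a wreath product given by a homomorphism to `Q` and a family of
elements indexed by `Q`. -/
def idxCob {G Q : Type} [Group G] [Group Q] (ρ : G →* Q) (t : Q → G) : G →* G ≀ᵣ Q where
  toFun w := ⟨fun x => t x * w * (t ((ρ w)⁻¹ * x))⁻¹, ρ w⟩
  map_one' := by ext <;> simp
  map_mul' a b := by ext <;> simp [mul_assoc]

/-- The image of the generator outside the subgroup. -/
def idxGen0 : FreeGroup (Fin 3) ≀ᵣ ℤˣ := ⟨fun x => if x = 1 then 1 else FreeGroup.of 2, -1⟩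

/-- The image of the generator inside the subgroup. -/
def idxGen1 : FreeGroup (Fin 3) ≀ᵣ ℤˣ :=
  ⟨fun x => if x = 1 then FreeGroup.of 0 else FreeGroup.of 1, 1⟩

/-- The homomorphism to the wreath product. -/
def idxTheta {G : Type} [Group G] (b : FreeGroupBasis (Fin 2) G) :
    G →* FreeGroup (Fin 3) ≀ᵣ ℤˣ :=
  b.lift ![idxGen0, idxGen1]

/-- The homomorphism from the free group of rank three to the subgroup. -/
def idxIota {G : Type} [Group G] (b : FreeGroupBasis (Fin 2) G) (R : Subgroup G)
    (h1 : b 1 ∈ R) (h2 : b 0 * b 1 * (b 0)⁻¹ ∈ R) (h3 : b 0 * b 0 ∈ R) :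
    FreeGroup (Fin 3) →* R :=
  FreeGroup.lift ![⟨b 1, h1⟩, ⟨b 0 * b 1 * (b 0)⁻¹, h2⟩, ⟨b 0 * b 0, h3⟩]

/-- The transversal. -/
def idxT {G : Type} [Group G] (b : FreeGroupBasis (Fin 2) G) (x : ℤˣ) : G :=
  if x = 1 then 1 else b 0

theorem idx_key {G : Type} [Group G] (b : FreeGroupBasis (Fin 2) G) (R : Subgroup G)
    (h1 : b 1 ∈ R) (h2 : b 0 * b 1 * (b 0)⁻¹ ∈ R) (h3 : b 0 * b 0 ∈ R) :
    (idxMap (R.subtype.comp (idxIota b R h1 h2 h3))).comp (idxTheta b) =
      idxCob (rightHom.comp (idxTheta b)) (idxT b) := by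
  have hne : ((-1 : ℤˣ) = 1) = False := by simp
  refine b.ext_hom _ _ fun i => ?_
  have e0 : idxTheta b (b 0) = idxGen0 := by simp [idxTheta]
  have e1 : idxTheta b (b 1) = idxGen1 := by simp [idxTheta]
  fin_cases i
  · ext x
    · rcases Int.units_eq_one_or x with rfl | rfl
      · simp [idxMap, idxCob, e0, idxGen0, idxT, rightHom, idxIota]
      · simp [idxMap, idxCob, e0, idxGen0, idxT, rightHom, idxIota]
    · simp [idxMap, idxCob, rightHom]
  · ext x
    · rcases Int.units_eq_one_or x with rfl | rfl
      · simp [idxMap, idxCob, e1, idxGen1, idxT, rightHom, idxIota]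
      · simp [idxMap, idxCob, e1, idxGen1, idxT, rightHom, idxIota]
    · simp [idxMap, idxCob, rightHom]

/-- The formula for the coordinates of the image in the wreath product. -/
theorem idx_coord {G : Type} [Group G] (b : FreeGroupBasis (Fin 2) G) (R : Subgroup G)
    (h1 : b 1 ∈ R) (h2 : b 0 * b 1 * (b 0)⁻¹ ∈ R) (h3 : b 0 * b 0 ∈ R) (w : G) (x : ℤˣ) :
    ((idxIota b R h1 h2 h3 ((idxTheta b w).left x) : R) : G) =
      idxT b x * w * (idxT b (((idxTheta b w).right)⁻¹ * x))⁻¹ := by
  have h := DFunLike.congr_fun (idx_key b R h1 h2 h3) w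
  have h' := congrArg (fun a => a.left x) h
  exact h'

/-- The coordinates are at most as long as the word. -/
theorem idx_norm {G : Type} [Group G] (b : FreeGroupBasis (Fin 2) G) (w : G) (x : ℤˣ) :
    ((idxTheta b w).left x).norm ≤ (b.repr w).norm := by
  let l : FreeGroup (Fin 3) ≀ᵣ ℤˣ → ℕ := fun a => max (a.left 1).norm (a.left (-1)).norm
  have hl : ∀ (a : FreeGroup (Fin 3) ≀ᵣ ℤˣ) (y : ℤˣ), (a.left y).norm ≤ l a := by
    intro a y
    rcases Int.units_eq_one_or y with rfl | rfl
    · exact le_max_left _ _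
    · exact le_max_right _ _
  have hmul : ∀ a c, l (a * c) ≤ l a + l c := by
    intro a c
    refine max_le ?_ ?_
    · refine (FreeGroup.norm_mul_le _ _).trans (Nat.add_le_add (hl a _) (hl c _))
    · refine (FreeGroup.norm_mul_le _ _).trans (Nat.add_le_add (hl a _) (hl c _))
  have hne : ((-1 : ℤˣ) = 1) = False := by simp
  have e0 : idxTheta b (b 0) = idxGen0 := by simp [idxTheta]
  have e1 : idxTheta b (b 1) = idxGen1 := by simp [idxTheta]
  have main := idx_length l (by simp [l]) hmul 1
    ((idxTheta b).comp b.repr.symm.toMonoidHom) (fun i => by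
      have hb : b.repr.symm (FreeGroup.of i) = b i := rfl
      simp only [MonoidHom.comp_apply, MulEquiv.coe_toMonoidHom, hb]
      fin_cases i
      · simp [e0, idxGen0, l]
      · simp [e1, idxGen1, l]) (fun i => by
      have hb : b.repr.symm (FreeGroup.of i) = b i := rfl
      simp only [MonoidHom.comp_apply, MulEquiv.coe_toMonoidHom, hb]
      fin_cases i
      · simp [e0, idxGen0, l]
      · simp [e1, idxGen1, l]) (b.repr w)
  have e : ((idxTheta b).comp b.repr.symm.toMonoidHom) (b.repr w) = idxTheta b w := by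
    simp
  rw [e, one_mul] at main
  exact (hl _ x).trans main

/-- The right coordinate detects the subgroup. -/
theorem idx_right {G : Type} [Group G] (b : FreeGroupBasis (Fin 2) G) (R : Subgroup G)
    (h1 : b 1 ∈ R) (h2 : b 0 * b 1 * (b 0)⁻¹ ∈ R) (h3 : b 0 * b 0 ∈ R) (h0 : b 0 ∉ R) (w : G) :
    (idxTheta b w).right = 1 ↔ w ∈ R := by
  have h := idx_coord b R h1 h2 h3 w 1
  have hmem : idxT b 1 * w * (idxT b (((idxTheta b w).right)⁻¹ * 1))⁻¹ ∈ R := by
    rw [← h]
    exact Subtype.coe_prop _
  have t1 : idxT b 1 = 1 := by simp [idxT]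
  have ts : idxT b (-1) = b 0 := by simp [idxT]
  constructor
  · intro hr
    rw [hr] at hmem
    simpa [t1] using hmem
  · intro hw
    rcases Int.units_eq_one_or (idxTheta b w).right with hr | hr
    · exact hr
    · exfalso
      rw [hr, t1, one_mul, mul_one, inv_neg, inv_one, ts] at hmem
      exact h0 (by simpa using (R.inv_mem ((R.mul_mem_cancel_left hw).1 hmem)))

/-- The main case: the first generator lies outside the subgroup and the second one inside. -/
theorem idx_main (C e : ℝ) (hC : 0 ≤ C) (he : 0 ≤ e)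
    (H : ∀ (R : Type) [Group R] (b : FreeGroupBasis (Fin 3) R) (g : R),
      g ∉ derivedSeries R 2 → ∃ (A : Type) (_ : Group A) (ψ : R →* A), Finite A ∧ ψ g ≠ 1 ∧
        (∀ x ∈ derivedSeries R 2, ψ x = 1) ∧ (Nat.card A : ℝ) ≤ C * ((b.repr g).norm : ℝ) ^ e)
    (G : Type) [Group G] (b : FreeGroupBasis (Fin 2) G) (R : Subgroup G) (hR : R.index = 2)
    (h1 : b 1 ∈ R) (h0 : b 0 ∉ R) (g : G) (hg : g ∈ R)
    (hgn : g ∉ (derivedSeries R 2).map R.subtype) :
    ∃ (Q : Type) (_ : Group Q) (π : G →* Q), Finite Q ∧ π g ≠ 1 ∧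
      (∀ x ∈ (derivedSeries R 2).map R.subtype, π x = 1) ∧
      (Nat.card Q : ℝ) ≤ 2 * (C * ((b.repr g).norm : ℝ) ^ e) ^ 2 := by
  have hN : R.Normal := Subgroup.normal_of_index_eq_two hR
  have h2 : b 0 * b 1 * (b 0)⁻¹ ∈ R := hN.conj_mem _ h1 _
  have h3 : b 0 * b 0 ∈ R := Subgroup.mul_self_mem_of_index_two hR _
  have hright := idx_right b R h1 h2 h3 h0
  have ht1 : idxT b 1 = 1 := by simp [idxT]
  -- the coordinate at the identity of `g`
  let u : FreeGroup (Fin 3) := (idxTheta b g).left 1
  have hu : ((idxIota b R h1 h2 h3 u : R) : G) = g := by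
    have h := idx_coord b R h1 h2 h3 g 1
    rw [(hright g).2 hg, inv_one, one_mul, ht1] at h
    simpa using h
  have hun : u ∉ derivedSeries (FreeGroup (Fin 3)) 2 := by
    intro hcon
    apply hgn
    refine ⟨idxIota b R h1 h2 h3 u, ?_, hu⟩
    exact map_derivedSeries_le_derivedSeries (idxIota b R h1 h2 h3) 2
      (Subgroup.mem_map_of_mem _ hcon)
  obtain ⟨A, hA, ψ, hfin, hψ, hkill, hcard⟩ :=
    H (FreeGroup (Fin 3)) (FreeGroupBasis.ofFreeGroup (Fin 3)) u hun
  refine ⟨A ≀ᵣ ℤˣ, inferInstance, (idxMap ψ).comp (idxTheta b), inferInstance, ?_, ?_, ?_⟩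
  · intro hcon
    apply hψ
    have h := congrArg (fun a => a.left 1) hcon
    exact h
  · rintro x ⟨r, hr, rfl⟩
    -- the coordinate maps restricted to `R` are homomorphisms
    let lam : ℤˣ → R →* FreeGroup (Fin 3) := fun y =>
      { toFun := fun r => (idxTheta b (r : G)).left y
        map_one' := by simp
        map_mul' := by
          intro r s
          have hr1 : (idxTheta b (r : G)).right = 1 := (hright _).2 r.2
          simp [hr1] }
    have hl : ∀ y, (idxTheta b (r : G)).left y ∈ derivedSeries (FreeGroup (Fin 3)) 2 := by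
      intro y
      exact map_derivedSeries_le_derivedSeries (lam y) 2 (Subgroup.mem_map_of_mem _ hr)
    ext y
    · exact hkill _ (hl y)
    · have hr1 : (idxTheta b (r : G)).right = 1 := (hright _).2 r.2
      simp [idxMap, hr1]
  · have hc2 : Nat.card ℤˣ = 2 := by simp
    rw [RegularWreathProduct.card, hc2]
    push_cast
    have hle : ((FreeGroupBasis.ofFreeGroup (Fin 3)).repr u).norm ≤ (b.repr g).norm :=
      idx_norm b g 1
    have hpow : (((FreeGroupBasis.ofFreeGroup (Fin 3)).repr u).norm : ℝ) ^ e ≤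
        ((b.repr g).norm : ℝ) ^ e :=
      Real.rpow_le_rpow (Nat.cast_nonneg _) (by exact_mod_cast hle) he
    have hA1 : (Nat.card A : ℝ) ≤ C * ((b.repr g).norm : ℝ) ^ e :=
      hcard.trans (mul_le_mul_of_nonneg_left hpow hC)
    have h0A : (0 : ℝ) ≤ (Nat.card A : ℝ) := Nat.cast_nonneg _
    nlinarith [pow_le_pow_left₀ h0A hA1 2]

/-- The automorphism of the free group of rank two used when both generators lie outside. -/
def idxAut : FreeGroup (Fin 2) ≃* FreeGroup (Fin 2) :=
  MonoidHom.toMulEquiv
    (FreeGroup.lift ![FreeGroup.of 0, FreeGroup.of 0 * FreeGroup.of 1])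
    (FreeGroup.lift ![FreeGroup.of 0, (FreeGroup.of 0)⁻¹ * FreeGroup.of 1])
    (by ext i; fin_cases i <;> simp)
    (by ext i; fin_cases i <;> simp)

/-- **Subgroups of index two.** -/
theorem index_two (C e : ℝ) (hC : 1 ≤ C) (he : 1 ≤ e)
    (H : ∀ (R : Type) [Group R] (b : FreeGroupBasis (Fin 3) R) (g : R),
      g ∉ derivedSeries R 2 → ∃ (A : Type) (_ : Group A) (ψ : R →* A), Finite A ∧ ψ g ≠ 1 ∧
        (∀ x ∈ derivedSeries R 2, ψ x = 1) ∧ (Nat.card A : ℝ) ≤ C * ((b.repr g).norm : ℝ) ^ e) :
    ∀ (G : Type) [Group G] (b : FreeGroupBasis (Fin 2) G) (R : Subgroup G), R.index = 2 →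
      ∀ g : G, g ∉ (derivedSeries R 2).map R.subtype →
        ∃ (Q : Type) (_ : Group Q) (π : G →* Q), Finite Q ∧ π g ≠ 1 ∧
          (∀ x ∈ (derivedSeries R 2).map R.subtype, π x = 1) ∧
          (Nat.card Q : ℝ) ≤ 2 * (C * (2 * ((b.repr g).norm : ℝ)) ^ e) ^ 2 := by
  intro G _ b R hR g hgn
  have hN : R.Normal := Subgroup.normal_of_index_eq_two hR
  have hC0 : 0 ≤ C := by linarith
  have he0 : 0 ≤ e := by linarith
  by_cases hg : g ∈ R
  · -- change of basis
    have change : ∀ b' : FreeGroupBasis (Fin 2) G, b' 1 ∈ R → b' 0 ∉ R →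
        (b'.repr g).norm ≤ 2 * (b.repr g).norm →
        ∃ (Q : Type) (_ : Group Q) (π : G →* Q), Finite Q ∧ π g ≠ 1 ∧
          (∀ x ∈ (derivedSeries R 2).map R.subtype, π x = 1) ∧
          (Nat.card Q : ℝ) ≤ 2 * (C * (2 * ((b.repr g).norm : ℝ)) ^ e) ^ 2 := by
      intro b' h1 h0 hn
      obtain ⟨Q, hQ, π, hfin, hπ, hkill, hcard⟩ :=
        idx_main C e hC0 he0 H G b' R hR h1 h0 g hg hgn
      refine ⟨Q, hQ, π, hfin, hπ, hkill, hcard.trans ?_⟩
      have hn' : ((b'.repr g).norm : ℝ) ≤ 2 * ((b.repr g).norm : ℝ) := by exact_mod_cast hn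
      have hpow : ((b'.repr g).norm : ℝ) ^ e ≤ (2 * ((b.repr g).norm : ℝ)) ^ e :=
        Real.rpow_le_rpow (Nat.cast_nonneg _) hn' he0
      have hnn : 0 ≤ C * ((b'.repr g).norm : ℝ) ^ e := by positivity
      have h2 := pow_le_pow_left₀ hnn (mul_le_mul_of_nonneg_left hpow hC0) 2
      linarith
    by_cases h0 : b 0 ∈ R
    · by_cases h1 : b 1 ∈ R
      · exfalso
        have htriv : QuotientGroup.mk' R = 1 := by
          refine b.ext_hom _ _ fun i => ?_
          fin_cases i
          · exact (QuotientGroup.eq_one_iff _).2 h0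
          · exact (QuotientGroup.eq_one_iff _).2 h1
        have htop : R = ⊤ := by
          rw [eq_top_iff]
          intro x _
          exact (QuotientGroup.eq_one_iff _).1 (DFunLike.congr_fun htriv x)
        rw [htop, Subgroup.index_top] at hR
        omega
      · refine change (b.reindex (Equiv.swap 0 1)) ?_ ?_ ?_
        · simpa using h0
        · simpa using h1
        · have h := idx_length (fun u : FreeGroup (Fin 2) => u.norm) (by simp)
            (fun x y => FreeGroup.norm_mul_le x y) 1
            (FreeGroup.freeGroupCongr (Equiv.swap (0 : Fin 2) 1)).toMonoidHom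
            (fun i => by simp) (fun i => by simp) (b.repr g)
          have e1 : (FreeGroup.freeGroupCongr (Equiv.swap (0 : Fin 2) 1)).toMonoidHom (b.repr g)
            = (b.reindex (Equiv.swap 0 1)).repr g := rfl
          rw [e1] at h
          simp only [one_mul] at h
          omega
    · by_cases h1 : b 1 ∈ R
      · exact change b h1 h0 (by omega)
      · refine change (FreeGroupBasis.ofRepr (b.repr.trans idxAut)) ?_ ?_ ?_
        · have e1 : (FreeGroupBasis.ofRepr (b.repr.trans idxAut)) 1 = (b 0)⁻¹ * b 1 := by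
            have : (FreeGroupBasis.ofRepr (b.repr.trans idxAut)) 1 =
              b.repr.symm (idxAut.symm (FreeGroup.of 1)) := rfl
            rw [this]
            have e2 : idxAut.symm (FreeGroup.of 1) = (FreeGroup.of 0)⁻¹ * FreeGroup.of 1 := by
              simp [idxAut]
            rw [e2, map_mul, map_inv]
            rfl
          rw [e1, Subgroup.mul_mem_iff_of_index_two hR, R.inv_mem_iff]
          exact iff_of_false h0 h1
        · have e1 : (FreeGroupBasis.ofRepr (b.repr.trans idxAut)) 0 = b 0 := by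
            have : (FreeGroupBasis.ofRepr (b.repr.trans idxAut)) 0 =
              b.repr.symm (idxAut.symm (FreeGroup.of 0)) := rfl
            rw [this]
            have e2 : idxAut.symm (FreeGroup.of 0) = FreeGroup.of 0 := by
              simp [idxAut]
            rw [e2]
            rfl
          rw [e1]
          exact h0
        · have hof : ∀ i, (idxAut (FreeGroup.of i)).norm ≤ 2 := by
            intro i
            fin_cases i
            · simp [idxAut]
            · have : idxAut (FreeGroup.of 1) = FreeGroup.of 0 * FreeGroup.of 1 := by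
                simp [idxAut]
              change (idxAut (FreeGroup.of 1)).norm ≤ 2
              rw [this]
              refine (FreeGroup.norm_mul_le _ _).trans ?_
              simp
          exact idx_length (fun u : FreeGroup (Fin 2) => u.norm) (by simp)
            (fun x y => FreeGroup.norm_mul_le x y) 2 idxAut.toMonoidHom
            (fun i => hof i) (fun i => by
              change ((idxAut (FreeGroup.of i))⁻¹).norm ≤ 2
              rw [FreeGroup.norm_inv_eq]
              exact hof i) (b.repr g)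
  · refine ⟨G ⧸ R, inferInstance, QuotientGroup.mk' R, ?_, ?_, ?_, ?_⟩
    · have hfi : R.FiniteIndex := ⟨by omega⟩
      exact Subgroup.finite_quotient_of_finiteIndex
    · intro hcon
      exact hg ((QuotientGroup.eq_one_iff _).1 hcon)
    · rintro x ⟨r, -, rfl⟩
      exact (QuotientGroup.eq_one_iff _).2 r.2
    · have hcard : Nat.card (G ⧸ R) = 2 := hR
      rw [hcard]
      have hg1 : b.repr g ≠ 1 := by
        intro h
        have : g = 1 := by simpa using h
        exact hg (this ▸ R.one_mem)
      have hn : 1 ≤ (b.repr g).norm := by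
        rw [Nat.one_le_iff_ne_zero]
        exact fun h => hg1 (FreeGroup.norm_eq_zero.1 h)
      have hn' : (1 : ℝ) ≤ 2 * ((b.repr g).norm : ℝ) := by
        have : (1 : ℝ) ≤ ((b.repr g).norm : ℝ) := by exact_mod_cast hn
        linarith
      have hpow : (1 : ℝ) ≤ (2 * ((b.repr g).norm : ℝ)) ^ e := Real.one_le_rpow hn' he0
      have hprod : (1 : ℝ) ≤ C * (2 * ((b.repr g).norm : ℝ)) ^ e := by nlinarith
      have := one_le_pow₀ hprod (n := 2)
      push_cast
      linarith

end Pool.Agent.RFG43
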