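import Pool.Agent.RFG43.SolvB
import Pool.Agent.RFG43.IndexTwo

/-!
Crew file for `MP_b76cd5_al`: words outside the second derived subgroup of a subgroup of index two
of the free group of rank two.
-/

set_option autoImplicit false

namespace Pool.Agent.RFG43

/-- The bound for words outside the second derived subgroup of a subgroup of index two. -/
theorem idx_bound (ε : ℝ) (hε : 0 < ε) : ∃ C : ℝ, 0 < C ∧
    ∀ (G : Type) [Group G] (b : FreeGroupBasis (Fin 2) G) (R : Subgroup G), R.index = 2 →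
    ∀ g : G, g ∉ (derivedSeries R 2).map R.subtype →
    ∃ (Q : Type) (_ : Group Q) (π : G →* Q), Finite Q ∧ π g ≠ 1 ∧
      (∀ x ∈ (derivedSeries R 2).map R.subtype, π x = 1) ∧
      (Nat.card Q : ℝ) ≤ C * ((b.repr g).norm : ℝ) ^ (44 / 15 + ε) := by
  obtain ⟨C, hC, h⟩ := Solv.below_three (ε / 2) (by linarith)
  set D : ℝ := max C 1 with hD
  have hD1 : 1 ≤ D := le_max_right _ _
  have hCD : C ≤ D := le_max_left _ _
  set e : ℝ := 22 / 15 + ε / 2 with he
  have he1 : 1 ≤ e := by rw [he]; linarith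
  have H : ∀ (R : Type) [Group R] (b : FreeGroupBasis (Fin 3) R) (g : R),
      g ∉ derivedSeries R 2 → ∃ (A : Type) (_ : Group A) (ψ : R →* A), Finite A ∧ ψ g ≠ 1 ∧
        (∀ x ∈ derivedSeries R 2, ψ x = 1) ∧
        (Nat.card A : ℝ) ≤ D * ((b.repr g).norm : ℝ) ^ e := by
    intro R _ b g hg
    obtain ⟨A, hA, ψ, h1, h2, h3, h4⟩ := h R (Fin 3) b (by simp) g hg
    refine ⟨A, hA, ψ, h1, h2, h3, h4.trans ?_⟩
    exact mul_le_mul_of_nonneg_right hCD (by positivity)
  refine ⟨2 * (D * 2 ^ e) ^ 2, by positivity, fun G _ b R hR g hg => ?_⟩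
  obtain ⟨Q, hQ, π, h1, h2, h3, h4⟩ := index_two D e hD1 he1 H G b R hR g hg
  refine ⟨Q, hQ, π, h1, h2, h3, h4.trans (le_of_eq ?_)⟩
  have hn : (0 : ℝ) ≤ ((b.repr g).norm : ℝ) := Nat.cast_nonneg _
  have h5 : (44 / 15 : ℝ) + ε = e * 2 := by rw [he]; ring
  rw [h5, Real.rpow_mul hn, Real.mul_rpow (by norm_num) hn]
  norm_cast
  ring

end Pool.Agent.RFG43
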