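import Pool.Agent.EG327.TwoDim

/-!
Crew file for `MP_b76cd5_al` (residual finiteness growth), part A1: few primes `q ≤ N` are such
that `q - 1` has no prime factor in `(y₁, y₂]`.
-/

set_option autoImplicit false

namespace Pool.Agent.RFG43

open Finset Pool.Agent.EG327

/-- The sieve weight. -/
noncomputable def uu (y1 : ℕ) (p s : ℕ) : ℝ :=
  open Classical in if p ∣ s + 1 ∨ (y1 < p ∧ p ∣ s) then 1 else 0

theorem uu_nonneg (y1 p s : ℕ) : 0 ≤ uu y1 p s := by
  unfold uu; split_ifs <;> norm_num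

theorem uu_le_one (y1 p s : ℕ) : uu y1 p s ≤ 1 := by
  unfold uu; split_ifs <;> norm_num

theorem uu_per (y1 p s : ℕ) : uu y1 p (s + p) = uu y1 p s := by
  have h1 : p ∣ s + p + 1 ↔ p ∣ s + 1 := by
    rw [show s + p + 1 = s + 1 + p by ring]
    exact Nat.dvd_add_self_right
  have h2 : p ∣ s + p ↔ p ∣ s := Nat.dvd_add_self_right
  unfold uu
  simp only [h1, h2]

theorem avg_uu (y1 p : ℕ) (hp : 3 ≤ p) :
    avg (uu y1) p = 2 / p - (if p ≤ y1 then 1 / (p : ℝ) else 0) := by
  classical
  have hp0 : (0 : ℝ) < p := by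
    have : 0 < p := by omega
    exact_mod_cast this
  have h1 : ∀ a ∈ range p, uu y1 p a =
      (if a = p - 1 then (1 : ℝ) else 0) + (if a = 0 then (if p ≤ y1 then 0 else 1) else 0) := by
    intro a ha
    rw [mem_range] at ha
    have e1 : p ∣ a + 1 ↔ a = p - 1 := by
      constructor
      · intro h
        have := Nat.le_of_dvd (by omega) h
        omega
      · rintro rfl
        rw [Nat.sub_add_cancel (by omega)]
    have e2 : p ∣ a ↔ a = 0 := by
      constructor
      · intro h
        by_contra h0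
        have := Nat.le_of_dvd (by omega) h
        omega
      · rintro rfl
        exact dvd_zero _
    unfold uu
    simp only [e1, e2]
    by_cases h3 : a = p - 1
    · have h4 : a ≠ 0 := by omega
      simp [h3, show p - 1 ≠ 0 by omega]
    · by_cases h4 : a = 0
      · by_cases h5 : p ≤ y1
        · simp [h4, h5, show ¬ 0 = p - 1 by omega]
        · simp [h4, h5, show ¬ 0 = p - 1 by omega, show y1 < p by omega]
      · simp [h3, h4]
  unfold avg
  rw [sum_congr rfl h1, sum_add_distrib, sum_ite_eq' (range p) (p - 1), sum_ite_eq' (range p) 0,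
    if_pos (mem_range.2 (by omega)), if_pos (mem_range.2 (by omega))]
  split_ifs <;> field_simp <;> ring

theorem sum_avg (y1 y2 : ℕ) (hy : y1 ≤ y2) :
    ∑ p ∈ PP y2, avg (uu y1) p = 2 * lam (PP y2) - lam (PP y1) := by
  classical
  have h1 : ∑ p ∈ PP y2, avg (uu y1) p =
      ∑ p ∈ PP y2, (2 * (1 / (p : ℝ)) - (if p ≤ y1 then 1 / (p : ℝ) else 0)) := by
    refine sum_congr rfl fun p hp => ?_
    rw [avg_uu y1 p (mem_PP.1 hp).1]
    ring
  have h2 : (PP y2).filter (fun p => p ≤ y1) = PP y1 := by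
    ext p
    rw [mem_filter, mem_PP, mem_PP]
    constructor
    · rintro ⟨⟨a, b, c⟩, d⟩
      exact ⟨a, d, c⟩
    · rintro ⟨a, b, c⟩
      exact ⟨⟨a, b.trans hy, c⟩, b⟩
  rw [h1, sum_sub_distrib, ← mul_sum, ← sum_filter, h2]
  rfl

/-- The primes `q ≤ N`, `q > y₂`, such that `q - 1` has no prime factor in `(y₁, y₂]`. -/
noncomputable def bad (N y1 y2 : ℕ) : Finset ℕ :=
  open Classical in
  (range (N + 1)).filter fun q => q.Prime ∧ y2 < q ∧ ∀ k ∈ PP y2, y1 < k → ¬ k ∣ q - 1

theorem bad_card (N y1 y2 : ℕ) (hN : 1 ≤ N) (hy1 : 2 ≤ y1) (hy : y1 ≤ y2) (L : ℝ)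
    (hL : 2 * lam (PP y2) ≤ 3 * L)
    (hlog : (28 * L + 4) * Real.log y2 + 3 * L ≤ Real.log N) :
    ((bad N y1 y2).card : ℝ) ≤ N * Real.exp (lam (PP y1) - 2 * lam (PP y2)) +
      2 * N * Real.exp (-3 * L) := by
  classical
  have hL0 : 0 ≤ L := by
    have := lam_nonneg (PP y2)
    linarith
  have hb := brun_clean y2 (hy1.trans hy) (PP y2) (Subset.refl _) (uu y1)
    (fun p _ s => uu_nonneg y1 p s) (fun p _ s => uu_le_one y1 p s) (fun p _ s => uu_per y1 p s)
    L hL0 (by
      rw [sum_avg y1 y2 hy]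
      have := lam_nonneg (PP y1)
      linarith) 0 N hN hlog
  have h1 : ((bad N y1 y2).card : ℝ) ≤
      ∑ i ∈ range N, ∏ p ∈ PP y2, (1 - uu y1 p (0 + i)) := by
    have h2 : (bad N y1 y2).image (fun q => q - 1) ⊆ range N := by
      intro i hi
      rw [mem_image] at hi
      obtain ⟨q, hq, rfl⟩ := hi
      rw [bad, mem_filter, mem_range] at hq
      have := hq.2.1.two_le
      rw [mem_range]
      omega
    have h3 : ((bad N y1 y2).image (fun q => q - 1)).card = (bad N y1 y2).card := by
      apply card_image_of_injOn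
      intro q hq q' hq' h
      rw [mem_coe, bad, mem_filter] at hq hq'
      have h4 := hq.2.1.two_le
      have h5 := hq'.2.1.two_le
      simp only at h
      omega
    rw [← h3, ← nsmul_one, ← sum_const]
    refine le_trans ?_ (sum_le_sum_of_subset_of_nonneg h2 fun i _ _ =>
      prod_nonneg fun p _ => sub_nonneg.2 (uu_le_one _ _ _))
    refine sum_le_sum fun i hi => ?_
    rw [mem_image] at hi
    obtain ⟨q, hq, rfl⟩ := hi
    rw [bad, mem_filter] at hq
    obtain ⟨_, hqp, hq2, hq3⟩ := hq
    rw [prod_eq_one]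
    intro p hp
    have hpp := (mem_PP.1 hp).2.2
    have e1 : ¬ p ∣ q - 1 + 1 := by
      have := hqp.two_le
      rw [Nat.sub_add_cancel (by omega)]
      intro h
      have h5 := (Nat.prime_dvd_prime_iff_eq hpp hqp).1 h
      have h6 := (mem_PP.1 hp).2.1
      omega
    have e2 : uu y1 p (0 + (q - 1)) = 0 := by
      unfold uu
      rw [if_neg]
      rw [zero_add]
      rintro (h | ⟨h, h'⟩)
      · exact e1 h
      · exact hq3 p hp h h'
    rw [e2, sub_zero]
  refine h1.trans (hb.trans ?_)
  gcongr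
  calc ∏ p ∈ PP y2, (1 - avg (uu y1) p) ≤ ∏ p ∈ PP y2, Real.exp (-avg (uu y1) p) := by
        apply prod_le_prod
        · intro p hp
          have hp0 : 0 < p := by
            have := (mem_PP.1 hp).1
            omega
          have := avg_le_one (uu y1) p hp0 (fun s => uu_le_one _ _ _)
          linarith
        · intro p _
          exact Real.one_sub_le_exp_neg _
    _ = Real.exp (lam (PP y1) - 2 * lam (PP y2)) := by
        rw [← Real.exp_sum, sum_neg_distrib, sum_avg y1 y2 hy]
        congr 1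
        ring

end Pool.Agent.RFG43
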