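import Mathlib

/-!
Crew file for `MP_b76cd5_al`, part A2: the fibres of `q ↦ (q - 1) / k(q)`.
-/

set_option autoImplicit false

namespace Pool.Agent.RFG43

open Finset

/-- The values of `q ↦ (q - 1) / k(q)` with at least `r` preimages. -/
def MM (Q : Finset ℕ) (k : ℕ → ℕ) (r : ℕ) : Finset ℕ :=
  (Q.image fun q => (q - 1) / k q).filter fun m =>
    r ≤ (Q.filter fun q => (q - 1) / k q = m).card

theorem fibers (Q : Finset ℕ) (k : ℕ → ℕ) (y1 y2 N r : ℕ) (hy1 : 0 < y1)
    (h : ∀ q ∈ Q, 2 ≤ q ∧ q ≤ N ∧ y1 < k q ∧ k q ≤ y2 ∧ k q ∣ q - 1) :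
    Q.card ≤ r * (N / y1 + 1) + (MM Q k r).card * (y2 + 1) := by
  classical
  have hk : ∀ q ∈ Q, k q * ((q - 1) / k q) = q - 1 := fun q hq =>
    Nat.mul_div_cancel' (h q hq).2.2.2.2
  have h1 : (Q.image fun q => (q - 1) / k q).card ≤ N / y1 + 1 := by
    have : (Q.image fun q => (q - 1) / k q) ⊆ range (N / y1 + 1) := by
      intro m hm
      rw [mem_image] at hm
      obtain ⟨q, hq, rfl⟩ := hm
      rw [mem_range, Nat.lt_succ_iff, Nat.le_div_iff_mul_le hy1]
      have h2 := hk q hq
      have h3 := h q hq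
      calc (q - 1) / k q * y1 ≤ (q - 1) / k q * k q := Nat.mul_le_mul_left _ h3.2.2.1.le
        _ = q - 1 := by rw [mul_comm]; exact h2
        _ ≤ N := by omega
    have h2 := card_le_card this
    rwa [card_range] at h2
  have h2 : ∀ m ∈ Q.image (fun q => (q - 1) / k q),
      (Q.filter fun q => (q - 1) / k q = m).card ≤ y2 + 1 := by
    intro m _
    rw [← card_range (y2 + 1)]
    apply card_le_card_of_injOn k
    · intro q hq
      rw [mem_coe, mem_filter] at hq
      rw [mem_coe, mem_range]
      have := (h q hq.1).2.2.2.1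
      omega
    · intro q hq q' hq' hkk
      rw [mem_coe, mem_filter] at hq hq'
      have e1 := hk q hq.1
      have e2 := hk q' hq'.1
      rw [hq.2] at e1
      rw [hq'.2, ← hkk, e1] at e2
      have e3 := (h q hq.1).1
      have e4 := (h q' hq'.1).1
      omega
  rw [card_eq_sum_card_image (fun q => (q - 1) / k q) Q]
  calc ∑ m ∈ Q.image (fun q => (q - 1) / k q), (Q.filter fun q => (q - 1) / k q = m).card
      ≤ ∑ m ∈ Q.image (fun q => (q - 1) / k q),
        (r + if r ≤ (Q.filter fun q => (q - 1) / k q = m).card then y2 + 1 else 0) := by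
        refine sum_le_sum fun m hm => ?_
        have := h2 m hm
        split_ifs <;> omega
    _ = (Q.image fun q => (q - 1) / k q).card * r + (MM Q k r).card * (y2 + 1) := by
        rw [sum_add_distrib, sum_const, smul_eq_mul, ← sum_filter, sum_const, smul_eq_mul]
        rfl
    _ ≤ _ := by
        have := Nat.mul_le_mul_right r h1
        rw [mul_comm r]
        omega

end Pool.Agent.RFG43
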