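import Pool.Agent.RFG43.NTa

/-!
Crew file for `MP_b76cd5_al`, part A3: the choice of the parameters of the sieve.
-/

set_option autoImplicit false

namespace Pool.Agent.RFG43

open Finset Pool.Agent.EG327 Filter

theorem log_floor_le (t : ℝ) (ht : 0 ≤ t) : Real.log (⌊Real.exp t⌋₊ : ℝ) ≤ t := by
  have h1 : (1 : ℝ) ≤ (⌊Real.exp t⌋₊ : ℝ) := by
    exact_mod_cast (Nat.one_le_floor_iff _).2 (Real.one_le_exp ht)
  calc Real.log (⌊Real.exp t⌋₊ : ℝ) ≤ Real.log (Real.exp t) :=
        Real.log_le_log (by linarith) (Nat.floor_le (Real.exp_pos _).le)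
    _ = t := Real.log_exp t

theorem le_log_floor (t : ℝ) (ht : 2 ≤ t) : t / 2 ≤ Real.log (⌊Real.exp t⌋₊ : ℝ) := by
  have h1 : Real.exp (t / 2) ≤ (⌊Real.exp t⌋₊ : ℝ) := by
    have h2 := Nat.lt_floor_add_one (Real.exp t)
    have h3 : Real.exp t = Real.exp (t / 2) * Real.exp (t / 2) := by
      rw [← Real.exp_add]; congr 1; ring
    have h4 : (2 : ℝ) ≤ Real.exp (t / 2) := by
      have := Real.add_one_le_exp (t / 2)
      linarith
    nlinarith
  calc t / 2 = Real.log (Real.exp (t / 2)) := (Real.log_exp _).symm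
    _ ≤ _ := Real.log_le_log (Real.exp_pos _) h1

theorem params_aux (r N : ℕ) (δ x l : ℝ) (hδ : 0 < δ) (hx : x = Real.log N) (hl : l = Real.log x)
    (hN : 1 ≤ N) (h1 : 200 ≤ l) (h2 : Real.exp 12 * 6400 * 16 ≤ l ^ 2) (h3 : 3 * l ^ 5 ≤ x)
    (h4 : 32 * (r : ℝ) + 32 ≤ x) (h5 : 1 ≤ 20 * δ * l) (h6 : 2 ≤ δ * x) :
    ∃ y1 y2 : ℕ, 2 ≤ y1 ∧ y1 ≤ y2 ∧ (y2 : ℝ) + 1 ≤ Real.exp (δ * x) ∧
      ((bad N y1 y2).card : ℝ) ≤ N / (8 * x) ∧ (r : ℝ) * (N / y1 + 1) ≤ N / (16 * x) := by
  have hl0 : 0 < l := by linarith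
  have hx0 : 0 < x := by
    have : 0 ≤ (r : ℝ) := Nat.cast_nonneg r
    linarith
  have hexl : Real.exp l = x := by rw [hl, Real.exp_log hx0]
  have hN0 : (0 : ℝ) < N := by exact_mod_cast hN
  have hexx : Real.exp x = N := by rw [hx, Real.exp_log hN0]
  have hr0 : 0 ≤ (r : ℝ) := Nat.cast_nonneg r
  have hl4 : (200 : ℝ) ^ 4 ≤ l ^ 4 := pow_le_pow_left₀ (by norm_num) h1 4
  have hl3 : (200 : ℝ) ^ 3 ≤ l ^ 3 := pow_le_pow_left₀ (by norm_num) h1 3
  set t1 : ℝ := x / l ^ 4 with ht1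
  set t2 : ℝ := x / (40 * l) with ht2
  have ht1a : 3 * l ≤ t1 := by
    rw [ht1, le_div_iff₀ (by positivity)]
    calc 3 * l * l ^ 4 = 3 * l ^ 5 := by ring
      _ ≤ x := h3
  have ht12 : t1 ≤ t2 := by
    rw [ht1, ht2]
    apply div_le_div_of_nonneg_left hx0.le (by positivity)
    have : l ^ 4 = l * l ^ 3 := by ring
    rw [this]
    nlinarith
  have ht1b : 2 ≤ t1 := by linarith
  have ht2b : 2 ≤ t2 := by linarith
  have ht1c : x / 40 / l = t2 := by rw [ht2]; field_simp
  have hx3 : x ^ 3 ≤ Real.exp t1 := by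
    calc x ^ 3 = Real.exp (3 * l) := by
          rw [← hexl, ← Real.exp_nat_mul]
          norm_num
      _ ≤ _ := Real.exp_le_exp.2 ht1a
  have hx32 : 32 ≤ x := by linarith
  have hy1 : x ^ 2 ≤ (⌊Real.exp t1⌋₊ : ℝ) := by
    have h7 := Nat.lt_floor_add_one (Real.exp t1)
    have h8 : x ^ 3 = x * x ^ 2 := by ring
    have h9 : 1 ≤ x ^ 2 := by nlinarith
    nlinarith
  have hy1' : 2 ≤ ⌊Real.exp t1⌋₊ := by
    have : (2 : ℝ) ≤ (⌊Real.exp t1⌋₊ : ℝ) := by nlinarith
    exact_mod_cast this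
  have hy12 : ⌊Real.exp t1⌋₊ ≤ ⌊Real.exp t2⌋₊ := Nat.floor_le_floor (Real.exp_le_exp.2 ht12)
  have hL1 := log_floor_le t1 (by linarith)
  have hL2 := log_floor_le t2 (by linarith)
  have hL3 := le_log_floor t2 ht2b
  have hL0 : 0 < Real.log (⌊Real.exp t1⌋₊ : ℝ) := by
    apply Real.log_pos
    have : (2 : ℝ) ≤ (⌊Real.exp t1⌋₊ : ℝ) := by exact_mod_cast hy1'
    linarith
  have hy2' : 2 ≤ ⌊Real.exp t2⌋₊ := hy1'.trans hy12
  have m1 := lam_PP_le _ hy1'
  have m2 := lam_PP_le _ hy2'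
  have m3 := le_lam_PP _ hy2'
  have hLp2 : 0 < Real.log (⌊Real.exp t2⌋₊ : ℝ) := by linarith
  have ht2x : t2 ≤ x := by
    rw [ht2]
    exact div_le_self hx0.le (by linarith)
  have m4 : Real.log (Real.log (⌊Real.exp t2⌋₊ : ℝ)) ≤ l := by
    rw [hl]
    exact Real.log_le_log hLp2 (hL2.trans ht2x)
  have hlx : 3 * l ≤ x / 2 := by
    have : (200 : ℝ) ^ 4 * l ≤ l ^ 5 := by
      have e : l ^ 5 = l ^ 4 * l := by ring
      rw [e]
      exact mul_le_mul_of_nonneg_right hl4 hl0.le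
    nlinarith
  have hb := bad_card N _ _ hN hy1' hy12 ((2 * l + 16) / 3) (by linarith) (by
    have e1 : 28 * ((2 * l + 16) / 3) + 4 ≤ 20 * l := by linarith
    have e2 : (28 * ((2 * l + 16) / 3) + 4) * Real.log (⌊Real.exp t2⌋₊ : ℝ) ≤
        20 * l * t2 := mul_le_mul e1 hL2 hLp2.le (by positivity)
    have e3 : 20 * l * t2 = x / 2 := by
      rw [ht2]; field_simp; ring
    have e4 : 3 * ((2 * l + 16) / 3) ≤ 3 * l := by linarith
    rw [← hx]
    linarith)
  refine ⟨⌊Real.exp t1⌋₊, ⌊Real.exp t2⌋₊, hy1', hy12, ?_, ?_, ?_⟩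
  · have e1 : t2 ≤ δ * x / 2 := by
      rw [ht2, div_le_iff₀ (by positivity)]
      have : x * 1 ≤ x * (20 * δ * l) := mul_le_mul_of_nonneg_left h5 hx0.le
      linarith
    have e2 : (⌊Real.exp t2⌋₊ : ℝ) ≤ Real.exp (δ * x / 2) :=
      (Nat.floor_le (Real.exp_pos _).le).trans (Real.exp_le_exp.2 e1)
    have e3 : Real.exp (δ * x) = Real.exp (δ * x / 2) * Real.exp (δ * x / 2) := by
      rw [← Real.exp_add]; congr 1; ring
    have e4 : (2 : ℝ) ≤ Real.exp (δ * x / 2) := by
      have := Real.add_one_le_exp (δ * x / 2)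
      linarith
    nlinarith
  · refine hb.trans ?_
    have e1 : Real.exp (lam (PP ⌊Real.exp t1⌋₊) - 2 * lam (PP ⌊Real.exp t2⌋₊)) ≤
        1 / (16 * x) := by
      calc Real.exp (lam (PP ⌊Real.exp t1⌋₊) - 2 * lam (PP ⌊Real.exp t2⌋₊)) ≤
            Real.exp (Real.log t1 + 12 - 2 * Real.log (t2 / 2)) := by
              apply Real.exp_le_exp.2
              have g1 : Real.log (Real.log (⌊Real.exp t1⌋₊ : ℝ)) ≤ Real.log t1 :=
                Real.log_le_log hL0 hL1
              have g2 : Real.log (t2 / 2) ≤ Real.log (Real.log (⌊Real.exp t2⌋₊ : ℝ)) :=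
                Real.log_le_log (by linarith) hL3
              linarith
        _ = t1 * Real.exp 12 / (t2 / 2) ^ 2 := by
              rw [Real.exp_sub, Real.exp_add, Real.exp_log (by linarith)]
              congr 1
              rw [show 2 * Real.log (t2 / 2) = ((2 : ℕ) : ℝ) * Real.log (t2 / 2) by norm_num,
                Real.exp_nat_mul, Real.exp_log (by linarith)]
        _ = Real.exp 12 * 6400 / (l ^ 2 * x) := by
              rw [ht1, ht2]
              field_simp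
              ring
        _ ≤ 1 / (16 * x) := by
              rw [div_le_div_iff₀ (by positivity) (by positivity)]
              nlinarith
    have e2 : Real.exp (-3 * ((2 * l + 16) / 3)) ≤ 1 / x ^ 2 := by
      calc Real.exp (-3 * ((2 * l + 16) / 3)) ≤ Real.exp (-(2 * l)) := by
            apply Real.exp_le_exp.2; linarith
        _ = 1 / x ^ 2 := by
            rw [Real.exp_neg, ← hexl, ← Real.exp_nat_mul]
            norm_num
    have e3 : 2 * (N : ℝ) * (1 / x ^ 2) ≤ N / (16 * x) := by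
      rw [mul_one_div, div_le_div_iff₀ (by positivity) (by positivity)]
      have : x ^ 2 = x * x := by ring
      rw [this]
      have hNx : 0 < (N : ℝ) * x := by positivity
      nlinarith
    calc (N : ℝ) * Real.exp (lam (PP ⌊Real.exp t1⌋₊) - 2 * lam (PP ⌊Real.exp t2⌋₊)) +
          2 * N * Real.exp (-3 * ((2 * l + 16) / 3)) ≤
          N * (1 / (16 * x)) + 2 * N * (1 / x ^ 2) := by gcongr
      _ ≤ N / (16 * x) + N / (16 * x) := by
          rw [mul_one_div]
          linarith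
      _ = N / (8 * x) := by field_simp; ring
  · have e1 : (N : ℝ) / (⌊Real.exp t1⌋₊ : ℝ) ≤ N / x ^ 2 :=
      div_le_div_of_nonneg_left hN0.le (by positivity) hy1
    have e2 : (r : ℝ) * (N / x ^ 2) ≤ N / (32 * x) := by
      rw [← mul_div_assoc, div_le_div_iff₀ (by positivity) (by positivity)]
      have : x ^ 2 = x * x := by ring
      rw [this]
      have hNx : 0 < (N : ℝ) * x := by positivity
      nlinarith
    have e3 : (r : ℝ) ≤ N / (32 * x) := by
      rw [le_div_iff₀ (by positivity), ← hexx]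
      have h7 := Real.add_one_le_exp (x / 2)
      have h8 : Real.exp x = Real.exp (x / 2) * Real.exp (x / 2) := by
        rw [← Real.exp_add]; congr 1; ring
      have h9 : x / 2 * (x / 2) ≤ Real.exp x := by
        rw [h8]
        apply mul_le_mul <;> linarith
      have h10 : x ^ 2 * x ≤ 48 * Real.exp x := by
        have g1 := Real.add_one_le_exp (x / 3)
        have g2 : Real.exp x = Real.exp (x / 3) * Real.exp (x / 3) * Real.exp (x / 3) := by
          rw [← Real.exp_add, ← Real.exp_add]; congr 1; ring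
        have g3 : x / 3 * (x / 3) * (x / 3) ≤ Real.exp x := by
          rw [g2]
          apply mul_le_mul
          · apply mul_le_mul <;> linarith
          · linarith
          · linarith
          · positivity
        nlinarith
      nlinarith
    calc (r : ℝ) * (N / (⌊Real.exp t1⌋₊ : ℝ) + 1) ≤ r * (N / x ^ 2 + 1) := by gcongr
      _ ≤ N / (32 * x) + N / (32 * x) := by linarith
      _ = N / (16 * x) := by field_simp; ring

end Pool.Agent.RFG43
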