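import Pool.Agent.RFG43.NTb
import Pool.Agent.RFG43.NTc
import Pool.Agent.Leh2.Primes

/-!
Crew file for `MP_b76cd5_al`, part A4: many large `m` divide `p - 1` for several primes `p`.
-/

set_option autoImplicit false

namespace Pool.Agent.RFG43

open Finset Pool.Agent.EG327 Filter

/-- The set of moduli. -/
def Good (r N : ℕ) (δ : ℝ) (m : ℕ) : Prop :=
  0 < m ∧ ∃ Q : Finset ℕ, r ≤ Q.card ∧
    ∀ p ∈ Q, p.Prime ∧ p ≤ N ∧ (N : ℝ) ^ (1 - δ) < p ∧ m ∣ p - 1

theorem many_aux (r N : ℕ) (δ x l : ℝ) (hδ : 0 < δ) (hδ' : δ ≤ 1 / 4) (hx : x = Real.log N)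
    (hl : l = Real.log x)
    (hN : 1 ≤ N) (h1 : 200 ≤ l) (h2 : Real.exp 12 * 6400 * 16 ≤ l ^ 2) (h3 : 3 * l ^ 5 ≤ x)
    (h4 : 32 * (r : ℝ) + 32 ≤ x) (h5 : 1 ≤ 20 * δ * l) (h6 : 2 ≤ δ * x)
    (h7 : 24 * x ≤ Real.exp (δ * x)) (hr : 1 ≤ r)
    (h8 : (N : ℝ) / (2 * x) ≤ Nat.primeCounting N) :
    ∃ M : Finset ℕ, (∀ m ∈ M, Good r N δ m ∧ (N : ℝ) ^ (1 - 3 * δ) ≤ m) ∧
      (N : ℝ) ^ (1 - 2 * δ) ≤ M.card := by
  classical
  obtain ⟨y1, y2, g1, g2, g3, g4, g5⟩ := params_aux r N δ x l hδ hx hl hN h1 h2 h3 h4 h5 h6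
  have hr0 : 0 ≤ (r : ℝ) := Nat.cast_nonneg r
  have hx0 : 0 < x := by linarith
  have hx32 : 32 ≤ x := by linarith
  have hN0 : (0 : ℝ) < N := by exact_mod_cast hN
  have hexx : Real.exp x = N := by rw [hx, Real.exp_log hN0]
  have hpow : ∀ t : ℝ, (N : ℝ) ^ t = Real.exp (t * x) := by
    intro t
    rw [Real.rpow_def_of_pos hN0, hx, mul_comm]
  set D : ℝ := Real.exp (δ * x) with hD
  have hD0 : 0 < D := Real.exp_pos _
  have hD2 : 2 ≤ D := by linarith
  have e1 : Real.exp ((1 - δ) * x) = N / D := by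
    rw [hD, eq_div_iff (Real.exp_pos _).ne', ← Real.exp_add, ← hexx]
    congr 1; ring
  have e2 : Real.exp ((1 - 2 * δ) * x) = N / D ^ 2 := by
    rw [hD, eq_div_iff (by positivity), ← Real.exp_nat_mul, ← Real.exp_add, ← hexx]
    congr 1; push_cast; ring
  have e3 : Real.exp ((1 - 3 * δ) * x) = N / D ^ 3 := by
    rw [hD, eq_div_iff (by positivity), ← Real.exp_nat_mul, ← Real.exp_add, ← hexx]
    congr 1; push_cast; ring
  have e4 : D ^ 4 ≤ N := by
    rw [hD, ← Real.exp_nat_mul, ← hexx]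
    apply Real.exp_le_exp.2
    push_cast
    nlinarith
  -- the good primes
  set Q : Finset ℕ := ((range (N + 1)).filter Nat.Prime \ bad N y1 y2).filter
    (fun q => N / D < (q : ℝ) ∧ y2 < q) with hQ
  have hk : ∀ q ∈ Q, ∃ k, k.Prime ∧ y1 < k ∧ k ≤ y2 ∧ k ∣ q - 1 := by
    intro q hq
    rw [hQ, mem_filter, Finset.mem_sdiff, mem_filter] at hq
    obtain ⟨⟨⟨hq1, hq2⟩, hq3⟩, hq4, hq5⟩ := hq
    rw [bad, mem_filter] at hq3
    push Not at hq3
    obtain ⟨k, hk1, hk2, hk3⟩ := hq3 hq1 hq2 hq5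
    rw [mem_PP] at hk1
    exact ⟨k, hk1.2.2, hk2, hk1.2.1, hk3⟩
  choose! k hk using hk
  have hQb : ∀ q ∈ Q, q.Prime ∧ q ≤ N ∧ N / D < (q : ℝ) := by
    intro q hq
    rw [hQ, mem_filter, Finset.mem_sdiff, mem_filter, mem_range] at hq
    exact ⟨hq.1.1.2, by omega, hq.2.1⟩
  have hf := fibers Q k y1 y2 N r (by omega) (fun q hq =>
    ⟨(hQb q hq).1.two_le, (hQb q hq).2.1, (hk q hq).2.1, (hk q hq).2.2.1, (hk q hq).2.2.2⟩)
  -- lower bound for the number of good primes
  have hcard : (N : ℝ) / (4 * x) ≤ Q.card := by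
    have a1 : Nat.primeCounting N = ((range (N + 1)).filter Nat.Prime).card := by
      rw [Nat.primeCounting, Nat.primeCounting', Nat.count_eq_card_filter_range]
    have a2 : (range (N + 1)).filter Nat.Prime ⊆ Q ∪ bad N y1 y2 ∪
        range (⌊(N : ℝ) / D⌋₊ + 1) ∪ range (y2 + 1) := by
      intro q hq
      simp only [mem_union]
      by_cases b1 : q ∈ bad N y1 y2
      · exact Or.inl (Or.inl (Or.inr b1))
      by_cases b2 : y2 < q
      · by_cases b3 : N / D < (q : ℝ)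
        · refine Or.inl (Or.inl (Or.inl ?_))
          rw [hQ, mem_filter, Finset.mem_sdiff]
          exact ⟨⟨hq, b1⟩, b3, b2⟩
        · refine Or.inl (Or.inr ?_)
          rw [mem_range, Nat.lt_succ_iff]
          exact Nat.le_floor (not_lt.1 b3)
      · refine Or.inr ?_
        rw [mem_range]
        omega
    have a3 : ((range (N + 1)).filter Nat.Prime).card ≤ Q.card + (bad N y1 y2).card +
        (⌊(N : ℝ) / D⌋₊ + 1) + (y2 + 1) := by
      refine (card_le_card a2).trans ?_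
      refine (card_union_le _ _).trans ?_
      rw [card_range]
      refine Nat.add_le_add_right ?_ _
      refine (card_union_le _ _).trans ?_
      rw [card_range]
      exact Nat.add_le_add_right (card_union_le _ _) _
    have a4 : (Nat.primeCounting N : ℝ) ≤ Q.card + (bad N y1 y2).card +
        (⌊(N : ℝ) / D⌋₊ + 1) + (y2 + 1) := by
      rw [a1]
      exact_mod_cast a3
    have a5 : (⌊(N : ℝ) / D⌋₊ : ℝ) ≤ N / D := Nat.floor_le (by positivity)
    have a6 : (N : ℝ) / D ≤ N / (24 * x) :=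
      div_le_div_of_nonneg_left hN0.le (by positivity) h7
    have a7 : D ≤ N / (24 * x) := by
      rw [le_div_iff₀ (by positivity)]
      calc D * (24 * x) ≤ D * D := mul_le_mul_of_nonneg_left h7 hD0.le
        _ ≤ D ^ 4 := by
            have : (4 : ℝ) ≤ D * D := by nlinarith
            have h9 : D ^ 4 = D * D * (D * D) := by ring
            rw [h9]
            nlinarith
        _ ≤ N := e4
    have a8 : (1 : ℝ) ≤ N / (24 * x) := by linarith
    have a9 : (N : ℝ) / (24 * x) = N / x / 24 := by field_simp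
    have a10 : (N : ℝ) / (2 * x) = N / x / 2 := by field_simp
    have a11 : (N : ℝ) / (4 * x) = N / x / 4 := by field_simp
    have a12 : (N : ℝ) / (8 * x) = N / x / 8 := by field_simp
    rw [a9] at a6 a7 a8
    rw [a10] at h8
    rw [a12] at g4
    rw [a11]
    linarith
  have hM : (N : ℝ) / D ^ 2 ≤ (MM Q k r).card := by
    have b1 : (Q.card : ℝ) ≤ r * ((N / y1 : ℕ) + 1) + (MM Q k r).card * (y2 + 1) := by
      exact_mod_cast hf
    have b2 : ((N / y1 : ℕ) : ℝ) ≤ N / y1 := Nat.cast_div_le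
    have b3 : (r : ℝ) * ((N / y1 : ℕ) + 1) ≤ r * (N / y1 + 1) := by gcongr
    have b4 : (N : ℝ) / (8 * x) ≤ (MM Q k r).card * (y2 + 1) := by
      have a11 : (N : ℝ) / (4 * x) = N / x / 4 := by field_simp
      have a12 : (N : ℝ) / (8 * x) = N / x / 8 := by field_simp
      have a13 : (N : ℝ) / (16 * x) = N / x / 16 := by field_simp
      have a14 : 0 ≤ (N : ℝ) / x := by positivity
      rw [a11] at hcard
      rw [a13] at g5
      rw [a12]
      linarith
    have b5 : ((MM Q k r).card : ℝ) * (y2 + 1) ≤ (MM Q k r).card * D := by gcongr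
    have b6 : (N : ℝ) / D ≤ N / (8 * x) :=
      div_le_div_of_nonneg_left hN0.le (by positivity) (by linarith)
    rw [div_le_iff₀ (by positivity)]
    have b7 : (N : ℝ) / D ≤ (MM Q k r).card * D := by linarith
    rw [div_le_iff₀ hD0] at b7
    calc (N : ℝ) ≤ _ := b7
      _ = _ := by ring
  refine ⟨MM Q k r, ?_, ?_⟩
  · intro m hm
    rw [MM, mem_filter, mem_image] at hm
    obtain ⟨⟨q, hq, hqm⟩, hmr⟩ := hm
    have hmk : k q * m = q - 1 := by
      rw [← hqm]
      exact Nat.mul_div_cancel' (hk q hq).2.2.2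
    have hq2 := (hQb q hq).1.two_le
    have hm0 : 0 < m := by
      rcases Nat.eq_zero_or_pos m with h | h
      · rw [h, mul_zero] at hmk
        omega
      · exact h
    refine ⟨⟨hm0, Q.filter (fun q => (q - 1) / k q = m), hmr, ?_⟩, ?_⟩
    · intro p hp
      rw [mem_filter] at hp
      refine ⟨(hQb p hp.1).1, (hQb p hp.1).2.1, ?_, ?_⟩
      · rw [hpow, e1]
        exact (hQb p hp.1).2.2
      · rw [← hp.2]
        exact Nat.div_dvd_of_dvd (hk p hp.1).2.2.2
    · rw [hpow, e3]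
      have c1 : ((k q : ℕ) : ℝ) * m = q - 1 := by
        have : ((k q * m : ℕ) : ℝ) = ((q - 1 : ℕ) : ℝ) := by rw [hmk]
        rw [Nat.cast_mul, Nat.cast_sub (by omega), Nat.cast_one] at this
        exact this
      have c2 : ((k q : ℕ) : ℝ) ≤ D := by
        have : ((k q : ℕ) : ℝ) ≤ y2 := by exact_mod_cast (hk q hq).2.2.1
        linarith
      have c3 : (N : ℝ) / D - 1 ≤ D * m := by
        have c4 := (hQb q hq).2.2
        have c5 : ((k q : ℕ) : ℝ) * m ≤ D * m := by gcongr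
        linarith
      have c6 : (N : ℝ) / D ^ 2 ≤ N / D - 1 := by
        have c7 : (N : ℝ) / D = N / D ^ 2 * D := by field_simp
        have c8 : (1 : ℝ) ≤ N / D ^ 2 := by
          rw [le_div_iff₀ (by positivity)]
          have : (4 : ℝ) ≤ D * D := by nlinarith
          nlinarith
        rw [c7]
        nlinarith
      have c9 : (N : ℝ) / D ^ 3 = N / D ^ 2 / D := by field_simp
      rw [c9, div_le_iff₀ hD0]
      linarith
  · rw [hpow, e2]
    exact hM

theorem many_m (r : ℕ) (hr : 1 ≤ r) (δ : ℝ) (hδ : 0 < δ) (hδ' : δ ≤ 1 / 4) :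
    ∀ᶠ N : ℕ in atTop, ∃ M : Finset ℕ, (∀ m ∈ M, Good r N δ m ∧ (N : ℝ) ^ (1 - 3 * δ) ≤ m) ∧
      (N : ℝ) ^ (1 - 2 * δ) ≤ M.card := by
  have T1 : Tendsto (fun N : ℕ => Real.log (N : ℝ)) atTop atTop :=
    Real.tendsto_log_atTop.comp tendsto_natCast_atTop_atTop
  have T2 : Tendsto (fun N : ℕ => Real.log (Real.log (N : ℝ))) atTop atTop :=
    Real.tendsto_log_atTop.comp T1
  have f1 : ∀ᶠ N : ℕ in atTop, 3 * Real.log (Real.log (N : ℝ)) ^ 5 ≤ Real.log (N : ℝ) := by
    have h := (Real.isLittleO_pow_log_id_atTop (n := 5)).bound (show (0 : ℝ) < 1 / 3 by norm_num)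
    filter_upwards [T1.eventually h, T1.eventually_ge_atTop 1, T2.eventually_ge_atTop 0]
      with N h1 h2 h3
    rw [id, Real.norm_of_nonneg (by positivity), Real.norm_of_nonneg (by linarith)] at h1
    linarith
  have f2 : ∀ᶠ N : ℕ in atTop, 24 * Real.log (N : ℝ) ≤ Real.exp (δ * Real.log (N : ℝ)) := by
    filter_upwards [T1.eventually_ge_atTop (96 / δ ^ 2)] with N h
    have hx : 0 ≤ Real.log (N : ℝ) := le_trans (by positivity) h
    rw [div_le_iff₀ (by positivity)] at h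
    set x := Real.log (N : ℝ)
    have h1 := Real.add_one_le_exp (δ * x / 2)
    have h2 : Real.exp (δ * x) = Real.exp (δ * x / 2) * Real.exp (δ * x / 2) := by
      rw [← Real.exp_add]; congr 1; ring
    have h3 : δ * x / 2 * (δ * x / 2) ≤ Real.exp (δ * x) := by
      rw [h2]
      apply mul_le_mul <;> first | linarith | positivity
    nlinarith
  have f3 : ∀ᶠ N : ℕ in atTop,
      (N : ℝ) / (2 * Real.log (N : ℝ)) ≤ Nat.primeCounting N := by
    have h := Real.isLittleO_log_id_atTop.bound (show (0 : ℝ) < 1 / 20 by norm_num)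
    have T3 : Tendsto (fun N : ℕ => (N : ℝ) + 1) atTop atTop :=
      tendsto_atTop_add_const_right _ _ tendsto_natCast_atTop_atTop
    filter_upwards [T3.eventually h, T1.eventually_ge_atTop 1, eventually_ge_atTop 2]
      with N h1 h2 h3
    have hN2 : (2 : ℝ) ≤ N := by exact_mod_cast h3
    rw [id, Real.norm_of_nonneg (Real.log_nonneg (by linarith)),
      Real.norm_of_nonneg (by linarith)] at h1
    refine le_trans ?_ (Chebyshev.pi_ge N)
    have hl2 := Real.log_two_gt_d9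
    rw [div_le_div_iff₀ (by positivity) (by positivity)]
    have h4 : (N : ℝ) ≤ 2 * (N * Real.log 2 - Real.log (N + 1)) := by nlinarith
    nlinarith
  filter_upwards [f1, f2, f3, eventually_ge_atTop 1, T2.eventually_ge_atTop 200,
    T2.eventually_ge_atTop (Real.exp 12 * 6400 * 16), T1.eventually_ge_atTop (32 * r + 32),
    T2.eventually_ge_atTop (1 / (20 * δ)), T1.eventually_ge_atTop (2 / δ)]
    with N h1 h2 h3 h4 h5 h6 h7 h8 h9
  refine many_aux r N δ _ _ hδ hδ' rfl rfl h4 h5 ?_ h1 h7 ?_ ?_ h2 hr h3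
  · nlinarith
  · rw [div_le_iff₀ (by positivity)] at h8
    linarith
  · rw [div_le_iff₀ (by positivity)] at h9
    linarith

/-- **Part A.** The sum of `φ(m)` over the good `m` is at least `N^(2-ε)`. -/
theorem totient_sum (r : ℕ) (hr : 1 ≤ r) (ε : ℝ) (hε : 0 < ε) :
    ∃ N0 : ℕ, ∀ N : ℕ, N0 ≤ N → ∃ M : Finset ℕ, (∀ m ∈ M, Good r N (1 / 4) m) ∧
      (N : ℝ) ^ (2 - ε) ≤ ∑ m ∈ M, (m.totient : ℝ) := by
  set δ : ℝ := min (ε / 6) (1 / 4) with hδd
  have hδ : 0 < δ := lt_min (by linarith) (by norm_num)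
  have hδ' : δ ≤ 1 / 4 := min_le_right _ _
  have hδ6 : 6 * δ ≤ ε := by
    have := min_le_left (ε / 6) (1 / 4)
    linarith
  have T1 : Tendsto (fun N : ℕ => Real.log (N : ℝ)) atTop atTop :=
    Real.tendsto_log_atTop.comp tendsto_natCast_atTop_atTop
  have f2 : ∀ᶠ N : ℕ in atTop, 2 * Real.log (N : ℝ) + 1 ≤ (N : ℝ) ^ δ := by
    filter_upwards [T1.eventually_ge_atTop (96 / δ ^ 2), eventually_ge_atTop 1] with N h hN
    have hN0 : (0 : ℝ) < N := by exact_mod_cast hN
    rw [Real.rpow_def_of_pos hN0]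
    have hx : 0 ≤ Real.log (N : ℝ) := le_trans (by positivity) h
    rw [div_le_iff₀ (by positivity)] at h
    set x := Real.log (N : ℝ)
    have h1 := Real.add_one_le_exp (x * δ / 2)
    have h2 : Real.exp (x * δ) = Real.exp (x * δ / 2) * Real.exp (x * δ / 2) := by
      rw [← Real.exp_add]; congr 1; ring
    have h3 : (x * δ / 2 + 1) * (x * δ / 2 + 1) ≤ Real.exp (x * δ) := by
      rw [h2]
      apply mul_le_mul <;> first | linarith | positivity
    nlinarith [mul_nonneg hx hδ.le]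
  obtain ⟨N0, hN0⟩ := eventually_atTop.1 ((many_m r hr δ hδ hδ').and
    (f2.and (eventually_ge_atTop 1)))
  refine ⟨N0, fun N hN => ?_⟩
  obtain ⟨⟨M, hM1, hM2⟩, h2, h3⟩ := hN0 N hN
  have hNr : (1 : ℝ) ≤ N := by exact_mod_cast h3
  have hNpos : (0 : ℝ) < N := by linarith
  refine ⟨M, fun m hm => ?_, ?_⟩
  · obtain ⟨⟨g1, Q, g2, g3⟩, _⟩ := hM1 m hm
    refine ⟨g1, Q, g2, fun p hp => ?_⟩
    obtain ⟨c1, c2, c3, c4⟩ := g3 p hp
    refine ⟨c1, c2, lt_of_le_of_lt ?_ c3, c4⟩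
    exact Real.rpow_le_rpow_of_exponent_le hNr (by linarith)
  · have key : ∀ m ∈ M, (N : ℝ) ^ (1 - 4 * δ) ≤ (m.totient : ℝ) := by
      intro m hm
      obtain ⟨⟨g1, Q, g2, g3⟩, g4⟩ := hM1 m hm
      have hmN : m ≤ N := by
        obtain ⟨p, hp⟩ : Q.Nonempty := by
          rw [← card_pos]
          omega
        obtain ⟨c1, c2, c3, c4⟩ := g3 p hp
        have := Nat.le_of_dvd (by have := c1.two_le; omega) c4
        omega
      have hm1 : (1 : ℝ) ≤ m := by exact_mod_cast g1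
      have c1 := Pool.Agent.Leh2.le_totient_mul m g1
      have c2 : (m : ℝ) ≤ m.totient * (Nat.log 2 m + 1) := by exact_mod_cast c1
      have c3 : (Nat.log 2 m : ℝ) ≤ 2 * Real.log N := by
        have d1 := Real.natLog_le_logb m 2
        have d2 : Real.logb ((2 : ℕ) : ℝ) m = Real.log m / Real.log 2 := by
          rw [Real.logb]; norm_num
        rw [d2] at d1
        refine d1.trans ?_
        have hl2 := Real.log_two_gt_d9
        rw [div_le_iff₀ (by linarith)]
        have d3 : Real.log m ≤ Real.log N :=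
          Real.log_le_log (by linarith) (by exact_mod_cast hmN)
        have d4 : 0 ≤ Real.log m := Real.log_nonneg hm1
        nlinarith
      have c4 : (m : ℝ) ≤ m.totient * (N : ℝ) ^ δ := by
        refine c2.trans ?_
        gcongr
        linarith
      have c5 : (N : ℝ) ^ (1 - 3 * δ) = (N : ℝ) ^ (1 - 4 * δ) * (N : ℝ) ^ δ := by
        rw [← Real.rpow_add hNpos]
        congr 1; ring
      have c6 : (0 : ℝ) < (N : ℝ) ^ δ := Real.rpow_pos_of_pos hNpos _
      rw [c5] at g4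
      exact le_of_mul_le_mul_right (g4.trans c4) c6
    calc (N : ℝ) ^ (2 - ε) ≤ (N : ℝ) ^ (1 - 2 * δ + (1 - 4 * δ)) :=
          Real.rpow_le_rpow_of_exponent_le hNr (by linarith)
      _ = (N : ℝ) ^ (1 - 2 * δ) * (N : ℝ) ^ (1 - 4 * δ) := Real.rpow_add hNpos _ _
      _ ≤ M.card * (N : ℝ) ^ (1 - 4 * δ) := by gcongr
      _ = ∑ m ∈ M, (N : ℝ) ^ (1 - 4 * δ) := by rw [sum_const, nsmul_eq_mul]
      _ ≤ ∑ m ∈ M, (m.totient : ℝ) := sum_le_sum key

end Pool.Agent.RFG43
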