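import Pool.Agent.RFG43.Vert

/-!
Crew file for `MP_b76cd5_al`: projections from three variables to two, level sums, and the
polygon argument for any set of primitive directions.
-/

set_option autoImplicit false

namespace Pool.Agent.RFG43

open Finset Filter

/-! ### The polygon argument -/

/-- The level of a point of the plane. -/
def lv (u : ℕ × ℕ) (x : Fin 2 → ℤ) : ℤ := (u.1 : ℤ) * x 0 + (u.2 : ℤ) * x 1

theorem lv_face (S : Finset (Fin 2 → ℤ)) (hS : S.Nonempty) (c : (Fin 2 → ℤ) → ℤ)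
    (hc : ∀ x ∈ S, c x ≠ 0) (u : ℕ × ℕ) (hu1 : 1 ≤ u.1) (hu2 : u.1.Coprime u.2)
    (h : ∀ k0 : ℤ, ∑ x ∈ S.filter (fun x => lv u x = k0), c x = 0) :
    ∃ p ∈ S, ∃ q ∈ S, (∀ x ∈ S, lv u x ≤ lv u p) ∧ (∀ x ∈ S, lv u x ≤ lv u q) ∧
      p 1 + (u.1 : ℤ) ≤ q 1 := by
  classical
  obtain ⟨p, hp, hmax⟩ := exists_max_image S (lv u) hS
  obtain ⟨q, hq, hqp, hne⟩ : ∃ q ∈ S, lv u q = lv u p ∧ q ≠ p := by
    by_contra hcon
    push Not at hcon
    have h1 := h (lv u p)
    have h2 : S.filter (fun x => lv u x = lv u p) = {p} := by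
      ext x
      rw [mem_filter, mem_singleton]
      constructor
      · rintro ⟨h3, h4⟩
        exact hcon x h3 h4
      · rintro rfl
        exact ⟨hp, rfl⟩
    rw [h2, sum_singleton] at h1
    exact hc p hp h1
  have hi : (0 : ℤ) < u.1 := by exact_mod_cast hu1
  have h1 : (u.1 : ℤ) * (q 0 - p 0) = u.2 * (p 1 - q 1) := by
    have := hqp
    unfold lv at this
    linarith
  have h2 : (u.1 : ℤ) ∣ p 1 - q 1 := by
    have h3 : (u.1 : ℤ) ∣ u.2 * (p 1 - q 1) := ⟨q 0 - p 0, h1.symm⟩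
    have h4 : IsCoprime (u.1 : ℤ) (u.2 : ℤ) := Nat.isCoprime_iff_coprime.2 hu2
    exact h4.dvd_of_dvd_mul_left h3
  have h3 : p 1 - q 1 ≠ 0 := by
    intro h4
    rw [h4, mul_zero] at h1
    have h5 := (mul_eq_zero.1 h1).resolve_left hi.ne'
    apply hne
    funext t
    fin_cases t
    · simp only [Fin.zero_eta]
      linarith
    · simp only [Fin.mk_one]
      linarith
  rcases lt_or_gt_of_ne h3 with h4 | h4
  · refine ⟨p, hp, q, hq, hmax, fun x hx => (hmax x hx).trans hqp.ge, ?_⟩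
    have h5 := Int.le_of_dvd (by linarith : 0 < -(p 1 - q 1)) ((dvd_neg).2 h2)
    linarith
  · refine ⟨q, hq, p, hp, fun x hx => (hmax x hx).trans hqp.ge, hmax, ?_⟩
    have h5 := Int.le_of_dvd h4 h2
    linarith

theorem lv_ordered (S : Finset (Fin 2 → ℤ)) (u v : ℕ × ℕ) (hu : 1 ≤ u.1)
    (hv : 1 ≤ v.1) (x y : Fin 2 → ℤ) (hx : x ∈ S) (hy : y ∈ S)
    (hxu : ∀ z ∈ S, lv u z ≤ lv u x) (hyv : ∀ z ∈ S, lv v z ≤ lv v y)
    (huv : u.2 * v.1 < u.1 * v.2) : x 1 ≤ y 1 := by
  have h1 := hxu y hy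
  have h2 := hyv x hx
  unfold lv at h1 h2
  have hi : (0 : ℤ) < u.1 := by exact_mod_cast hu
  have hi' : (0 : ℤ) < v.1 := by exact_mod_cast hv
  have h3 : (u.2 : ℤ) * v.1 < u.1 * v.2 := by exact_mod_cast huv
  have h4 := mul_le_mul_of_nonneg_left h1 hi'.le
  have h5 := mul_le_mul_of_nonneg_left h2 hi.le
  by_contra hcon
  push Not at hcon
  have h6 : 0 < ((u.1 : ℤ) * v.2 - u.2 * v.1) * (x 1 - y 1) :=
    mul_pos (by linarith) (by linarith)
  nlinarith

/-- Faces in the directions `V` give disjoint intervals. -/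
theorem geoV (S : Finset (Fin 2 → ℤ)) (hS : S.Nonempty) (c : (Fin 2 → ℤ) → ℤ)
    (hc : ∀ x ∈ S, c x ≠ 0) (V : Finset (ℕ × ℕ)) (hV : ∀ u ∈ V, 1 ≤ u.1 ∧ u.1.Coprime u.2)
    (D : ℕ)
    (h : ∀ u ∈ V, ∀ k0 : ℤ, ∑ x ∈ S.filter (fun x => lv u x = k0), c x = 0)
    (hD : ∀ x ∈ S, ∀ y ∈ S, x 1 - y 1 ≤ D) :
    ∑ u ∈ V, u.1 ≤ D := by
  classical
  have hpt := fun u (hu : u ∈ V) => lv_face S hS c hc u (hV u hu).1 (hV u hu).2 (h u hu)
  choose! p hp q hq hpm hqm hpq using hpt
  obtain ⟨lo, hlo, hlo'⟩ := exists_min_image S (fun x => x 1) hS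
  obtain ⟨hi, hhi, hhi'⟩ := exists_max_image S (fun x => x 1) hS
  have hdisj : ∀ u ∈ V, ∀ v ∈ V, u ≠ v →
      Disjoint (Finset.Ico (p u 1) (q u 1)) (Finset.Ico (p v 1) (q v 1)) := by
    intro u hu v hv huv
    have hu' := hV u hu
    have hv' := hV v hv
    have hne : u.2 * v.1 ≠ u.1 * v.2 := by
      intro h1
      apply huv
      have h2 : u.1 ∣ v.1 := by
        have : u.1 ∣ u.2 * v.1 := ⟨v.2, h1⟩
        exact hu'.2.dvd_of_dvd_mul_left this
      have h3 : v.1 ∣ u.1 := by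
        have : v.1 ∣ v.2 * u.1 := ⟨u.2, by rw [mul_comm v.2, ← h1, mul_comm]⟩
        exact hv'.2.dvd_of_dvd_mul_left this
      have h4 := Nat.dvd_antisymm h2 h3
      have h5 : u.2 = v.2 := by
        rw [h4, mul_comm] at h1
        exact Nat.eq_of_mul_eq_mul_left (by omega) h1
      exact Prod.ext h4 h5
    rw [Finset.disjoint_left]
    intro z hz hz'
    rw [Finset.mem_Ico] at hz hz'
    rcases lt_or_gt_of_ne hne with h1 | h1
    · have := lv_ordered S u v hu'.1 hv'.1 (q u) (p v) (hq u hu) (hp v hv) (hqm u hu)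
        (hpm v hv) h1
      omega
    · have := lv_ordered S v u hv'.1 hu'.1 (q v) (p u) (hq v hv) (hp u hu) (hqm v hv)
        (hpm u hu) (by rw [mul_comm v.2, mul_comm v.1]; exact h1)
      omega
  have hcard := card_biUnion (s := V) (t := fun u => Finset.Ico (p u 1) (q u 1)) hdisj
  have hsub : V.biUnion (fun u => Finset.Ico (p u 1) (q u 1)) ⊆
      Finset.Ico (lo 1) (hi 1) := by
    intro z hz
    rw [mem_biUnion] at hz
    obtain ⟨u, hu, hz⟩ := hz
    rw [Finset.mem_Ico] at hz ⊢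
    have h1 := hlo' (p u) (hp u hu)
    have h2 := hhi' (q u) (hq u hu)
    omega
  have h1 := card_le_card hsub
  rw [hcard, Int.card_Ico] at h1
  have h2 : ∑ u ∈ V, u.1 ≤ ∑ u ∈ V, (Finset.Ico (p u 1) (q u 1)).card := by
    refine sum_le_sum fun u hu => ?_
    rw [Int.card_Ico]
    have := hpq u hu
    omega
  have h3 := hD hi hhi lo hlo
  omega

/-! ### Projections from three variables to two -/

/-- The projection with kernel the line of `e`, `e i0 = p`, `e i1 = t`, `e 2 = q`. -/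
def yv (i0 i1 : Fin 3) (p t q : ℤ) (x : Fin 3 → ℤ) : Fin 2 → ℤ :=
  ![p * x i1 - t * x i0, p * x 2 - q * x i0]

/-- If the projection of `f` is zero then each point of the support has a companion. -/
theorem companion (f : (Fin 3 → ℤ) →₀ ℤ) (i0 i1 : Fin 3) (h012 : i0 ≠ i1 ∧ i0 ≠ 2 ∧ i1 ≠ 2)
    (p q : ℕ) (t : ℤ) (hp : p.Prime) (hq : 0 < q) (hqp : q < p)
    (e : Fin 3 → ℤ) (he0 : e i0 = p) (he1 : e i1 = t) (he2 : e 2 = q)
    (hf : Finsupp.mapDomain (yv i0 i1 p t q) f = 0) :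
    ∀ x ∈ f.support, ∃ j : ℤ, j ≠ 0 ∧ (fun i => x i + j * e i) ∈ f.support := by
  classical
  intro x hx
  have hall0 : ∀ a b : Fin 3, a ≠ b ∧ a ≠ 2 ∧ b ≠ 2 → ∀ i : Fin 3, i = a ∨ i = b ∨ i = 2 := by
    decide
  have hall := hall0 i0 i1 h012
  obtain ⟨y, hy, hyx, hne⟩ : ∃ y, f y ≠ 0 ∧ yv i0 i1 p t q y = yv i0 i1 p t q x ∧ y ≠ x := by
    by_contra hcon
    push Not at hcon
    have h1 := mapDomain_eq_sum (yv i0 i1 p t q) f (yv i0 i1 p t q x)
    rw [hf, Finsupp.coe_zero, Pi.zero_apply] at h1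
    have h2 : f.support.filter (fun z => yv i0 i1 p t q z = yv i0 i1 p t q x) = {x} := by
      ext z
      rw [mem_filter, mem_singleton, Finsupp.mem_support_iff]
      constructor
      · rintro ⟨h3, h4⟩
        exact hcon z h3 h4
      · rintro rfl
        exact ⟨Finsupp.mem_support_iff.1 hx, rfl⟩
    rw [h2, sum_singleton] at h1
    exact Finsupp.mem_support_iff.1 hx h1.symm
  have e1 := congrFun hyx 0
  have e2 := congrFun hyx 1
  simp only [yv, Matrix.cons_val_zero, Matrix.cons_val_one] at e1 e2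
  have hp0 : (p : ℤ) ≠ 0 := by exact_mod_cast hp.ne_zero
  have hdvd : (p : ℤ) ∣ (q : ℤ) * (y i0 - x i0) := ⟨y 2 - x 2, by linarith⟩
  have hcop : IsCoprime (p : ℤ) (q : ℤ) := by
    rw [Nat.isCoprime_iff_coprime, Nat.Prime.coprime_iff_not_dvd hp]
    intro h
    have := Nat.le_of_dvd hq h
    omega
  obtain ⟨j, hj⟩ := hcop.dvd_of_dvd_mul_left hdvd
  have g0 : y i0 = x i0 + j * e i0 := by rw [he0]; linarith
  have g1 : y i1 = x i1 + j * e i1 := by
    rw [he1]
    have h3 : (p : ℤ) * (y i1) = p * (x i1 + j * t) := by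
      have : y i0 - x i0 = p * j := hj
      linear_combination e1 + t * this
    exact mul_left_cancel₀ hp0 h3
  have g2 : y 2 = x 2 + j * e 2 := by
    rw [he2]
    have h3 : (p : ℤ) * (y 2) = p * (x 2 + j * q) := by
      have : y i0 - x i0 = p * j := hj
      linear_combination e2 + q * this
    exact mul_left_cancel₀ hp0 h3
  have hyj : (fun i => x i + j * e i) = y := by
    funext i
    rcases hall i with h | h | h
    · rw [h]; exact g0.symm
    · rw [h]; exact g1.symm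
    · rw [h]; exact g2.symm
  refine ⟨j, ?_, by rw [hyj]; exact Finsupp.mem_support_iff.2 hy⟩
  rintro rfl
  apply hne
  rw [← hyj]
  funext i
  ring

theorem sum_filter_mapDomain {α β : Type} (g : α → β) (f : α →₀ ℤ) (P : β → Prop)
    [DecidablePred P] : ∑ y ∈ (Finsupp.mapDomain g f).support.filter P, Finsupp.mapDomain g f y =
      ∑ x ∈ f.support.filter (fun x => P (g x)), f x := by
  classical
  have h := Finsupp.sum_mapDomain_index (f := g) (s := f)
    (h := fun y m => if P y then m else 0) (by intro y; simp) (by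
      intro y a b; split_ifs <;> simp)
  rw [Finsupp.sum, Finsupp.sum] at h
  rw [sum_filter, sum_filter]
  exact h

/-- The polygon argument for the projection. -/
theorem plane_step (f : (Fin 3 → ℤ) →₀ ℤ) (i0 i1 : Fin 3)
    (p q n : ℕ) (t : ℤ) (hp : 0 < p) (hqp : q < p)
    (hF : Finsupp.mapDomain (yv i0 i1 p t q) f ≠ 0)
    (hbox : ∀ x ∈ f.support, ∀ y ∈ f.support, ∀ j, |x j - y j| ≤ n)
    (V : Finset (ℕ × ℕ)) (hV : ∀ u ∈ V, 1 ≤ u.1 ∧ u.1.Coprime u.2)
    (hVd : ∀ u ∈ V, (p : ℤ) ∣ t * u.1 + q * u.2)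
    (h : ∀ u ∈ V, ∀ w : ℤ, (p : ℤ) * w = -(t * u.1 + q * u.2) → ∀ k0 : ℤ,
      ∑ x ∈ f.support.filter (fun x => w * x i0 + u.1 * x i1 + u.2 * x 2 = k0), f x = 0) :
    ∑ u ∈ V, u.1 ≤ 2 * p * n := by
  classical
  have hp0 : (p : ℤ) ≠ 0 := by exact_mod_cast hp.ne'
  refine geoV (Finsupp.mapDomain (yv i0 i1 p t q) f).support
    (Finsupp.support_nonempty_iff.2 hF) (Finsupp.mapDomain (yv i0 i1 p t q) f)
    (fun x hx => Finsupp.mem_support_iff.1 hx) V hV (2 * p * n) ?_ ?_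
  · intro u hu k0
    rw [sum_filter_mapDomain (yv i0 i1 p t q) f (fun y => lv u y = k0)]
    obtain ⟨w', hw'⟩ := hVd u hu
    have hw : (p : ℤ) * (-w') = -(t * u.1 + q * u.2) := by rw [hw']; ring
    have hlev : ∀ x : Fin 3 → ℤ, lv u (yv i0 i1 p t q x) =
        p * ((-w') * x i0 + u.1 * x i1 + u.2 * x 2) := by
      intro x
      simp only [lv, yv, Matrix.cons_val_zero, Matrix.cons_val_one]
      linear_combination (-x i0) * hw'
    by_cases hd : (p : ℤ) ∣ k0
    · obtain ⟨k1, hk1⟩ := hd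
      have h2 := h u hu (-w') hw k1
      rw [← h2]
      refine sum_congr ?_ fun _ _ => rfl
      apply filter_congr
      intro x _
      rw [hlev, hk1]
      constructor
      · intro h3
        exact mul_left_cancel₀ hp0 h3
      · intro h3
        rw [h3]
    · rw [filter_eq_empty_iff.2, sum_empty]
      intro x _ h3
      rw [hlev] at h3
      exact hd ⟨_, h3.symm⟩
  · intro y hy y' hy'
    have hx := Finsupp.mapDomain_support hy
    have hx' := Finsupp.mapDomain_support hy'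
    rw [mem_image] at hx hx'
    obtain ⟨x, hx, rfl⟩ := hx
    obtain ⟨x', hx', rfl⟩ := hx'
    simp only [yv, Matrix.cons_val_one]
    have h1 := (abs_le.1 (hbox x hx x' hx' 2)).2
    have h2 := (abs_le.1 (hbox x hx x' hx' i0)).1
    have h3 : (p : ℤ) * (x 2 - x' 2) ≤ p * n := mul_le_mul_of_nonneg_left h1 (by positivity)
    have h4 : (q : ℤ) * (-(n : ℤ)) ≤ q * (x i0 - x' i0) :=
      mul_le_mul_of_nonneg_left h2 (by positivity)
    have h5 : (q : ℤ) * n ≤ p * n := mul_le_mul_of_nonneg_right (by exact_mod_cast hqp.le)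
      (by positivity)
    push_cast
    nlinarith

/-- The number of `c` in a residue class. -/
theorem count_class (p q l : ℕ) (t : ℤ) (hp : p.Prime) (hq : 0 < q) (hqp : q < p) :
    (l - 1) / p ≤ ((Finset.Icc 1 (l - 1)).filter fun c : ℕ => (p : ℤ) ∣ t * l + q * c).card := by
  classical
  have hp0 : 0 < p := hp.pos
  have hcop : IsCoprime (p : ℤ) (q : ℤ) := by
    rw [Nat.isCoprime_iff_coprime, Nat.Prime.coprime_iff_not_dvd hp]
    intro h
    have := Nat.le_of_dvd hq h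
    omega
  obtain ⟨a, b, hab⟩ := hcop
  -- `b q = 1 - a p`
  set z : ℤ := -(t * l * b) with hz
  set c0 : ℕ := ((z - 1) % p).toNat + 1 with hc0
  have hpz : (0 : ℤ) < p := by exact_mod_cast hp0
  have hm0 := Int.emod_nonneg (z - 1) hpz.ne'
  have hm1 := Int.emod_lt_of_pos (z - 1) hpz
  have hc0' : (c0 : ℤ) = (z - 1) % p + 1 := by
    rw [hc0]
    push_cast
    rw [Int.toNat_of_nonneg hm0]
  have hdv : (p : ℤ) ∣ t * l + q * c0 := by
    have h1 : (p : ℤ) ∣ z - c0 := by
      rw [hc0']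
      have := Int.mul_ediv_add_emod (z - 1) p
      exact ⟨(z - 1) / p, by linarith⟩
    have h2 : (p : ℤ) ∣ t * l + q * z := by
      refine ⟨t * l * a, ?_⟩
      rw [hz]
      have : b * (q : ℤ) = 1 - a * p := by linarith
      linear_combination (-(t * l)) * this
    have h3 : t * l + q * c0 = (t * l + q * z) - q * (z - c0) := by ring
    rw [h3]
    exact dvd_sub h2 (Dvd.dvd.mul_left h1 _)
  have hle : c0 ≤ p := by
    have : (c0 : ℤ) ≤ p := by rw [hc0']; linarith
    exact_mod_cast this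
  rw [← card_range ((l - 1) / p)]
  refine card_le_card_of_injOn (fun j => c0 + j * p) ?_ ?_
  · intro j hj
    rw [mem_coe, mem_range] at hj
    rw [mem_coe, mem_filter, Finset.mem_Icc]
    have hc1 : 1 ≤ c0 := by rw [hc0]; exact Nat.le_add_left _ _
    refine ⟨⟨hc1.trans (Nat.le_add_right _ _), ?_⟩, ?_⟩
    · have h1 : (j + 1) * p ≤ l - 1 := by
        calc (j + 1) * p ≤ (l - 1) / p * p := Nat.mul_le_mul_right _ hj
          _ ≤ l - 1 := Nat.div_mul_le_self _ _
      calc c0 + j * p ≤ p + j * p := by omega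
        _ = (j + 1) * p := by ring
        _ ≤ l - 1 := h1
    · push_cast
      have : t * l + q * ((c0 : ℤ) + j * p) = (t * l + q * c0) + p * (q * j) := by ring
      rw [this]
      exact dvd_add hdv (Dvd.intro _ rfl)
  · intro j _ j' _ h
    simp only at h
    have h1 : j * p = j' * p := by omega
    exact Nat.eq_of_mul_eq_mul_right hp0 h1

end Pool.Agent.RFG43
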