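import Pool.Agent.RFG43.Elim

/-!
Crew file for `MP_b76cd5_al`: the statement on nonvanishing in `r ≥ 2` variables.
-/

set_option autoImplicit false

namespace Pool.Agent.RFG43

open Finset Filter

/-- The bound for the exponents of the substitution. -/
noncomputable def cr (B : ℕ) : ℕ := ⌊(2 * (B : ℝ)) ^ (1 / 3 : ℝ)⌋₊ + 1

theorem cr_spec (B : ℕ) : 2 * B < cr B ^ 3 := by
  have h1 : (2 * (B : ℝ)) ^ (1 / 3 : ℝ) < cr B := by
    rw [cr]
    push_cast
    exact Nat.lt_floor_add_one _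
  have h2 : (2 * (B : ℝ)) = ((2 * (B : ℝ)) ^ (1 / 3 : ℝ)) ^ 3 := by
    rw [← Real.rpow_natCast, ← Real.rpow_mul (by positivity)]
    norm_num
  have h3 : (2 * (B : ℝ)) < (cr B : ℝ) ^ 3 := by
    rw [h2]
    exact pow_lt_pow_left₀ h1 (by positivity) (by norm_num)
  exact_mod_cast h3

theorem cr_le (B : ℕ) : (cr B : ℝ) ≤ (2 * (B : ℝ)) ^ (1 / 3 : ℝ) + 1 := by
  rw [cr]
  push_cast
  have := Nat.floor_le (show 0 ≤ (2 * (B : ℝ)) ^ (1 / 3 : ℝ) by positivity)
  linarith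

/-- The side of the box after the elimination. -/
noncomputable def bnd : ℕ → ℕ → ℕ → ℕ
  | 0, B, _ => B
  | k + 1, B, n => bnd k (B + cr B * n) n

theorem le_bnd (k : ℕ) : ∀ B n : ℕ, B ≤ bnd k B n := by
  induction k with
  | zero => intro B n; exact le_refl B
  | succ k ih =>
    intro B n
    exact (Nat.le_add_right _ _).trans (ih (B + cr B * n) n)

theorem red (k : ℕ) : ∀ (B n : ℕ) (f : (Fin (k + 2) → ℤ) →₀ ℤ), f ≠ 0 →
    (∀ x ∈ f.support, ∀ y ∈ f.support, ∀ j : Fin (k + 2),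
      |x j - y j| ≤ if j.val < 2 then (B : ℤ) else n) →
    ∃ f' : (Fin 2 → ℤ) →₀ ℤ, f' ≠ 0 ∧
      (∀ x ∈ f'.support, ∀ y ∈ f'.support, ∀ j, |x j - y j| ≤ bnd k B n) ∧
      ∑ x ∈ f'.support, |f' x| ≤ ∑ x ∈ f.support, |f x| ∧
      ∀ (p : ℕ) (t : Fin 2 → (ZMod p)ˣ), ∃ t' : Fin (k + 2) → (ZMod p)ˣ, evg f t' = ev f' t := by
  classical
  induction k with
  | zero =>
    intro B n f hf hbox
    refine ⟨f, hf, fun x hx y hy j => ?_, le_refl _, fun p t => ⟨t, rfl⟩⟩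
    have h := hbox x hx y hy j
    rwa [if_pos j.isLt] at h
  | succ k ih =>
    intro B n f hf hbox
    have h00 : (Fin.castSucc (0 : Fin (k + 2))) = 0 := rfl
    have hB : ∀ x ∈ f.support, ∀ y ∈ f.support, |x 0 - y 0| ≤ (B : ℤ) := by
      intro x hx y hy
      have h := hbox x hx y hy 0
      rwa [if_pos (by simp)] at h
    obtain ⟨a, ha1, ha2, hne⟩ := elim f hf (cr B) B hB (cr_spec B)
    obtain ⟨f', g1, g2, g3, g4⟩ := ih (B + cr B * n) n (Finsupp.mapDomain (sbs a) f) hne (by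
      intro x' hx' y' hy' j
      have hx'' := Finsupp.mapDomain_support hx'
      have hy'' := Finsupp.mapDomain_support hy'
      rw [mem_image] at hx'' hy''
      obtain ⟨x, hx, rfl⟩ := hx''
      obtain ⟨y, hy, rfl⟩ := hy''
      have hl := hbox x hx y hy (Fin.last _)
      rw [if_neg (by simp)] at hl
      have hj := hbox x hx y hy j.castSucc
      have e1 : sbs a x j - sbs a y j = (x j.castSucc - y j.castSucc) +
          (x (Fin.last _) - y (Fin.last _)) *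
          (if j = 0 then (a.1 : ℤ) else if j = 1 then (a.2 : ℤ) else 0) := by
        unfold sbs; ring
      rw [e1]
      refine (abs_add_le _ _).trans ?_
      rw [abs_mul]
      by_cases h2 : j.val < 2
      · rw [if_pos (by simpa using h2)] at hj
        rw [if_pos h2]
        have e2 : |(if j = 0 then (a.1 : ℤ) else if j = 1 then (a.2 : ℤ) else 0)| ≤ cr B := by
          split_ifs
          · rw [Nat.abs_cast]; exact_mod_cast ha1
          · rw [Nat.abs_cast]; exact_mod_cast ha2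
          · simp
        have e3 := mul_le_mul hl e2 (abs_nonneg _) (by positivity)
        push_cast
        linarith
      · rw [if_neg (by simpa using h2)] at hj
        rw [if_neg h2, if_neg (by rintro rfl; simp at h2),
          if_neg (by rintro rfl; simp at h2), abs_zero, mul_zero, add_zero]
        exact hj)
    refine ⟨f', g1, g2, g3.trans (l1_mapDomain _ _), fun p t => ?_⟩
    obtain ⟨t', ht'⟩ := g4 p t
    exact ⟨_, by rw [← evg_mapDomain]; exact ht'⟩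

/-- The exponents of the sides of the boxes. -/
noncomputable def be (k : ℕ) : ℝ := 3 / 2 * (1 - (1 / 3) ^ (k + 1))

theorem be_zero : be 0 = 1 := by unfold be; norm_num

theorem be_succ (k : ℕ) : be (k + 1) = 1 + be k / 3 := by unfold be; ring

theorem be_le (k : ℕ) : be k ≤ 3 / 2 := by
  unfold be
  have : (0 : ℝ) ≤ (1 / 3) ^ (k + 1) := by positivity
  linarith

theorem be_mono (k : ℕ) : be k ≤ be (k + 1) := by
  rw [be_succ]
  have := be_le k
  linarith

theorem bnd_le (k : ℕ) : ∀ (j : ℕ) (C : ℝ), 1 ≤ C → ∃ C' : ℝ, 1 ≤ C' ∧ ∀ n B : ℕ, 1 ≤ n →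
    (B : ℝ) ≤ C * (n : ℝ) ^ be j → (bnd k B n : ℝ) ≤ C' * (n : ℝ) ^ be (j + k) := by
  induction k with
  | zero => exact fun j C hC => ⟨C, hC, fun n B _ h => h⟩
  | succ k ih =>
    intro j C hC
    obtain ⟨C', hC', h⟩ := ih (j + 1) (C + ((2 * C) ^ (1 / 3 : ℝ) + 1)) (by
      have : (0 : ℝ) ≤ (2 * C) ^ (1 / 3 : ℝ) := by positivity
      linarith)
    refine ⟨C', hC', fun n B hn hB => ?_⟩
    have hn1 : (1 : ℝ) ≤ n := by exact_mod_cast hn
    have hnp : (0 : ℝ) < n := by linarith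
    have h2 := h n (B + cr B * n) hn ?_
    · rw [show j + (k + 1) = j + 1 + k by ring]
      exact h2
    · have e1 : (cr B : ℝ) ≤ ((2 * C) ^ (1 / 3 : ℝ) + 1) * (n : ℝ) ^ (be j / 3) := by
        refine (cr_le B).trans ?_
        have e2 : (2 * (B : ℝ)) ^ (1 / 3 : ℝ) ≤
            (2 * C) ^ (1 / 3 : ℝ) * (n : ℝ) ^ (be j / 3) := by
          calc (2 * (B : ℝ)) ^ (1 / 3 : ℝ) ≤ (2 * C * (n : ℝ) ^ be j) ^ (1 / 3 : ℝ) := by
                apply Real.rpow_le_rpow (by positivity) _ (by norm_num)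
                linarith
            _ = _ := by
                rw [Real.mul_rpow (by positivity) (by positivity), ← Real.rpow_mul hnp.le]
                congr 2
                ring
        have e3 : (1 : ℝ) ≤ (n : ℝ) ^ (be j / 3) := by
          apply Real.one_le_rpow hn1
          unfold be
          have : (1 / 3 : ℝ) ^ (j + 1) ≤ 1 := pow_le_one₀ (by norm_num) (by norm_num)
          linarith
        linarith
      have e4 : (n : ℝ) ^ (be j / 3) * n = (n : ℝ) ^ be (j + 1) := by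
        rw [be_succ, Real.rpow_add hnp, Real.rpow_one, mul_comm]
      have e5 : (n : ℝ) ^ be j ≤ (n : ℝ) ^ be (j + 1) :=
        Real.rpow_le_rpow_of_exponent_le hn1 (be_mono j)
      push_cast
      calc (B : ℝ) + cr B * n ≤ C * (n : ℝ) ^ be j +
            ((2 * C) ^ (1 / 3 : ℝ) + 1) * (n : ℝ) ^ (be j / 3) * n := by gcongr
        _ = C * (n : ℝ) ^ be j + ((2 * C) ^ (1 / 3 : ℝ) + 1) * (n : ℝ) ^ be (j + 1) := by
            rw [mul_assoc, e4]
        _ ≤ C * (n : ℝ) ^ be (j + 1) + ((2 * C) ^ (1 / 3 : ℝ) + 1) * (n : ℝ) ^ be (j + 1) := by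
            gcongr
        _ = _ := by ring

/-- Nonvanishing in `k + 2` variables. -/
theorem exists_prime_fin (k : ℕ) (ε : ℝ) (hε : 0 < ε) (A : ℕ) : ∃ n0 : ℕ, ∀ n : ℕ, n0 ≤ n →
    ∀ f : (Fin (k + 2) → ℤ) →₀ ℤ, f ≠ 0 →
    (∀ x ∈ f.support, ∀ y ∈ f.support, ∀ j, |x j - y j| ≤ n) →
    (∑ x ∈ f.support, |f x| ≤ (n : ℤ) ^ A) →
    ∃ p : ℕ, ∃ _ : Fact p.Prime, (p : ℝ) ≤ (n : ℝ) ^ (1 - (1 / 3) ^ (k + 1) + ε) ∧
      ∃ a : Fin (k + 2) → (ZMod p)ˣ, evg f a ≠ 0 := by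
  obtain ⟨C, hC, hbnd⟩ := bnd_le k 0 1 le_rfl
  obtain ⟨n1, hn1⟩ := exists_prime_ev (ε / 3) (by linarith) A
  have f1 : ∀ᶠ n : ℕ in atTop, C ^ (2 / 3 + ε / 3) ≤ (n : ℝ) ^ (ε / 2) :=
    ((tendsto_rpow_atTop (by linarith)).comp tendsto_natCast_atTop_atTop).eventually_ge_atTop _
  obtain ⟨n0, hn0⟩ := eventually_atTop.1 (f1.and (eventually_ge_atTop (n1 + 1)))
  refine ⟨n0, fun n hn f hf hbox hl1 => ?_⟩
  obtain ⟨g1, g2⟩ := hn0 n hn
  have hnr : (1 : ℝ) ≤ n := by
    have : 1 ≤ n := by omega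
    exact_mod_cast this
  have hnp : (0 : ℝ) < n := by linarith
  obtain ⟨f', c1, c2, c3, c4⟩ := red k n n f hf (by
    intro x hx y hy j
    rw [ite_self]
    exact hbox x hx y hy j)
  set N := bnd k n n with hN
  have hnN : n ≤ N := le_bnd k n n
  obtain ⟨p, hp, hpN, a, ha⟩ := hn1 N (by omega) f' c1 c2 (by
    refine c3.trans (hl1.trans ?_)
    have : (n : ℤ) ≤ N := by exact_mod_cast hnN
    exact pow_le_pow_left₀ (by positivity) this A)
  obtain ⟨t', ht'⟩ := c4 p a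
  refine ⟨p, hp, ?_, t', by rw [ht']; exact ha⟩
  have hb := hbnd n n (by omega) (by rw [be_zero, Real.rpow_one, one_mul])
  rw [zero_add, ← hN] at hb
  have hbe : be k ≤ 3 / 2 := be_le k
  have hbe2 : 2 / 3 * be k = 1 - (1 / 3) ^ (k + 1) := by unfold be; ring
  calc (p : ℝ) ≤ (N : ℝ) ^ (2 / 3 + ε / 3) := hpN
    _ ≤ (C * (n : ℝ) ^ be k) ^ (2 / 3 + ε / 3) :=
        Real.rpow_le_rpow (by positivity) hb (by linarith)
    _ = C ^ (2 / 3 + ε / 3) * (n : ℝ) ^ (be k * (2 / 3 + ε / 3)) := by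
        rw [Real.mul_rpow (by linarith) (by positivity), ← Real.rpow_mul hnp.le]
    _ ≤ (n : ℝ) ^ (ε / 2) * (n : ℝ) ^ (1 - (1 / 3) ^ (k + 1) + ε / 2) := by
        apply mul_le_mul g1 _ (by positivity) (by positivity)
        apply Real.rpow_le_rpow_of_exponent_le hnr
        rw [← hbe2]
        nlinarith
    _ = _ := by
        rw [← Real.rpow_add hnp]
        congr 1; ring

/-- Nonvanishing in `r = k + 2` variables indexed by any finite type. -/
theorem exists_prime_rank (k : ℕ) (ε : ℝ) (hε : 0 < ε) (A : ℕ) : ∃ n0 : ℕ, ∀ n : ℕ, n0 ≤ n →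
    ∀ (α : Type) [Fintype α], Fintype.card α = k + 2 →
    ∀ f : (α → ℤ) →₀ ℤ, f ≠ 0 →
    (∀ x ∈ f.support, ∀ y ∈ f.support, ∀ j, |x j - y j| ≤ n) →
    (∑ x ∈ f.support, |f x| ≤ (n : ℤ) ^ A) →
    ∃ p : ℕ, ∃ _ : Fact p.Prime, (p : ℝ) ≤ (n : ℝ) ^ (1 - (1 / 3) ^ (k + 1) + ε) ∧
      ∃ a : α → (ZMod p)ˣ, evg f a ≠ 0 := by
  classical
  obtain ⟨n0, hn0⟩ := exists_prime_fin k ε hε A
  refine ⟨n0, fun n hn α _ hα f hf hbox hl1 => ?_⟩
  obtain ⟨e⟩ : Nonempty (α ≃ Fin (k + 2)) := ⟨Fintype.equivFinOfCardEq hα⟩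
  set g : (α → ℤ) → (Fin (k + 2) → ℤ) := fun x => x ∘ e.symm with hg
  have hinj : Function.Injective g := by
    intro x y h
    funext i
    have := congrFun h (e i)
    simpa [hg] using this
  have c1 : Finsupp.mapDomain g f ≠ 0 := by
    intro h
    exact hf (Finsupp.mapDomain_injective hinj (h.trans (Finsupp.mapDomain_zero).symm))
  have c2 : ∀ x ∈ (Finsupp.mapDomain g f).support, ∀ y ∈ (Finsupp.mapDomain g f).support,
      ∀ j, |x j - y j| ≤ (n : ℤ) := by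
    intro x' hx' y' hy' j
    have hx'' := Finsupp.mapDomain_support hx'
    have hy'' := Finsupp.mapDomain_support hy'
    rw [mem_image] at hx'' hy''
    obtain ⟨x, hx, rfl⟩ := hx''
    obtain ⟨y, hy, rfl⟩ := hy''
    exact hbox x hx y hy (e.symm j)
  obtain ⟨p, hp, hpn, a, ha⟩ := hn0 n hn (Finsupp.mapDomain g f) c1 c2
    ((l1_mapDomain g f).trans hl1)
  refine ⟨p, hp, hpn, a ∘ e, ?_⟩
  rw [evg, Finsupp.sum_mapDomain_index (by simp) (by intros; push_cast; ring)] at ha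
  convert ha using 1
  rw [evg]
  refine Finsupp.sum_congr fun x _ => ?_
  congr 2
  rw [← Equiv.prod_comp e]
  refine prod_congr rfl fun i _ => ?_
  simp [hg]

end Pool.Agent.RFG43
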