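import Pool.Agent.RFG43.Rank
import Pool.Agent.RFG43.Flow

/-!
Crew file for `MP_b76cd5_al`: the bound for words outside the second derived subgroup of the free
group on `k + 2` letters.
-/

set_option autoImplicit false

namespace Pool.Agent.RFG43.Solv

open Pool.Agent.RFG43 Pool.Agent.RFG43.Flow

variable {α : Type} [DecidableEq α]

/-- The absolute sum of a flow. -/
theorem flow_l1 (l : List (α × Bool)) (v : α → ℤ)
    (T : Finset ((α → ℤ) × α)) : ∑ e ∈ T, |flow l v e| ≤ l.length := by
  classical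
  induction l generalizing v with
  | nil => simp [flow]
  | cons x l ih =>
    have h1 := ih (v + stp x)
    have h2 : ∑ e ∈ T, |flow (x :: l) v e| ≤
        ∑ e ∈ T, ((if e = edge x v then (1 : ℤ) else 0) + |flow l (v + stp x) e|) := by
      refine Finset.sum_le_sum fun e _ => ?_
      rw [flow, Finsupp.add_apply]
      refine (abs_add_le _ _).trans ?_
      refine add_le_add_left ?_ _
      rw [Finsupp.single_apply]
      rcases x with ⟨i, b⟩
      by_cases h : edge (i, b) v = e
      · rw [if_pos h, if_pos h.symm]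
        cases b <;> simp [sgn]
      · rw [if_neg h, if_neg (Ne.symm h), abs_zero]
    refine h2.trans ?_
    rw [Finset.sum_add_distrib, Finset.sum_ite_eq']
    rw [List.length_cons]
    push_cast
    split_ifs <;> linarith

/-- The part of a flow on the edges of one direction. -/
noncomputable def comp (l : List (α × Bool)) (j : α) : (α → ℤ) →₀ ℤ :=
  (flow l 0).comapDomain (fun v => (v, j)) (fun _ _ _ _ h => (Prod.ext_iff.1 h).1)

theorem comp_apply (l : List (α × Bool)) (j : α) (v : α → ℤ) :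
    comp l j v = flow l 0 (v, j) := Finsupp.comapDomain_apply _ _ _ _

theorem val_comp [Fintype α] (l : List (α × Bool)) (j : α) {p : ℕ} (a : α → (ZMod p)ˣ) :
    val j a (flow l 0) = evg (comp l j) a := by
  classical
  rw [val_apply, evg, Finsupp.sum]
  have h1 : ∑ e ∈ (flow l 0).support, (flow l 0 e : ZMod p) *
      (if e.2 = j then (chi a e.1 : ZMod p) else 0) =
      ∑ e ∈ (flow l 0).support.filter (fun e => e.2 = j),
        (flow l 0 e : ZMod p) * (chi a e.1 : ZMod p) := by
    rw [Finset.sum_filter]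
    refine Finset.sum_congr rfl fun e _ => ?_
    split_ifs <;> simp
  rw [h1]
  symm
  refine Finset.sum_bij (fun v _ => (v, j)) ?_ ?_ ?_ ?_
  · intro v hv
    rw [Finsupp.mem_support_iff, comp_apply] at hv
    rw [Finset.mem_filter, Finsupp.mem_support_iff]
    exact ⟨hv, rfl⟩
  · intro v _ v' _ h
    exact (Prod.ext_iff.1 h).1
  · intro e he
    rw [Finset.mem_filter, Finsupp.mem_support_iff] at he
    refine ⟨e.1, ?_, Prod.ext rfl he.2.symm⟩
    rw [Finsupp.mem_support_iff, comp_apply, ← he.2]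
    exact he.1
  · intro v _
    rw [comp_apply]
    rfl

/-- The bound for the free group on `k + 2` letters. -/
theorem free_case (k : ℕ) (ε : ℝ) (hε : 0 < ε) : ∃ C : ℝ, 0 < C ∧
    ∀ (α : Type) [DecidableEq α] [Fintype α], Fintype.card α = k + 2 →
    ∀ w : FreeGroup α, w ∉ derivedSeries (FreeGroup α) 2 →
    ∃ (Q : Type) (_ : Group Q) (π : FreeGroup α →* Q), Finite Q ∧ π w ≠ 1 ∧
      derivedSeries Q 2 = ⊥ ∧
      (Nat.card Q : ℝ) ≤ C * (w.norm : ℝ) ^ (2 - 2 * (1 / 3) ^ (k + 1) + ε) := by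
  classical
  obtain ⟨n0, hn0⟩ := exists_prime_rank k (ε / 2) (by linarith) 1
  refine ⟨(n0 + 2) ^ 2 + 2, by positivity, fun α _ _ hα w hw => ?_⟩
  have hexp : (1 : ℝ) ≤ 2 - 2 * (1 / 3) ^ (k + 1) + ε := by
    have h1 : (1 / 3 : ℝ) ^ (k + 1) ≤ (1 / 3 : ℝ) ^ 1 :=
      pow_le_pow_of_le_one (by norm_num) (by norm_num) (by omega)
    rw [pow_one] at h1
    linarith
  have hn1 : 1 ≤ w.norm := by
    rcases Nat.eq_zero_or_pos w.norm with h | h
    · exfalso
      apply hw
      rw [FreeGroup.norm_eq_zero] at h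
      rw [h]
      exact one_mem _
    · exact h
  have hn1r : (1 : ℝ) ≤ w.norm := by exact_mod_cast hn1
  have hpos : (0 : ℝ) < w.norm := by linarith
  have hpow1 : (1 : ℝ) ≤ (w.norm : ℝ) ^ (2 - 2 * (1 / 3) ^ (k + 1) + ε) :=
    Real.one_le_rpow hn1r (by linarith)
  rcases le_or_gt w.norm n0 with hle | hgt
  · -- short words
    obtain ⟨Q, hQ, π, h1, h2, h3, h4⟩ := finite_rank w hw
    refine ⟨Q, hQ, π, h1, h2, h3, ?_⟩
    have h5 : Nat.card Q ≤ (n0 + 2) ^ 2 := by
      refine h4.trans ?_
      rw [sq]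
      exact Nat.mul_le_mul (by omega) (by omega)
    have h6 : (Nat.card Q : ℝ) ≤ (n0 + 2) ^ 2 := by exact_mod_cast h5
    calc (Nat.card Q : ℝ) ≤ ((n0 + 2) ^ 2 + 2) * 1 := by linarith
      _ ≤ _ := by gcongr
  · obtain ⟨l, hl⟩ : ∃ l, w.toWord = l := ⟨_, rfl⟩
    have hwl : FreeGroup.mk l = w := by rw [← hl]; exact FreeGroup.mk_toWord
    have hn : w.norm = l.length := by rw [FreeGroup.norm, hl]
    by_cases hE : E w = 1
    · have hflow : flow l 0 ≠ 0 := by
        intro h
        apply hw
        rw [← hwl]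
        exact mem_derived l (by rw [hwl]; exact hE) h
      obtain ⟨e₀, he₀⟩ : ∃ e, flow l 0 e ≠ 0 := by
        by_contra hcon
        push Not at hcon
        exact hflow (Finsupp.ext hcon)
      have hf : comp l e₀.2 ≠ 0 := by
        intro h
        have := comp_apply l e₀.2 e₀.1
        rw [h] at this
        exact he₀ this.symm
      have hbox : ∀ x ∈ (comp l e₀.2).support, ∀ y ∈ (comp l e₀.2).support, ∀ j,
          |x j - y j| ≤ (w.norm : ℤ) := by
        intro x hx y hy j
        rw [Finsupp.mem_support_iff, comp_apply] at hx hy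
        rw [hn]
        have h1 := pos_add_neg_le j l
        exact verts_diff l 0 x y (flow_mem l 0 _ hx) (flow_mem l 0 _ hy) j l.length
          (by omega) (by omega)
      have hl1 : ∑ x ∈ (comp l e₀.2).support, |comp l e₀.2 x| ≤ (w.norm : ℤ) ^ 1 := by
        rw [pow_one, hn]
        refine le_trans (le_of_eq ?_) (flow_l1 l 0 ((comp l e₀.2).support.image
          (fun v => (v, e₀.2))))
        rw [Finset.sum_image (fun _ _ _ _ h => (Prod.ext_iff.1 h).1)]
        exact Finset.sum_congr rfl fun x _ => by rw [comp_apply]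
      obtain ⟨p, hp, hpn, a, ha⟩ := hn0 w.norm hgt.le α hα (comp l e₀.2) hf hbox hl1
      have hne : phi e₀.2 a w ≠ 1 := by
        intro h
        apply ha
        rw [← val_comp, ← phi_eq, hwl, h, Aff.one_b, mul_zero]
      have hfin : Finite (Aff p) := Finite.of_equiv _ (Aff.equiv (p := p)).symm
      refine ⟨Aff p, inferInstance, phi e₀.2 a, hfin, hne, aff_metabelian p, ?_⟩
      have h1 : Nat.card (Aff p) ≤ p * p := by
        rw [Nat.card_congr (Aff.equiv (p := p)), Nat.card_prod, Nat.card_zmod,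
          Nat.card_eq_fintype_card, ZMod.card_units]
        exact Nat.mul_le_mul_left _ (by omega)
      have h2 : (Nat.card (Aff p) : ℝ) ≤ (p : ℝ) * p := by exact_mod_cast h1
      have hp0 : (0 : ℝ) ≤ p := Nat.cast_nonneg p
      calc (Nat.card (Aff p) : ℝ) ≤ (p : ℝ) * p := h2
        _ ≤ (w.norm : ℝ) ^ (1 - (1 / 3) ^ (k + 1) + ε / 2) *
            (w.norm : ℝ) ^ (1 - (1 / 3) ^ (k + 1) + ε / 2) :=
            mul_le_mul hpn hpn hp0 (by positivity)
        _ = (w.norm : ℝ) ^ (2 - 2 * (1 / 3) ^ (k + 1) + ε) := by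
            rw [← Real.rpow_add hpos]
            congr 1; ring
        _ ≤ ((n0 + 2) ^ 2 + 2) * (w.norm : ℝ) ^ (2 - 2 * (1 / 3) ^ (k + 1) + ε) := by
            apply le_mul_of_one_le_left (by positivity)
            have : (0 : ℝ) ≤ (n0 + 2) ^ 2 := by positivity
            linarith
    · obtain ⟨j, hj⟩ : ∃ j, Multiplicative.toAdd (E w) j ≠ 0 := by
        by_contra hcon
        push Not at hcon
        exact hE (Multiplicative.toAdd.injective (funext hcon))
      have h1 := endv_apply l 0 j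
      rw [endv_eq, hwl, zero_add, Pi.zero_apply, zero_add] at h1
      have h2 := pos_add_neg_le j l
      have h3 : |Multiplicative.toAdd (E w) j| ≤ l.length := by
        rw [abs_le]
        omega
      refine ⟨Multiplicative (ZMod (l.length + 1)), inferInstance,
        (AddMonoidHom.toMultiplicative ((Int.castAddHom (ZMod (l.length + 1))).comp
          (Pi.evalAddMonoidHom (fun _ : α => ℤ) j))).comp E, inferInstance, ?_, ?_, ?_⟩
      · intro h4
        have h5 : ((Multiplicative.toAdd (E w) j : ℤ) : ZMod (l.length + 1)) = 0 := h4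
        rw [ZMod.intCast_zmod_eq_zero_iff_dvd] at h5
        have h6 := Int.le_of_dvd (abs_pos.2 hj) ((dvd_abs _ _).2 h5)
        push_cast at h6
        omega
      · rw [eq_bot_iff, derivedSeries_succ, Subgroup.commutator_le]
        intro x _ y _
        rw [Subgroup.mem_bot, commutatorElement_eq_one_iff_mul_comm]
        exact mul_comm _ _
      · have h4 : Nat.card (Multiplicative (ZMod (l.length + 1))) = l.length + 1 := by
          rw [Nat.card_congr Multiplicative.toAdd, Nat.card_zmod]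
        rw [h4, ← hn]
        push_cast
        calc (w.norm : ℝ) + 1 ≤ 2 * (w.norm : ℝ) ^ (1 : ℝ) := by
              rw [Real.rpow_one]; linarith
          _ ≤ 2 * (w.norm : ℝ) ^ (2 - 2 * (1 / 3) ^ (k + 1) + ε) := by
              have := Real.rpow_le_rpow_of_exponent_le hn1r hexp
              linarith
          _ ≤ _ := by
              have : (0 : ℝ) ≤ (n0 + 2) ^ 2 := by positivity
              gcongr
              linarith

/-- The bound for every free group of rank `r ≥ 2`. -/
theorem below_square (r : ℕ) (hr : 2 ≤ r) (ε : ℝ) (hε : 0 < ε) : ∃ C : ℝ, 0 < C ∧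
    ∀ (G ι : Type) [Group G] [DecidableEq ι] [Fintype ι] (b : FreeGroupBasis ι G),
    Fintype.card ι = r → ∀ g : G, g ∉ derivedSeries G 2 →
    ∃ (Q : Type) (_ : Group Q) (π : G →* Q), Finite Q ∧ π g ≠ 1 ∧
      (∀ x ∈ derivedSeries G 2, π x = 1) ∧
      (Nat.card Q : ℝ) ≤ C * ((b.repr g).norm : ℝ) ^ (2 - 2 / 3 ^ (r - 1) + ε) := by
  obtain ⟨k, rfl⟩ : ∃ k, r = k + 2 := ⟨r - 2, by omega⟩
  obtain ⟨C, hC, h⟩ := free_case k ε hε
  refine ⟨C, hC, fun G ι _ _ _ b hι g hg => ?_⟩
  have h1 : b.repr g ∉ derivedSeries (FreeGroup ι) 2 := by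
    intro h
    apply hg
    have h2 := map_derivedSeries_le_derivedSeries b.repr.symm.toMonoidHom 2 ⟨_, h, rfl⟩
    simpa using h2
  obtain ⟨Q, hQ, π, hfin, hπ, hder, hcard⟩ := h ι hι (b.repr g) h1
  have he : (2 : ℝ) - 2 / 3 ^ (k + 2 - 1) + ε = 2 - 2 * (1 / 3) ^ (k + 1) + ε := by
    rw [show k + 2 - 1 = k + 1 by omega, one_div, inv_pow, div_eq_mul_inv]
  rw [he]
  exact ⟨Q, hQ, π.comp b.repr.toMonoidHom, hfin, hπ,
    fun x hx => kills (π.comp b.repr.toMonoidHom) 2 hder x hx, hcard⟩

end Pool.Agent.RFG43.Solv
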