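import Pool.Agent.RFG43.Solv
import Pool.Agent.RFG43.ThreeB

/-!
Crew file for `MP_b76cd5_al`: the bound for words outside the second derived subgroup of a free
group from a bound for the primes, and its case of rank three.
-/

set_option autoImplicit false

namespace Pool.Agent.RFG43.Solv

open Pool.Agent.RFG43 Pool.Agent.RFG43.Flow

/-- The bound for the free group on `r` letters that comes from small primes. -/
theorem free_from (r : ℕ) (θ : ℝ) (hθ : 1 / 2 ≤ θ) (n0 : ℕ)
    (hn0 : ∀ n : ℕ, n0 ≤ n → ∀ (α : Type) [Fintype α], Fintype.card α = r →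
      ∀ f : (α → ℤ) →₀ ℤ, f ≠ 0 →
      (∀ x ∈ f.support, ∀ y ∈ f.support, ∀ j, |x j - y j| ≤ n) →
      (∑ x ∈ f.support, |f x| ≤ (n : ℤ)) →
      ∃ p : ℕ, ∃ _ : Fact p.Prime, (p : ℝ) ≤ (n : ℝ) ^ θ ∧
        ∃ a : α → (ZMod p)ˣ, evg f a ≠ 0) : ∃ C : ℝ, 0 < C ∧
    ∀ (α : Type) [DecidableEq α] [Fintype α], Fintype.card α = r →
    ∀ w : FreeGroup α, w ∉ derivedSeries (FreeGroup α) 2 →
    ∃ (Q : Type) (_ : Group Q) (π : FreeGroup α →* Q), Finite Q ∧ π w ≠ 1 ∧
      derivedSeries Q 2 = ⊥ ∧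
      (Nat.card Q : ℝ) ≤ C * (w.norm : ℝ) ^ (2 * θ) := by
  classical
  refine ⟨(n0 + 2) ^ 2 + 2, by positivity, fun α _ _ hα w hw => ?_⟩
  have hexp : (1 : ℝ) ≤ 2 * θ := by linarith
  have hn1 : 1 ≤ w.norm := by
    rcases Nat.eq_zero_or_pos w.norm with h | h
    · exfalso
      apply hw
      rw [FreeGroup.norm_eq_zero] at h
      rw [h]
      exact one_mem _
    · exact h
  have hn1r : (1 : ℝ) ≤ w.norm := by exact_mod_cast hn1
  have hpos : (0 : ℝ) < w.norm := by linarith
  have hpow1 : (1 : ℝ) ≤ (w.norm : ℝ) ^ (2 * θ) :=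
    Real.one_le_rpow hn1r (by linarith)
  rcases le_or_gt w.norm n0 with hle | hgt
  · -- short words
    obtain ⟨Q, hQ, π, h1, h2, h3, h4⟩ := finite_rank w hw
    refine ⟨Q, hQ, π, h1, h2, h3, ?_⟩
    have h5 : Nat.card Q ≤ (n0 + 2) ^ 2 := by
      refine h4.trans ?_
      rw [sq]
      exact Nat.mul_le_mul (by omega) (by omega)
    have h6 : (Nat.card Q : ℝ) ≤ (n0 + 2) ^ 2 := by exact_mod_cast h5
    calc (Nat.card Q : ℝ) ≤ ((n0 + 2) ^ 2 + 2) * 1 := by linarith
      _ ≤ _ := by gcongr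
  · obtain ⟨l, hl⟩ : ∃ l, w.toWord = l := ⟨_, rfl⟩
    have hwl : FreeGroup.mk l = w := by rw [← hl]; exact FreeGroup.mk_toWord
    have hn : w.norm = l.length := by rw [FreeGroup.norm, hl]
    by_cases hE : E w = 1
    · have hflow : flow l 0 ≠ 0 := by
        intro h
        apply hw
        rw [← hwl]
        exact mem_derived l (by rw [hwl]; exact hE) h
      obtain ⟨e₀, he₀⟩ : ∃ e, flow l 0 e ≠ 0 := by
        by_contra hcon
        push Not at hcon
        exact hflow (Finsupp.ext hcon)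
      have hf : comp l e₀.2 ≠ 0 := by
        intro h
        have := comp_apply l e₀.2 e₀.1
        rw [h] at this
        exact he₀ this.symm
      have hbox : ∀ x ∈ (comp l e₀.2).support, ∀ y ∈ (comp l e₀.2).support, ∀ j,
          |x j - y j| ≤ (w.norm : ℤ) := by
        intro x hx y hy j
        rw [Finsupp.mem_support_iff, comp_apply] at hx hy
        rw [hn]
        have h1 := pos_add_neg_le j l
        exact verts_diff l 0 x y (flow_mem l 0 _ hx) (flow_mem l 0 _ hy) j l.length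
          (by omega) (by omega)
      have hl1 : ∑ x ∈ (comp l e₀.2).support, |comp l e₀.2 x| ≤ (w.norm : ℤ) := by
        rw [hn]
        refine le_trans (le_of_eq ?_) (flow_l1 l 0 ((comp l e₀.2).support.image
          (fun v => (v, e₀.2))))
        rw [Finset.sum_image (fun _ _ _ _ h => (Prod.ext_iff.1 h).1)]
        exact Finset.sum_congr rfl fun x _ => by rw [comp_apply]
      obtain ⟨p, hp, hpn, a, ha⟩ := hn0 w.norm hgt.le α hα (comp l e₀.2) hf hbox hl1
      have hne : phi e₀.2 a w ≠ 1 := by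
        intro h
        apply ha
        rw [← val_comp, ← phi_eq, hwl, h, Aff.one_b, mul_zero]
      have hfin : Finite (Aff p) := Finite.of_equiv _ (Aff.equiv (p := p)).symm
      refine ⟨Aff p, inferInstance, phi e₀.2 a, hfin, hne, aff_metabelian p, ?_⟩
      have h1 : Nat.card (Aff p) ≤ p * p := by
        rw [Nat.card_congr (Aff.equiv (p := p)), Nat.card_prod, Nat.card_zmod,
          Nat.card_eq_fintype_card, ZMod.card_units]
        exact Nat.mul_le_mul_left _ (by omega)
      have h2 : (Nat.card (Aff p) : ℝ) ≤ (p : ℝ) * p := by exact_mod_cast h1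
      have hp0 : (0 : ℝ) ≤ p := Nat.cast_nonneg p
      calc (Nat.card (Aff p) : ℝ) ≤ (p : ℝ) * p := h2
        _ ≤ (w.norm : ℝ) ^ (θ) *
            (w.norm : ℝ) ^ (θ) :=
            mul_le_mul hpn hpn hp0 (by positivity)
        _ = (w.norm : ℝ) ^ (2 * θ) := by
            rw [← Real.rpow_add hpos]
            congr 1; ring
        _ ≤ ((n0 + 2) ^ 2 + 2) * (w.norm : ℝ) ^ (2 * θ) := by
            apply le_mul_of_one_le_left (by positivity)
            have : (0 : ℝ) ≤ (n0 + 2) ^ 2 := by positivity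
            linarith
    · obtain ⟨j, hj⟩ : ∃ j, Multiplicative.toAdd (E w) j ≠ 0 := by
        by_contra hcon
        push Not at hcon
        exact hE (Multiplicative.toAdd.injective (funext hcon))
      have h1 := endv_apply l 0 j
      rw [endv_eq, hwl, zero_add, Pi.zero_apply, zero_add] at h1
      have h2 := pos_add_neg_le j l
      have h3 : |Multiplicative.toAdd (E w) j| ≤ l.length := by
        rw [abs_le]
        omega
      refine ⟨Multiplicative (ZMod (l.length + 1)), inferInstance,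
        (AddMonoidHom.toMultiplicative ((Int.castAddHom (ZMod (l.length + 1))).comp
          (Pi.evalAddMonoidHom (fun _ : α => ℤ) j))).comp E, inferInstance, ?_, ?_, ?_⟩
      · intro h4
        have h5 : ((Multiplicative.toAdd (E w) j : ℤ) : ZMod (l.length + 1)) = 0 := h4
        rw [ZMod.intCast_zmod_eq_zero_iff_dvd] at h5
        have h6 := Int.le_of_dvd (abs_pos.2 hj) ((dvd_abs _ _).2 h5)
        push_cast at h6
        omega
      · rw [eq_bot_iff, derivedSeries_succ, Subgroup.commutator_le]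
        intro x _ y _
        rw [Subgroup.mem_bot, commutatorElement_eq_one_iff_mul_comm]
        exact mul_comm _ _
      · have h4 : Nat.card (Multiplicative (ZMod (l.length + 1))) = l.length + 1 := by
          rw [Nat.card_congr Multiplicative.toAdd, Nat.card_zmod]
        rw [h4, ← hn]
        push_cast
        calc (w.norm : ℝ) + 1 ≤ 2 * (w.norm : ℝ) ^ (1 : ℝ) := by
              rw [Real.rpow_one]; linarith
          _ ≤ 2 * (w.norm : ℝ) ^ (2 * θ) := by
              have := Real.rpow_le_rpow_of_exponent_le hn1r hexp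
              linarith
          _ ≤ _ := by
              have : (0 : ℝ) ≤ (n0 + 2) ^ 2 := by positivity
              gcongr
              linarith

/-- The primes for three variables, indexed by any type with three elements. -/
theorem prime_three (ε : ℝ) (hε : 0 < ε) : ∃ n0 : ℕ, ∀ n : ℕ, n0 ≤ n →
    ∀ (α : Type) [Fintype α], Fintype.card α = 3 →
    ∀ f : (α → ℤ) →₀ ℤ, f ≠ 0 →
    (∀ x ∈ f.support, ∀ y ∈ f.support, ∀ j, |x j - y j| ≤ n) →
    (∑ x ∈ f.support, |f x| ≤ (n : ℤ)) →
    ∃ p : ℕ, ∃ _ : Fact p.Prime, (p : ℝ) ≤ (n : ℝ) ^ (11 / 15 + ε) ∧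
      ∃ a : α → (ZMod p)ˣ, evg f a ≠ 0 := by
  classical
  obtain ⟨n0, hn0⟩ := exists_prime_three ε hε
  refine ⟨n0, fun n hn α _ hα f hf hbox hl1 => ?_⟩
  obtain ⟨e⟩ : Nonempty (α ≃ Fin 3) := ⟨Fintype.equivFinOfCardEq hα⟩
  set g : (α → ℤ) → (Fin 3 → ℤ) := fun x => x ∘ e.symm with hg
  have hinj : Function.Injective g := by
    intro x y h
    funext i
    have := congrFun h (e i)
    simpa [hg] using this
  have c1 : Finsupp.mapDomain g f ≠ 0 := by
    intro h
    exact hf (Finsupp.mapDomain_injective hinj (h.trans (Finsupp.mapDomain_zero).symm))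
  have c2 : ∀ x ∈ (Finsupp.mapDomain g f).support, ∀ y ∈ (Finsupp.mapDomain g f).support,
      ∀ j, |x j - y j| ≤ (n : ℤ) := by
    intro x' hx' y' hy' j
    have hx'' := Finsupp.mapDomain_support hx'
    have hy'' := Finsupp.mapDomain_support hy'
    rw [Finset.mem_image] at hx'' hy''
    obtain ⟨x, hx, rfl⟩ := hx''
    obtain ⟨y, hy, rfl⟩ := hy''
    exact hbox x hx y hy (e.symm j)
  obtain ⟨p, hp, hpn, a, ha⟩ := hn0 n hn (Finsupp.mapDomain g f) c1 c2
    ((l1_mapDomain g f).trans hl1)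
  refine ⟨p, hp, hpn, a ∘ e, ?_⟩
  rw [evg, Finsupp.sum_mapDomain_index (by simp) (by intros; push_cast; ring)] at ha
  convert ha using 1
  rw [evg]
  refine Finsupp.sum_congr fun x _ => ?_
  congr 2
  rw [← Equiv.prod_comp e]
  refine Finset.prod_congr rfl fun i _ => ?_
  simp [hg]

/-- The bound for the free groups of rank three. -/
theorem below_three (ε : ℝ) (hε : 0 < ε) : ∃ C : ℝ, 0 < C ∧
    ∀ (G ι : Type) [Group G] [DecidableEq ι] [Fintype ι] (b : FreeGroupBasis ι G),
    Fintype.card ι = 3 → ∀ g : G, g ∉ derivedSeries G 2 →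
    ∃ (Q : Type) (_ : Group Q) (π : G →* Q), Finite Q ∧ π g ≠ 1 ∧
      (∀ x ∈ derivedSeries G 2, π x = 1) ∧
      (Nat.card Q : ℝ) ≤ C * ((b.repr g).norm : ℝ) ^ (22 / 15 + ε) := by
  obtain ⟨n0, hn0⟩ := prime_three (ε / 2) (by linarith)
  obtain ⟨C, hC, h⟩ := free_from 3 (11 / 15 + ε / 2) (by linarith) n0 hn0
  refine ⟨C, hC, fun G ι _ _ _ b hι g hg => ?_⟩
  have h1 : b.repr g ∉ derivedSeries (FreeGroup ι) 2 := by
    intro h
    apply hg
    have h2 := map_derivedSeries_le_derivedSeries b.repr.symm.toMonoidHom 2 ⟨_, h, rfl⟩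
    simpa using h2
  obtain ⟨Q, hQ, π, hfin, hπ, hder, hcard⟩ := h ι hι (b.repr g) h1
  have he : (22 / 15 : ℝ) + ε = 2 * (11 / 15 + ε / 2) := by ring
  rw [he]
  exact ⟨Q, hQ, π.comp b.repr.toMonoidHom, hfin, hπ,
    fun x hx => kills (π.comp b.repr.toMonoidHom) 2 hder x hx, hcard⟩

end Pool.Agent.RFG43.Solv
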