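import Pool.Agent.RFG43.SolvB
import Pool.Agent.H7RF.Final

/-!
Crew file for `MP_b76cd5_al`: the bound for words outside the second derived subgroup of the free
group of rank `r`, with the exponent `2 r / (r + 1) + ε`.
-/

set_option autoImplicit false

namespace Pool.Agent.RFG43.Solv

open Pool.Agent.RFG43 Pool.Agent.RFG43.Flow

/-- The bound for every free group of rank `r ≥ 2`. -/
theorem below_exact (r : ℕ) (hr : 2 ≤ r) (ε : ℝ) (hε : 0 < ε) : ∃ C : ℝ, 0 < C ∧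
    ∀ (G ι : Type) [Group G] [DecidableEq ι] [Fintype ι] (b : FreeGroupBasis ι G),
    Fintype.card ι = r → ∀ g : G, g ∉ derivedSeries G 2 →
    ∃ (Q : Type) (_ : Group Q) (π : G →* Q), Finite Q ∧ π g ≠ 1 ∧
      (∀ x ∈ derivedSeries G 2, π x = 1) ∧
      (Nat.card Q : ℝ) ≤ C * ((b.repr g).norm : ℝ) ^ (2 * (r : ℝ) / (r + 1) + ε) := by
  obtain ⟨n0, hn0⟩ := Pool.Agent.H7RF.exists_prime_exact r hr (ε / 2) (by linarith) 1
  have hr2 : (2 : ℝ) ≤ r := by exact_mod_cast hr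
  have hθ : (1 / 2 : ℝ) ≤ (r : ℝ) / (r + 1) + ε / 2 := by
    have h1 : (1 / 2 : ℝ) ≤ (r : ℝ) / (r + 1) := by
      rw [div_le_div_iff₀ (by norm_num) (by linarith)]
      linarith
    linarith
  obtain ⟨C, hC, h⟩ := free_from r ((r : ℝ) / (r + 1) + ε / 2) hθ n0
    (fun n hn α _ hα f hf hbox hl1 => hn0 n hn α hα f hf hbox (by rw [pow_one]; exact hl1))
  refine ⟨C, hC, fun G ι _ _ _ b hι g hg => ?_⟩
  have h1 : b.repr g ∉ derivedSeries (FreeGroup ι) 2 := by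
    intro h
    apply hg
    have h2 := map_derivedSeries_le_derivedSeries b.repr.symm.toMonoidHom 2 ⟨_, h, rfl⟩
    simpa using h2
  obtain ⟨Q, hQ, π, hfin, hπ, hder, hcard⟩ := h ι hι (b.repr g) h1
  have he : 2 * (r : ℝ) / (r + 1) + ε = 2 * ((r : ℝ) / (r + 1) + ε / 2) := by ring
  rw [he]
  exact ⟨Q, hQ, π.comp b.repr.toMonoidHom, hfin, hπ,
    fun x hx => kills (π.comp b.repr.toMonoidHom) 2 hder x hx, hcard⟩

end Pool.Agent.RFG43.Solv
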