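import Mathlib

/-! Products of powers of unipotent matrices with different fixed lines. -/

set_option autoImplicit false

open Polynomial
open scoped MatrixGroups

namespace Pool.Agent.RFG43

section

variable {K : Type} [Field K]

/-- One step: add `a X (x₂ - c x₁) (1, c)`. -/
noncomputable def stp (c a : K) (v : K[X] × K[X]) : K[X] × K[X] :=
  (v.1 + C a * X * (v.2 - C c * v.1), v.2 + C c * (C a * X * (v.2 - C c * v.1)))

/-- The second column of the product. -/
noncomputable def sv : List (K × K) → K[X] × K[X]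
  | [] => (0, 1)
  | x :: l => stp x.1 x.2 (sv l)

theorem stp_sub (c a : K) (v : K[X] × K[X]) :
    (stp c a v).2 - C c * (stp c a v).1 = v.2 - C c * v.1 := by
  simp only [stp]
  ring

/-- The invariant before a step with `c`. -/
def Qv (j : ℕ) (c : K) (v : K[X] × K[X]) : Prop :=
  v.1.natDegree ≤ j ∧ (v.2 - C c * v.1).natDegree ≤ j ∧ (v.2 - C c * v.1).coeff j ≠ 0

/-- The invariant after a step with `c`. -/
def Iv (j : ℕ) (c : K) (v : K[X] × K[X]) : Prop :=
  v.1.natDegree ≤ j ∧ v.1.coeff j ≠ 0 ∧ (v.2 - C c * v.1).natDegree < j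

theorem Qv.step {j : ℕ} {c a : K} {v : K[X] × K[X]} (h : Qv j c v) (ha : a ≠ 0) :
    Iv (j + 1) c (stp c a v) := by
  obtain ⟨h1, h2, h3⟩ := h
  refine ⟨?_, ?_, ?_⟩
  · simp only [stp]
    refine (natDegree_add_le _ _).trans (max_le (by omega) ?_)
    refine natDegree_mul_le.trans ?_
    have h4 : (C a * X : K[X]).natDegree ≤ 1 := (natDegree_C_mul_le _ _).trans natDegree_X_le
    omega
  · simp only [stp]
    rw [coeff_add, coeff_eq_zero_of_natDegree_lt (by omega), zero_add, mul_assoc, coeff_C_mul,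
      coeff_X_mul]
    exact mul_ne_zero ha h3
  · rw [stp_sub]
    omega

theorem Iv.link {j : ℕ} {c c' : K} {v : K[X] × K[X]} (h : Iv j c' v) (hc : c ≠ c') :
    Qv j c v := by
  obtain ⟨h1, h2, h3⟩ := h
  have e : v.2 - C c * v.1 = (v.2 - C c' * v.1) + C (c' - c) * v.1 := by
    rw [C_sub]; ring
  refine ⟨h1, ?_, ?_⟩
  · rw [e]
    refine (natDegree_add_le _ _).trans (max_le h3.le ?_)
    exact (natDegree_C_mul_le _ _).trans h1
  · rw [e, coeff_add, coeff_eq_zero_of_natDegree_lt h3, zero_add, coeff_C_mul]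
    exact mul_ne_zero (sub_ne_zero.2 hc.symm) h2

theorem sv_inv (l : List (K × K)) (x : K × K) (ha : ∀ y ∈ x :: l, y.2 ≠ 0)
    (hc : (x :: l).IsChain fun y z => y.1 ≠ z.1) : Iv (x :: l).length x.1 (sv (x :: l)) := by
  induction l generalizing x with
  | nil =>
    have h : Qv 0 x.1 (sv ([] : List (K × K))) := by
      refine ⟨?_, ?_, ?_⟩ <;> simp [sv]
    exact h.step (ha x List.mem_cons_self)
  | cons y l ih =>
    rw [List.isChain_cons_cons] at hc
    have h1 := ih y (fun z hz => ha z (List.mem_cons_of_mem _ hz)) hc.2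
    exact (h1.link hc.1).step (ha x List.mem_cons_self)

/-- The matrix `1 + a N_c`. -/
def um (c a : K) : SL(2, K) := ⟨!![1 - a * c, a; -(a * c * c), 1 + a * c], by
  rw [Matrix.det_fin_two_of]; ring⟩

theorem um_mul (c a b : K) : um c a * um c b = um c (a + b) := by
  ext i j
  fin_cases i <;> fin_cases j <;>
    simp [um, Matrix.mul_apply, Fin.sum_univ_two] <;> ring

theorem um_zero (c : K) : um c 0 = 1 := by
  ext i j
  fin_cases i <;> fin_cases j <;> simp [um]

/-- The one parameter group. -/
def umh (c : K) : Multiplicative K →* SL(2, K) where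
  toFun a := um c a.toAdd
  map_one' := um_zero c
  map_mul' _ _ := (um_mul c _ _).symm

theorem um_zpow (c a : K) (k : ℤ) : um c a ^ k = um c (k * a) := by
  have h : (umh c (.ofAdd a)) ^ k = umh c (.ofAdd (k • a)) := by
    rw [ofAdd_zsmul, map_zpow]
  have h2 : umh c (.ofAdd (k • a)) = um c (k * a) := by
    show um c (k • a) = um c (k * a)
    rw [zsmul_eq_mul]
  rw [← h2, ← h]
  rfl

theorem prod_col (u : K) (l : List (K × K)) :
    ((l.map fun x => um x.1 (x.2 * u)).prod : SL(2, K)).1 0 1 = (sv l).1.eval u ∧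
    ((l.map fun x => um x.1 (x.2 * u)).prod : SL(2, K)).1 1 1 = (sv l).2.eval u := by
  induction l with
  | nil => simp [sv]
  | cons x l ih =>
    obtain ⟨h1, h2⟩ := ih
    rw [List.map_cons, List.prod_cons, Matrix.SpecialLinearGroup.coe_mul, Matrix.mul_apply,
      Matrix.mul_apply, Fin.sum_univ_two, Fin.sum_univ_two, h1, h2]
    constructor
    · simp [sv, stp, um]; ring
    · simp [sv, stp, um]; ring

theorem card_SL_le [Finite K] : Nat.card SL(2, K) ≤ Nat.card K ^ 3 := by
  classical
  let f : SL(2, K) → K × K × K := fun g =>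
    (g.1 0 0, g.1 0 1, if g.1 0 0 = 0 then g.1 1 1 else g.1 1 0)
  have hf : Function.Injective f := by
    intro g h e
    simp only [f, Prod.mk.injEq] at e
    obtain ⟨e1, e2, e3⟩ := e
    have d1 : g.1 0 0 * g.1 1 1 - g.1 0 1 * g.1 1 0 = 1 := by
      rw [← Matrix.det_fin_two]; exact g.2
    have d2 : h.1 0 0 * h.1 1 1 - h.1 0 1 * h.1 1 0 = 1 := by
      rw [← Matrix.det_fin_two]; exact h.2
    have key : g.1 1 0 = h.1 1 0 ∧ g.1 1 1 = h.1 1 1 := by
      by_cases h0 : g.1 0 0 = 0
      · have h0' : h.1 0 0 = 0 := by rw [← e1]; exact h0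
        rw [if_pos h0, if_pos h0'] at e3
        refine ⟨?_, e3⟩
        have hb : h.1 0 1 ≠ 0 := by
          intro hb
          rw [h0', hb] at d2
          simp at d2
        apply mul_left_cancel₀ hb
        rw [h0, e2] at d1
        rw [h0'] at d2
        linear_combination d2 - d1
      · have h0' : h.1 0 0 ≠ 0 := by rw [← e1]; exact h0
        rw [if_neg h0, if_neg h0'] at e3
        refine ⟨e3, ?_⟩
        apply mul_left_cancel₀ h0'
        rw [e1, e2, e3] at d1
        linear_combination d1 - d2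
    ext i j
    fin_cases i <;> fin_cases j
    · exact e1
    · exact e2
    · exact key.1
    · exact key.2
  have h := Nat.card_le_card_of_injective f hf
  rw [Nat.card_prod, Nat.card_prod] at h
  refine h.trans (le_of_eq ?_)
  ring

end

end Pool.Agent.RFG43
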