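import Mathlib

/-! A prime which does not divide any of `s` nonzero integers of absolute sum `n`. -/

set_option autoImplicit false

namespace Pool.Agent.RFG43

open Finset Filter Chebyshev

/-- `θ y ≥ y / 2` for large `y`. -/
theorem theta_half : ∃ Y : ℕ, ∀ y : ℕ, Y ≤ y → (y : ℝ) / 2 ≤ θ y := by
  have h1 : Tendsto (fun x : ℝ => Real.log x / x ^ (1 / 2 : ℝ)) atTop (nhds 0) :=
    (isLittleO_log_rpow_atTop (by norm_num : (0 : ℝ) < 1 / 2)).tendsto_div_nhds_zero
  have h2 : ∀ᶠ x : ℝ in atTop, Real.log x / x ^ (1 / 2 : ℝ) < 1 / 32 :=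
    h1.eventually (gt_mem_nhds (by norm_num))
  have h3 := tendsto_natCast_atTop_atTop (R := ℝ) |>.eventually h2
  obtain ⟨Y, hY⟩ := eventually_atTop.1 (h3.and (eventually_ge_atTop 4))
  refine ⟨Y, fun y hy => ?_⟩
  obtain ⟨h4, h5⟩ := hY y hy
  have hy0 : (4 : ℝ) ≤ y := by exact_mod_cast h5
  have hs : (y : ℝ) ^ (1 / 2 : ℝ) = √y := (Real.sqrt_eq_rpow (y : ℝ)).symm
  rw [hs] at h4
  have hs0 : 0 < √(y : ℝ) := Real.sqrt_pos.2 (by linarith)
  rw [div_lt_iff₀ hs0] at h4
  have hss : √(y : ℝ) * √(y : ℝ) = y := Real.mul_self_sqrt (by linarith)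
  have h6 := theta_ge y
  have h7 : Real.log (y + 1) ≤ 2 * Real.log y := by
    rw [← Real.log_rpow (by linarith)]
    apply Real.log_le_log (by linarith)
    norm_cast
    nlinarith
  have h8 : 2 * √(y : ℝ) * Real.log y ≤ y / 16 := by nlinarith
  have h9 : Real.log y ≤ y / 32 := by
    have : √(y : ℝ) ≤ y := by nlinarith [Real.one_le_sqrt.2 (by linarith : (1 : ℝ) ≤ y)]
    linarith
  have h10 := Real.log_two_gt_d9
  nlinarith

theorem log_sum_aux (t : ℝ) (ht : 0 < t) (l : List ℤ) (h : ∀ a ∈ l, a ≠ 0) :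
    (l.map fun a : ℤ => Real.log |(a : ℝ)|).sum ≤
      l.length * (Real.log t - 1) + (l.map fun a : ℤ => |(a : ℝ)|).sum / t := by
  induction l with
  | nil => simp
  | cons a l ih =>
    have h1 := ih fun b hb => h b (List.mem_cons_of_mem _ hb)
    have ha : (a : ℝ) ≠ 0 := by exact_mod_cast h a List.mem_cons_self
    have ha0 : 0 < |(a : ℝ)| := abs_pos.2 ha
    have h2 := Real.log_le_sub_one_of_pos (div_pos ha0 ht)
    rw [Real.log_div ha0.ne' ht.ne'] at h2
    rw [List.map_cons, List.sum_cons, List.map_cons, List.sum_cons, List.length_cons, add_div]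
    push_cast
    linarith

theorem log_sum_le (l : List ℤ) (hl : l ≠ []) (h : ∀ a ∈ l, a ≠ 0) :
    (l.map fun a : ℤ => Real.log |(a : ℝ)|).sum ≤
      l.length * Real.log ((l.map fun a : ℤ => |(a : ℝ)|).sum / l.length) := by
  have hs : 0 < (l.length : ℝ) := by exact_mod_cast List.length_pos_iff.2 hl
  have hS : 0 < (l.map fun a : ℤ => |(a : ℝ)|).sum := by
    obtain ⟨a, l', rfl⟩ := List.exists_cons_of_ne_nil hl
    rw [List.map_cons, List.sum_cons]
    have ha : (a : ℝ) ≠ 0 := by exact_mod_cast h a List.mem_cons_self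
    have h1 : 0 ≤ (l'.map fun a : ℤ => |(a : ℝ)|).sum := by
      apply List.sum_nonneg
      intro x hx
      obtain ⟨b, _, rfl⟩ := List.mem_map.1 hx
      exact abs_nonneg _
    have := abs_pos.2 ha
    linarith
  have h1 := log_sum_aux _ (div_pos hS hs) l h
  have h2 : (l.map fun a : ℤ => |(a : ℝ)|).sum / ((l.map fun a : ℤ => |(a : ℝ)|).sum / l.length) =
      l.length := by
    field_simp
  rw [h2] at h1
  linarith

theorem length_le_sum (l : List ℤ) (h : ∀ a ∈ l, a ≠ 0) :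
    (l.length : ℝ) ≤ (l.map fun a : ℤ => |(a : ℝ)|).sum := by
  induction l with
  | nil => simp
  | cons a l ih =>
    have h1 := ih fun b hb => h b (List.mem_cons_of_mem _ hb)
    have ha : (1 : ℝ) ≤ |(a : ℝ)| := by
      have : 1 ≤ |a| := Int.one_le_abs (h a List.mem_cons_self)
      exact_mod_cast this
    rw [List.map_cons, List.sum_cons, List.length_cons]
    push_cast
    linarith

theorem log_prod (l : List ℤ) (h : ∀ a ∈ l, a ≠ 0) :
    Real.log ((l.map Int.natAbs).prod : ℕ) = (l.map fun a : ℤ => Real.log |(a : ℝ)|).sum ∧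
      (l.map Int.natAbs).prod ≠ 0 := by
  induction l with
  | nil => simp
  | cons a l ih =>
    obtain ⟨h1, h2⟩ := ih fun b hb => h b (List.mem_cons_of_mem _ hb)
    have ha : a.natAbs ≠ 0 := Int.natAbs_ne_zero.2 (h a List.mem_cons_self)
    refine ⟨?_, ?_⟩
    · rw [List.map_cons, List.prod_cons, List.map_cons, List.sum_cons, ← h1]
      rw [Nat.cast_mul, Real.log_mul (Nat.cast_ne_zero.2 ha) (Nat.cast_ne_zero.2 h2),
        Nat.cast_natAbs, Int.cast_abs]
    · rw [List.map_cons, List.prod_cons]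
      exact mul_ne_zero ha h2

theorem exists_prime_avoid : ∃ C : ℝ, 0 < C ∧ ∀ l : List ℤ, l ≠ [] → (∀ a ∈ l, a ≠ 0) →
    ∃ p : ℕ, p.Prime ∧ l.length < p ∧ (∀ a ∈ l, ¬ (p : ℤ) ∣ a) ∧
      (p : ℝ) ≤ C * (l.length *
        (1 + Real.log ((l.map fun a : ℤ => |(a : ℝ)|).sum / l.length))) := by
  obtain ⟨Y, hY⟩ := theta_half
  refine ⟨Y + 9, by positivity, ?_⟩
  intro l hl h
  have hs : (1 : ℝ) ≤ l.length := by
    have := List.length_pos_iff.2 hl
    exact_mod_cast this
  have hS := length_le_sum l h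
  have hlog := log_sum_le l hl h
  set s : ℝ := (l.length : ℝ) with hsdef
  set S := (l.map fun a : ℤ => |(a : ℝ)|).sum with hSdef
  have hSs : 0 ≤ Real.log (S / s) := Real.log_nonneg (by rw [le_div_iff₀] <;> linarith)
  set T := s * (1 + Real.log (S / s)) with hT
  have hsT : s ≤ T := by nlinarith
  have hlT : (l.map fun a : ℤ => Real.log |(a : ℝ)|).sum ≤ T := by nlinarith
  set y := ⌈(Y + 8 : ℝ) * T⌉₊ with hy
  have hy1 : (Y + 8 : ℝ) * T ≤ y := Nat.le_ceil _
  have hy2 : (y : ℝ) ≤ (Y + 9 : ℝ) * T := by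
    have h1 := (Nat.ceil_lt_add_one (by positivity : (0 : ℝ) ≤ (Y + 8 : ℝ) * T)).le
    nlinarith
  have hYy : Y ≤ y := by
    have h1 : (Y : ℝ) ≤ y := by
      have : (0 : ℝ) ≤ Y := by positivity
      nlinarith
    exact_mod_cast h1
  have hsy : l.length ≤ y := by
    have h1 : s ≤ y := by
      have : (0 : ℝ) ≤ Y := by positivity
      nlinarith
    exact Nat.cast_le.1 (hsdef ▸ h1)
  have h1 := hY y hYy
  by_contra hcon
  push Not at hcon
  have hdvd : ∀ p ∈ (Ioc l.length y).filter Nat.Prime, p ∣ (l.map Int.natAbs).prod := by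
    intro p hp
    rw [mem_filter, mem_Ioc] at hp
    by_contra hnd
    have h3 : ∀ a ∈ l, ¬ (p : ℤ) ∣ a := by
      intro a ha hpa
      apply hnd
      refine (Int.natCast_dvd.1 hpa).trans (List.dvd_prod (List.mem_map.2 ⟨a, ha, rfl⟩))
    have h4 := hcon p hp.2 hp.1.1 h3
    have h5 : (p : ℝ) ≤ y := by exact_mod_cast hp.1.2
    linarith
  have hprod : ∏ p ∈ (Ioc l.length y).filter Nat.Prime, p ∣ (l.map Int.natAbs).prod :=
    Finset.prod_primes_dvd _ (fun p hp => (mem_filter.1 hp).2.prime) hdvd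
  obtain ⟨h2, h3⟩ := log_prod l h
  have h4 : Real.log ((∏ p ∈ (Ioc l.length y).filter Nat.Prime, p : ℕ) : ℝ) ≤
      Real.log ((l.map Int.natAbs).prod : ℕ) := by
    apply Real.log_le_log
    · have : 0 < ∏ p ∈ (Ioc l.length y).filter Nat.Prime, p :=
        Finset.prod_pos fun p hp => (mem_filter.1 hp).2.pos
      exact_mod_cast this
    · exact_mod_cast Nat.le_of_dvd (Nat.pos_of_ne_zero h3) hprod
  have h5 : Real.log ((∏ p ∈ (Ioc l.length y).filter Nat.Prime, p : ℕ) : ℝ) =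
      ∑ p ∈ (Ioc l.length y).filter Nat.Prime, Real.log p := by
    rw [Nat.cast_prod, Real.log_prod]
    intro p hp
    exact_mod_cast (mem_filter.1 hp).2.ne_zero
  have h6 : θ (y : ℝ) = θ (l.length : ℝ) +
      ∑ p ∈ (Ioc l.length y).filter Nat.Prime, Real.log p := by
    simp only [theta, Nat.floor_natCast]
    rw [← Finset.sum_union]
    · congr 1
      rw [← Finset.filter_union, Ioc_union_Ioc_eq_Ioc (Nat.zero_le _) hsy]
    · apply Finset.disjoint_filter_filter
      rw [Finset.disjoint_left]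
      intro p hp hq
      rw [mem_Ioc] at hp hq
      omega
  have h7 : θ (l.length : ℝ) ≤ Real.log 4 * s := theta_le_log4_mul_x (by positivity)
  have h8 : Real.log 4 ≤ 2 := by
    have h9 : Real.log 4 = 2 * Real.log 2 := by
      rw [show (4 : ℝ) = 2 ^ 2 by norm_num, Real.log_pow]; norm_num
    have := Real.log_two_lt_d9
    linarith
  have h10 : (0 : ℝ) ≤ Y := by positivity
  nlinarith

end Pool.Agent.RFG43
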