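import Mathlib
import Pool.Agent.RFG43.SylPoly
import Pool.Agent.RFG43.SylPrime

/-! Words with few syllables survive in small groups `SL(2, p)`. -/

set_option autoImplicit false

open Polynomial
open scoped MatrixGroups

namespace Pool.Agent.RFG43

/-- A field with more elements than syllables, in which the exponents do not vanish, detects. -/
theorem detect {K : Type} [Field K] [Finite K] {ι G : Type*} [Group G] (b : FreeGroupBasis ι G)
    (l : List (ι × ℤ)) (hl : l ≠ []) (ha : ∀ x ∈ l, (x.2 : K) ≠ 0)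
    (hc : l.IsChain fun x y => x.1 ≠ y.1) (hK : l.length < Nat.card K) :
    ∃ π : G →* SL(2, K), π (l.map fun x => b x.1 ^ x.2).prod ≠ 1 := by
  classical
  have : Fintype K := Fintype.ofFinite K
  -- different values for the letters which occur
  obtain ⟨c, hcinj⟩ : ∃ c : ι → K, Set.InjOn c {i | i ∈ l.map Prod.fst} := by
    set T : Finset ι := (l.map Prod.fst).toFinset with hT
    have hTc : Fintype.card T ≤ Fintype.card K := by
      rw [Fintype.card_coe, ← Nat.card_eq_fintype_card]
      have h1 : T.card ≤ l.length := by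
        have h2 := List.toFinset_card_le (l.map Prod.fst)
        rwa [List.length_map] at h2
      omega
    obtain ⟨f⟩ := Function.Embedding.nonempty_of_card_le hTc
    refine ⟨fun i => if h : i ∈ T then f ⟨i, h⟩ else 0, ?_⟩
    intro i hi j hj hij
    have hi' : i ∈ T := List.mem_toFinset.2 hi
    have hj' : j ∈ T := List.mem_toFinset.2 hj
    simp only [dif_pos hi', dif_pos hj'] at hij
    exact congrArg Subtype.val (f.injective hij)
  set l' : List (K × K) := l.map fun x => (c x.1, (x.2 : K)) with hl'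
  have ha' : ∀ y ∈ l', y.2 ≠ 0 := by
    intro y hy
    obtain ⟨x, hx, rfl⟩ := List.mem_map.1 hy
    exact ha x hx
  have hc' : l'.IsChain fun y z => y.1 ≠ z.1 := by
    rw [hl', List.isChain_map]
    refine hc.imp_of_mem_imp ?_
    intro x y h3 h4 h2 h5
    exact h2 (hcinj (List.mem_map.2 ⟨x, h3, rfl⟩) (List.mem_map.2 ⟨y, h4, rfl⟩) h5)
  have hlen : l'.length = l.length := by rw [hl', List.length_map]
  have hne : l' ≠ [] := by
    intro h
    rw [h, List.length_nil] at hlen
    exact hl (List.length_eq_zero_iff.1 hlen.symm)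
  obtain ⟨x, l'', hx⟩ := List.exists_cons_of_ne_nil hne
  have hinv := sv_inv l'' x (hx ▸ ha') (hx ▸ hc')
  rw [← hx] at hinv
  obtain ⟨h1, h2, -⟩ := hinv
  have hf : (sv l').1 ≠ 0 := by
    intro h
    rw [h, coeff_zero] at h2
    exact h2 rfl
  obtain ⟨u, hu⟩ := Polynomial.exists_eval_ne_zero_of_natDegree_lt_card (sv l').1 hf (by
    rw [Cardinal.mk_fintype, ← Nat.card_eq_fintype_card]
    exact_mod_cast h1.trans_lt (hlen ▸ hK))
  let φ : FreeGroup ι →* SL(2, K) := FreeGroup.lift fun i => um (c i) u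
  refine ⟨φ.comp b.repr.toMonoidHom, ?_⟩
  intro h
  have hb : ∀ i, (φ.comp b.repr.toMonoidHom) (b i) = um (c i) u := by
    intro i
    show φ (b.repr (b i)) = _
    rw [FreeGroupBasis.repr_apply_coe]
    exact FreeGroup.lift_apply_of
  have h3 : (φ.comp b.repr.toMonoidHom) (l.map fun x => b x.1 ^ x.2).prod =
      (l'.map fun x => um x.1 (x.2 * u)).prod := by
    rw [map_list_prod, List.map_map, hl', List.map_map]
    congr 1
    apply List.map_congr_left
    intro y _
    show (φ.comp b.repr.toMonoidHom) (b y.1 ^ y.2) = um (c y.1) (y.2 * u)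
    rw [map_zpow, hb, um_zpow]
  rw [h3] at h
  have h4 := (prod_col u l').1
  rw [h] at h4
  apply hu
  rw [← h4]
  simp

/-- A product of `s` syllables of total length `n` survives in `SL(2, p)` for some prime
`p ≤ C s (1 + log (n / s))`. -/
theorem few_syllables : ∃ C : ℝ, 0 < C ∧ ∀ (ι G : Type*) [Group G] (b : FreeGroupBasis ι G)
    (l : List (ι × ℤ)), l ≠ [] → (∀ x ∈ l, x.2 ≠ 0) → (l.IsChain fun x y => x.1 ≠ y.1) →
    ∃ (Q : Type) (_ : Group Q) (π : G →* Q), Finite Q ∧ π (l.map fun x => b x.1 ^ x.2).prod ≠ 1 ∧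
      (Nat.card Q : ℝ) ≤ C * (l.length * (1 + Real.log
        ((l.map fun x : ι × ℤ => |(x.2 : ℝ)|).sum / l.length))) ^ 3 := by
  obtain ⟨C, hC, hmain⟩ := exists_prime_avoid
  refine ⟨C ^ 3, by positivity, ?_⟩
  intro ι G _ b l hl ha hc
  obtain ⟨p, hp, hlp, hpa, hpC⟩ := hmain (l.map Prod.snd) (by simpa using hl) (by
    intro a h
    obtain ⟨x, hx, rfl⟩ := List.mem_map.1 h
    exact ha x hx)
  have : Fact p.Prime := ⟨hp⟩
  rw [List.length_map] at hlp
  obtain ⟨π, hπ⟩ := detect (K := ZMod p) b l hl (by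
    intro x hx h
    rw [ZMod.intCast_zmod_eq_zero_iff_dvd] at h
    exact hpa x.2 (List.mem_map.2 ⟨x, hx, rfl⟩) h) hc (by rwa [Nat.card_zmod])
  refine ⟨SL(2, ZMod p), inferInstance, π, inferInstance, hπ, ?_⟩
  rw [List.length_map, List.map_map] at hpC
  have h1 := card_SL_le (K := ZMod p)
  rw [Nat.card_zmod] at h1
  have h2 : (Nat.card SL(2, ZMod p) : ℝ) ≤ (p : ℝ) ^ 3 := by exact_mod_cast h1
  have h3 := pow_le_pow_left₀ (by positivity) hpC 3
  rw [mul_pow] at h3
  exact h2.trans h3

end Pool.Agent.RFG43
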