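import Pool.Agent.RFG43.Plane

/-!
Crew file for `MP_b76cd5_al`: nonvanishing in three variables for polynomials with at most `n`
terms, exponent `11/15`.
-/

set_option autoImplicit false

namespace Pool.Agent.RFG43

open Finset Filter

theorem zpow_sum' {G α : Type} [CommGroup G] (t : G) (s : Finset α) (a : α → ℤ) :
    ∏ j ∈ s, t ^ a j = t ^ (∑ j ∈ s, a j) := by
  classical
  induction s using Finset.induction_on with
  | empty => simp
  | insert j s hj ih => rw [prod_insert hj, sum_insert hj, ih, zpow_add]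

theorem levels_zero {α : Type} [Fintype α] (n N r A : ℕ) (hN : 1 ≤ N) (M : Finset ℕ)
    (hM : ∀ m ∈ M, Good r N (1 / 4) m)
    (hB : (n : ℝ) ^ A < ((N : ℝ) ^ (1 - 1 / 4 : ℝ)) ^ r)
    (f : (α → ℤ) →₀ ℤ) (hl1 : ∑ x ∈ f.support, |f x| ≤ (n : ℤ) ^ A)
    (hcon : ∀ (p : ℕ) (_ : Fact p.Prime), p ≤ N → ∀ a : α → (ZMod p)ˣ, evg f a = 0)
    (v : α → ℤ) (hspan : ∀ x ∈ f.support, ∀ y ∈ f.support,
      ∑ j, v j * x j - ∑ j, v j * y j < ((∑ m ∈ M, m.totient : ℕ) : ℤ)) (k0 : ℤ) :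
    ∑ x ∈ f.support.filter (fun x => ∑ j, v j * x j = k0), f x = 0 := by
  classical
  have hNr : (1 : ℝ) ≤ N := by exact_mod_cast hN
  refine level_zero f.support f (fun x => ∑ j, v j * x j) M (fun m hm => (hM m hm).1) ?_ hspan k0
  intro m hm z hz
  obtain ⟨hm0, Q, hQr, hQ⟩ := hM m hm
  refine root_zero f.support f (fun x => ∑ j, v j * x j) m hm0 (fun j => ?_) z hz
  refine fold_zero f.support f (fun x => ∑ j, v j * x j) m hm0 Q
    (fun p hp => ⟨(hQ p hp).1, (hQ p hp).2.2.2⟩) ?_ ?_ j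
  · have h1 : ((∑ x ∈ f.support, |f x| : ℤ) : ℝ) < ((∏ p ∈ Q, (p : ℤ) : ℤ) : ℝ) := by
      have h2 : ((∑ x ∈ f.support, |f x| : ℤ) : ℝ) ≤ (n : ℝ) ^ A := by exact_mod_cast hl1
      have hc1 : (1 : ℝ) ≤ (N : ℝ) ^ (1 - 1 / 4 : ℝ) :=
        Real.one_le_rpow hNr (by norm_num)
      have h3 : ((N : ℝ) ^ (1 - 1 / 4 : ℝ)) ^ r ≤ ((N : ℝ) ^ (1 - 1 / 4 : ℝ)) ^ Q.card :=
        pow_le_pow_right₀ hc1 hQr
      have h4 : ((N : ℝ) ^ (1 - 1 / 4 : ℝ)) ^ Q.card ≤ ∏ p ∈ Q, (p : ℝ) := by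
        rw [← prod_const]
        exact prod_le_prod (fun _ _ => by positivity) fun p hp => (hQ p hp).2.2.1.le
      have h5 : ((∏ p ∈ Q, (p : ℤ) : ℤ) : ℝ) = ∏ p ∈ Q, (p : ℝ) := by push_cast; rfl
      rw [h5]
      linarith
    exact_mod_cast h1
  · intro p hp hfact t
    have h1 := hcon p hfact (hQ p hp).2.1 (fun j => t ^ v j)
    rw [evg, Finsupp.sum] at h1
    rw [← h1]
    refine sum_congr rfl fun x _ => ?_
    congr 2
    rw [← zpow_sum']
    exact prod_congr rfl fun j _ => zpow_mul _ _ _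

theorem primes_many (η : ℝ) (hη : 0 < η) : ∀ᶠ X : ℕ in atTop,
    ⌊(X : ℝ) ^ (1 - η)⌋₊ ≤
      ((Finset.Icc ⌊(X : ℝ) ^ (1 - η)⌋₊ X).filter Nat.Prime).card := by
  have T1 : Tendsto (fun N : ℕ => Real.log (N : ℝ)) atTop atTop :=
    Real.tendsto_log_atTop.comp tendsto_natCast_atTop_atTop
  have h := Real.isLittleO_log_id_atTop.bound (show (0 : ℝ) < 1 / 20 by norm_num)
  have T3 : Tendsto (fun N : ℕ => (N : ℝ) + 1) atTop atTop :=
    tendsto_atTop_add_const_right _ _ tendsto_natCast_atTop_atTop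
  filter_upwards [T3.eventually h, T1.eventually_ge_atTop (96 / η ^ 2),
    T1.eventually_ge_atTop 1, eventually_ge_atTop 2] with X h1 h2 h2' h3
  have hN2 : (2 : ℝ) ≤ X := by exact_mod_cast h3
  have hX0 : (0 : ℝ) < X := by linarith
  rw [id, Real.norm_of_nonneg (Real.log_nonneg (by linarith)),
    Real.norm_of_nonneg (by linarith)] at h1
  have hpi : (X : ℝ) / (2 * Real.log X) ≤ Nat.primeCounting X := by
    refine le_trans ?_ (Chebyshev.pi_ge X)
    have hl2 := Real.log_two_gt_d9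
    rw [div_le_div_iff₀ (by positivity) (by positivity)]
    have h4 : (X : ℝ) ≤ 2 * (X * Real.log 2 - Real.log (X + 1)) := by nlinarith
    nlinarith
  set m := ⌊(X : ℝ) ^ (1 - η)⌋₊ with hm
  have hmX : (m : ℝ) ≤ (X : ℝ) ^ (1 - η) := Nat.floor_le (by positivity)
  have h4 : Nat.primeCounting X ≤ ((Finset.Icc m X).filter Nat.Prime).card + m := by
    rw [Nat.primeCounting, Nat.primeCounting', Nat.count_eq_card_filter_range]
    calc ((range (X + 1)).filter Nat.Prime).card ≤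
          (((Finset.Icc m X).filter Nat.Prime) ∪ range m).card := by
          apply card_le_card
          intro p hp
          rw [mem_filter, mem_range] at hp
          rw [mem_union, mem_filter, Finset.mem_Icc, mem_range]
          by_cases h5 : p < m
          · exact Or.inr h5
          · exact Or.inl ⟨⟨by omega, by omega⟩, hp.2⟩
      _ ≤ ((Finset.Icc m X).filter Nat.Prime).card + m := by
          refine (card_union_le _ _).trans ?_
          rw [card_range]
  have h5 : (Nat.primeCounting X : ℝ) ≤ ((Finset.Icc m X).filter Nat.Prime).card + m := by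
    exact_mod_cast h4
  have h6 : 4 * Real.log X ≤ (X : ℝ) ^ η := by
    rw [Real.rpow_def_of_pos hX0]
    have hx : 0 ≤ Real.log (X : ℝ) := le_trans (by positivity) h2
    rw [div_le_iff₀ (by positivity)] at h2
    set x := Real.log (X : ℝ)
    have h1 := Real.add_one_le_exp (x * η / 2)
    have h2' : Real.exp (x * η) = Real.exp (x * η / 2) * Real.exp (x * η / 2) := by
      rw [← Real.exp_add]; congr 1; ring
    have h3 : x * η / 2 * (x * η / 2) ≤ Real.exp (x * η) := by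
      rw [h2']
      apply mul_le_mul <;> first | linarith | positivity
    nlinarith
  have h7 : 2 * (X : ℝ) ^ (1 - η) ≤ X / (2 * Real.log X) := by
    rw [le_div_iff₀ (by positivity)]
    have e1 : (X : ℝ) = (X : ℝ) ^ (1 - η) * (X : ℝ) ^ η := by
      rw [← Real.rpow_add hX0]
      norm_num
    calc 2 * (X : ℝ) ^ (1 - η) * (2 * Real.log X) = (X : ℝ) ^ (1 - η) * (4 * Real.log X) := by
          ring
      _ ≤ (X : ℝ) ^ (1 - η) * (X : ℝ) ^ η := by gcongr
      _ = X := e1.symm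
  have h8 : (m : ℝ) ≤ ((Finset.Icc m X).filter Nat.Prime).card := by linarith
  exact_mod_cast h8

theorem card_le_l1 {α : Type} (f : α →₀ ℤ) : (f.support.card : ℤ) ≤ ∑ x ∈ f.support, |f x| := by
  have h : ∑ x ∈ f.support, (1 : ℤ) ≤ ∑ x ∈ f.support, |f x| := by
    refine sum_le_sum fun x hx => ?_
    have := abs_pos.2 (Finsupp.mem_support_iff.1 hx)
    linarith
  simpa using h

/-- There is a direction with nonzero projection. -/
theorem exists_dir (n B m : ℕ) (hm3 : 3 ≤ m)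
    (hm : m ≤ ((Finset.Icc m B).filter Nat.Prime).card) (h5 : n < (m - 2) ^ 5)
    (f : (Fin 3 → ℤ) →₀ ℤ) (hf : f ≠ 0) (hl1 : ∑ x ∈ f.support, |f x| ≤ (n : ℤ)) :
    ∃ (p q t : ℕ) (i0 i1 : Fin 3), p.Prime ∧ p ≤ B ∧ 0 < q ∧ q < p ∧ t < p ∧
      ((i0 = 0 ∧ i1 = 1) ∨ (i0 = 1 ∧ i1 = 0)) ∧
      Finsupp.mapDomain (yv i0 i1 p t q) f ≠ 0 := by
  classical
  by_contra hcon
  push Not at hcon
  set Q := (Finset.Icc m B).filter Nat.Prime with hQd
  have hQ : ∀ p ∈ Q, p.Prime ∧ m ≤ p := by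
    intro p hp
    rw [hQd, mem_filter, Finset.mem_Icc] at hp
    exact ⟨hp.2, hp.1.1⟩
  have hQB : ∀ p ∈ Q, p ≤ B := by
    intro p hp
    rw [hQd, mem_filter, Finset.mem_Icc] at hp
    exact hp.1.2
  have hS : f.support.Nonempty := Finsupp.support_nonempty_iff.2 hf
  have h1 := vertex_count f.support hS ((idx Q m).image pnt) (by
    intro P hP
    rw [mem_image] at hP
    obtain ⟨⟨⟨r, p⟩, s, t, q⟩, hz, rfl⟩ := hP
    simp only [idx, mem_filter, mem_product, mem_offDiag, Finset.mem_Icc] at hz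
    obtain ⟨⟨⟨hr, hp, hrp⟩, ⟨hs1, hs2⟩, ⟨ht1, ht2⟩, ⟨hq1, hq2⟩⟩, hnd⟩ := hz
    obtain ⟨pr, mr⟩ := hQ r hr
    obtain ⟨pp, mp⟩ := hQ p hp
    have hr0 : (r : ℚ) ≠ 0 := by exact_mod_cast pr.ne_zero
    have hp0 : (p : ℚ) ≠ 0 := by exact_mod_cast pp.ne_zero
    refine ⟨![p, t, q], ![0, r, s], ?_, ?_, rfl, ?_, ?_, ?_, ?_⟩
    · simpa using pp.pos
    · simp only [pnt, Matrix.cons_val_zero, Matrix.cons_val_one, Matrix.cons_val]
      push_cast
      field_simp
      ring
    · simpa using pr.pos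
    · simp only [pnt, Matrix.cons_val_one, Matrix.cons_val]
      push_cast
      field_simp
    · exact companion f 0 1 (by decide) p q t pp (by omega) (by omega) _ rfl rfl rfl
        (hcon p q t 0 1 pp (hQB p hp) (by omega) (by omega) (by omega) (Or.inl ⟨rfl, rfl⟩))
    · exact companion f 1 0 (by decide) r s 0 pr (by omega) (by omega) _ rfl rfl rfl
        (by
          have := hcon r s 0 1 0 pr (hQB r hr) (by omega) (by omega) pr.pos
            (Or.inr ⟨rfl, rfl⟩)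
          simpa using this))
  rw [card_image_of_injOn (pnt_inj Q m hQ)] at h1
  have h2 := idx_card Q m hm3 hQ hm
  have h3 := card_le_l1 f
  have h4 : (f.support.card : ℤ) ≤ n := h3.trans hl1
  have h6 : f.support.card ≤ n := by exact_mod_cast h4
  omega

theorem three_step (n N r B m R m' : ℕ) (hN : 1 ≤ N) (M : Finset ℕ)
    (hM : ∀ k ∈ M, Good r N (1 / 4) k)
    (hT : 5 * R * n < ∑ k ∈ M, k.totient) (hn : 1 ≤ n) (hR1 : 1 ≤ R)
    (hm3 : 3 ≤ m) (hm : m ≤ ((Finset.Icc m B).filter Nat.Prime).card) (h5 : n < (m - 2) ^ 5)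
    (hm' : m' ≤ ((Finset.Icc m' R).filter Nat.Prime).card)
    (hRB : 2 * B * n < m' * (m' * ((m' - 1) / B)))
    (hB : (n : ℝ) ^ 1 < ((N : ℝ) ^ (1 - 1 / 4 : ℝ)) ^ r)
    (f : (Fin 3 → ℤ) →₀ ℤ) (hf : f ≠ 0)
    (hbox : ∀ x ∈ f.support, ∀ y ∈ f.support, ∀ j, |x j - y j| ≤ n)
    (hl1 : ∑ x ∈ f.support, |f x| ≤ (n : ℤ) ^ 1) :
    ∃ p : ℕ, ∃ _ : Fact p.Prime, p ≤ N ∧ ∃ a : Fin 3 → (ZMod p)ˣ, evg f a ≠ 0 := by
  classical
  by_contra hcon
  push Not at hcon
  obtain ⟨p, q, t, i0, i1, hp, hpB, hq, hqp, htp, hi, hne⟩ :=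
    exists_dir n B m hm3 hm h5 f hf (by rw [pow_one] at hl1; exact hl1)
  set P' := (Finset.Icc m' R).filter Nat.Prime with hP'
  set V0 : Finset (Σ _ : ℕ, ℕ) := P'.sigma fun l =>
    (Finset.Icc 1 (l - 1)).filter fun c : ℕ => (p : ℤ) ∣ (t : ℤ) * l + q * c with hV0
  set V : Finset (ℕ × ℕ) := V0.image fun s => (s.1, s.2) with hVd
  have hinj : Set.InjOn (fun s : Σ _ : ℕ, ℕ => (s.1, s.2)) (V0 : Set (Σ _ : ℕ, ℕ)) := by
    rintro ⟨a, b⟩ _ ⟨c, d⟩ _ h
    simp only [Prod.mk.injEq] at h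
    rw [h.1, h.2]
  have hVm : ∀ u ∈ V, u.1.Prime ∧ m' ≤ u.1 ∧ u.1 ≤ R ∧ 1 ≤ u.2 ∧ u.2 < u.1 ∧
      (p : ℤ) ∣ (t : ℤ) * u.1 + q * u.2 := by
    intro u hu
    rw [hVd, mem_image] at hu
    obtain ⟨⟨l, c⟩, hs, rfl⟩ := hu
    rw [hV0, mem_sigma, hP', mem_filter, mem_filter, Finset.mem_Icc, Finset.mem_Icc] at hs
    obtain ⟨⟨⟨g1, g2⟩, g3⟩, ⟨g4, g5⟩, g6⟩ := hs
    simp only at g1 g2 g3 g4 g5 g6 ⊢
    have := g3.two_le
    exact ⟨g3, g1, g2, g4, by omega, g6⟩
  have hup := plane_step f i0 i1 p q n t hp.pos hqp hne hbox V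
    (fun u hu => ⟨(hVm u hu).1.one_le, by
      rw [Nat.Prime.coprime_iff_not_dvd (hVm u hu).1]
      intro h
      have h1 := Nat.le_of_dvd (hVm u hu).2.2.2.1 h
      have h2 := (hVm u hu).2.2.2.2.1
      omega⟩)
    (fun u hu => (hVm u hu).2.2.2.2.2) (by
      intro u hu w hw k0
      obtain ⟨g1, g2, g3, g4, g5, g6⟩ := hVm u hu
      set v : Fin 3 → ℤ := fun j => if j = i0 then w else if j = i1 then (u.1 : ℤ) else u.2
        with hv
      have hsum : ∀ x : Fin 3 → ℤ, ∑ j, v j * x j = w * x i0 + u.1 * x i1 + u.2 * x 2 := by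
        intro x
        rw [Fin.sum_univ_three]
        rcases hi with ⟨h0, h1⟩ | ⟨h0, h1⟩
        · subst h0 h1
          simp [hv]
        · subst h0 h1
          simp [hv]
          ring
      have hw2 : |w| ≤ 2 * R := by
        have hpz : (0 : ℤ) < p := by exact_mod_cast hp.pos
        have e1 : (p : ℤ) * |w| = t * u.1 + q * u.2 := by
          have : |(p : ℤ) * w| = t * u.1 + q * u.2 := by
            rw [hw, abs_neg, abs_of_nonneg (by positivity)]
          rw [abs_mul, abs_of_pos hpz] at this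
          exact this
        have e2 : (t : ℤ) * u.1 ≤ p * R := by
          have a1 : (t : ℤ) ≤ p := by exact_mod_cast htp.le
          have a2 : (u.1 : ℤ) ≤ R := by exact_mod_cast g3
          exact mul_le_mul a1 a2 (by positivity) (by positivity)
        have e3 : (q : ℤ) * u.2 ≤ p * R := by
          have a1 : (q : ℤ) ≤ p := by exact_mod_cast hqp.le
          have a2 : (u.2 : ℤ) ≤ R := by exact_mod_cast (by omega : u.2 ≤ R)
          exact mul_le_mul a1 a2 (by positivity) (by positivity)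
        have e4 : (p : ℤ) * |w| ≤ p * (2 * R) := by linarith
        exact le_of_mul_le_mul_left e4 hpz
      have hz := levels_zero n N r 1 hN M hM hB f hl1 hcon v (by
        intro x hx y hy
        rw [hsum, hsum]
        have b0 := hbox x hx y hy i0
        have b1 := (abs_le.1 (hbox x hx y hy i1)).2
        have b2 := (abs_le.1 (hbox x hx y hy 2)).2
        have e1 : w * (x i0 - y i0) ≤ 2 * R * n := by
          calc w * (x i0 - y i0) ≤ |w * (x i0 - y i0)| := le_abs_self _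
            _ = |w| * |x i0 - y i0| := abs_mul _ _
            _ ≤ 2 * R * n := mul_le_mul hw2 b0 (abs_nonneg _) (by positivity)
        have e2 : (u.1 : ℤ) * (x i1 - y i1) ≤ R * n := by
          calc (u.1 : ℤ) * (x i1 - y i1) ≤ u.1 * n := mul_le_mul_of_nonneg_left b1 (by positivity)
            _ ≤ R * n := mul_le_mul_of_nonneg_right (by exact_mod_cast g3) (by positivity)
        have e3 : (u.2 : ℤ) * (x 2 - y 2) ≤ R * n := by
          calc (u.2 : ℤ) * (x 2 - y 2) ≤ u.2 * n := mul_le_mul_of_nonneg_left b2 (by positivity)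
            _ ≤ R * n := mul_le_mul_of_nonneg_right
              (by exact_mod_cast (by omega : u.2 ≤ R)) (by positivity)
        have e4 : ((5 * R * n : ℕ) : ℤ) < ((∑ k ∈ M, k.totient : ℕ) : ℤ) := by exact_mod_cast hT
        push_cast at e4 ⊢
        nlinarith) k0
      simp only [hsum] at hz
      exact hz)
  have hlow : m' * (m' * ((m' - 1) / B)) ≤ ∑ u ∈ V, u.1 := by
    rw [hVd, sum_image hinj, hV0, sum_sigma]
    calc m' * (m' * ((m' - 1) / B)) ≤ P'.card * (m' * ((m' - 1) / B)) :=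
          Nat.mul_le_mul_right _ hm'
      _ = ∑ l ∈ P', m' * ((m' - 1) / B) := by rw [sum_const, smul_eq_mul]
      _ ≤ _ := by
          refine sum_le_sum fun l hl => ?_
          rw [hP', mem_filter, Finset.mem_Icc] at hl
          rw [sum_const, smul_eq_mul, mul_comm]
          refine Nat.mul_le_mul ?_ hl.1.1
          refine le_trans ?_ (count_class p q l t hp hq hqp)
          calc (m' - 1) / B ≤ (l - 1) / B := Nat.div_le_div_right (by omega)
            _ ≤ (l - 1) / p := Nat.div_le_div_left hpB hp.pos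
  have h6 : 2 * p * n ≤ 2 * B * n := Nat.mul_le_mul_right _ (Nat.mul_le_mul_left _ hpB)
  omega

end Pool.Agent.RFG43
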