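import Pool.Agent.RFG43.Elim

/-!
Crew file for `MP_b76cd5_al`: a Laurent polynomial in three variables whose line sums vanish in
many directions has many terms (vertices of the Newton polytope).
-/

set_option autoImplicit false

namespace Pool.Agent.RFG43

open Finset Filter

/-- The order that belongs to a point of the plane. -/
def keyP (P : ℚ × ℚ) (x : Fin 3 → ℤ) : ℚ ×ₗ (ℤ ×ₗ ℤ) :=
  toLex (P.1 * x 0 + P.2 * x 1 - x 2, toLex (x 0, -x 1))

theorem key_half (S : Finset (Fin 3 → ℤ)) (P P' : ℚ × ℚ) (x : Fin 3 → ℤ)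
    (h1 : ∀ y ∈ S, keyP P y ≤ keyP P x) (h2 : ∀ y ∈ S, keyP P' y ≤ keyP P' x)
    (e e' : Fin 3 → ℤ) (he0 : 0 < e 0) (hPe : P.1 * e 0 + P.2 * e 1 = e 2)
    (he0' : e' 0 = 0) (he1' : 0 < e' 1) (hPe' : P.2 * e' 1 = e' 2)
    (hj : ∃ j : ℤ, j ≠ 0 ∧ (fun i => x i + j * e i) ∈ S)
    (hj' : ∃ j : ℤ, j ≠ 0 ∧ (fun i => x i + j * e' i) ∈ S) :
    P'.2 ≤ P.2 ∧ P.1 * e 0 + P.2 * e 1 ≤ P'.1 * e 0 + P'.2 * e 1 := by
  obtain ⟨j, hj0, hjS⟩ := hj
  obtain ⟨j', hj0', hjS'⟩ := hj'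
  have a1 := h1 _ hjS
  have a2 := h2 _ hjS
  have b1 := h1 _ hjS'
  have b2 := h2 _ hjS'
  simp only [keyP, Prod.Lex.toLex_le_toLex] at a1 a2 b1 b2
  push_cast at a1 a2 b1 b2
  have hj0q : (j : ℚ) ≠ 0 := by exact_mod_cast hj0
  have he0q : (0 : ℚ) < e 0 := by exact_mod_cast he0
  have he1q : (0 : ℚ) < e' 1 := by exact_mod_cast he1'
  have he00 : (e' 0 : ℚ) = 0 := by exact_mod_cast he0'
  -- `j < 0`
  have hjneg : j < 0 := by
    have e1 : P.1 * (x 0 + j * e 0) + P.2 * (x 1 + j * e 1) - (x 2 + j * e 2) =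
        P.1 * x 0 + P.2 * x 1 - x 2 := by
      have : (e 2 : ℚ) = P.1 * e 0 + P.2 * e 1 := hPe.symm
      rw [this]; ring
    rw [e1] at a1
    rcases a1 with h | ⟨_, h⟩
    · exact absurd h (lt_irrefl _)
    · rcases h with h | ⟨h, _⟩
      · by_contra hcon
        push Not at hcon
        have : 0 ≤ j * e 0 := mul_nonneg hcon he0.le
        linarith
      · exfalso
        have : j * e 0 = 0 := by linarith
        rcases mul_eq_zero.1 this with h' | h'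
        · exact hj0 h'
        · omega
  -- `j' > 0`
  have hjpos : 0 < j' := by
    have e1 : P.1 * (x 0 + j' * e' 0) + P.2 * (x 1 + j' * e' 1) - (x 2 + j' * e' 2) =
        P.1 * x 0 + P.2 * x 1 - x 2 := by
      have : (e' 2 : ℚ) = P.2 * e' 1 := hPe'.symm
      rw [this, he00]; ring
    rw [e1, he0', mul_zero, add_zero] at b1
    rcases b1 with h | ⟨_, h⟩
    · exact absurd h (lt_irrefl _)
    · rcases h with h | ⟨_, h⟩
      · exact absurd h (lt_irrefl _)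
      · by_contra hcon
        push Not at hcon
        have h3 : j' < 0 := lt_of_le_of_ne hcon hj0'
        have : j' * e' 1 < 0 := mul_neg_of_neg_of_pos h3 he1'
        linarith
  have hjn : (j : ℚ) < 0 := by exact_mod_cast hjneg
  have hjp : (0 : ℚ) < j' := by exact_mod_cast hjpos
  have a3 : P'.1 * (x 0 + j * e 0) + P'.2 * (x 1 + j * e 1) - (x 2 + j * e 2) ≤
      P'.1 * x 0 + P'.2 * x 1 - x 2 := by
    rcases a2 with h | ⟨h, _⟩
    · exact h.le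
    · exact h.le
  have b3 : P'.1 * (x 0 + j' * e' 0) + P'.2 * (x 1 + j' * e' 1) - (x 2 + j' * e' 2) ≤
      P'.1 * x 0 + P'.2 * x 1 - x 2 := by
    rcases b2 with h | ⟨h, _⟩
    · exact h.le
    · exact h.le
  constructor
  · rw [he00, mul_zero, add_zero] at b3
    have h5 : j' * (P'.2 * e' 1 - P.2 * e' 1) ≤ 0 := by
      have : (e' 2 : ℚ) = P.2 * e' 1 := hPe'.symm
      rw [this] at b3
      linarith
    have h6 : P'.2 * e' 1 - P.2 * e' 1 ≤ 0 := by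
      by_contra hcon
      push Not at hcon
      have := mul_pos hjp hcon
      linarith
    have h7 : P'.2 * e' 1 ≤ P.2 * e' 1 := by linarith
    exact le_of_mul_le_mul_right h7 he1q
  · have h5 : j * (P'.1 * e 0 + P'.2 * e 1 - (P.1 * e 0 + P.2 * e 1)) ≤ 0 := by
      have : (e 2 : ℚ) = P.1 * e 0 + P.2 * e 1 := hPe.symm
      rw [this] at a3
      linarith
    by_contra hcon
    push Not at hcon
    have := mul_pos_of_neg_of_neg hjn (sub_neg.2 hcon)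
    linarith

/-- The vertex count. -/
theorem vertex_count (S : Finset (Fin 3 → ℤ)) (hS : S.Nonempty) (PP : Finset (ℚ × ℚ))
    (hP : ∀ P ∈ PP, ∃ e e' : Fin 3 → ℤ, 0 < e 0 ∧ P.1 * e 0 + P.2 * e 1 = e 2 ∧
      e' 0 = 0 ∧ 0 < e' 1 ∧ P.2 * e' 1 = e' 2 ∧
      (∀ x ∈ S, ∃ j : ℤ, j ≠ 0 ∧ (fun i => x i + j * e i) ∈ S) ∧
      (∀ x ∈ S, ∃ j : ℤ, j ≠ 0 ∧ (fun i => x i + j * e' i) ∈ S)) : PP.card ≤ S.card := by
  classical
  have hmax := fun P : ℚ × ℚ => exists_max_image S (keyP P) hS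
  choose v hv hvm using hmax
  refine card_le_card_of_injOn v (fun P _ => hv P) ?_
  intro P hPP P' hPP' hvv
  obtain ⟨e, e', c1, c2, c3, c4, c5, c6, c7⟩ := hP P hPP
  obtain ⟨u, u', d1, d2, d3, d4, d5, d6, d7⟩ := hP P' hPP'
  have h1 := hvm P
  have h2 := hvm P'
  rw [← hvv] at h2
  have g1 := key_half S P P' (v P) h1 h2 e e' c1 c2 c3 c4 c5 (c6 _ (hv P)) (c7 _ (hv P))
  have g2 := key_half S P' P (v P) h2 h1 u u' d1 d2 d3 d4 d5 (d6 _ (hv P)) (d7 _ (hv P))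
  have h3 : P.2 = P'.2 := le_antisymm g2.1 g1.1
  have hc1 : (0 : ℚ) < e 0 := by exact_mod_cast c1
  have hd1 : (0 : ℚ) < u 0 := by exact_mod_cast d1
  have h4 : P.1 ≤ P'.1 := by
    have := g1.2
    rw [h3] at this
    have h5 : P.1 * e 0 ≤ P'.1 * e 0 := by linarith
    exact le_of_mul_le_mul_right h5 hc1
  have h5 : P'.1 ≤ P.1 := by
    have := g2.2
    rw [h3] at this
    have h5 : P'.1 * u 0 ≤ P.1 * u 0 := by linarith
    exact le_of_mul_le_mul_right h5 hd1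
  exact Prod.ext (le_antisymm h4 h5) h3

/-- The index set of the points: primes `r, p` and `s, t, q < m`. -/
def idx (Q : Finset ℕ) (m : ℕ) : Finset ((ℕ × ℕ) × (ℕ × ℕ × ℕ)) :=
  (Q.offDiag ×ˢ (Finset.Icc 1 (m - 1) ×ˢ Finset.Icc 1 (m - 1) ×ˢ Finset.Icc 1 (m - 1))).filter
    fun z => ¬ ((z.1.2 : ℤ) ∣ z.2.2.2 * z.1.1 - z.2.2.1 * z.2.1)

/-- The point of an index. -/
def pnt (z : (ℕ × ℕ) × (ℕ × ℕ × ℕ)) : ℚ × ℚ :=
  (((z.2.2.2 : ℚ) - z.2.2.1 * (z.2.1 / z.1.1)) / z.1.2, (z.2.1 : ℚ) / z.1.1)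

theorem pnt_inj (Q : Finset ℕ) (m : ℕ) (hQ : ∀ p ∈ Q, p.Prime ∧ m ≤ p) :
    Set.InjOn pnt (idx Q m : Set ((ℕ × ℕ) × (ℕ × ℕ × ℕ))) := by
  rintro ⟨⟨r, p⟩, s, t, q⟩ hz ⟨⟨r', p'⟩, s', t', q'⟩ hz' h
  simp only [idx, coe_filter, mem_product, mem_offDiag, Finset.mem_Icc, Set.mem_ofPred_eq] at hz hz'
  obtain ⟨⟨⟨hr, hp, hrp⟩, ⟨hs1, hs2⟩, ⟨ht1, ht2⟩, ⟨hq1, hq2⟩⟩, hnd⟩ := hz
  obtain ⟨⟨⟨hr', hp', hrp'⟩, ⟨hs1', hs2'⟩, ⟨ht1', ht2'⟩, ⟨hq1', hq2'⟩⟩, hnd'⟩ := hz'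
  obtain ⟨pr, mr⟩ := hQ r hr
  obtain ⟨pp, mp⟩ := hQ p hp
  obtain ⟨pr', mr'⟩ := hQ r' hr'
  obtain ⟨pp', mp'⟩ := hQ p' hp'
  simp only [pnt, Prod.mk.injEq] at h
  obtain ⟨h1, h2⟩ := h
  have hr0 : (r : ℚ) ≠ 0 := by exact_mod_cast pr.ne_zero
  have hr0' : (r' : ℚ) ≠ 0 := by exact_mod_cast pr'.ne_zero
  have hp0 : (p : ℚ) ≠ 0 := by exact_mod_cast pp.ne_zero
  have hp0' : (p' : ℚ) ≠ 0 := by exact_mod_cast pp'.ne_zero
  have e1 : s * r' = s' * r := by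
    rw [div_eq_div_iff hr0 hr0'] at h2
    exact_mod_cast h2
  have e2 : r = r' := by
    have h3 : r ∣ s * r' := ⟨s', by rw [e1, mul_comm]⟩
    rcases (Nat.Prime.dvd_mul pr).1 h3 with h4 | h4
    · have := Nat.le_of_dvd (by omega) h4
      omega
    · exact (Nat.prime_dvd_prime_iff_eq pr pr').1 h4
  subst e2
  have e3 : s = s' := Nat.eq_of_mul_eq_mul_right pr.pos e1
  subst e3
  have e4 : ((q : ℤ) * r - t * s) * p' = (q' * r - t' * s) * p := by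
    rw [div_eq_div_iff hp0 hp0'] at h1
    have h3 : (((q : ℚ) - t * (s / r)) * p') * r = ((q' - t' * (s / r)) * p) * r := by rw [h1]
    have h4 : (((q : ℚ) * r - t * s) * p') = (q' * r - t' * s) * p := by
      have a1 : (((q : ℚ) - t * (s / r)) * p') * r = ((q : ℚ) * r - t * s) * p' := by
        field_simp
      have a2 : (((q' : ℚ) - t' * (s / r)) * p) * r = ((q' : ℚ) * r - t' * s) * p := by
        field_simp
      rw [a1, a2] at h3
      exact h3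
    exact_mod_cast h4
  have e5 : p = p' := by
    have h3 : (p : ℤ) ∣ ((q : ℤ) * r - t * s) * p' := ⟨q' * r - t' * s, by rw [e4]; ring⟩
    rcases (Nat.prime_iff_prime_int.1 pp).dvd_mul.1 h3 with h4 | h4
    · exact absurd h4 hnd
    · exact (Nat.prime_dvd_prime_iff_eq pp pp').1 (Int.natCast_dvd_natCast.1 h4)
  subst e5
  have e6 : (q : ℤ) * r - t * s = q' * r - t' * s := by
    have hp1 : (p : ℤ) ≠ 0 := by exact_mod_cast pp.ne_zero
    exact mul_right_cancel₀ hp1 e4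
  have e7 : t = t' := by
    have h3 : (r : ℤ) ∣ ((t : ℤ) - t') * s := ⟨q - q', by linarith⟩
    rcases (Nat.prime_iff_prime_int.1 pr).dvd_mul.1 h3 with h4 | h4
    · have h5 : |(t : ℤ) - t'| < r := by
        rw [abs_lt]
        omega
      have h6 := Int.eq_zero_of_abs_lt_dvd h4 h5
      omega
    · have h5 := Int.natCast_dvd_natCast.1 h4
      have := Nat.le_of_dvd (by omega) h5
      omega
  subst e7
  have e8 : q = q' := by
    have hr1 : (r : ℤ) ≠ 0 := by exact_mod_cast pr.ne_zero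
    have h3 : (q : ℤ) * r = q' * r := by linarith
    have := mul_right_cancel₀ hr1 h3
    exact_mod_cast this
  subst e8
  rfl

theorem idx_card (Q : Finset ℕ) (m : ℕ) (hm : 3 ≤ m) (hQ : ∀ p ∈ Q, p.Prime ∧ m ≤ p)
    (hc : m ≤ Q.card) : (m - 2) ^ 5 ≤ (idx Q m).card := by
  classical
  have h1 : ∀ z ∈ Q.offDiag ×ˢ (Finset.Icc 1 (m - 1) ×ˢ Finset.Icc 1 (m - 1)),
      m - 2 ≤ ((Finset.Icc 1 (m - 1)).filter fun q : ℕ =>
        ¬ ((z.1.2 : ℤ) ∣ q * z.1.1 - z.2.2 * z.2.1)).card := by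
    rintro ⟨⟨r, p⟩, s, t⟩ hz
    rw [mem_product, mem_offDiag] at hz
    obtain ⟨⟨hr, hp, hrp⟩, _⟩ := hz
    simp only at hr hp hrp
    obtain ⟨pr, mr⟩ := hQ r hr
    obtain ⟨pp, mp⟩ := hQ p hp
    have h2 : ((Finset.Icc 1 (m - 1)).filter fun q : ℕ =>
        ((p : ℤ) ∣ q * r - t * s)).card ≤ 1 := by
      rw [card_le_one]
      intro a ha b hb
      rw [mem_filter, Finset.mem_Icc] at ha hb
      have h3 : (p : ℤ) ∣ ((a : ℤ) - b) * r := by
        have := dvd_sub ha.2 hb.2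
        have e : (a : ℤ) * r - t * s - (b * r - t * s) = ((a : ℤ) - b) * r := by ring
        rwa [e] at this
      rcases (Nat.prime_iff_prime_int.1 pp).dvd_mul.1 h3 with h4 | h4
      · have h5 : |(a : ℤ) - b| < p := by
          rw [abs_lt]
          omega
        have h6 := Int.eq_zero_of_abs_lt_dvd h4 h5
        omega
      · have h5 := (Nat.prime_dvd_prime_iff_eq pp pr).1 (Int.natCast_dvd_natCast.1 h4)
        exact absurd h5.symm hrp
    have h3 := card_filter_add_card_filter_not (s := Finset.Icc 1 (m - 1))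
      (fun q : ℕ => ((p : ℤ) ∣ q * r - t * s))
    rw [Nat.card_Icc] at h3
    simp only
    omega
  have h2 : (idx Q m).card = ∑ z ∈ Q.offDiag ×ˢ (Finset.Icc 1 (m - 1) ×ˢ Finset.Icc 1 (m - 1)),
      ((Finset.Icc 1 (m - 1)).filter fun q : ℕ =>
        ¬ ((z.1.2 : ℤ) ∣ q * z.1.1 - z.2.2 * z.2.1)).card := by
    rw [← card_sigma]
    refine card_bij' (fun z _ => ⟨(z.1, (z.2.1, z.2.2.1)), z.2.2.2⟩)
      (fun w _ => (w.1.1, (w.1.2.1, (w.1.2.2, w.2)))) ?_ ?_ ?_ ?_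
    · rintro ⟨⟨r, p⟩, s, t, q⟩ hz
      simp only [idx, mem_filter, mem_product, mem_offDiag, Finset.mem_Icc] at hz
      simp only [mem_sigma, mem_filter, mem_product, mem_offDiag, Finset.mem_Icc]
      exact ⟨⟨hz.1.1, hz.1.2.1, hz.1.2.2.1⟩, hz.1.2.2.2, hz.2⟩
    · rintro ⟨⟨⟨r, p⟩, s, t⟩, q⟩ hz
      simp only [mem_sigma, mem_filter, mem_product, mem_offDiag, Finset.mem_Icc] at hz
      simp only [idx, mem_filter, mem_product, mem_offDiag, Finset.mem_Icc]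
      exact ⟨⟨hz.1.1, hz.1.2.1, hz.1.2.2, hz.2.1⟩, hz.2.2⟩
    · rintro ⟨⟨r, p⟩, s, t, q⟩ _
      rfl
    · rintro ⟨⟨⟨r, p⟩, s, t⟩, q⟩ _
      rfl
  rw [h2]
  have h3 := sum_le_sum h1
  rw [sum_const, smul_eq_mul] at h3
  refine le_trans ?_ h3
  rw [card_product, card_product, Nat.card_Icc, offDiag_card]
  have h4 : (m - 2) * (m - 2) ≤ Q.card * Q.card - Q.card := by
    rw [← Nat.mul_sub_one]
    exact Nat.mul_le_mul (by omega) (by omega)
  have h5 : m - 2 ≤ m - 1 + 1 - 1 := by omega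
  calc (m - 2) ^ 5 = ((m - 2) * (m - 2)) * ((m - 2) * (m - 2)) * (m - 2) := by ring
    _ ≤ _ := Nat.mul_le_mul (Nat.mul_le_mul h4 (Nat.mul_le_mul h5 h5)) le_rfl

end Pool.Agent.RFG43
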